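import Pool.Agent.LibBGM20.Q4

/-! The random family of metrics: definitions. -/

open MeasureTheory Set Filter Topology
open scoped ContDiff ENNReal NNReal unitInterval

namespace BGM

open BGS
open Pool.BGR (PM upI pj)

/-- The conformal metric `e^f m`. -/
noncomputable def cf (f : Pl → ℝ) (m : Pl → Co) (z : Pl) : Co := Real.exp (f z) • m z

/-- The base of the Hadamard plane (to be proved by integration of the geodesic flow). -/
def H1 (Γ : Type) [Group Γ] [MulAction Γ Pl] : Prop :=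
  ∀ (k : ℝ) (m : Pl → Co), 0 < k → Rp m → Iv Γ m → (∀ z, -k ^ 2 ≤ curv m z ∧ curv m z < 0) →
    ∃ E V F, Had m k E V F

/-- The data of the random family of metrics. -/
structure Cx (Γ : Type) [Group Γ] [MulAction Γ Pl] (D : Set Pl) (m : Pl → Co) (ψ : Pl → ℝ)
    (L : ℕ) (c : ℕ → ℝ) : Prop where
  hX : Surface Γ D
  rp : Rp m
  iv : Iv Γ m
  base : ∃ k E V F, Had m k E V F
  psi : ψ ∈ Test Γ
  dom : ∀ z ∈ closure D, |z.1| ≤ (L : ℝ) - 1 ∧ |z.2| ≤ (L : ℝ) - 1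
  cs : Cs c
  h1 : H1 Γ

/-- The random exponent with the deterministic part. -/
noncomputable def ex (Γ : Type) [Group Γ] [MulAction Γ Pl] (ψ : Pl → ℝ) (L : ℕ) (c : ℕ → ℝ)
    (ξ : Dir → I) (z : Pl) : ℝ := ψ z + ps Γ L c ξ z

/-- The random metric. -/
noncomputable def mx (Γ : Type) [Group Γ] [MulAction Γ Pl] (m : Pl → Co) (ψ : Pl → ℝ) (L : ℕ)
    (c : ℕ → ℝ) (ξ : Dir → I) : Pl → Co := cf (ex Γ ψ L c ξ) m

/-- The good event of the square `p` of the scale `R`: the curvature is negative, an axis of `g`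
meets the square of half side `1 / (2 R)`, and no translate of an axis of the `f i` meets the
square of half side `2 / R`. -/
def Gd (Γ : Type) [Group Γ] [MulAction Γ Pl] (m : Pl → Co) (ψ : Pl → ℝ) (L : ℕ) (c : ℕ → ℝ)
    {n : ℕ} (g : Γ) (f : Fin n → Γ) (R : ℕ) (p : ℤ × ℤ) (ξ : Dir → I) : Prop :=
  (∀ z, curv (mx Γ m ψ L c ξ) z < 0) ∧
  (∃ z : Pl, |R * z.1 - p.1| ≤ 1 / 2 ∧ |R * z.2 - p.2| ≤ 1 / 2 ∧
    ds (mx Γ m ψ L c ξ) z (g • z) = tl (mx Γ m ψ L c ξ) g) ∧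
  ∀ i, ∀ z : Pl, ds (mx Γ m ψ L c ξ) z (f i • z) = tl (mx Γ m ψ L c ξ) (f i) →
    ∀ γ : Γ, ¬(|R * (γ • z).1 - p.1| ≤ 2 ∧ |R * (γ • z).2 - p.2| ≤ 2)

end BGM
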