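import Pool.Agent.LibBGM20.A5

/-! ROW A6 : betweenness; every line is a geodesic. Uses A2, A5.
PLAN. `A6_btw`: with `v = V a b`, `w = V a c`: `eu v = ds a b`, `eu w = ds a c`,
`eu (w - v) ≤ ds b c` (`ds_ge`), so `eu w = eu v + eu (w - v)` by the triangle inequality: `A2_eq`.
`A6_line`: let `c` be a line, `v = V (c 0) (c 1)`, `eu v = 1`. For `t ≥ 1` betweenness of
`c 0, c 1, c t` gives `V (c 0) (c t) = t v`; for `0 ≤ t ≤ 1` betweenness of `c 0, c t, c 1`. The same
for the line `s ↦ c (s - n)` (n natural): `c (s - n) = E (c (-n)) (s vₙ)` for `s ≥ 0`; by `Had.go` at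
`s = n`: `c t = E (c 0) (t wₙ)` for all `t ≥ -n`, with `eu wₙ = 1`; `t = 1` gives `wₙ = v`.
`A6_unique`: `V x` is injective (`Had.EV`). -/

open MeasureTheory Set Filter Topology
open scoped ContDiff

namespace BGM

open BGS

variable {m : Pl → Co} {k : ℝ} {E V : Pl → Pl → Pl} {F : Pl → Pl → ℝ → ℝ}

/-- Translates and reversals of lines are lines. -/
theorem IsLine.shift {c : ℝ → Pl} (hc : IsLine m c) (a : ℝ) : IsLine m fun t => c (a + t) := by
  intro s t
  rw [hc, add_sub_add_left_eq_sub]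

theorem IsLine.rev {c : ℝ → Pl} (hc : IsLine m c) : IsLine m fun t => c (-t) := by
  intro s t
  rw [hc, neg_sub_neg, abs_sub_comm]

theorem A6_btw (h : Had m k E V F) {a b c : Pl} (hac : a ≠ c)
    (he : ds m a b + ds m b c = ds m a c) : V a b = (ds m a b / ds m a c) • V a c := by
  have h1 : eu (V a c - V a b) ≤ ds m b c := by
    have h2 := ds_ge h a (V a b) (V a c)
    rw [h.EV, h.EV] at h2
    rwa [← eu_neg, neg_sub] at h2
  have hw : V a c ≠ 0 := by
    intro h0
    apply hac
    have h2 := h.EV a c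
    rw [h0, h.E0] at h2
    exact h2
  have h3 := eu_add (V a b) (V a c - V a b)
  rw [add_sub_cancel] at h3
  have h4 : eu (V a c) = eu (V a b) + eu (V a c - V a b) := by
    refine le_antisymm h3 ?_
    rw [← ds_eq h, ← ds_eq h]
    linarith
  have h5 := A2_eq h4 hw
  rwa [← ds_eq h, ← ds_eq h] at h5

theorem A6_half (h : Had m k E V F) {c : ℝ → Pl} (hc : IsLine m c) {t : ℝ} (ht : 0 ≤ t) :
    c t = E (c 0) (t • V (c 0) (c 1)) := by
  have h01 : ds m (c 0) (c 1) = 1 := by rw [hc]; norm_num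
  have h0t : ds m (c 0) (c t) = t := by rw [hc, zero_sub, abs_neg, abs_of_nonneg ht]
  have key : V (c 0) (c t) = t • V (c 0) (c 1) := by
    rcases ht.eq_or_lt with h1 | h1
    · rw [← h1, zero_smul, V_self h]
    rcases le_total t 1 with h2 | h2
    · have hne : c 0 ≠ c 1 := by
        intro h3
        rw [(ds_eq_zero h).2 h3] at h01
        exact zero_ne_one h01
      have h3 := A6_btw h (a := c 0) (b := c t) (c := c 1) hne (by
        rw [h0t, h01, hc, abs_sub_comm, abs_of_nonneg (by linarith)]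
        ring)
      rwa [h0t, h01, div_one] at h3
    · have hne : c 0 ≠ c t := by
        intro h3
        rw [(ds_eq_zero h).2 h3] at h0t
        linarith
      have h3 := A6_btw h (a := c 0) (b := c 1) (c := c t) hne (by
        rw [h0t, h01, hc, abs_sub_comm, abs_of_nonneg (by linarith)]
        ring)
      rw [h0t, h01] at h3
      rw [h3, smul_smul, mul_one_div_cancel h1.ne', one_smul]
  rw [← key, h.EV]

theorem A6_line (h : Had m k E V F) {c : ℝ → Pl} (hc : IsLine m c) :
    ∃ v, eu v = 1 ∧ ∀ t, c t = E (c 0) (t • v) := by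
  have h01 : ds m (c 0) (c 1) = 1 := by rw [hc]; norm_num
  refine ⟨V (c 0) (c 1), by rw [← ds_eq h, h01], fun t => ?_⟩
  have h1 := fun {s : ℝ} (hs : 0 ≤ s) => A6_half h (hc.shift (-|t|)) hs
  simp only [add_zero] at h1
  obtain ⟨w, -, hw⟩ := h.go (c (-|t|)) (V (c (-|t|)) (c (-|t| + 1))) |t|
  have h2 : c 0 = E (c (-|t|)) (|t| • V (c (-|t|)) (c (-|t| + 1))) := by
    have := h1 (abs_nonneg t)
    rwa [neg_add_cancel] at this
  rw [← h2] at hw
  have h3 : ∀ s, -|t| ≤ s → c s = E (c 0) (s • w) := by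
    intro s hs
    rw [← hw s, ← h1 (by linarith : 0 ≤ |t| + s)]
    congr 1
    ring
  have h4 : w = V (c 0) (c 1) := by
    have h5 := h3 1 (by linarith [abs_nonneg t])
    rw [one_smul] at h5
    rw [h5, h.VE]
  rw [← h4]
  exact h3 t (neg_abs_le t)

/-- Lines are smooth curves of unit speed. -/
theorem A6_smooth (h : Had m k E V F) {c : ℝ → Pl} (hc : IsLine m c) :
    ContDiff ℝ ∞ c ∧ ∀ t, nm (m (c t)) (deriv c t) = 1 := by
  obtain ⟨v, hv, hcv⟩ := A6_line h hc
  have hE := (A3_smooth h (c 0)).1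
  have h1 : c = fun t => E (c 0) (t • v) := funext hcv
  have hl : ContDiff ℝ ∞ fun t : ℝ => t • v := contDiff_id.smul contDiff_const
  refine ⟨?_, fun t => ?_⟩
  · rw [h1]
    exact hE.comp hl
  · have h2 : HasDerivAt c (fderiv ℝ (E (c 0)) (t • v) v) t := by
      have h3 : HasFDerivAt (E (c 0)) (fderiv ℝ (E (c 0)) (t • v)) (t • v) :=
        (hE.differentiable (by simp) (t • v)).hasFDerivAt
      have h4 : HasDerivAt (fun t : ℝ => t • v) v t := by
        have := (hasDerivAt_id t).smul_const v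
        rwa [one_smul] at this
      have h5 := h3.comp_hasDerivAt t h4
      have h6 : (E (c 0) ∘ fun t : ℝ => t • v) = c := by
        funext s
        exact (hcv s).symm
      rwa [h6] at h5
    rw [h2.deriv, hcv t, A3_rad h (c 0) v t, hv]

/-- Two lines which agree at two times are equal. -/
theorem A6_unique (h : Had m k E V F) {c c' : ℝ → Pl} (hc : IsLine m c) (hc' : IsLine m c')
    {a b : ℝ} (hab : a ≠ b) (ha : c a = c' a) (hb : c b = c' b) : c = c' := by
  obtain ⟨v, -, h1⟩ := A6_line h (hc.shift a)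
  obtain ⟨v', -, h2⟩ := A6_line h (hc'.shift a)
  simp only [add_zero] at h1 h2
  have h3 := h1 (b - a)
  have h4 := h2 (b - a)
  rw [add_sub_cancel] at h3 h4
  rw [← hb, h3, ← ha] at h4
  have h5 : (b - a) • v = (b - a) • v' := by
    have h6 := congrArg (V (c a)) h4
    rwa [h.VE, h.VE] at h6
  have h6 : v = v' := smul_right_injective Pl (sub_ne_zero.2 hab.symm) h5
  funext t
  have h7 := h1 (t - a)
  have h8 := h2 (t - a)
  rw [add_sub_cancel] at h7 h8
  rw [h7, h8, h6, ha]

/-- There is a line through two points. -/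
theorem A6_exists (h : Had m k E V F) (x y : Pl) :
    ∃ c, IsLine m c ∧ c 0 = x ∧ c (ds m x y) = y := by
  by_cases hxy : V x y = 0
  · have h1 : x = y := by
      have h2 := h.EV x y
      rw [hxy, h.E0] at h2
      exact h2
    have h2 : eu ((1, 0) : Pl) = 1 := by
      unfold eu
      norm_num
    refine ⟨_, line_E h (x := x) h2, ?_, ?_⟩
    · simp only [zero_smul, h.E0]
    · simp only [(ds_eq_zero h).2 h1, zero_smul, h.E0]
      exact h1
  · obtain ⟨u, hu, h1, -⟩ := A2_dir hxy
    refine ⟨_, line_E h (x := x) hu, ?_, ?_⟩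
    · simp only [zero_smul, h.E0]
    · rw [ds_eq h]
      exact (congrArg (E x) h1.symm).trans (h.EV x y)

/-- A point between two points of a line is on the line. -/
theorem A6_mem (h : Had m k E V F) {c : ℝ → Pl} (hc : IsLine m c) {a b : ℝ} (hab : a < b) {y : Pl}
    (hy : ds m (c a) y + ds m y (c b) = ds m (c a) (c b)) : y = c (a + ds m (c a) y) := by
  obtain ⟨v, -, h1⟩ := A6_line h (hc.shift a)
  simp only [add_zero] at h1
  have hd : ds m (c a) (c b) = b - a := by
    rw [hc, abs_sub_comm, abs_of_pos (by linarith)]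
  have hne : c a ≠ c b := by
    intro h3
    rw [(ds_eq_zero h).2 h3] at hd
    linarith
  have h2 := A6_btw h hne hy
  have h3 := h1 (b - a)
  rw [add_sub_cancel] at h3
  have h4 : V (c a) (c b) = (b - a) • v := by
    rw [h3, h.VE]
  rw [h4, hd, smul_smul, div_mul_cancel₀ _ (by linarith : b - a ≠ 0)] at h2
  rw [h1 (ds m (c a) y), ← h2, h.EV]

end BGM
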