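import Pool.Agent.LibBGM20.B1p
import Pool.Agent.LibBGM20.A6

open MeasureTheory Set Filter Topology
open scoped ContDiff

namespace BGM

open BGS

variable {Γ : Type} [Group Γ] [MulAction Γ Pl] {D : Set Pl}
variable {m : Pl → Co} {k : ℝ} {E V : Pl → Pl → Pl} {F : Pl → Pl → ℝ → ℝ}

/-- The group elements moving some point of `closure D` to distance at most `n` of `closure D`. -/
private def B5_T (Γ : Type) [Group Γ] [MulAction Γ Pl] (D : Set Pl) (m : Pl → Co) (n : ℕ) : Set Γ :=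
  {g : Γ | ∃ z ∈ closure D, ∃ w ∈ closure D, ds m z (g • w) ≤ n}

private theorem B5_one (hX : Surface Γ D) (h : Had m k E V F) (n : ℕ) : (1 : Γ) ∈ B5_T Γ D m n := by
  obtain ⟨-, z, hz⟩ := B1_dom hX
  refine ⟨z, hz, z, hz, ?_⟩
  rw [one_smul, ds_self h.rp]
  exact Nat.cast_nonneg n

private theorem B5_step (hX : Surface Γ D) (hi : Iv Γ m) (h : Had m k E V F) (n : ℕ) :
    B5_T Γ D m (n + 1) ⊆ (fun p : Γ × Γ => p.1 * p.2) '' (B5_T Γ D m n ×ˢ B5_T Γ D m 1) := by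
  rintro g ⟨z, hz, w, hw, hle⟩
  obtain ⟨c, hc, hc0, hc1⟩ := A6_exists h z (g • w)
  set L : ℝ := ds m z (g • w) with hL
  have hL0 : 0 ≤ L := ds_nonneg m _ _
  set s : ℝ := min (n : ℝ) L with hs
  have hs0 : 0 ≤ s := le_min (Nat.cast_nonneg n) hL0
  have hsn : s ≤ n := min_le_left _ _
  have hsL : s ≤ L := min_le_right _ _
  obtain ⟨γ, hγ, -⟩ := hX.orbit (c s)
  refine ⟨(γ⁻¹, γ * g), ⟨?_, ?_⟩, ?_⟩
  · refine ⟨z, hz, γ • c s, subset_closure hγ, ?_⟩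
    rw [inv_smul_smul, ← hc0, hc, zero_sub, abs_neg, abs_of_nonneg hs0]
    exact hsn
  · refine ⟨γ • c s, subset_closure hγ, w, hw, ?_⟩
    show ds m (γ • c s) ((γ * g) • w) ≤ ((1 : ℕ) : ℝ)
    rw [mul_smul, B1_ds hX hi, ← hc1, hc, abs_sub_comm, abs_of_nonneg (by linarith)]
    push_cast at hle ⊢
    rcases le_total (n : ℝ) L with h1 | h1
    · rw [hs, min_eq_left h1]; linarith
    · rw [hs, min_eq_right h1]; linarith
  · show γ⁻¹ * (γ * g) = g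
    rw [inv_mul_cancel_left]

private theorem B5_fin1 (hX : Surface Γ D) (hi : Iv Γ m) (h : Had m k E V F) :
    (B5_T Γ D m 1).Finite := by
  obtain ⟨hK, hne⟩ := B1_dom hX
  obtain ⟨d, hd⟩ := (hK.prod hK).exists_bound_of_continuousOn (ds_continuous h).continuousOn
  refine (B1_proper hX hi h hK (d + 1)).subset ?_
  rintro g ⟨z, hz, w, hw, hle⟩
  refine ⟨w, hw, ?_⟩
  have h1 := ds_tri h.rp w z (g • w)
  have h2 : ds m w z ≤ d := (le_abs_self _).trans (hd (w, z) ⟨hw, hz⟩)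
  push_cast at hle
  linarith

private theorem B5_card (hX : Surface Γ D) (hi : Iv Γ m) (h : Had m k E V F) (n : ℕ) :
    (B5_T Γ D m n).Finite ∧ (B5_T Γ D m n).ncard ≤ (B5_T Γ D m 1).ncard ^ (n + 1) := by
  have hf1 := B5_fin1 hX hi h
  induction n with
  | zero =>
    have hsub : B5_T Γ D m 0 ⊆ B5_T Γ D m 1 := by
      rintro g ⟨z, hz, w, hw, hle⟩
      refine ⟨z, hz, w, hw, hle.trans ?_⟩
      simp
    refine ⟨hf1.subset hsub, ?_⟩
    rw [zero_add, pow_one]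
    exact Set.ncard_le_ncard hsub hf1
  | succ n ih =>
    obtain ⟨i1, i2⟩ := ih
    have hp : (B5_T Γ D m n ×ˢ B5_T Γ D m 1).Finite := i1.prod hf1
    refine ⟨(hp.image _).subset (B5_step hX hi h n), ?_⟩
    calc (B5_T Γ D m (n + 1)).ncard
        ≤ ((fun p : Γ × Γ => p.1 * p.2) '' (B5_T Γ D m n ×ˢ B5_T Γ D m 1)).ncard :=
          Set.ncard_le_ncard (B5_step hX hi h n) (hp.image _)
      _ ≤ (B5_T Γ D m n ×ˢ B5_T Γ D m 1).ncard := Set.ncard_image_le hp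
      _ = (B5_T Γ D m n).ncard * (B5_T Γ D m 1).ncard := Set.ncard_prod
      _ ≤ (B5_T Γ D m 1).ncard ^ (n + 1) * (B5_T Γ D m 1).ncard := Nat.mul_le_mul_right _ i2
      _ = (B5_T Γ D m 1).ncard ^ (n + 1 + 1) := (pow_succ _ _).symm

/-- Exponential growth. -/
theorem B5_count (hX : Surface Γ D) (hi : Iv Γ m) (h : Had m k E V F) :
    ∃ C : ℝ, 0 < C ∧ ∀ L : ℝ, 1 ≤ L → {g : Γ | ∃ z ∈ closure D, ds m z (g • z) ≤ L}.Finite ∧
      ({g : Γ | ∃ z ∈ closure D, ds m z (g • z) ≤ L}.ncard : ℝ) ≤ Real.exp (C * L) := by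
  set N : ℕ := (B5_T Γ D m 1).ncard with hN
  have hf1 := B5_fin1 hX hi h
  have hN1 : 1 ≤ N := by
    have : 0 < N := (Set.ncard_pos hf1).mpr ⟨1, B5_one hX h 1⟩
    exact this
  have hN1' : (1 : ℝ) ≤ N := by exact_mod_cast hN1
  have hlog : 0 ≤ Real.log N := Real.log_nonneg hN1'
  refine ⟨3 * Real.log N + 1, by linarith, ?_⟩
  intro L hL
  have hsub : {g : Γ | ∃ z ∈ closure D, ds m z (g • z) ≤ L} ⊆ B5_T Γ D m ⌈L⌉₊ := by
    rintro g ⟨z, hz, hle⟩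
    exact ⟨z, hz, z, hz, hle.trans (Nat.le_ceil L)⟩
  obtain ⟨c1, c2⟩ := B5_card hX hi h ⌈L⌉₊
  refine ⟨c1.subset hsub, ?_⟩
  have h1 : {g : Γ | ∃ z ∈ closure D, ds m z (g • z) ≤ L}.ncard ≤ N ^ (⌈L⌉₊ + 1) :=
    (Set.ncard_le_ncard hsub c1).trans c2
  have h2 : ({g : Γ | ∃ z ∈ closure D, ds m z (g • z) ≤ L}.ncard : ℝ) ≤ (N : ℝ) ^ (⌈L⌉₊ + 1) := by
    exact_mod_cast h1
  refine h2.trans ?_
  have h3 : (N : ℝ) ^ (⌈L⌉₊ + 1) = Real.exp (Real.log N * ((⌈L⌉₊ + 1 : ℕ) : ℝ)) := by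
    rw [mul_comm, Real.exp_nat_mul, Real.exp_log (by linarith)]
  rw [h3]
  refine Real.exp_le_exp.mpr ?_
  have h4 : ((⌈L⌉₊ + 1 : ℕ) : ℝ) ≤ 3 * L := by
    push_cast
    have := Nat.ceil_lt_add_one (by linarith : 0 ≤ L)
    linarith
  have h5 : Real.log N * ((⌈L⌉₊ + 1 : ℕ) : ℝ) ≤ Real.log N * (3 * L) :=
    mul_le_mul_of_nonneg_left h4 hlog
  nlinarith

end BGM
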