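import Mathlib

/-! ROW S2 : a rate for a window `o(log T)`. Only Mathlib.
PLAN. For each `k` there is `y_k ≥ (k + 1)^4` (increasing in `k`) with `|Lam T| ≤ log T / (k + 1)^3` whenever
`log T ≥ y_k`, `T > 1`. Let `K y` = number of the `k ≥ 1`, `k ≤ y`, with `y_k ≤ y` (or the largest such `k`, `0` if
none): nondecreasing in `y`, `→ ∞`, and `|Lam T| ≤ log T / (K (log T) + 1)^3`, `(K y + 1)^4 ≤ y` as soon as
`K y ≥ 1`. Put `w n = K n / 2` and, for `y = log T`, `N = ⌊y / (K y + 1)^2⌋₊`: `N ≤ y`, so `K N ≤ K y` and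
`N w N ≤ y / (K y + 1)^2 * K y / 2 ≤ y / 2`; `N ≥ y / (K y + 1)^2 - 1 ≥ (K y + 1)^2 - 1 → ∞`; and
`C Lam T ≤ |C| y / (K y + 1)^3 ≤ y / (K y + 1)^2 - 1 ≤ N` as soon as `K y ≥ |C|`:
`y / (K y + 1)^3 (K y + 1 - |C|) ≥ K y + 1 ≥ 1`. -/

open Filter Topology Set

namespace BGM

open Classical in
noncomputable def S2_K (Y : ℕ → ℝ) (t : ℝ) : ℕ := Nat.findGreatest (fun k => Y k ≤ t) ⌊t⌋₊

theorem S2_K_mono (Y : ℕ → ℝ) {s t : ℝ} (h : s ≤ t) : S2_K Y s ≤ S2_K Y t := by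
  classical
  unfold S2_K
  exact Nat.findGreatest_mono (fun n hn => le_trans hn h) (Nat.floor_mono h)

theorem S2_K_le (Y : ℕ → ℝ) {k : ℕ} {t : ℝ} (h1 : Y k ≤ t) (h2 : (k : ℝ) ≤ t) :
    k ≤ S2_K Y t := by
  classical
  unfold S2_K
  exact Nat.le_findGreatest (Nat.le_floor h2) h1

theorem S2_K_spec (Y : ℕ → ℝ) {t : ℝ} (h : S2_K Y t ≠ 0) : Y (S2_K Y t) ≤ t := by
  classical
  exact Nat.findGreatest_of_ne_zero (P := fun k => Y k ≤ t) (n := ⌊t⌋₊) rfl h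

theorem S2_K_tendsto (Y : ℕ → ℝ) : Tendsto (S2_K Y) atTop atTop := by
  rw [tendsto_atTop]
  intro k
  filter_upwards [eventually_ge_atTop (Y k), eventually_ge_atTop (k : ℝ)] with t h1 h2
  exact S2_K_le Y h1 h2

theorem S2_seq {Lam : ℝ → ℝ}
    (hL : Tendsto (fun T => Lam T / Real.log T) atTop (𝓝 0)) :
    ∃ w : ℕ → ℝ, Tendsto w atTop atTop ∧ ∀ (C : ℝ) (N₀ : ℕ), ∀ᶠ T : ℝ in atTop,
      ∃ N : ℕ, N₀ ≤ N ∧ C * Lam T ≤ N ∧ N * w N ≤ Real.log T / 2 := by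
  have h1 : ∀ k : ℕ, ∃ T0 : ℝ, ∀ T, T0 ≤ T → |Lam T| ≤ Real.log T / ((k : ℝ) + 1) ^ 3 := by
    intro k
    have hk : (0 : ℝ) < 1 / ((k : ℝ) + 1) ^ 3 := by positivity
    have h2 : ∀ᶠ T in atTop, |Lam T / Real.log T| < 1 / ((k : ℝ) + 1) ^ 3 := by
      have := hL.abs
      rw [abs_zero] at this
      exact this.eventually_lt_const hk
    have h3 : ∀ᶠ T : ℝ in atTop, 1 < T := eventually_gt_atTop 1
    obtain ⟨T0, hT0⟩ := (h2.and h3).exists_forall_of_atTop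
    refine ⟨T0, fun T hT => ?_⟩
    obtain ⟨h4, h5⟩ := hT0 T hT
    have hlog : 0 < Real.log T := Real.log_pos h5
    rw [abs_div, abs_of_pos hlog, div_lt_iff₀ hlog] at h4
    calc |Lam T| ≤ 1 / ((k : ℝ) + 1) ^ 3 * Real.log T := h4.le
      _ = Real.log T / ((k : ℝ) + 1) ^ 3 := by ring
  choose T0 hT0 using h1
  set Y : ℕ → ℝ := fun k => max (Real.log (max (T0 k) 2)) (((k : ℝ) + 1) ^ 4) with hY
  refine ⟨fun n => (S2_K Y n : ℝ) / 2, ?_, ?_⟩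
  · apply Tendsto.atTop_div_const (by norm_num)
    exact tendsto_natCast_atTop_atTop.comp ((S2_K_tendsto Y).comp tendsto_natCast_atTop_atTop)
  intro C N₀
  obtain ⟨c, hc⟩ := exists_nat_ge |C|
  have hev := (((S2_K_tendsto Y).comp Real.tendsto_log_atTop).eventually_ge_atTop
    (max (c + 1) (N₀ + 1)))
  filter_upwards [hev, eventually_gt_atTop 1] with T hT hT1
  set y := Real.log T with hy
  have hK : max (c + 1) (N₀ + 1) ≤ S2_K Y y := hT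
  set k := S2_K Y y with hk
  have hkc : c + 1 ≤ k := le_trans (le_max_left _ _) hK
  have hkN : N₀ + 1 ≤ k := le_trans (le_max_right _ _) hK
  have hspec : Y k ≤ y := S2_K_spec Y (by rw [← hk]; omega)
  have hy4 : ((k : ℝ) + 1) ^ 4 ≤ y := (le_max_right _ _).trans hspec
  have hlogT : Real.log (max (T0 k) 2) ≤ Real.log T := (le_max_left _ _).trans hspec
  have hTT : T0 k ≤ T := by
    have h2 : max (T0 k) 2 ≤ T := by
      rw [Real.log_le_log_iff (lt_of_lt_of_le two_pos (le_max_right _ _)) (by linarith)] at hlogT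
      exact hlogT
    exact (le_max_left _ _).trans h2
  have hLam := hT0 k T hTT
  rw [← hy] at hLam
  have hkc' : (|C| : ℝ) + 1 ≤ k := by
    have : ((c + 1 : ℕ) : ℝ) ≤ k := by exact_mod_cast hkc
    push_cast at this
    linarith
  have hkN' : (N₀ : ℝ) + 1 ≤ k := by exact_mod_cast hkN
  have hk0 : (0 : ℝ) ≤ k := Nat.cast_nonneg k
  have hy0 : 0 < y := lt_of_lt_of_le (by positivity) hy4
  set z := y / ((k : ℝ) + 1) ^ 2 with hz
  have hz0 : 0 ≤ z := by positivity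
  have hzy : z ≤ y := div_le_self hy0.le (by nlinarith)
  have hzk : ((k : ℝ) + 1) ^ 2 ≤ z := by
    rw [hz, le_div_iff₀ (by positivity)]
    nlinarith
  have hfl : (⌊z⌋₊ : ℝ) ≤ z := Nat.floor_le hz0
  have hfg : z < (⌊z⌋₊ : ℝ) + 1 := Nat.lt_floor_add_one z
  refine ⟨⌊z⌋₊, ?_, ?_, ?_⟩
  · have : (N₀ : ℝ) < (⌊z⌋₊ : ℝ) + 1 := by nlinarith
    have h3 : N₀ < ⌊z⌋₊ + 1 := by exact_mod_cast this
    omega
  · have e1 : C * Lam T ≤ |C| * (y / ((k : ℝ) + 1) ^ 3) := by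
      refine (le_abs_self _).trans ?_
      rw [abs_mul]
      exact mul_le_mul_of_nonneg_left hLam (abs_nonneg _)
    have e2 : y / ((k : ℝ) + 1) ^ 3 = z / ((k : ℝ) + 1) := by
      rw [hz, div_div]
      congr 1
    have e3 : |C| * (z / ((k : ℝ) + 1)) ≤ z - 1 := by
      rw [mul_div_assoc', div_le_iff₀ (by positivity)]
      nlinarith
    rw [e2] at e1
    linarith
  · show (⌊z⌋₊ : ℝ) * ((S2_K Y (⌊z⌋₊ : ℝ) : ℝ) / 2) ≤ y / 2
    have m1 : S2_K Y (⌊z⌋₊ : ℝ) ≤ k := S2_K_mono Y (hfl.trans hzy)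
    have m2 : (S2_K Y (⌊z⌋₊ : ℝ) : ℝ) ≤ k := by exact_mod_cast m1
    have m3 : (⌊z⌋₊ : ℝ) * (S2_K Y (⌊z⌋₊ : ℝ) : ℝ) ≤ z * k :=
      mul_le_mul hfl m2 (Nat.cast_nonneg _) hz0
    have m4 : z * k ≤ y := by
      rw [hz, div_mul_eq_mul_div, div_le_iff₀ (by positivity)]
      have : (k : ℝ) ≤ ((k : ℝ) + 1) ^ 2 := by nlinarith
      exact mul_le_mul_of_nonneg_left this hy0.le
    linarith

end BGM
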