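import Pool.Agent.LibBGM20.GM
import Pool.Agent.LibBGM20.S2

/-! ROW SG : separation of lengths at the scale of a given window. Uses GM, S2.
PLAN. `w` from `S2_seq`, `φ` from `GM` with this `w` (the first three clauses are the same). For `m'` and
`r`, `C`: for each `n ≤ r` the conclusion of `GM` holds for all `N ≥ N_n`; `N₀ = max (max_n N_n) 0`
(`Filter.eventually_atTop`, `Finset.sup` over `range (r + 1)`, or `eventually_all_finset`). Take `T ≥ 1` and `N` of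
`S2_seq` (for `C` and `N₀`). Given `s`, `e`: `n = s.card`, `g i = (s.equivFin.symm i : Γ)`, `a i = e (g i)`; `a ≠ 0`,
`|a i| ≤ N` (real inequality `|e g| ≤ C Lam T ≤ N`, cast), `tl m' (g i) ≤ N`; `∑ i, a i tl (g i) = ∑ g ∈ s, ...`
(`Finset.sum_coe_sort`, `Equiv.sum_comp`). `exp (-(N w N)) ≥ exp (-(log T) / 2) = T ^ (-1/2)`. -/

open MeasureTheory Set Filter Topology
open scoped ContDiff unitInterval

namespace BGM

open BGS
open Pool.BGR (PM upI pj)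

/-- Separation of the lengths of the closed geodesics at the scale of the window `Lam`: integer
combinations of at most `r` lengths of primitive classes, pairwise neither conjugate nor inverse
conjugate, with coefficients and lengths at most `C Lam T`, are at least `T ^ (-1/2)`. -/
def SepG (Γ : Type) [Group Γ] [MulAction Γ Pl] (m : Pl → Co) (Lam : ℝ → ℝ) : Prop :=
  ∀ (r : ℕ) (C : ℝ), ∀ᶠ T : ℝ in atTop, ∀ (s : Finset Γ) (e : Γ → ℤ), s.card ≤ r →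
    (∀ g ∈ s, Prim g) →
    (∀ g ∈ s, ∀ g' ∈ s, g ≠ g' → ∀ γ : Γ, γ * g * γ⁻¹ ≠ g' ∧ γ * g * γ⁻¹ ≠ g'⁻¹) →
    (∀ g ∈ s, (|e g| : ℝ) ≤ C * Lam T) → (∀ g ∈ s, tl m g ≤ C * Lam T) →
    (∃ g ∈ s, e g ≠ 0) → T ^ (-(1 / 2) : ℝ) ≤ |∑ g ∈ s, e g * tl m g|

variable {Γ : Type} [Group Γ] [MulAction Γ Pl] {D : Set Pl}

private theorem SG_det {m : Pl → Co} {Lam : ℝ → ℝ} {w : ℕ → ℝ}
    (hG : ∀ n : ℕ, ∀ᶠ N : ℕ in atTop, ∀ g : Fin n → Γ, (∀ i, Prim (g i)) →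
          (∀ i j, i ≠ j → ∀ γ : Γ, γ * g i * γ⁻¹ ≠ g j ∧ γ * g i * γ⁻¹ ≠ (g j)⁻¹) →
          (∀ i, tl m (g i) ≤ N) → ∀ a : Fin n → ℤ, a ≠ 0 → (∀ i, |a i| ≤ N) →
          Real.exp (-(N * w N)) ≤ |∑ i, a i * tl m (g i)|)
    (hS : ∀ (C : ℝ) (N₀ : ℕ), ∀ᶠ T : ℝ in atTop,
      ∃ N : ℕ, N₀ ≤ N ∧ C * Lam T ≤ N ∧ N * w N ≤ Real.log T / 2) : SepG Γ m Lam := by
  intro r C
  have hall := (Filter.eventually_all_finset (Finset.range (r + 1))).mpr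
    (fun n (_ : n ∈ Finset.range (r + 1)) => hG n)
  obtain ⟨N₀, hN₀⟩ := Filter.eventually_atTop.mp hall
  filter_upwards [hS C N₀, eventually_ge_atTop (1 : ℝ)] with T hT hT1
  intro s e hs hprim hconj he htl hne
  obtain ⟨N, hN0, hCN, hNw⟩ := hT
  have hmem : ∀ i : Fin s.card, ((s.equivFin.symm i : s) : Γ) ∈ s := fun i =>
    (s.equivFin.symm i).2
  have hmain := hN₀ N hN0 s.card (Finset.mem_range.mpr (by omega))
    (fun i => ((s.equivFin.symm i : s) : Γ)) (fun i => hprim _ (hmem i))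
    (fun i j hij γ => hconj _ (hmem i) _ (hmem j)
      (fun h => hij (s.equivFin.symm.injective (Subtype.ext h))) γ)
    (fun i => (htl _ (hmem i)).trans hCN)
    (fun i => e ((s.equivFin.symm i : s) : Γ))
    (by
      intro h0
      obtain ⟨g, hg, hge⟩ := hne
      apply hge
      have := congrFun h0 (s.equivFin ⟨g, hg⟩)
      simpa using this)
    (by
      intro i
      have h1 : |((e ((s.equivFin.symm i : s) : Γ) : ℤ) : ℝ)| ≤ (N : ℝ) :=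
        (he _ (hmem i)).trans hCN
      exact_mod_cast h1)
  have hsum : ∑ i : Fin s.card, (e ((s.equivFin.symm i : s) : Γ) : ℝ)
      * tl m ((s.equivFin.symm i : s) : Γ) = ∑ g ∈ s, (e g : ℝ) * tl m g := by
    rw [← Finset.sum_coe_sort s (fun g => (e g : ℝ) * tl m g)]
    exact Equiv.sum_comp s.equivFin.symm (fun g : s => (e (g : Γ) : ℝ) * tl m (g : Γ))
  rw [hsum] at hmain
  refine le_trans ?_ hmain
  rw [Real.rpow_def_of_pos (by linarith)]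
  apply Real.exp_le_exp.mpr
  linarith

theorem sep_ae (hX : Surface Γ D) (h1 : H1 Γ) {Lam : ℝ → ℝ}
    (hL : Tendsto (fun T => Lam T / Real.log T) atTop (𝓝 0)) :
    ∃ φ : (Dir → I) → Pl → ℝ,
      (∀ ξ, φ ξ ∈ Test Γ) ∧ (∀ z, Measurable fun ξ => φ ξ z) ∧
      (∀ m : Mt Γ D, ∀ U ∈ 𝓝 m, ∃ s₀ : ℝ, 0 < s₀ ∧ ∀ s : ℝ, 0 < s → s ≤ s₀ → ∀ ξ,
        ∃ m' ∈ U, ∃ q : ℝ, 0 < q ∧ ∀ z, m'.1.1 z = (q * Real.exp (s * φ ξ z)) • m.1.1 z) ∧
      ∀ m : Mt Γ D, ∀ ψ ∈ Test Γ, ∀ s : ℝ, 0 < s → s ≤ 1 → ∀ᵐ ξ ∂(PM Dir), ∀ m' : Mt Γ D,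
        (∃ q : ℝ, 0 < q ∧ ∀ z, m'.1.1 z = (q * Real.exp (ψ z + s * φ ξ z)) • m.1.1 z) →
        SepG Γ m'.1.1 Lam := by
  obtain ⟨w, hw, hS⟩ := S2_seq hL
  obtain ⟨φ, ha, hb, hc, hd⟩ := GM hX h1 hw
  refine ⟨φ, ha, hb, hc, ?_⟩
  intro m ψ hψ s hs hs1
  filter_upwards [hd m ψ hψ s hs hs1] with ξ hξ
  intro m' hm'
  exact SG_det (hξ m' hm') hS

end BGM
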