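import Pool.Agent.LibBGM20.B4p
import Pool.Agent.LibBGM20.B5
import Pool.Agent.LibBGM20.SG
import Pool.Agent.LibGH18.Defs

/-! The group data of a metric, from the geometry of the Hadamard plane. -/

open MeasureTheory Set Filter Topology
open scoped ContDiff

namespace BGM

open BGS

variable {Γ : Type} [Group Γ] [MulAction Γ Pl] {D : Set Pl}
variable {m : Pl → Co} {k : ℝ} {E V : Pl → Pl → Pl} {F : Pl → Pl → ℝ → ℝ}

theorem GD_count (hX : Surface Γ D) (hi : Iv Γ m) (h : Had m k E V F) :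
    ∃ C, ∀ t, 0 ≤ t → {c : ConjClasses Γ | ∃ g, ConjClasses.mk g = c ∧ tl m g ≤ t}.Finite ∧
    (({c : ConjClasses Γ | ∃ g, ConjClasses.mk g = c ∧ tl m g ≤ t}.ncard : ℕ) : ℝ) ≤
      Real.exp (C * t) := by
  obtain ⟨C, hC, hc⟩ := B5_count hX hi h
  obtain ⟨r, hr, hr'⟩ := B1_rad hX hi h
  refine ⟨C * (1 + 1 / r), fun t ht => ?_⟩
  have hsub : {c : ConjClasses Γ | ∃ g, ConjClasses.mk g = c ∧ tl m g ≤ t} ⊆
      ConjClasses.mk '' {g : Γ | ∃ z ∈ closure D, ds m z (g • z) ≤ t + 1} := by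
    rintro c ⟨g, rfl, hg⟩
    obtain ⟨z, hz, γ, hγ⟩ := B2_min hX hi h g
    refine ⟨γ * g * γ⁻¹, ⟨z, hz, by rw [hγ]; linarith⟩, ?_⟩
    rw [ConjClasses.mk_eq_mk_iff_isConj]
    exact (isConj_iff.2 ⟨γ, rfl⟩).symm
  obtain ⟨hf, hn⟩ := hc (t + 1) (by linarith)
  have hfin := (hf.image (ConjClasses.mk (α := Γ))).subset hsub
  refine ⟨hfin, ?_⟩
  by_cases htr : t < r
  · have h1 : {c : ConjClasses Γ | ∃ g, ConjClasses.mk g = c ∧ tl m g ≤ t} ⊆
        {ConjClasses.mk 1} := by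
      rintro c ⟨g, rfl, hg⟩
      rw [mem_singleton_iff]
      by_contra hne
      have hg1 : g ≠ 1 := fun h => hne (by rw [h])
      obtain ⟨z, hz⟩ := B2_min' hX hi h g
      have := hr' g hg1 z
      linarith
    have h2 := Set.ncard_le_ncard h1 (Set.finite_singleton _)
    rw [Set.ncard_singleton] at h2
    have h3 : (1 : ℝ) ≤ Real.exp (C * (1 + 1 / r) * t) := Real.one_le_exp (by positivity)
    have h4 : (({c : ConjClasses Γ | ∃ g, ConjClasses.mk g = c ∧ tl m g ≤ t}.ncard : ℕ) : ℝ) ≤ 1 := by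
      exact_mod_cast h2
    linarith
  · push Not at htr
    have h1 := Set.ncard_le_ncard hsub (hf.image _)
    have h2 := Set.ncard_image_le (f := ConjClasses.mk (α := Γ)) hf
    have h3 : (({c : ConjClasses Γ | ∃ g, ConjClasses.mk g = c ∧ tl m g ≤ t}.ncard : ℕ) : ℝ) ≤
        Real.exp (C * (t + 1)) := by
      have : (({c : ConjClasses Γ | ∃ g, ConjClasses.mk g = c ∧ tl m g ≤ t}.ncard : ℕ) : ℝ) ≤
          (({g : Γ | ∃ z ∈ closure D, ds m z (g • z) ≤ t + 1}.ncard : ℕ) : ℝ) := by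
        exact_mod_cast h1.trans h2
      exact this.trans hn
    refine h3.trans (Real.exp_le_exp.2 ?_)
    have h4 : 1 ≤ t / r := by
      rw [le_div_iff₀ hr]
      linarith
    have h5 : C * (1 + 1 / r) * t = C * (t + t / r) := by ring
    rw [h5]
    exact mul_le_mul_of_nonneg_left (by linarith) hC.le

/-- The group data: lengths. -/
theorem GD_data (hX : Surface Γ D) (hi : Iv Γ m) (h : Had m k E V F) {tr : Γ → ℝ} {κ : ℝ}
    (hκ : 0 < κ) (hconj : ∀ g γ : Γ, tr (γ * g * γ⁻¹) = tr g) (hinv : ∀ g : Γ, tr g⁻¹ = tr g)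
    (hlb : ∀ g : Γ, g ≠ 1 → 4 * Real.sinh (κ * tl m g / 2) ^ 2 ≤ tr g - 2)
    (htrp : ∀ g : Γ, g ≠ 1 → ∃ χ : ℝ, 0 ≤ χ ∧ ∀ k : ℕ, 1 ≤ k → tr (g ^ k) = 2 * Real.cosh (k * χ)) :
    GH.GrpData (tl m) tr κ where
  kpos := hκ
  conj := fun g γ => ⟨B2_conj hX hi g γ, hconj g γ⟩
  inv := fun g => ⟨B2_inv hX hi h.rp g, hinv g⟩
  pos := fun g hg => tl_pos hX hi h hg
  pow := fun g n => B4_pow hX hi h g n
  root := fun g hg => by
    obtain ⟨z, hz⟩ := B2_min' hX hi h g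
    obtain ⟨c, hc, -⟩ := B2_axis hX hi h hg hz
    obtain ⟨p, n, h1, h2, h3, -, -, h6⟩ := B4_root hX hi h hg hc
    exact ⟨p, n, h1, h2, h3, h6⟩
  count := GD_count hX hi h
  lb := hlb
  trp := htrp

/-- The separation in terms of families. -/
theorem GD_sep {Lam : ℝ → ℝ} (hS : SepG Γ m Lam) (n : ℕ) (C : ℝ) : ∀ᶠ T : ℝ in atTop,
    ∀ g : Fin n → Γ, (∀ i, Prim (g i)) →
      (∀ i j, i ≠ j → ¬ IsConj (g i) (g j) ∧ ¬ IsConj (g i) (g j)⁻¹) →
      (∀ i, tl m (g i) ≤ C * Lam T) → ∀ a : Fin n → ℤ, (∃ i, a i ≠ 0) →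
      (∀ i, |(a i : ℝ)| ≤ C * Lam T) → T ^ (-(1 / 2) : ℝ) ≤ |∑ i, (a i : ℝ) * tl m (g i)| := by
  classical
  filter_upwards [hS n C] with T hT g hp hne hl a ha hab
  have hinj : Function.Injective g := by
    intro i j hij
    by_contra hne'
    exact (hne i j hne').1 (by rw [hij])
  have hex : ∀ i, Function.extend g a 0 (g i) = a i := fun i => hinj.extend_apply a 0 i
  have h1 := hT (Finset.univ.image g) (Function.extend g a 0)
    (by
      refine Finset.card_image_le.trans ?_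
      simp)
    (by
      intro x hx
      obtain ⟨i, -, rfl⟩ := Finset.mem_image.1 hx
      exact hp i)
    (by
      intro x hx y hy hxy γ
      obtain ⟨i, -, rfl⟩ := Finset.mem_image.1 hx
      obtain ⟨j, -, rfl⟩ := Finset.mem_image.1 hy
      have hij : i ≠ j := fun h => hxy (by rw [h])
      exact ⟨fun h => (hne i j hij).1 (isConj_iff.2 ⟨γ, h⟩),
        fun h => (hne i j hij).2 (isConj_iff.2 ⟨γ, h⟩)⟩)
    (by
      intro x hx
      obtain ⟨i, -, rfl⟩ := Finset.mem_image.1 hx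
      rw [hex]
      exact hab i)
    (by
      intro x hx
      obtain ⟨i, -, rfl⟩ := Finset.mem_image.1 hx
      exact hl i)
    (by
      obtain ⟨i, hi⟩ := ha
      refine ⟨g i, Finset.mem_image_of_mem g (Finset.mem_univ i), ?_⟩
      rw [hex]
      exact hi)
  rw [Finset.sum_image fun x _ y _ hxy => hinj hxy] at h1
  simp only [hex] at h1
  exact h1

end BGM
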