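import Pool.Agent.LibBGM20.E10

/-! ROW GM : separation of lengths for almost every metric. Uses D1, E2, E10, Q2, Q3, Q4.
PLAN. `L` with `closure D` in the square of half side `L - 1` (`Surface.bdd`), `c` from `S1_seq`,
`φ = ps Γ L c`. `ps_mem`, `QML_meas`, `QML_near`. For `m : Mt`, `ψ`, `s`: `Cx Γ D m.1.1 ψ L (s c)`: `base` from `H1`
and `E2_base`, `m.2.neg`; `ps Γ L (s c) ξ = s ps Γ L c ξ` (as `FIN2_phi`), `Cs (s c)` (`BGS.FIN2_scale`). Take `E10_ae` for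
all natural `n`, `K`, `B` (`ae_all_iff`). Let `m' = q exp (ψ + s φ ξ) m = q mx`. `curv mx = q curv m' < 0`
(`E2_scale`), `tl m' g = √q tl mx g` (`D1_scale_tl`). Choose naturals `K ≥ 1/√q`, `B ≥ 1/√q`, `K ≥ 1`. If
`tl m' (g i) ≤ N` then `tl mx (g i) ≤ K N`; not bad: `|∑ a i tl mx (g i)| > B exp (-(N w N))`; multiply by `√q`. -/

open MeasureTheory Set Filter Topology
open scoped ContDiff unitInterval

namespace BGM

open BGS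
open Pool.BGR (PM upI pj)

variable {Γ : Type} [Group Γ] [MulAction Γ Pl] {D : Set Pl}

theorem GM_ps (L : ℕ) (c : ℕ → ℝ) (s : ℝ) (ξ : Dir → I) (z : Pl) :
    ps Γ L (fun R => s * c R) ξ z = s * ps Γ L c ξ z := by
  unfold ps
  rw [← tsum_mul_left]
  refine tsum_congr fun R => ?_
  ring

theorem GM_scale {c : ℕ → ℝ} (hc : Cs c) {ε : ℝ} (h0 : 0 < ε) (h1 : ε ≤ 1) :
    Cs fun R => ε * c R where
  pos R := mul_pos h0 (hc.pos R)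
  le_one R := mul_le_one₀ h1 (hc.pos R).le (hc.le_one R)
  anti := fun _ _ h => mul_le_mul_of_nonneg_left (hc.anti h) h0.le
  rapid := by
    intro B
    have h2 := (hc.rapid B).const_mul ε
    rw [mul_zero] at h2
    refine h2.congr fun N => ?_
    ring

theorem GM_dom (hX : Surface Γ D) : ∃ L : ℕ, ∀ z ∈ closure D,
    |z.1| ≤ (L : ℝ) - 1 ∧ |z.2| ≤ (L : ℝ) - 1 := by
  obtain ⟨R, hR⟩ := hX.bdd.closure.exists_norm_le
  obtain ⟨L, hL⟩ := exists_nat_ge (R + 1)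
  refine ⟨L, fun z hz => ?_⟩
  have h1 := hR z hz
  have h2 : ‖z.1‖ ≤ ‖z‖ := norm_fst_le z
  have h3 : ‖z.2‖ ≤ ‖z‖ := norm_snd_le z
  rw [Real.norm_eq_abs] at h2 h3
  constructor <;> linarith

theorem GM_cx (hX : Surface Γ D) (h1 : H1 Γ) {L : ℕ} (hL : ∀ z ∈ closure D,
    |z.1| ≤ (L : ℝ) - 1 ∧ |z.2| ≤ (L : ℝ) - 1) {c : ℕ → ℝ} (hc : Cs c) (m : Mt Γ D) {ψ : Pl → ℝ}
    (hψ : ψ ∈ Test Γ) : Cx Γ D m.1.1 ψ L c := by
  have hrp : Rp m.1.1 := ⟨m.1.2, m.2.pos⟩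
  have hiv : Iv Γ m.1.1 := m.2.inv
  obtain ⟨k, hk, hk'⟩ := E2_base hX hrp hiv
  obtain ⟨E, V, F, hE⟩ := h1 k m.1.1 hk hrp hiv fun z => ⟨hk' z, m.2.neg z⟩
  exact ⟨hX, hrp, hiv, ⟨k, E, V, F, hE⟩, hψ, hL, hc, h1⟩

/-- **Separation of lengths.** -/
theorem GM (hX : Surface Γ D) (h1 : H1 Γ) {w : ℕ → ℝ} (hw : Tendsto w atTop atTop) :
    ∃ φ : (Dir → I) → Pl → ℝ,
      (∀ ξ, φ ξ ∈ Test Γ) ∧ (∀ z, Measurable fun ξ => φ ξ z) ∧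
      (∀ m : Mt Γ D, ∀ U ∈ 𝓝 m, ∃ s₀ : ℝ, 0 < s₀ ∧ ∀ s : ℝ, 0 < s → s ≤ s₀ → ∀ ξ,
        ∃ m' ∈ U, ∃ q : ℝ, 0 < q ∧ ∀ z, m'.1.1 z = (q * Real.exp (s * φ ξ z)) • m.1.1 z) ∧
      ∀ m : Mt Γ D, ∀ ψ ∈ Test Γ, ∀ s : ℝ, 0 < s → s ≤ 1 → ∀ᵐ ξ ∂(PM Dir), ∀ m' : Mt Γ D,
        (∃ q : ℝ, 0 < q ∧ ∀ z, m'.1.1 z = (q * Real.exp (ψ z + s * φ ξ z)) • m.1.1 z) →
        ∀ n : ℕ, ∀ᶠ N : ℕ in atTop, ∀ g : Fin n → Γ, (∀ i, Prim (g i)) →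
          (∀ i j, i ≠ j → ∀ γ : Γ, γ * g i * γ⁻¹ ≠ g j ∧ γ * g i * γ⁻¹ ≠ (g j)⁻¹) →
          (∀ i, tl m'.1.1 (g i) ≤ N) → ∀ a : Fin n → ℤ, a ≠ 0 → (∀ i, |a i| ≤ N) →
          Real.exp (-(N * w N)) ≤ |∑ i, a i * tl m'.1.1 (g i)| := by
  obtain ⟨L, hL⟩ := GM_dom hX
  obtain ⟨c, hc, hcC⟩ := S1_seq hw
  refine ⟨ps Γ L c, fun ξ => ps_mem hX L hc ξ, fun z => QML_meas hX L hc z,
    fun m U hU => QML_near hX L hc m hU, ?_⟩
  intro m ψ hψ s hs hs1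
  have hcs : Cs fun R => s * c R := GM_scale hc hs hs1
  have hcx := GM_cx hX h1 hL hcs m hψ
  have hae : ∀ᵐ ξ ∂(PM Dir), ∀ n K : ℕ, ∀ᶠ T : ℕ in atTop,
      ¬ Bad Γ m.1.1 ψ L (fun R => s * c R) n K T ((K : ℝ) * Real.exp (-(T * w T))) ξ :=
    ae_all_iff.2 fun n => ae_all_iff.2 fun K => E10_ae hw hcC hs hcx n K K
  filter_upwards [hae] with ξ hξ m' hm' n
  obtain ⟨q, hq, hm'⟩ := hm'
  have hrp := D2_rp hcx ξ
  have heq : m'.1.1 = fun z => q • mx Γ m.1.1 ψ L (fun R => s * c R) ξ z := by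
    funext z
    rw [hm' z, mul_smul]
    unfold mx cf ex
    rw [GM_ps]
  have hneg : ∀ z, curv (mx Γ m.1.1 ψ L (fun R => s * c R) ξ) z < 0 := by
    intro z
    have e1 := m'.2.neg z
    rw [heq, E2_scale hrp hq] at e1
    by_contra h2
    push Not at h2
    exact absurd e1 (not_lt.2 (div_nonneg h2 hq.le))
  have htl : ∀ g : Γ, tl m'.1.1 g = √q * tl (mx Γ m.1.1 ψ L (fun R => s * c R) ξ) g := by
    intro g
    rw [heq]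
    exact D1_scale_tl hrp hq g
  have hsq : 0 < √q := Real.sqrt_pos.2 hq
  obtain ⟨K, hK⟩ := exists_nat_ge (1 / √q)
  have hK' : 1 ≤ √q * K := by
    rw [div_le_iff₀ hsq] at hK
    linarith
  filter_upwards [hξ n K] with N hN g hg hne hgN a ha haN
  by_contra hlt
  push Not at hlt
  refine hN ⟨hneg, g, hg, hne, fun i => ?_, a, ha, haN, ?_⟩
  · have h2 := hgN i
    rw [htl] at h2
    have h3 : √q * tl (mx Γ m.1.1 ψ L (fun R => s * c R) ξ) (g i) ≤ √q * (K * N) := by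
      refine h2.trans ?_
      have h4 := mul_le_mul_of_nonneg_right hK' (Nat.cast_nonneg N : (0 : ℝ) ≤ N)
      linarith
    exact le_of_mul_le_mul_left h3 hsq
  · have h2 : ∑ i, (a i : ℝ) * tl m'.1.1 (g i) =
        √q * ∑ i, (a i : ℝ) * tl (mx Γ m.1.1 ψ L (fun R => s * c R) ξ) (g i) := by
      rw [Finset.mul_sum]
      refine Finset.sum_congr rfl fun i _ => ?_
      rw [htl]
      ring
    rw [h2, abs_mul, abs_of_pos hsq] at hlt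
    refine le_of_mul_le_mul_left (hlt.le.trans ?_) hsq
    have h4 := mul_le_mul_of_nonneg_right hK' (Real.exp_pos (-(N * w N))).le
    linarith

end BGM
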