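import Pool.Agent.LibBR70.H1j
import Pool.Agent.LibBR70.H1h
import Pool.Agent.LibBGM20.R0

/-! The base of the Hadamard plane, from the geodesic flow of LibBR70. -/

open MeasureTheory Set Filter Topology
open scoped ContDiff

namespace BGM

open BGS

variable {Γ : Type} [Group Γ] [MulAction Γ Pl] {D : Set Pl}

theorem H1B_HM {m : Pl → Co} (hm : Rp m) (hi : Iv Γ m) (hn : ∀ z, curv m z < 0) : BR.HM Γ m :=
  ⟨hm.smooth, hm.pos, hi, hn⟩

/-- The exponential map, its inverse and the Jacobi fields of LibBR70 have the required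
properties. -/
theorem had_of (hX : Surface Γ D) {m : Pl → Co} (hm : BR.HM Γ m) {k : ℝ} (hk : 0 < k)
    (hK : ∀ z, -k ^ 2 ≤ curv m z) : Had m k (BR.Ex m) (BR.Vx m) (BR.JB m) where
  rp := ⟨hm.smooth, hm.pos⟩
  kpos := hk
  K := fun z => ⟨hK z, hm.neg z⟩
  smE := BR.Ex_smooth hX hm
  smV := BR.Vx_smooth hX hm
  EV := BR.Ex_Vx hX hm
  VE := BR.Vx_Ex hX hm
  E0 := BR.Ex_zero hX hm
  go := fun x v s => ⟨(BR.gfl m s (x, v)).2, BR.gfl_eu hX hm s (x, v),
    fun t => BR.Ex_add hX hm s t x v⟩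
  dE := fun x u w r hu hr => BR.Ex_gauss hX hm hu hr.ne' w
  F0 := fun x u hu => (BR.J_zero hX hm hu).2.2.1
  ode := fun x u hu => ⟨deriv (BR.JB m x u), (BR.J_zero hX hm hu).2.2.2,
    fun r => (BR.JB_ode hX hm hu r).1, fun r => by
      have h := (BR.JB_ode hX hm (x := x) hu r).2
      rw [← BR.Ex_ray hX hm r x u] at h
      exact h⟩

theorem h1_of (hX : Surface Γ D) : H1 Γ := fun k m hk hm hi hK =>
  ⟨BR.Ex m, BR.Vx m, BR.JB m, had_of hX (H1B_HM hm hi fun z => (hK z).2) hk fun z => (hK z).1⟩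

end BGM
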