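import Pool.Agent.LibBGM20.A2

/-! ROW A4 : lengths of curves and the distance, for any smooth Riemannian metric. Uses A2.
PLAN. `A4_cont`: the integrand is continuous. `A4_affine` (change of variable
`intervalIntegral.integral_comp_mul_add` or `integral_comp_smul_deriv`). `ds_le`: by definition of the
infimum, the set is bounded below by 0. `le_ds`: the set is not empty (straight segment; `le_csInf`).
`ds_symm`: reverse the curve `t ↦ c (1 - t)`. `ds_le_norm`: the straight segment stays in `K`,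
`nm_equiv`. (The triangle inequality is the row A4t.) -/

open MeasureTheory Set Filter Topology
open scoped ContDiff

namespace BGM

open BGS

variable {m : Pl → Co}

private theorem A4_line (z w : Pl) : ContDiff ℝ 1 fun t : ℝ => z + t • (w - z) :=
  contDiff_const.add (contDiff_id.smul contDiff_const)

private theorem A4_line_deriv (z w : Pl) (t : ℝ) :
    deriv (fun t : ℝ => z + t • (w - z)) t = w - z := by
  have h : HasDerivAt (fun t : ℝ => z + t • (w - z)) ((1 : ℝ) • (w - z)) t :=
    ((hasDerivAt_id t).smul_const (w - z)).const_add z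
  rw [h.deriv, one_smul]

theorem A4_cont (hm : Rp m) {c : ℝ → Pl} (hc : ContDiff ℝ 1 c) :
    Continuous fun t => nm (m (c t)) (deriv c t) :=
  nm_continuous.comp
    ((hm.smooth.continuous.comp hc.continuous).prodMk (hc.continuous_deriv le_rfl))

theorem len_nonneg (m : Pl → Co) (c : ℝ → Pl) {a b : ℝ} (hab : a ≤ b) : 0 ≤ len m c a b :=
  intervalIntegral.integral_nonneg hab fun _ _ => nm_nonneg _ _

theorem len_add (hm : Rp m) {c : ℝ → Pl} (hc : ContDiff ℝ 1 c) (a b d : ℝ) :
    len m c a b + len m c b d = len m c a d :=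
  intervalIntegral.integral_add_adjacent_intervals ((A4_cont hm hc).intervalIntegrable _ _)
    ((A4_cont hm hc).intervalIntegrable _ _)

/-- Change of parameter by a monotone map. -/
theorem A4_mono (hm : Rp m) {c : ℝ → Pl} (hc : ContDiff ℝ 1 c) {σ : ℝ → ℝ} (hσ : ContDiff ℝ 1 σ)
    {a b : ℝ} (hab : a ≤ b) (hd : ∀ t ∈ Icc a b, 0 ≤ deriv σ t) :
    len m (fun t => c (σ t)) a b = len m c (σ a) (σ b) := by
  have h1 : ∀ t, HasDerivAt σ (deriv σ t) t := fun t =>
    (hσ.differentiable one_ne_zero t).hasDerivAt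
  have h2 : ∀ t, HasDerivAt c (deriv c t) t := fun t =>
    (hc.differentiable one_ne_zero t).hasDerivAt
  have h3 : ∀ t, deriv (fun t => c (σ t)) t = deriv σ t • deriv c (σ t) := fun t =>
    (HasDerivAt.scomp t (h2 (σ t)) (h1 t)).deriv
  have h4 := intervalIntegral.integral_deriv_smul_comp (a := a) (b := b) (f := σ) (f' := deriv σ)
    (g := fun t => nm (m (c t)) (deriv c t)) (fun t _ => h1 t)
    (hσ.continuous_deriv le_rfl).continuousOn (A4_cont hm hc)
  unfold len
  rw [← h4]
  refine intervalIntegral.integral_congr fun t ht => ?_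
  rw [uIcc_of_le hab] at ht
  simp only [Function.comp_apply, smul_eq_mul]
  rw [h3 t, nm_smul, abs_of_nonneg (hd t ht)]

/-- Affine change of parameter. -/
theorem A4_affine (hm : Rp m) {c : ℝ → Pl} (hc : ContDiff ℝ 1 c) {a b : ℝ} (hab : a ≤ b) :
    len m (fun t => c (a + (b - a) * t)) 0 1 = len m c a b := by
  have h1 : ContDiff ℝ 1 fun t : ℝ => a + (b - a) * t :=
    contDiff_const.add (contDiff_const.mul contDiff_id)
  have h2 : ∀ t : ℝ, deriv (fun t : ℝ => a + (b - a) * t) t = b - a := by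
    intro t
    have h : HasDerivAt (fun t : ℝ => a + (b - a) * t) ((b - a) * 1) t :=
      ((hasDerivAt_id t).const_mul (b - a)).const_add a
    rw [h.deriv, mul_one]
  have h3 := A4_mono hm hc h1 zero_le_one (fun t _ => by rw [h2 t]; exact sub_nonneg.2 hab)
  rw [h3]
  congr 1
  · ring
  · ring

theorem ds_le (hm : Rp m) {c : ℝ → Pl} (hc : ContDiff ℝ 1 c) {a b : ℝ} (hab : a ≤ b) :
    ds m (c a) (c b) ≤ len m c a b := by
  rw [← A4_affine hm hc hab]
  refine csInf_le ⟨0, ?_⟩ ⟨fun t => c (a + (b - a) * t), ?_, ?_, ?_, rfl⟩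
  · rintro l ⟨c', _, _, _, rfl⟩
    exact len_nonneg m c' zero_le_one
  · exact hc.comp (contDiff_const.add (contDiff_const.mul contDiff_id))
  · show c (a + (b - a) * 0) = c a
    rw [mul_zero, add_zero]
  · show c (a + (b - a) * 1) = c b
    rw [mul_one, add_sub_cancel]

/-- Lower bounds of the distance. -/
theorem le_ds (m : Pl → Co) {z w : Pl} {l : ℝ}
    (h : ∀ c : ℝ → Pl, ContDiff ℝ 1 c → c 0 = z → c 1 = w → l ≤ len m c 0 1) : l ≤ ds m z w := by
  refine le_csInf ⟨len m (fun t : ℝ => z + t • (w - z)) 0 1, fun t : ℝ => z + t • (w - z),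
    A4_line z w, ?_, ?_, rfl⟩ ?_
  · show z + (0 : ℝ) • (w - z) = z
    rw [zero_smul, add_zero]
  · show z + (1 : ℝ) • (w - z) = w
    rw [one_smul, add_sub_cancel]
  · rintro l' ⟨c', h1, h2, h3, rfl⟩
    exact h c' h1 h2 h3

theorem ds_nonneg (m : Pl → Co) (z w : Pl) : 0 ≤ ds m z w :=
  le_ds m fun c _ _ _ => len_nonneg m c zero_le_one

theorem ds_self (hm : Rp m) (z : Pl) : ds m z z = 0 := by
  refine le_antisymm ?_ (ds_nonneg m z z)
  have h1 := ds_le hm (c := fun _ : ℝ => z) contDiff_const (zero_le_one (α := ℝ))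
  have h2 : len m (fun _ : ℝ => z) 0 1 = 0 := by
    unfold len
    have h3 : ∀ t : ℝ, nm (m z) (deriv (fun _ : ℝ => z) t) = 0 := by
      intro t
      rw [deriv_const]
      have h4 := nm_smul (m z) 0 0
      rw [smul_zero, abs_zero, zero_mul] at h4
      exact h4
    simp only [h3, intervalIntegral.integral_zero]
  rw [h2] at h1
  exact h1

theorem ds_symm (hm : Rp m) (z w : Pl) : ds m z w = ds m w z := by
  have key : ∀ z w : Pl, ds m z w ≤ ds m w z := by
    intro z w
    refine le_ds m fun c hc h0 h1 => ?_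
    have hc' : ContDiff ℝ 1 fun t : ℝ => c (1 - t) := hc.comp (contDiff_const.sub contDiff_id)
    have h2 := ds_le hm hc' (zero_le_one (α := ℝ))
    rw [show (1 : ℝ) - 0 = 1 by norm_num, show (1 : ℝ) - 1 = 0 by norm_num, h0, h1] at h2
    refine h2.trans (le_of_eq ?_)
    have h3 : ∀ t : ℝ, nm (m (c (1 - t))) (deriv (fun t : ℝ => c (1 - t)) t) =
        nm (m (c (1 - t))) (deriv c (1 - t)) := by
      intro t
      rw [deriv_comp_const_sub]
      have h4 := nm_smul (m (c (1 - t))) (-1) (deriv c (1 - t))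
      rw [neg_one_smul, abs_neg, abs_one, one_mul] at h4
      exact h4
    unfold len
    simp only [h3]
    rw [intervalIntegral.integral_comp_sub_left (fun t => nm (m (c t)) (deriv c t)) 1]
    norm_num
  exact le_antisymm (key z w) (key w z)

/-- Locally the distance is at most a multiple of the norm. -/
theorem ds_le_norm (hm : Rp m) {K : Set Pl} (hK : IsCompact K) (hc : Convex ℝ K) :
    ∃ C : ℝ, 1 ≤ C ∧ ∀ z ∈ K, ∀ w ∈ K, ds m z w ≤ C * ‖w - z‖ := by
  obtain ⟨C, hC1, hC⟩ := nm_equiv hm hK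
  refine ⟨C, hC1, fun z hz w hw => ?_⟩
  have h1 := ds_le hm (A4_line z w) (zero_le_one (α := ℝ))
  rw [show z + (0 : ℝ) • (w - z) = z by rw [zero_smul, add_zero],
    show z + (1 : ℝ) • (w - z) = w by rw [one_smul, add_sub_cancel]] at h1
  refine h1.trans ?_
  unfold len
  have h2 : ∀ t ∈ Icc (0 : ℝ) 1, nm (m (z + t • (w - z))) (deriv (fun t : ℝ => z + t • (w - z)) t) ≤
      C * ‖w - z‖ := by
    intro t ht
    rw [A4_line_deriv]
    have h3 : z + t • (w - z) ∈ K := hc.add_smul_sub_mem hz hw ht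
    exact (hC _ h3 (w - z)).1
  have h3 := intervalIntegral.integral_mono_on (μ := volume) (zero_le_one (α := ℝ))
    ((A4_cont hm (A4_line z w)).intervalIntegrable 0 1)
    ((continuous_const : Continuous fun _ : ℝ => C * ‖w - z‖).intervalIntegrable 0 1) h2
  refine h3.trans (le_of_eq ?_)
  rw [intervalIntegral.integral_const, sub_zero, one_smul]

end BGM
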