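import Pool.Agent.LibBGM20.B1p

open MeasureTheory Set Filter Topology
open scoped ContDiff

namespace BGM

open BGS

variable {Γ : Type} [Group Γ] [MulAction Γ Pl] {D : Set Pl}
variable {m : Pl → Co} {k : ℝ} {E V : Pl → Pl → Pl} {F : Pl → Pl → ℝ → ℝ}

theorem tl_le (m : Pl → Co) (g : Γ) (z : Pl) : tl m g ≤ ds m z (g • z) := by
  unfold tl
  refine csInf_le ⟨0, ?_⟩ ⟨z, rfl⟩
  rintro _ ⟨w, rfl⟩
  exact ds_nonneg m _ _

theorem tl_nonneg (m : Pl → Co) (g : Γ) : 0 ≤ tl m g := by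
  unfold tl
  refine Real.sInf_nonneg ?_
  rintro _ ⟨w, rfl⟩
  exact ds_nonneg m _ _

private theorem B2_move (hX : Surface Γ D) (hi : Iv Γ m) (g γ : Γ) (z : Pl) :
    ds m (γ • z) ((γ * g * γ⁻¹) • (γ • z)) = ds m z (g • z) := by
  have e : (γ * g * γ⁻¹) • (γ • z) = γ • (g • z) := by
    rw [mul_smul, mul_smul, inv_smul_smul]
  rw [e, B1_ds hX hi]

theorem B2_conj (hX : Surface Γ D) (hi : Iv Γ m) (g γ : Γ) : tl m (γ * g * γ⁻¹) = tl m g := by
  unfold tl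
  congr 1
  have h1 : (fun z : Pl => ds m z (g • z)) =
      (fun z : Pl => ds m z ((γ * g * γ⁻¹) • z)) ∘ fun z : Pl => γ • z := by
    funext z
    exact (B2_move hX hi g γ z).symm
  rw [h1, (MulAction.surjective γ).range_comp]

theorem B2_inv (hX : Surface Γ D) (hi : Iv Γ m) (hm : Rp m) (g : Γ) : tl m g⁻¹ = tl m g := by
  unfold tl
  congr 1
  have h1 : (fun z : Pl => ds m z (g • z)) =
      (fun z : Pl => ds m z (g⁻¹ • z)) ∘ fun z : Pl => g • z := by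
    funext z
    show ds m z (g • z) = ds m (g • z) (g⁻¹ • (g • z))
    rw [inv_smul_smul, ds_symm hm]
  rw [h1, (MulAction.surjective g).range_comp]

/-- The minimal displacement is attained, after a conjugation at a point of the closure of `D`. -/
theorem B2_min (hX : Surface Γ D) (hi : Iv Γ m) (h : Had m k E V F) (g : Γ) :
    ∃ z ∈ closure D, ∃ γ : Γ, ds m z ((γ * g * γ⁻¹) • z) = tl m g := by
  obtain ⟨hK, hne⟩ := B1_dom hX
  have hcont : ∀ g' : Γ, Continuous fun z : Pl => ds m z (g' • z) := fun g' =>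
    (ds_continuous h).comp (continuous_id.prodMk (hX.smooth g').continuous)
  have hmin : ∀ g' : Γ, ∃ z ∈ closure D, ∀ w ∈ closure D, ds m z (g' • z) ≤ ds m w (g' • w) := by
    intro g'
    obtain ⟨z, hz, hz'⟩ := hK.exists_isMinOn hne (hcont g').continuousOn
    exact ⟨z, hz, fun w hw => hz' hw⟩
  choose zz hzz hzz' using hmin
  set A : Set Γ := {g' : Γ | (∃ γ : Γ, g' = γ * g * γ⁻¹) ∧
    ∃ z ∈ closure D, ds m z (g' • z) ≤ tl m g + 1} with hA
  have hfin : A.Finite := (B1_proper hX hi h hK (tl m g + 1)).subset fun g' hg' => hg'.2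
  -- approximate minimizers
  have happ : ∀ ε : ℝ, 0 < ε → ∃ γ : Γ, ∃ z ∈ closure D,
      ds m z ((γ * g * γ⁻¹) • z) < tl m g + ε := by
    intro ε hε
    have h1 : sInf (Set.range fun z : Pl => ds m z (g • z)) < tl m g + ε := by
      show tl m g < tl m g + ε
      linarith
    obtain ⟨_, ⟨z0, rfl⟩, hz0⟩ := exists_lt_of_csInf_lt (Set.range_nonempty _) h1
    obtain ⟨γ, hγ, -⟩ := hX.orbit z0
    refine ⟨γ, γ • z0, subset_closure hγ, ?_⟩
    rw [B2_move hX hi]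
    exact hz0
  have hAne : A.Nonempty := by
    obtain ⟨γ, z, hz, hlt⟩ := happ 1 one_pos
    exact ⟨γ * g * γ⁻¹, ⟨γ, rfl⟩, z, hz, hlt.le⟩
  obtain ⟨g₀, ⟨⟨γ₀, hγ₀⟩, -⟩, hg₀min⟩ := Set.exists_min_image A
    (fun g' => ds m (zz g') (g' • zz g')) hfin hAne
  refine ⟨zz g₀, hzz g₀, γ₀, ?_⟩
  rw [← hγ₀]
  apply le_antisymm
  · refine le_of_forall_pos_lt_add fun ε hε => ?_
    obtain ⟨γ, z, hz, hlt⟩ := happ (min ε 1) (lt_min hε one_pos)
    have hin : γ * g * γ⁻¹ ∈ A := ⟨⟨γ, rfl⟩, z, hz, by linarith [min_le_right ε 1]⟩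
    have h2 := hg₀min _ hin
    have h3 := hzz' (γ * g * γ⁻¹) z hz
    linarith [min_le_left ε 1]
  · have h4 : tl m g = tl m g₀ := by rw [hγ₀, B2_conj hX hi]
    rw [h4]
    exact tl_le m g₀ _

theorem B2_min' (hX : Surface Γ D) (hi : Iv Γ m) (h : Had m k E V F) (g : Γ) :
    ∃ z, ds m z (g • z) = tl m g := by
  obtain ⟨z, -, γ, hz⟩ := B2_min hX hi h g
  refine ⟨γ⁻¹ • z, ?_⟩
  rw [← hz, ← B2_move hX hi g γ (γ⁻¹ • z), smul_inv_smul]

theorem tl_pos (hX : Surface Γ D) (hi : Iv Γ m) (h : Had m k E V F) {g : Γ} (hg : g ≠ 1) :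
    0 < tl m g := by
  obtain ⟨r, hr, hr'⟩ := B1_rad hX hi h
  obtain ⟨z, hz⟩ := B2_min' hX hi h g
  rw [← hz]
  exact lt_of_lt_of_le hr (hr' g hg z)

end BGM
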