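import Pool.Agent.LibBGM20.R0
import Pool.Agent.LibBGM20.A4
import Pool.Agent.LibBGM20.B2

/-! ROW D1 : conformal changes of a metric. Uses A2, A4, B2 (`tl_nonneg`).
PLAN. `qf (a • c) v = a qf c v`. `D1_ds`: for a `C¹` curve the length for `cf f m` is at most
`exp (ε / 2)` times the length for `cf f' m` (`D1_nm`, integrals of continuous functions), then infima
(`le_ds`, `ds_le`: for every curve `c`, `ds (cf f m) z w ≤ len (cf f m) c ≤ exp (ε/2) len (cf f' m) c`, so
`exp (-ε/2) ds (cf f m) z w` is a lower bound). `D1_tl`: infimum over `z` (`le_csInf`, `csInf_le`).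
`D1_scale`: apply `D1_ds` twice with the constant functions `f = log q`, `f' = 0`, `ε = ± log q`, or redo
the proof. -/

open MeasureTheory Set Filter Topology
open scoped ContDiff

namespace BGM

open BGS

variable {Γ : Type} [Group Γ] [MulAction Γ Pl] {m : Pl → Co} {f f' : Pl → ℝ}

private theorem D1_qf (a : ℝ) (c : Co) (v : Pl) : qf (a • c) v = a * qf c v := by
  unfold qf
  rw [Prod.smul_fst, Prod.smul_snd, Prod.smul_fst, Prod.smul_snd, smul_eq_mul, smul_eq_mul,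
    smul_eq_mul]
  ring

private theorem D1_dt (a : ℝ) (c : Co) : dt (a • c) = a ^ 2 * dt c := by
  unfold dt
  rw [Prod.smul_fst, Prod.smul_snd, Prod.smul_fst, Prod.smul_snd, smul_eq_mul, smul_eq_mul,
    smul_eq_mul]
  ring

private theorem D1_rp_smul {q : ℝ} (hq : 0 < q) (hm : Rp m) : Rp (fun z => q • m z) where
  smooth := by
    have h := hm.smooth.const_smul q
    exact h
  pos := fun z => by
    have h := hm.pos z
    refine ⟨?_, ?_⟩
    · rw [Prod.smul_fst, smul_eq_mul]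
      exact mul_pos hq h.1
    · rw [D1_dt]
      have := h.2
      positivity

private theorem D1_gen {m1 m2 : Pl → Co} (h1 : Rp m1) (h2 : Rp m2) {C : ℝ} (hC : 0 < C)
    (h : ∀ z v, nm (m1 z) v ≤ C * nm (m2 z) v) (z w : Pl) : ds m1 z w ≤ C * ds m2 z w := by
  have key : ds m1 z w / C ≤ ds m2 z w := by
    refine le_ds m2 fun c hc hz hw => ?_
    rw [div_le_iff₀ hC]
    have h3 := ds_le h1 hc (zero_le_one (α := ℝ))
    rw [hz, hw] at h3
    refine h3.trans ?_
    unfold len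
    rw [mul_comm, ← intervalIntegral.integral_const_mul]
    exact intervalIntegral.integral_mono_on zero_le_one
      ((A4_cont h1 hc).intervalIntegrable _ _)
      (((A4_cont h2 hc).const_mul C).intervalIntegrable _ _) fun t _ => h _ _
  rw [div_le_iff₀ hC, mul_comm] at key
  exact key

private theorem D1_gen_tl {m1 m2 : Pl → Co} (h1 : Rp m1) (h2 : Rp m2) {C : ℝ} (hC : 0 < C)
    (h : ∀ z v, nm (m1 z) v ≤ C * nm (m2 z) v) (g : Γ) : tl m1 g ≤ C * tl m2 g := by
  have key : tl m1 g / C ≤ tl m2 g := by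
    refine le_csInf (Set.range_nonempty _) ?_
    rintro _ ⟨z, rfl⟩
    rw [div_le_iff₀ hC, mul_comm]
    exact (tl_le m1 g z).trans (D1_gen h1 h2 hC h z (g • z))
  rw [div_le_iff₀ hC, mul_comm] at key
  exact key

theorem D1_rp (hm : Rp m) (hf : ContDiff ℝ ∞ f) : Rp (cf f m) where
  smooth := (Real.contDiff_exp.comp hf).smul hm.smooth
  pos := fun z => by
    have h := hm.pos z
    have h0 := Real.exp_pos (f z)
    refine ⟨?_, ?_⟩
    · unfold cf
      rw [Prod.smul_fst, smul_eq_mul]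
      exact mul_pos h0 h.1
    · unfold cf
      rw [D1_dt]
      have := h.2
      positivity

theorem D1_iv (hi : Iv Γ m) (hf : ∀ (γ : Γ) z, f (γ • z) = f z) : Iv Γ (cf f m) := by
  intro γ z v
  unfold cf
  rw [D1_qf, D1_qf, hi γ z v, hf]

theorem D1_nm (m : Pl → Co) (f : Pl → ℝ) (z v : Pl) :
    nm (cf f m z) v = Real.exp (f z / 2) * nm (m z) v := by
  unfold cf
  rw [nm_smul_co (Real.exp_pos _).le, Real.exp_half]

private theorem D1_cmp (m : Pl → Co) {ε : ℝ} (h : ∀ z, f z ≤ f' z + ε) (z v : Pl) :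
    nm (cf f m z) v ≤ Real.exp (ε / 2) * nm (cf f' m z) v := by
  rw [D1_nm, D1_nm, ← mul_assoc, ← Real.exp_add]
  refine mul_le_mul_of_nonneg_right (Real.exp_le_exp.2 ?_) (nm_nonneg _ _)
  linarith [h z]

theorem D1_ds (hm : Rp m) (hf : ContDiff ℝ ∞ f) (hf' : ContDiff ℝ ∞ f') {ε : ℝ}
    (h : ∀ z, f z ≤ f' z + ε) (z w : Pl) :
    ds (cf f m) z w ≤ Real.exp (ε / 2) * ds (cf f' m) z w :=
  D1_gen (D1_rp hm hf) (D1_rp hm hf') (Real.exp_pos _) (D1_cmp m h) z w

theorem D1_tl (hm : Rp m) (hf : ContDiff ℝ ∞ f) (hf' : ContDiff ℝ ∞ f') {ε : ℝ}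
    (h : ∀ z, f z ≤ f' z + ε) (g : Γ) :
    tl (cf f m) g ≤ Real.exp (ε / 2) * tl (cf f' m) g :=
  D1_gen_tl (D1_rp hm hf) (D1_rp hm hf') (Real.exp_pos _) (D1_cmp m h) g

theorem D1_zero (m : Pl → Co) : cf (fun _ => 0) m = m := by
  funext z
  unfold cf
  rw [Real.exp_zero, one_smul]

private theorem D1_sq (m : Pl → Co) {q : ℝ} (hq : 0 < q) (z v : Pl) :
    nm (m z) v ≤ (√q)⁻¹ * nm (q • m z) v := by
  have h0 : √q ≠ 0 := (Real.sqrt_pos.2 hq).ne'
  rw [nm_smul_co hq.le, inv_mul_cancel_left₀ h0]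

theorem D1_scale (hm : Rp m) {q : ℝ} (hq : 0 < q) (z w : Pl) :
    ds (fun z => q • m z) z w = √q * ds m z w := by
  have h0 : 0 < √q := Real.sqrt_pos.2 hq
  refine le_antisymm ?_ ?_
  · exact D1_gen (D1_rp_smul hq hm) hm h0 (fun z v => (nm_smul_co hq.le _ _).le) z w
  · have h1 := D1_gen hm (D1_rp_smul hq hm) (inv_pos.2 h0) (D1_sq m hq) z w
    have h2 := mul_le_mul_of_nonneg_left h1 h0.le
    rwa [mul_inv_cancel_left₀ h0.ne'] at h2

theorem D1_scale_tl (hm : Rp m) {q : ℝ} (hq : 0 < q) (g : Γ) :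
    tl (fun z => q • m z) g = √q * tl m g := by
  have h0 : 0 < √q := Real.sqrt_pos.2 hq
  refine le_antisymm ?_ ?_
  · exact D1_gen_tl (D1_rp_smul hq hm) hm h0 (fun z v => (nm_smul_co hq.le _ _).le) g
  · have h1 := D1_gen_tl hm (D1_rp_smul hq hm) (inv_pos.2 h0) (D1_sq m hq) g
    have h2 := mul_le_mul_of_nonneg_left h1 h0.le
    rwa [mul_inv_cancel_left₀ h0.ne'] at h2

end BGM
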