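import Pool.Agent.LibBGM20.A4

/-! ROW A4t : the triangle inequality. Uses A2, A4.
PLAN. Glue `c₁ (σ (3 t))` for `t ≤ 1/2` and `c₂ (σ (3 t - 2))` for `t > 1/2`, `σ = Real.smoothTransition`
(smooth, constant for `t ≤ 0` and for `t ≥ 1`, monotone: `deriv σ ≥ 0`); both formulas are constant `= y`
on `(1/3, 2/3)`, so the curve is `C¹` (each point has a neighbourhood where it is one of the two
formulas); its length is `len c₁ 0 1 + len c₂ 0 1` (`len_add` at `1/3`, `2/3` or at `1/2`, `A4_mono`,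
`len` on an interval where two curves agree); then take infima (`exists_lt_of_csInf_lt`,
`le_ds`, `ds_le`; the sets are not empty: straight segments). -/

open MeasureTheory Set Filter Topology
open scoped ContDiff

namespace BGM

open BGS

variable {m : Pl → Co}

private theorem A4t_len_congr {c c' : ℝ → Pl} {a b : ℝ} (hab : a ≤ b)
    (h : ∀ t ∈ Icc a b, c =ᶠ[𝓝 t] c') : len m c a b = len m c' a b := by
  unfold len
  refine intervalIntegral.integral_congr fun t ht => ?_
  rw [uIcc_of_le hab] at ht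
  have h1 := h t ht
  show nm (m (c t)) (deriv c t) = nm (m (c' t)) (deriv c' t)
  rw [h1.deriv_eq, h1.eq_of_nhds]

private theorem A4t_sm : ContDiff ℝ 1 Real.smoothTransition := Real.smoothTransition.contDiff

private theorem A4t_key (hm : Rp m) {x y z : Pl} {c₁ c₂ : ℝ → Pl} (h₁ : ContDiff ℝ 1 c₁)
    (h₂ : ContDiff ℝ 1 c₂) (h10 : c₁ 0 = x) (h11 : c₁ 1 = y) (h20 : c₂ 0 = y) (h21 : c₂ 1 = z) :
    ds m x z ≤ len m c₁ 0 1 + len m c₂ 0 1 := by
  set σ₁ : ℝ → ℝ := fun t => Real.smoothTransition (3 * t) with hσ₁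
  set σ₂ : ℝ → ℝ := fun t => Real.smoothTransition (3 * t - 2) with hσ₂
  have s1 : ContDiff ℝ 1 σ₁ := A4t_sm.comp (contDiff_const.mul contDiff_id)
  have s2 : ContDiff ℝ 1 σ₂ := A4t_sm.comp ((contDiff_const.mul contDiff_id).sub contDiff_const)
  have m1 : Monotone σ₁ := fun a b hab => Real.smoothTransition.monotone (by linarith)
  have m2 : Monotone σ₂ := fun a b hab => Real.smoothTransition.monotone (by linarith)
  set c : ℝ → Pl := fun t => c₁ (σ₁ t) + c₂ (σ₂ t) - y with hc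
  have hcs : ContDiff ℝ 1 c := ((h₁.comp s1).add (h₂.comp s2)).sub contDiff_const
  have e1 : ∀ t, t < 2 / 3 → c t = c₁ (σ₁ t) := by
    intro t ht
    have h0 : σ₂ t = 0 := Real.smoothTransition.zero_of_nonpos (by linarith)
    rw [hc]
    show c₁ (σ₁ t) + c₂ (σ₂ t) - y = c₁ (σ₁ t)
    rw [h0, h20, add_sub_cancel_right]
  have e2 : ∀ t, 1 / 3 < t → c t = c₂ (σ₂ t) := by
    intro t ht
    have h0 : σ₁ t = 1 := Real.smoothTransition.one_of_one_le (by linarith)
    rw [hc]
    show c₁ (σ₁ t) + c₂ (σ₂ t) - y = c₂ (σ₂ t)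
    rw [h0, h11, add_sub_cancel_left]
  have z1 : σ₁ 0 = 0 := Real.smoothTransition.zero_of_nonpos (by norm_num)
  have z2 : σ₁ (1 / 2) = 1 := Real.smoothTransition.one_of_one_le (by norm_num)
  have z3 : σ₂ (1 / 2) = 0 := Real.smoothTransition.zero_of_nonpos (by norm_num)
  have z4 : σ₂ 1 = 1 := Real.smoothTransition.one_of_one_le (by norm_num)
  have c0 : c 0 = x := by rw [e1 0 (by norm_num), z1, h10]
  have c1 : c 1 = z := by rw [e2 1 (by norm_num), z4, h21]
  have l1 : len m c 0 (1 / 2) = len m c₁ 0 1 := by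
    rw [A4t_len_congr (c' := fun t => c₁ (σ₁ t)) (by norm_num) (fun t ht => by
      filter_upwards [Iio_mem_nhds (show t < 2 / 3 by linarith [ht.2])] with s hs using e1 s hs),
      A4_mono hm h₁ s1 (by norm_num) (fun t _ => m1.deriv_nonneg), z1, z2]
  have l2 : len m c (1 / 2) 1 = len m c₂ 0 1 := by
    rw [A4t_len_congr (c' := fun t => c₂ (σ₂ t)) (by norm_num) (fun t ht => by
      filter_upwards [Ioi_mem_nhds (show 1 / 3 < t by linarith [ht.1])] with s hs using e2 s hs),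
      A4_mono hm h₂ s2 (by norm_num) (fun t _ => m2.deriv_nonneg), z3, z4]
  have h3 := ds_le hm hcs (zero_le_one' ℝ)
  rw [c0, c1, ← len_add hm hcs 0 (1 / 2) 1, l1, l2] at h3
  exact h3

theorem ds_tri (hm : Rp m) (x y z : Pl) : ds m x z ≤ ds m x y + ds m y z := by
  have h1 : ∀ c₂ : ℝ → Pl, ContDiff ℝ 1 c₂ → c₂ 0 = y → c₂ 1 = z →
      ds m x z - len m c₂ 0 1 ≤ ds m x y := by
    intro c₂ h₂ h20 h21
    refine le_ds m fun c₁ h₁ h10 h11 => ?_
    linarith [A4t_key hm h₁ h₂ h10 h11 h20 h21]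
  have h2 : ds m x z - ds m x y ≤ ds m y z :=
    le_ds m fun c₂ h₂ h20 h21 => by linarith [h1 c₂ h₂ h20 h21]
  linarith

end BGM
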