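import Pool.Agent.LibBGM20.B1
import Pool.Agent.LibBGM20.A4t

/-! ROW B1p : properness, injectivity radius, bounded multiplicity. Uses A2, A4, A4t, A5, B1.
PLAN. `B1_proper`: the set `{y | ∃ z ∈ K, ds m z y ≤ r}` is contained in a ball `{y | ds m z₀ y ≤ r'}`
(`ds` is continuous, so bounded on `{z₀} × K`), which is compact (`ball_compact`); apply
`Surface.proper` to the union with `K`. `B1_rad`: by `B1_proper` (`K = closure D`, `r = 1`) finitely many
`g ≠ 1` matter, each gives a positive minimum of `ds m z (g • z)` over the compact set `closure D`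
(`B1_free`, `ds_eq_zero`); every `z` is moved to `D` (`ds m z (g • z) = ds m (γ z) ((γ g γ⁻¹) • (γ z))`).
`B1_loc`: choose `γ₁ x, γ₂ y ∈ D`: `g ↦ γ₂ g γ₁⁻¹` is a bijection of the set for `x, y` onto the set for
`γ₁ x, γ₂ y`; for `x, y ∈ closure D` the set is contained in the finite set of `B1_proper` with
`K = closure D` and radius `r + d₀`, `d₀` = bound of `ds` on `closure D × closure D`. -/

open MeasureTheory Set Filter Topology
open scoped ContDiff

namespace BGM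

open BGS

variable {Γ : Type} [Group Γ] [MulAction Γ Pl] {D : Set Pl}
variable {m : Pl → Co} {k : ℝ} {E V : Pl → Pl → Pl} {F : Pl → Pl → ℝ → ℝ}

theorem B1_proper (hX : Surface Γ D) (hi : Iv Γ m) (h : Had m k E V F) {K : Set Pl}
    (hK : IsCompact K) (r : ℝ) : {g : Γ | ∃ z ∈ K, ds m z (g • z) ≤ r}.Finite := by
  rcases K.eq_empty_or_nonempty with hK0 | ⟨z₀, hz₀⟩
  · rw [hK0]
    have h1 : {g : Γ | ∃ z ∈ (∅ : Set Pl), ds m z (g • z) ≤ r} = ∅ := by
      ext g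
      simp
    rw [h1]
    exact Set.finite_empty
  · have hc : Continuous fun z => ds m z₀ z :=
      (ds_continuous h).comp (continuous_const.prodMk continuous_id)
    obtain ⟨R, hR⟩ := hK.exists_bound_of_continuousOn hc.continuousOn
    have hB := ball_compact h z₀ (R + |r|)
    refine (hX.proper _ hB).subset ?_
    rintro g ⟨z, hz, hzr⟩
    have h1 : ds m z₀ z ≤ R := (le_abs_self _).trans (hR z hz)
    have h2 := le_abs_self r
    have h3 := abs_nonneg r
    refine ⟨z, ?_, ?_⟩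
    · show ds m z₀ z ≤ R + |r|
      linarith
    · show ds m z₀ (g • z) ≤ R + |r|
      have h4 := ds_tri h.rp z₀ z (g • z)
      linarith

theorem B1p_inf {ι : Type} (s : Finset ι) (f : ι → ℝ) (hf : ∀ i, 0 < f i) :
    ∃ r : ℝ, 0 < r ∧ ∀ i ∈ s, r ≤ f i := by
  classical
  induction s using Finset.induction_on with
  | empty => exact ⟨1, one_pos, fun i hi => absurd hi (Finset.notMem_empty i)⟩
  | insert i s _ ih =>
    obtain ⟨r, hr, hr'⟩ := ih
    refine ⟨min (f i) r, lt_min (hf i) hr, fun j hj => ?_⟩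
    rcases Finset.mem_insert.1 hj with hj | hj
    · rw [hj]
      exact min_le_left _ _
    · exact (min_le_right _ _).trans (hr' j hj)

theorem B1p_min (hX : Surface Γ D) (h : Had m k E V F) (g : Γ) (hg : g ≠ 1) :
    ∃ δ : ℝ, 0 < δ ∧ ∀ z ∈ closure D, δ ≤ ds m z (g • z) := by
  obtain ⟨hK, hK0⟩ := B1_dom hX
  have hc : Continuous fun z => ds m z (g • z) :=
    (ds_continuous h).comp (continuous_id.prodMk (hX.smooth g).continuous)
  obtain ⟨z₁, _, hz₁⟩ := hK.exists_isMinOn hK0 hc.continuousOn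
  refine ⟨ds m z₁ (g • z₁), ?_, fun z hz => hz₁ hz⟩
  refine lt_of_le_of_ne (ds_nonneg _ _ _) fun h1 => hg ?_
  exact B1_free hX ((ds_eq_zero h).1 h1.symm).symm

/-- The injectivity radius. -/
theorem B1_rad (hX : Surface Γ D) (hi : Iv Γ m) (h : Had m k E V F) :
    ∃ r : ℝ, 0 < r ∧ ∀ g : Γ, g ≠ 1 → ∀ z : Pl, r ≤ ds m z (g • z) := by
  classical
  obtain ⟨hK, _⟩ := B1_dom hX
  have hfin := B1_proper hX hi h hK 1
  have hmin : ∀ g : Γ, ∃ δ : ℝ, 0 < δ ∧ (g ≠ 1 → ∀ z ∈ closure D, δ ≤ ds m z (g • z)) := by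
    intro g
    by_cases hg : g = 1
    · exact ⟨1, one_pos, fun h1 => absurd hg h1⟩
    · obtain ⟨δ, h1, h2⟩ := B1p_min hX h g hg
      exact ⟨δ, h1, fun _ => h2⟩
  choose δ hδ hδ' using hmin
  obtain ⟨r, hr, hr'⟩ := B1p_inf hfin.toFinset δ hδ
  refine ⟨min 1 r, lt_min one_pos hr, fun g hg z => ?_⟩
  obtain ⟨γ, hγ, _⟩ := hX.orbit z
  have hγ' : γ • z ∈ closure D := subset_closure hγ
  have h1 : ds m z (g • z) = ds m (γ • z) ((γ * g * γ⁻¹) • (γ • z)) := by
    rw [mul_smul, mul_smul, inv_smul_smul, B1_ds hX hi]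
  have h2 : γ * g * γ⁻¹ ≠ 1 := by
    intro h3
    apply hg
    rw [mul_inv_eq_one] at h3
    exact mul_eq_left.1 h3
  rw [h1]
  by_cases h3 : ds m (γ • z) ((γ * g * γ⁻¹) • (γ • z)) ≤ 1
  · have h4 : γ * g * γ⁻¹ ∈ hfin.toFinset := by
      rw [Set.Finite.mem_toFinset]
      exact ⟨γ • z, hγ', h3⟩
    exact (min_le_right _ _).trans ((hr' _ h4).trans (hδ' _ h2 _ hγ'))
  · exact (min_le_left _ _).trans (not_le.1 h3).le

/-- Bounded multiplicity. -/
theorem B1_loc (hX : Surface Γ D) (hi : Iv Γ m) (h : Had m k E V F) (r : ℝ) :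
    ∃ N : ℕ, ∀ x y : Pl, {g : Γ | ds m (g • x) y ≤ r}.Finite ∧
      {g : Γ | ds m (g • x) y ≤ r}.ncard ≤ N := by
  obtain ⟨hK, _⟩ := B1_dom hX
  obtain ⟨d₀, hd₀⟩ := (hK.prod hK).exists_bound_of_continuousOn (ds_continuous h).continuousOn
  have hfin := B1_proper hX hi h hK (r + d₀)
  refine ⟨{g : Γ | ∃ z ∈ closure D, ds m z (g • z) ≤ r + d₀}.ncard, fun x y => ?_⟩
  obtain ⟨γ₁, hγ₁, _⟩ := hX.orbit x
  obtain ⟨γ₂, hγ₂, _⟩ := hX.orbit y
  have hinj : Function.Injective fun g : Γ => γ₂ * g * γ₁⁻¹ := by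
    intro a b hab
    exact mul_left_cancel (mul_right_cancel hab)
  have hmap : ∀ g ∈ {g : Γ | ds m (g • x) y ≤ r},
      γ₂ * g * γ₁⁻¹ ∈ {g : Γ | ∃ z ∈ closure D, ds m z (g • z) ≤ r + d₀} := by
    intro g hg
    have hg' : ds m (g • x) y ≤ r := hg
    refine ⟨γ₁ • x, subset_closure hγ₁, ?_⟩
    rw [mul_smul, mul_smul, inv_smul_smul]
    have h1 := ds_tri h.rp (γ₁ • x) (γ₂ • y) (γ₂ • g • x)
    have h2 : ds m (γ₂ • y) (γ₂ • g • x) = ds m (g • x) y := by
      rw [B1_ds hX hi, ds_symm h.rp]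
    have h3 : ds m (γ₁ • x) (γ₂ • y) ≤ d₀ := (le_abs_self _).trans
      (hd₀ (γ₁ • x, γ₂ • y) ⟨subset_closure hγ₁, subset_closure hγ₂⟩)
    linarith
  refine ⟨?_, ?_⟩
  · exact Set.Finite.of_injOn hmap hinj.injOn hfin
  · exact Set.ncard_le_ncard_of_injOn _ hmap hinj.injOn hfin


end BGM
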