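import Pool.Agent.LibBGM20.D1
import Pool.Agent.LibBGS.Egr

/-! ROW E2 : curvature: bounds, invariance, scaling. Uses LibBGS.Egr, A2.
PLAN. `E2_gen`: Brioschi's formula (`Matrix.det_fin_three`) is a polynomial in `E, F, G` and their
derivatives divided by `dt²`: triangle inequality; `1 ≤ C dt` gives `1 / dt² ≤ C²` (`C > 0`, `dt > 0` or both
negative: in the second case `C ≤ |h z| ...` is impossible). `E2_inv`: `BGS.curv_inv`. `E2_scale`:
`dx (q h) = q dx h` etc.: the numerator is multiplied by `q³`, `dt²` by `q⁴`. `E2_base`: `curv m` is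
continuous (smooth entries), bounded on the compact `closure D`, and invariant. -/

open MeasureTheory Set Filter Topology
open scoped ContDiff unitInterval

namespace BGM

open BGS
open Pool.BGR (PM upI pj)

variable {Γ : Type} [Group Γ] [MulAction Γ Pl] {D : Set Pl} {m : Pl → Co} {ψ : Pl → ℝ} {L : ℕ}
  {c : ℕ → ℝ}

/-- The numerator of Brioschi's formula. -/
noncomputable def E2_N (E F G : Pl → ℝ) (z : Pl) : ℝ :=
  (-(dy (dy E) z) / 2 + dy (dx F) z - dx (dx G) z / 2) * (E z * G z - F z * F z) +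
    (-(dx E z / 2)) * ((dy F z - dx G z / 2) * G z - F z * (dy G z / 2)) +
    (dx F z - dy E z / 2) * ((dy F z - dx G z / 2) * F z - E z * (dy G z / 2)) +
    dy E z / 2 * (dy E z / 2 * G z - F z * (dx G z / 2)) +
    (-(dx G z / 2)) * (dy E z / 2 * F z - E z * (dx G z / 2))

theorem E2_form (m : Pl → Co) (z : Pl) :
    curv m z = E2_N (fun w => (m w).1) (fun w => (m w).2.1) (fun w => (m w).2.2) z /
      dt (m z) ^ 2 := by
  unfold curv E2_N
  simp only [Matrix.det_fin_three, Matrix.of_apply, Matrix.cons_val]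
  congr 1
  ring

private theorem E2_t {M x y w u v : ℝ} (hx : |x| ≤ M) (hy : |y| ≤ M) (hw : |w| ≤ M)
    (hu : |u| ≤ M) (hv : |v| ≤ M) : |x * (y * w - u * v)| ≤ 2 * M ^ 3 := by
  have hM : 0 ≤ M := (abs_nonneg x).trans hx
  have h1 : |y * w| ≤ M * M := by
    rw [abs_mul]
    exact mul_le_mul hy hw (abs_nonneg _) hM
  have h2 : |u * v| ≤ M * M := by
    rw [abs_mul]
    exact mul_le_mul hu hv (abs_nonneg _) hM
  have h3 : |y * w - u * v| ≤ 2 * (M * M) := by
    have := abs_sub (y * w) (u * v)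
    linarith
  rw [abs_mul]
  calc |x| * |y * w - u * v| ≤ M * (2 * (M * M)) := mul_le_mul hx h3 (abs_nonneg _) hM
    _ = 2 * M ^ 3 := by ring

/-- The curvature is bounded in terms of the derivatives of order at most two. -/
theorem E2_gen (C : ℝ) : ∃ B : ℝ, ∀ (m : Pl → Co) (z : Pl),
    (∀ h ∈ ({fun w => (m w).1, fun w => (m w).2.1, fun w => (m w).2.2} : Set (Pl → ℝ)),
      |h z| ≤ C ∧ |dx h z| ≤ C ∧ |dy h z| ≤ C ∧ |dx (dx h) z| ≤ C ∧ |dy (dx h) z| ≤ C ∧
        |dy (dy h) z| ≤ C) → 1 ≤ C * dt (m z) → |curv m z| ≤ B := by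
  refine ⟨10 * (2 * C) ^ 3 * C ^ 2, fun m z h hdt => ?_⟩
  obtain ⟨e0, e1, e2, e3, e4, e5⟩ := h _ (Or.inl rfl)
  obtain ⟨f0, f1, f2, f3, f4, f5⟩ := h _ (Or.inr (Or.inl rfl))
  obtain ⟨g0, g1, g2, g3, g4, g5⟩ := h _ (Or.inr (Or.inr rfl))
  have hC : 0 ≤ C := (abs_nonneg _).trans e0
  rw [E2_form]
  set E : Pl → ℝ := fun w => (m w).1 with hE
  set F : Pl → ℝ := fun w => (m w).2.1 with hF
  set G : Pl → ℝ := fun w => (m w).2.2 with hG
  have hN : |E2_N E F G z| ≤ 10 * (2 * C) ^ 3 := by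
    unfold E2_N
    rw [abs_le] at e0 e1 e2 e3 e4 e5 f0 f1 f2 f3 f4 f5 g0 g1 g2 g3 g4 g5
    have a1 : |-(dy (dy E) z) / 2 + dy (dx F) z - dx (dx G) z / 2| ≤ 2 * C := by
      rw [abs_le]
      constructor <;> linarith [e5.1, e5.2, f4.1, f4.2, g3.1, g3.2]
    have a2 : |-(dx E z / 2)| ≤ 2 * C := by
      rw [abs_le]
      constructor <;> linarith [e1.1, e1.2]
    have a3 : |dx F z - dy E z / 2| ≤ 2 * C := by
      rw [abs_le]
      constructor <;> linarith [f1.1, f1.2, e2.1, e2.2]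
    have a4 : |dy F z - dx G z / 2| ≤ 2 * C := by
      rw [abs_le]
      constructor <;> linarith [f2.1, f2.2, g1.1, g1.2]
    have a5 : |dy G z / 2| ≤ 2 * C := by
      rw [abs_le]
      constructor <;> linarith [g2.1, g2.2]
    have a6 : |dy E z / 2| ≤ 2 * C := by
      rw [abs_le]
      constructor <;> linarith [e2.1, e2.2]
    have a7 : |dx G z / 2| ≤ 2 * C := by
      rw [abs_le]
      constructor <;> linarith [g1.1, g1.2]
    have a7' : |-(dx G z / 2)| ≤ 2 * C := by
      rw [abs_neg]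
      exact a7
    have b1 : |E z| ≤ 2 * C := by
      rw [abs_le]
      constructor <;> linarith [e0.1, e0.2]
    have b2 : |F z| ≤ 2 * C := by
      rw [abs_le]
      constructor <;> linarith [f0.1, f0.2]
    have b3 : |G z| ≤ 2 * C := by
      rw [abs_le]
      constructor <;> linarith [g0.1, g0.2]
    have t1 := E2_t a1 b1 b3 b2 b2
    have t2 := E2_t a2 a4 b3 b2 a5
    have t3 := E2_t a3 a4 b2 b1 a5
    have t4 := E2_t a6 a6 b3 b2 a7
    have t5 := E2_t a7' a6 b2 b1 a7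
    rw [abs_le] at t1 t2 t3 t4 t5 ⊢
    constructor <;> linarith [t1.1, t1.2, t2.1, t2.2, t3.1, t3.2, t4.1, t4.2, t5.1, t5.2]
  have hd : 0 < dt (m z) := by
    by_contra hcon
    push Not at hcon
    have := mul_nonpos_of_nonneg_of_nonpos hC hcon
    linarith
  rw [abs_div, abs_of_pos (by positivity : 0 < dt (m z) ^ 2), div_le_iff₀ (by positivity)]
  have h1 : 1 ≤ (C * dt (m z)) ^ 2 := one_le_pow₀ hdt
  calc |E2_N E F G z| ≤ 10 * (2 * C) ^ 3 := hN
    _ = 10 * (2 * C) ^ 3 * 1 := (mul_one _).symm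
    _ ≤ 10 * (2 * C) ^ 3 * (C * dt (m z)) ^ 2 := mul_le_mul_of_nonneg_left h1 (by positivity)
    _ = 10 * (2 * C) ^ 3 * C ^ 2 * dt (m z) ^ 2 := by ring

theorem E2_inv (hX : Surface Γ D) (hm : Rp m) (hi : Iv Γ m) (γ : Γ) (z : Pl) :
    curv m (γ • z) = curv m z :=
  BGS.curv_inv hX ⟨m, hm.smooth⟩ (fun w => (hm.pos w).2) hi γ z

private theorem E2_dc {h : Pl → ℝ} (hh : ContDiff ℝ ∞ h) (q : ℝ) :
    (dx (fun w => q * h w) = fun z => q * dx h z) ∧
      (dy (fun w => q * h w) = fun z => q * dy h z) := by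
  have h1 : ∀ z, fderiv ℝ (fun w => q * h w) z = q • fderiv ℝ h z := fun z =>
    fderiv_const_mul ((hh.differentiable (by simp)) z) q
  constructor
  · funext z
    unfold dx
    rw [h1 z]
    rfl
  · funext z
    unfold dy
    rw [h1 z]
    rfl

theorem E2_scale (hm : Rp m) {q : ℝ} (hq : 0 < q) (z : Pl) :
    curv (fun z => q • m z) z = curv m z / q := by
  have hE : ContDiff ℝ ∞ fun w => (m w).1 := hm.smooth.fst
  have hF : ContDiff ℝ ∞ fun w => (m w).2.1 := hm.smooth.snd.fst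
  have hG : ContDiff ℝ ∞ fun w => (m w).2.2 := hm.smooth.snd.snd
  rw [E2_form, E2_form]
  have hN : E2_N (fun w => ((fun z => q • m z) w).1) (fun w => ((fun z => q • m z) w).2.1)
      (fun w => ((fun z => q • m z) w).2.2) z =
      q ^ 3 * E2_N (fun w => (m w).1) (fun w => (m w).2.1) (fun w => (m w).2.2) z := by
    show E2_N (fun w => q * (m w).1) (fun w => q * (m w).2.1) (fun w => q * (m w).2.2) z = _
    generalize hE' : (fun w => (m w).1) = E at *
    generalize hF' : (fun w => (m w).2.1) = F at *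
    generalize hG' : (fun w => (m w).2.2) = G at *
    have k1 : (fun w => q * (m w).1) = fun w => q * E w := by rw [← hE']
    have k2 : (fun w => q * (m w).2.1) = fun w => q * F w := by rw [← hF']
    have k3 : (fun w => q * (m w).2.2) = fun w => q * G w := by rw [← hG']
    rw [k1, k2, k3]
    unfold E2_N
    rw [(E2_dc hE q).1, (E2_dc hE q).2, (E2_dc hF q).1, (E2_dc hF q).2, (E2_dc hG q).1,
      (E2_dc hG q).2, (E2_dc (Egr_smooth_dy hE) q).2, (E2_dc (Egr_smooth_dx hF) q).2,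
      (E2_dc (Egr_smooth_dx hG) q).1]
    ring
  have hdt : dt ((fun z => q • m z) z) = q ^ 2 * dt (m z) := by
    show (q * (m z).1) * (q * (m z).2.2) - (q * (m z).2.1) ^ 2 = q ^ 2 * dt (m z)
    unfold dt
    ring
  rw [hN, hdt]
  have h0 : dt (m z) ≠ 0 := (hm.pos z).2.ne'
  field_simp

theorem E2_cont (hm : Rp m) : Continuous (curv m) := by
  have hE : ContDiff ℝ ∞ fun w => (m w).1 := hm.smooth.fst
  have hF : ContDiff ℝ ∞ fun w => (m w).2.1 := hm.smooth.snd.fst
  have hG : ContDiff ℝ ∞ fun w => (m w).2.2 := hm.smooth.snd.snd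
  have h1 : curv m = fun z => E2_N (fun w => (m w).1) (fun w => (m w).2.1) (fun w => (m w).2.2) z /
      dt (m z) ^ 2 := funext fun z => E2_form m z
  rw [h1]
  have e0 := hE.continuous
  have e1 := (Egr_smooth_dx hE).continuous
  have e2 := (Egr_smooth_dy hE).continuous
  have e3 := (Egr_smooth_dy (Egr_smooth_dy hE)).continuous
  have f0 := hF.continuous
  have f1 := (Egr_smooth_dx hF).continuous
  have f2 := (Egr_smooth_dy hF).continuous
  have f3 := (Egr_smooth_dy (Egr_smooth_dx hF)).continuous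
  have g0 := hG.continuous
  have g1 := (Egr_smooth_dx hG).continuous
  have g2 := (Egr_smooth_dy hG).continuous
  have g3 := (Egr_smooth_dx (Egr_smooth_dx hG)).continuous
  have hd : Continuous fun z => dt (m z) := by
    unfold dt
    exact (e0.mul g0).sub (f0.pow 2)
  refine Continuous.div ?_ (hd.pow 2) fun z => pow_ne_zero 2 (hm.pos z).2.ne'
  unfold E2_N
  fun_prop

theorem E2_base (hX : Surface Γ D) (hm : Rp m) (hi : Iv Γ m) :
    ∃ k : ℝ, 0 < k ∧ ∀ z, -k ^ 2 ≤ curv m z := by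
  obtain ⟨C, hC⟩ := (Cmp_compact hX).exists_bound_of_continuousOn (E2_cont hm).continuousOn
  refine ⟨|C| + 1, by positivity, fun z => ?_⟩
  obtain ⟨γ, hγ, -⟩ := hX.orbit z
  have h1 := hC (γ • z) (subset_closure hγ)
  rw [E2_inv hX hm hi, Real.norm_eq_abs] at h1
  have h2 := neg_abs_le (curv m z)
  have h3 := le_abs_self C
  have h4 := abs_nonneg C
  nlinarith

end BGM
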