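import Pool.Agent.LibBGM20.Q0

/-! The bump functions which cover the plane: basic properties. -/

open MeasureTheory Set Filter Topology
open scoped ContDiff ENNReal NNReal unitInterval

namespace BGM

open BGS
open Pool.BGR (PM upI pj)

variable {Γ : Type} [Group Γ] [MulAction Γ Pl] {D : Set Pl}

theorem bmq_smooth (R : ℕ) (p : ℤ × ℤ) : ContDiff ℝ ∞ (bmq R p) := by
  unfold bmq
  refine bump1.contDiff.comp ?_
  fun_prop

theorem bmq_nonneg (R : ℕ) (p : ℤ × ℤ) (z : Pl) : 0 ≤ bmq R p z := bump1.nonneg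

theorem bmq_le_one (R : ℕ) (p : ℤ × ℤ) (z : Pl) : bmq R p z ≤ 1 := bump1.le_one

/-- The support is contained in the square of half side `2 / R`. -/
theorem bmq_ball {R : ℕ} {p : ℤ × ℤ} {z : Pl} (hz : bmq R p z ≠ 0) :
    |R * z.1 - p.1| < 2 ∧ |R * z.2 - p.2| < 2 := by
  have h : ((R * z.1 - p.1, R * z.2 - p.2) : Pl) ∈ Function.support bump1 := hz
  rw [bump1.support_eq, Metric.mem_ball, Prod.dist_eq, max_lt_iff, Real.dist_eq, Real.dist_eq] at h
  have h1 : |R * z.1 - p.1 - 0| < 2 := h.1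
  have h2 : |R * z.2 - p.2 - 0| < 2 := h.2
  rw [sub_zero] at h1 h2
  exact ⟨h1, h2⟩

/-- The bump function is one on the square of half side `1 / R`. -/
theorem bmq_one {R : ℕ} {p : ℤ × ℤ} {z : Pl} (h1 : |R * z.1 - p.1| ≤ 1)
    (h2 : |R * z.2 - p.2| ≤ 1) : bmq R p z = 1 := by
  refine bump1.one_of_mem_closedBall ?_
  rw [Metric.mem_closedBall, Prod.dist_eq, max_le_iff, Real.dist_eq, Real.dist_eq]
  have e1 : |R * z.1 - p.1 - (0 : Pl).1| ≤ 1 := by
    rw [Prod.fst_zero, sub_zero]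
    exact h1
  have e2 : |R * z.2 - p.2 - (0 : Pl).2| ≤ 1 := by
    rw [Prod.snd_zero, sub_zero]
    exact h2
  exact ⟨e1, e2⟩

theorem bmq_bigSq {L R : ℕ} (hR : 1 ≤ R) {p : ℤ × ℤ} (hp : p ∈ grid L R) {z : Pl}
    (hz : bmq R p z ≠ 0) :
    z ∈ Icc (-((L : ℝ) + 2)) (L + 2) ×ˢ Icc (-((L : ℝ) + 2)) (L + 2) := by
  have hR0 : (1 : ℝ) ≤ R := by exact_mod_cast hR
  have key : ∀ (q : ℤ) (t : ℝ), q ∈ Finset.Ico (-(L * R : ℤ)) (L * R) →
      |R * t - q| < 2 → t ∈ Icc (-((L : ℝ) + 2)) (L + 2) := by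
    intro q t hq ht
    rw [Finset.mem_Ico] at hq
    have h1 : (-(L * R : ℝ)) ≤ q := by exact_mod_cast hq.1
    have h2 : (q : ℝ) ≤ L * R := by exact_mod_cast hq.2.le
    rw [abs_lt] at ht
    constructor
    · by_contra hlt
      push Not at hlt
      nlinarith
    · by_contra hlt
      push Not at hlt
      nlinarith
  unfold grid at hp
  rw [Finset.mem_product] at hp
  have h := bmq_ball hz
  exact ⟨key _ _ hp.1 h.1, key _ _ hp.2 h.2⟩

theorem bmq_compact {R : ℕ} (hR : 1 ≤ R) (p : ℤ × ℤ) : HasCompactSupport (bmq R p) := by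
  have hR0 : (0 : ℝ) < R := by exact_mod_cast hR
  refine HasCompactSupport.intro (K := Icc (((p.1 : ℝ) - 2) / R) (((p.1 : ℝ) + 2) / R) ×ˢ
    Icc (((p.2 : ℝ) - 2) / R) (((p.2 : ℝ) + 2) / R)) (isCompact_Icc.prod isCompact_Icc) ?_
  intro z hz
  by_contra hne
  have h := bmq_ball hne
  rw [abs_lt, abs_lt] at h
  refine hz ⟨⟨?_, ?_⟩, ⟨?_, ?_⟩⟩
  · rw [div_le_iff₀ hR0]; linarith [h.1.1]
  · rw [le_div_iff₀ hR0]; linarith [h.1.2]
  · rw [div_le_iff₀ hR0]; linarith [h.2.1]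
  · rw [le_div_iff₀ hR0]; linarith [h.2.2]

theorem per_bmq_nonneg (R : ℕ) (p : ℤ × ℤ) (z : Pl) : 0 ≤ per Γ (bmq R p) z :=
  finsum_nonneg fun _ => bmq_nonneg R p _

theorem per_bmq_le (hX : Surface Γ D) (L : ℕ) : ∃ C : ℝ, 0 < C ∧ ∀ R : ℕ, 1 ≤ R →
    ∀ p ∈ grid L R, ∀ z, per Γ (bmq R p) z ≤ C := by
  classical
  set K : Set Pl := closure D ∪ Icc (-((L : ℝ) + 2)) (L + 2) ×ˢ Icc (-((L : ℝ) + 2)) (L + 2) with hK
  have hKc : IsCompact K := hX.bdd.isCompact_closure.union (isCompact_Icc.prod isCompact_Icc)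
  have hfin := hX.proper K hKc
  refine ⟨hfin.toFinset.card + 1, by positivity, fun R hR p hp z => ?_⟩
  obtain ⟨γ, hγ, -⟩ := hX.orbit z
  rw [← PER_inv (bmq R p) γ z]
  set w : Pl := γ • z with hw
  have hsub : Function.support (fun γ' : Γ => bmq R p (γ' • w)) ⊆ hfin.toFinset := by
    intro γ' hγ'
    rw [Finset.mem_coe, Set.Finite.mem_toFinset]
    exact ⟨w, Or.inl (subset_closure hγ), Or.inr (bmq_bigSq hR hp hγ')⟩
  unfold per
  rw [finsum_eq_sum_of_support_subset _ hsub]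
  calc ∑ γ' ∈ hfin.toFinset, bmq R p (γ' • w) ≤ ∑ _γ' ∈ hfin.toFinset, (1 : ℝ) :=
        Finset.sum_le_sum fun γ' _ => bmq_le_one R p _
    _ = hfin.toFinset.card := by simp
    _ ≤ hfin.toFinset.card + 1 := by linarith

/-- The periodised bump function is at least the bump function. -/
theorem per_bmq_ge (hX : Surface Γ D) {R : ℕ} (hR : 1 ≤ R) (p : ℤ × ℤ) (z : Pl) :
    bmq R p z ≤ per Γ (bmq R p) z := by
  obtain ⟨S, hS0, hS⟩ := PER_fin hX (bmq_compact hR p) (isCompact_singleton (x := z))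
  by_cases h1 : (1 : Γ) ∈ S
  · rw [hS z rfl]
    calc bmq R p z = bmq R p ((1 : Γ) • z) := by rw [one_smul]
      _ ≤ ∑ γ ∈ S, bmq R p (γ • z) :=
        Finset.single_le_sum (f := fun γ : Γ => bmq R p (γ • z)) (fun γ _ => bmq_nonneg R p _) h1
  · have h2 := hS0 z rfl 1 h1
    rw [one_smul] at h2
    rw [h2]
    exact per_bmq_nonneg R p z

/-- The periodised bump function vanishes at the points whose translates avoid the support. -/
theorem per_bmq_zero {R : ℕ} {p : ℤ × ℤ} {z : Pl}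
    (h : ∀ γ : Γ, ¬(|R * (γ • z).1 - p.1| < 2 ∧ |R * (γ • z).2 - p.2| < 2)) :
    per Γ (bmq R p) z = 0 := by
  unfold per
  refine (finsum_congr fun γ => ?_).trans finsum_zero
  by_contra hne
  exact h γ (bmq_ball hne)

/-- On a compact set only finitely many elements of the group contribute, uniformly. -/
theorem QMD_fin (hX : Surface Γ D) (L : ℕ) {K : Set Pl} (hK : IsCompact K) :
    ∃ S : Finset Γ, ∀ R : ℕ, 1 ≤ R → ∀ p ∈ grid L R, ∀ z ∈ K,
      per Γ (bmq R p) z = ∑ γ ∈ S, bmq R p (γ • z) := by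
  have hfin := hX.proper (K ∪ Icc (-((L : ℝ) + 2)) (L + 2) ×ˢ Icc (-((L : ℝ) + 2)) (L + 2))
    (hK.union (isCompact_Icc.prod isCompact_Icc))
  refine ⟨hfin.toFinset, fun R hR p hp z hz => ?_⟩
  unfold per
  apply finsum_eq_sum_of_support_subset
  intro γ hγ
  rw [Finset.mem_coe, Finite.mem_toFinset]
  exact ⟨z, Or.inl hz, Or.inr (bmq_bigSq hR hp hγ)⟩

/-- The derivatives of the basic bump function are bounded. -/
theorem QMD_bump (r : ℕ) : ∃ C : ℝ, 0 ≤ C ∧ ∀ i ≤ r, ∀ z : Pl,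
    ‖iteratedFDeriv ℝ i (fun w : Pl => bump1 w) z‖ ≤ C := by
  have h : ∀ i : ℕ, ∃ C : ℝ, ∀ z : Pl, ‖iteratedFDeriv ℝ i (fun w : Pl => bump1 w) z‖ ≤ C := by
    intro i
    have hs : ContDiff ℝ ∞ (fun w : Pl => bump1 w) := bump1.contDiff
    have hc : HasCompactSupport (fun w : Pl => bump1 w) := bump1.hasCompactSupport
    exact (hs.continuous_iteratedFDeriv (by exact_mod_cast le_top)).bounded_above_of_compact_support
      (hc.iteratedFDeriv i)
  choose C hC using h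
  refine ⟨∑ i ∈ Finset.range (r + 1), |C i|, Finset.sum_nonneg fun i _ => abs_nonneg _,
    fun i hi z => (hC i z).trans ((le_abs_self _).trans ?_)⟩
  exact Finset.single_le_sum (f := fun i => |C i|) (fun i _ => abs_nonneg _)
    (Finset.mem_range.2 (by omega))

/-- One derivative bound for finitely many elements of the group on a compact set. -/
theorem QMD_act (hX : Surface Γ D) (S : Finset Γ) (r : ℕ) {K : Set Pl} (hK : IsCompact K) :
    ∃ M : ℝ, 1 ≤ M ∧ ∀ γ ∈ S, ∀ i ≤ r, ∀ z ∈ K,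
      ‖iteratedFDeriv ℝ i (fun w : Pl => γ • w) z‖ ≤ M := by
  have h : ∀ (γ : Γ) (i : ℕ), ∃ C : ℝ, ∀ z ∈ K,
      ‖iteratedFDeriv ℝ i (fun w : Pl => γ • w) z‖ ≤ C := by
    intro γ i
    exact hK.exists_bound_of_continuousOn
      ((hX.smooth γ).continuous_iteratedFDeriv (by exact_mod_cast le_top)).continuousOn
  choose C hC using h
  refine ⟨1 + ∑ γ ∈ S, ∑ i ∈ Finset.range (r + 1), |C γ i|, ?_, ?_⟩
  · have : 0 ≤ ∑ γ ∈ S, ∑ i ∈ Finset.range (r + 1), |C γ i| :=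
      Finset.sum_nonneg fun γ _ => Finset.sum_nonneg fun i _ => abs_nonneg _
    linarith
  · intro γ hγ i hi z hz
    have h1 : |C γ i| ≤ ∑ i ∈ Finset.range (r + 1), |C γ i| :=
      Finset.single_le_sum (f := fun i => |C γ i|) (fun i _ => abs_nonneg _)
        (Finset.mem_range.2 (by omega))
    have h2 : ∑ i ∈ Finset.range (r + 1), |C γ i| ≤
        ∑ γ ∈ S, ∑ i ∈ Finset.range (r + 1), |C γ i| :=
      Finset.single_le_sum (f := fun γ => ∑ i ∈ Finset.range (r + 1), |C γ i|)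
        (fun γ _ => Finset.sum_nonneg fun i _ => abs_nonneg _) hγ
    have h3 := hC γ i z hz
    have h4 := le_abs_self (C γ i)
    linarith

theorem per_bmq_deriv (hX : Surface Γ D) (L r : ℕ) {K : Set Pl} (hK : IsCompact K) :
    ∃ C : ℝ, 0 < C ∧ ∀ R : ℕ, 1 ≤ R → ∀ p ∈ grid L R, ∀ j ≤ r, ∀ z ∈ K,
      ‖iteratedFDeriv ℝ j (per Γ (bmq R p)) z‖ ≤ C * (R : ℝ) ^ r := by
  obtain ⟨S, hS⟩ := QMD_fin hX L (hK.cthickening (r := 1))
  obtain ⟨C0, hC0, hb⟩ := QMD_bump r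
  obtain ⟨M, hM1, hM⟩ := QMD_act hX S r hK
  have hM0 : 0 < M := by linarith
  refine ⟨1 + S.card * ((r.factorial : ℝ) * C0 * M ^ r), by positivity, ?_⟩
  intro R hR p hp j hj z hz
  have hR1 : (1 : ℝ) ≤ R := by exact_mod_cast hR
  have hR0 : (0 : ℝ) < R := by linarith
  have hRM : 1 ≤ (R : ℝ) * M := one_le_mul_of_one_le_of_one_le hR1 hM1
  -- near `z` the periodisation is a finite sum
  have h1 : per Γ (bmq R p) =ᶠ[𝓝 z] fun w => ∑ γ ∈ S, bmq R p (γ • w) := by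
    filter_upwards [Metric.ball_mem_nhds z one_pos] with w hw
    refine hS R hR p hp w ?_
    exact Metric.mem_cthickening_of_dist_le w z 1 K hz hw.le
  rw [(Filter.EventuallyEq.iteratedFDeriv ℝ h1 j).eq_of_nhds]
  have hsm : ∀ γ ∈ S, ContDiffAt ℝ j (fun w : Pl => bmq R p (γ • w)) z := by
    intro γ _
    have : ContDiff ℝ ∞ (fun w : Pl => bmq R p (γ • w)) := (bmq_smooth R p).comp (hX.smooth γ)
    exact (this.of_le (by exact_mod_cast le_top)).contDiffAt
  rw [iteratedFDeriv_fun_sum_apply hsm]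
  refine (norm_sum_le _ _).trans ?_
  have key : ∀ γ ∈ S, ‖iteratedFDeriv ℝ j (fun w : Pl => bmq R p (γ • w)) z‖ ≤
      (r.factorial : ℝ) * C0 * M ^ r * (R : ℝ) ^ r := by
    intro γ hγ
    have e : (fun w : Pl => bmq R p (γ • w)) =
        (fun w : Pl => bump1 w) ∘ (fun w : Pl => (R : ℝ) • (γ • w) + ((-(p.1 : ℝ), -(p.2 : ℝ)) : Pl)) := by
      funext w
      simp only [bmq, Function.comp_apply]
      congr 1
    rw [e]
    have hg : ContDiff ℝ ∞ (fun w : Pl => bump1 w) := bump1.contDiff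
    have hf0 : ContDiff ℝ ∞ (fun w : Pl => (R : ℝ) • (γ • w)) := (hX.smooth γ).const_smul (R : ℝ)
    have hf : ContDiff ℝ ∞ (fun w : Pl => (R : ℝ) • (γ • w) + ((-(p.1 : ℝ), -(p.2 : ℝ)) : Pl)) :=
      hf0.add contDiff_const
    have hcomp := norm_iteratedFDeriv_comp_le hg hf (n := j) (by exact_mod_cast le_top) z
      (C := C0) (D := (R : ℝ) * M) (fun i hi => hb i (hi.trans hj) _) (by
        intro i hi1 hi2
        have hi : ContDiffAt ℝ i (fun w : Pl => γ • w) z :=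
          ((hX.smooth γ).of_le (by exact_mod_cast le_top)).contDiffAt
        have ha : iteratedFDeriv ℝ i
            (fun w : Pl => (R : ℝ) • (γ • w) + ((-(p.1 : ℝ), -(p.2 : ℝ)) : Pl)) z =
            (R : ℝ) • iteratedFDeriv ℝ i (fun w : Pl => γ • w) z := by
          have h3 : ContDiffAt ℝ i (fun w : Pl => (R : ℝ) • (γ • w)) z :=
            (hf0.of_le (by exact_mod_cast le_top)).contDiffAt
          rw [fun_iteratedFDeriv_add_apply h3 contDiffAt_const, iteratedFDeriv_const_of_ne (by omega),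
            iteratedFDeriv_const_smul_apply' hi]
          simp
        rw [ha, norm_smul, Real.norm_of_nonneg hR0.le]
        calc (R : ℝ) * ‖iteratedFDeriv ℝ i (fun w : Pl => γ • w) z‖ ≤ R * M :=
              mul_le_mul_of_nonneg_left (hM γ hγ i (hi2.trans hj) z hz) hR0.le
          _ = (R * M) ^ 1 := (pow_one _).symm
          _ ≤ (R * M) ^ i := pow_le_pow_right₀ hRM hi1)
    refine hcomp.trans ?_
    have f1 : ((j.factorial : ℕ) : ℝ) ≤ r.factorial := by exact_mod_cast Nat.factorial_le hj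
    have f2 : ((R : ℝ) * M) ^ j ≤ (R * M) ^ r := pow_le_pow_right₀ hRM hj
    calc (j.factorial : ℝ) * C0 * ((R : ℝ) * M) ^ j ≤ (r.factorial : ℝ) * C0 * (R * M) ^ r := by
          gcongr
      _ = (r.factorial : ℝ) * C0 * M ^ r * (R : ℝ) ^ r := by rw [mul_pow]; ring
  refine (Finset.sum_le_sum key).trans ?_
  rw [Finset.sum_const, nsmul_eq_mul]
  have hRr : 0 < (R : ℝ) ^ r := by positivity
  nlinarith [hRr]


end BGM
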