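import Pool.Agent.LibBGM20.A3
import Pool.Agent.LibBGM20.A4

/-! ROW A5 : the distance is the norm of `V`; law of cosines inequality. Uses A2, A3, A4.
PLAN. Let `c` be a `C¹` curve from `E x v` to `E x w`, `u t = V x (c t)` (C¹, from `v` to `w`, and
`c t = E x (u t)` by `Had.EV`), so `deriv c t = fderiv (E x) (u t) (deriv u t)` and
`nm (m (c t)) (deriv c t) ≥ eu (deriv u t)` (`A3_ge`). `A5_int`: with `e = (w - v) / eu (w - v)`,
`ip e (deriv u t) ≤ eu (deriv u t)` and `∫ ip e (deriv u) = ip e (w - v) = eu (w - v)`. This is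
`A5_len`; `ds_ge` by `le_ds`. `ds_E`: the curve `t ↦ E x (t v)` has length `eu v` (`A3_rad`), and
`ds_ge` with the other end `0`. -/

open MeasureTheory Set Filter Topology
open scoped ContDiff

namespace BGM

open BGS

variable {m : Pl → Co} {k : ℝ} {E V : Pl → Pl → Pl} {F : Pl → Pl → ℝ → ℝ}

theorem A5_int {u : ℝ → Pl} (hu : ContDiff ℝ 1 u) :
    eu (u 1 - u 0) ≤ ∫ t in (0 : ℝ)..1, eu (deriv u t) := by
  set d : Pl := u 1 - u 0 with hd
  have hcont : Continuous (deriv u) := hu.continuous_deriv (by norm_num)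
  have hi1 : Continuous fun t => eu (deriv u t) := eu_continuous.comp hcont
  by_cases h0 : d = 0
  · rw [h0, eu_zero]
    exact intervalIntegral.integral_nonneg zero_le_one fun t _ => eu_nonneg _
  · have hed : eu d ≠ 0 := fun h => h0 (eu_eq_zero.1 h)
    have hed0 : 0 < eu d := lt_of_le_of_ne (eu_nonneg _) (Ne.symm hed)
    set e : Pl := (eu d)⁻¹ • d with he
    have he1 : eu e = 1 := by
      rw [he, eu_smul, abs_of_pos (inv_pos.2 hed0), inv_mul_cancel₀ hed]
    have hed' : ip e d = eu d := by
      have h1 : ip e d = (eu d)⁻¹ * eu d ^ 2 := by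
        rw [eu_sq, he]
        simp only [ip, Prod.smul_fst, Prod.smul_snd, smul_eq_mul]
        ring
      rw [h1]
      field_simp
    have hder : ∀ t : ℝ, HasDerivAt (fun t => ip e (u t)) (ip e (deriv u t)) t := by
      intro t
      have h1 : HasDerivAt u (deriv u t) t :=
        (hu.differentiable (by norm_num) t).hasDerivAt
      have h2 : HasDerivAt (fun t => (u t).1) (deriv u t).1 t :=
        (ContinuousLinearMap.fst ℝ ℝ ℝ).hasFDerivAt.comp_hasDerivAt t h1
      have h3 : HasDerivAt (fun t => (u t).2) (deriv u t).2 t :=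
        (ContinuousLinearMap.snd ℝ ℝ ℝ).hasFDerivAt.comp_hasDerivAt t h1
      exact (h2.const_mul e.1).add (h3.const_mul e.2)
    have hi2 : Continuous fun t => ip e (deriv u t) := by
      unfold ip
      exact (continuous_const.mul (continuous_fst.comp hcont)).add
        (continuous_const.mul (continuous_snd.comp hcont))
    have h4 : ∫ t in (0 : ℝ)..1, ip e (deriv u t) = ip e (u 1) - ip e (u 0) :=
      intervalIntegral.integral_eq_sub_of_hasDerivAt (fun t _ => hder t)
        (hi2.intervalIntegrable 0 1)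
    have h5 : ip e (u 1) - ip e (u 0) = ip e d := by
      simp only [hd, ip, Prod.fst_sub, Prod.snd_sub]
      ring
    rw [h5, hed'] at h4
    rw [← h4]
    refine intervalIntegral.integral_mono_on zero_le_one (hi2.intervalIntegrable 0 1)
      (hi1.intervalIntegrable 0 1) fun t _ => ?_
    have h6 := ip_le e (deriv u t)
    rwa [he1, one_mul] at h6

/-- The velocity of a curve in exponential coordinates. -/
theorem A5_vel (h : Had m k E V F) (x : Pl) {c : ℝ → Pl} (hc : ContDiff ℝ 1 c) :
    ContDiff ℝ 1 (fun t => V x (c t)) ∧ ∀ t,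
      deriv c t = fderiv ℝ (E x) (V x (c t)) (deriv (fun t => V x (c t)) t) := by
  obtain ⟨hE, hV⟩ := A3_smooth h x
  have hu : ContDiff ℝ 1 (fun t => V x (c t)) := (hV.of_le (by exact_mod_cast le_top)).comp hc
  refine ⟨hu, fun t => ?_⟩
  have h1 : HasDerivAt (fun t => V x (c t)) (deriv (fun t => V x (c t)) t) t :=
    (hu.differentiable (by norm_num) t).hasDerivAt
  have h2 : HasFDerivAt (E x) (fderiv ℝ (E x) (V x (c t))) (V x (c t)) :=
    (hE.differentiable (by simp) _).hasFDerivAt
  have h3 := h2.comp_hasDerivAt t h1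
  have h4 : (E x ∘ fun t => V x (c t)) = c := by
    funext t
    exact h.EV x (c t)
  rw [h4] at h3
  exact h3.deriv

theorem A5_len (h : Had m k E V F) (x v w : Pl) {c : ℝ → Pl} (hc : ContDiff ℝ 1 c)
    (h0 : c 0 = E x v) (h1 : c 1 = E x w) : eu (v - w) ≤ len m c 0 1 := by
  obtain ⟨hu, hd⟩ := A5_vel h x hc
  have h2 := A5_int hu
  have e0 : V x (c 0) = v := by rw [h0, h.VE]
  have e1 : V x (c 1) = w := by rw [h1, h.VE]
  have h2' : eu (w - v) ≤ ∫ t in (0 : ℝ)..1, eu (deriv (fun t => V x (c t)) t) := by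
    simpa only [e0, e1] using h2
  have h3 : eu (v - w) = eu (w - v) := by rw [← eu_neg, neg_sub]
  rw [h3]
  refine h2'.trans ?_
  unfold len
  have hi1 : Continuous fun t => eu (deriv (fun t => V x (c t)) t) :=
    eu_continuous.comp (hu.continuous_deriv (by norm_num))
  refine intervalIntegral.integral_mono_on zero_le_one (hi1.intervalIntegrable 0 1)
    ((A4_cont h.rp hc).intervalIntegrable 0 1) fun t _ => ?_
  have h4 := A3_ge h x (V x (c t)) (deriv (fun t => V x (c t)) t)
  rw [← hd t, h.EV] at h4
  exact h4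

/-- The law of cosines inequality. -/
theorem ds_ge (h : Had m k E V F) (x v w : Pl) : eu (v - w) ≤ ds m (E x v) (E x w) := by
  exact le_ds m fun c hc h0 h1 => A5_len h x v w hc h0 h1

theorem ds_E (h : Had m k E V F) (x v : Pl) : ds m x (E x v) = eu v := by
  apply le_antisymm
  · have hE := (A3_smooth h x).1
    have hl : ContDiff ℝ ∞ fun t : ℝ => t • v := contDiff_id.smul contDiff_const
    have hc : ContDiff ℝ 1 fun t : ℝ => E x (t • v) :=
      (hE.comp hl).of_le (by exact_mod_cast le_top)
    have h1 := ds_le h.rp hc zero_le_one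
    have h2 : len m (fun t : ℝ => E x (t • v)) 0 1 = eu v := by
      unfold len
      have h3 : ∀ t : ℝ, nm (m (E x (t • v))) (deriv (fun t : ℝ => E x (t • v)) t) = eu v := by
        intro t
        have h4 : HasDerivAt (fun t : ℝ => t • v) v t := by
          have := (hasDerivAt_id t).smul_const v
          simpa using this
        have h5 : HasFDerivAt (E x) (fderiv ℝ (E x) (t • v)) (t • v) :=
          (hE.differentiable (by simp) _).hasFDerivAt
        have h6 : HasDerivAt (fun t : ℝ => E x (t • v)) (fderiv ℝ (E x) (t • v) v) t :=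
          h5.comp_hasDerivAt t h4
        rw [h6.deriv]
        exact A3_rad h x v t
      simp only [h3]
      simp
    rw [h2] at h1
    simpa only [zero_smul, one_smul, h.E0] using h1
  · have h1 := ds_ge h x 0 v
    rw [h.E0, zero_sub, eu_neg] at h1
    exact h1

theorem ds_eq (h : Had m k E V F) (x y : Pl) : ds m x y = eu (V x y) := by
  have h1 := ds_E h x (V x y)
  rwa [h.EV] at h1

theorem V_self (h : Had m k E V F) (x : Pl) : V x x = 0 := by
  have h1 := h.VE x 0
  rwa [h.E0] at h1

theorem ds_eq_zero (h : Had m k E V F) {x y : Pl} : ds m x y = 0 ↔ x = y := by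
  rw [ds_eq h, eu_eq_zero]
  constructor
  · intro h1
    have h2 := h.EV x y
    rw [h1, h.E0] at h2
    exact h2
  · rintro rfl
    exact V_self h x

theorem ds_continuous (h : Had m k E V F) : Continuous fun q : Pl × Pl => ds m q.1 q.2 := by
  have h1 : (fun q : Pl × Pl => ds m q.1 q.2) = fun q => eu (V q.1 q.2) := by
    funext q
    exact ds_eq h q.1 q.2
  rw [h1]
  exact eu_continuous.comp h.smV.continuous

theorem ball_compact (h : Had m k E V F) (x : Pl) (r : ℝ) : IsCompact {y | ds m x y ≤ r} := by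
  have h1 : {y | ds m x y ≤ r} = E x '' {v | eu v ≤ r} := by
    ext y
    constructor
    · intro hy
      refine ⟨V x y, ?_, h.EV x y⟩
      show eu (V x y) ≤ r
      rw [← ds_eq h]
      exact hy
    · rintro ⟨v, hv, rfl⟩
      show ds m x (E x v) ≤ r
      rw [ds_E h]
      exact hv
  rw [h1]
  refine IsCompact.image ?_ (A3_smooth h x).1.continuous
  refine Metric.isCompact_of_isClosed_isBounded
    (isClosed_le eu_continuous continuous_const) ?_
  refine (Metric.isBounded_closedBall (x := (0 : Pl)) (r := r)).subset fun v hv => ?_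
  rw [mem_closedBall_zero_iff]
  exact (norm_le_eu v).trans hv

/-- The geodesics are lines. -/
theorem line_E (h : Had m k E V F) {x v : Pl} (hv : eu v = 1) :
    IsLine m fun t : ℝ => E x (t • v) := by
  intro s t
  obtain ⟨w, hw, h1⟩ := h.go x v s
  have h2 := h1 (t - s)
  rw [add_sub_cancel] at h2
  show ds m (E x (s • v)) (E x (t • v)) = |s - t|
  rw [h2, ds_E h, eu_smul, hw, hv, mul_one, abs_sub_comm]

end BGM
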