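import Pool.Agent.LibBGM20.A6
import Pool.Agent.LibBGM20.A4t

/-! ROW A7 : convexity (Busemann). Uses A2, A3, A4, A5, A6.
PLAN. `A7_t`: for a `C¹` curve `c` from `E a v` to `E a w`, `u t = V a (c t)`, the curve
`E a (s u t)` (`s` fixed in `[0, 1]`) goes from `E a (s v)` to `E a (s w)` and by `A3_t` has length at
most `s len c`. Take the infimum over `c`. `A7_other`: `Had.go` at `s = 1` for `v = V x y`
(`E x ((1 + t) v) = E y (t w)`, `t = -1` gives `V y x = -w`). `A7_quad`: the point at ratio `s` of the diagonal from `x₀` to `y₁`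
(`A7_t` at `x₀`, and at `y₁` with `A7_other`; triangle inequality `ds_tri`). `A7_convex`: by `Had.go` the point at
the time `(1 - s) a + s b` is `E p (s V p q)`, `p`, `q` the points at the times `a`, `b`. -/

open MeasureTheory Set Filter Topology
open scoped ContDiff

namespace BGM

open BGS

variable {m : Pl → Co} {k : ℝ} {E V : Pl → Pl → Pl} {F : Pl → Pl → ℝ → ℝ}

theorem A7_t (h : Had m k E V F) (a v w : Pl) {s : ℝ} (hs : 0 ≤ s) (hs' : s ≤ 1) :
    ds m (E a (s • v)) (E a (s • w)) ≤ s * ds m (E a v) (E a w) := by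
  rcases hs.eq_or_lt with hs0 | hs0
  · rw [← hs0, zero_smul, zero_smul, ds_self h.rp, zero_mul]
  have hkey : ds m (E a (s • v)) (E a (s • w)) / s ≤ ds m (E a v) (E a w) := by
    refine le_ds m fun c hc h0 h1 => ?_
    rw [div_le_iff₀ hs0, mul_comm]
    obtain ⟨hu, hvel⟩ := A5_vel h a hc
    have hE : ContDiff ℝ ∞ (E a) := (A3_smooth h a).1
    have hE1 : ContDiff ℝ 1 (E a) := hE.of_le (by exact_mod_cast le_top)
    set u : ℝ → Pl := fun t => V a (c t) with hud
    have hd : ContDiff ℝ 1 fun t => E a (s • u t) := hE1.comp (hu.const_smul s)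
    have hd0 : E a (s • u 0) = E a (s • v) := by
      rw [hud]
      simp only []
      rw [h0, h.VE]
    have hd1 : E a (s • u 1) = E a (s • w) := by
      rw [hud]
      simp only []
      rw [h1, h.VE]
    have hle := ds_le h.rp hd (zero_le_one' ℝ)
    rw [hd0, hd1] at hle
    refine hle.trans ?_
    unfold len
    rw [← intervalIntegral.integral_const_mul]
    refine intervalIntegral.integral_mono_on zero_le_one ?_ ?_ ?_
    · exact (A4_cont h.rp hd).intervalIntegrable _ _
    · exact ((A4_cont h.rp hc).const_mul s).intervalIntegrable _ _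
    · intro t _
      have hdu : HasDerivAt u (deriv u t) t :=
        ((hu.differentiable (by norm_num)) t).hasDerivAt
      have hdE : HasFDerivAt (E a) (fderiv ℝ (E a) (s • u t)) (s • u t) :=
        ((hE1.differentiable (by norm_num)) _).hasFDerivAt
      have hdd : HasDerivAt (fun t => E a (s • u t))
          (fderiv ℝ (E a) (s • u t) (s • deriv u t)) t :=
        hdE.comp_hasDerivAt t (hdu.const_smul s)
      rw [hdd.deriv]
      refine (A3_t h a (u t) (deriv u t) hs hs').trans ?_
      have hv := hvel t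
      change deriv c t = fderiv ℝ (E a) (u t) (deriv u t) at hv
      rw [← hv]
      have hc' : E a (u t) = c t := h.EV a (c t)
      rw [hc']
  rw [div_le_iff₀ hs0] at hkey
  linarith

/-- The point at ratio `s` between two points, seen from the other end. -/
theorem A7_other (h : Had m k E V F) (x y : Pl) (s : ℝ) :
    E x (s • V x y) = E y ((1 - s) • V y x) := by
  obtain ⟨w, -, hw⟩ := h.go x (V x y) 1
  have h1 : E x ((1 : ℝ) • V x y) = y := by rw [one_smul, h.EV]
  have h2 : V y x = -w := by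
    have h3 := hw (-1)
    rw [add_neg_cancel, zero_smul, h.E0, h1, neg_smul, one_smul] at h3
    have h6 := congrArg (V y) h3
    rw [h.VE] at h6
    exact h6
  have h4 := hw (s - 1)
  rw [h1] at h4
  have h5 : (1 : ℝ) + (s - 1) = s := by ring
  rw [h5] at h4
  rw [h4, h2]
  congr 1
  rw [smul_neg, ← neg_smul]
  congr 1
  ring

/-- Convexity of the distance between two segments. -/
theorem A7_quad (h : Had m k E V F) (x₀ x₁ y₀ y₁ : Pl) {s : ℝ} (hs : 0 ≤ s) (hs' : s ≤ 1) :
    ds m (E x₀ (s • V x₀ x₁)) (E y₀ (s • V y₀ y₁)) ≤ (1 - s) * ds m x₀ y₀ + s * ds m x₁ y₁ := by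
  have h1 : ds m (E x₀ (s • V x₀ x₁)) (E x₀ (s • V x₀ y₁)) ≤ s * ds m x₁ y₁ := by
    have h2 := A7_t h x₀ (V x₀ x₁) (V x₀ y₁) hs hs'
    rwa [h.EV, h.EV] at h2
  have h3 : ds m (E x₀ (s • V x₀ y₁)) (E y₀ (s • V y₀ y₁)) ≤ (1 - s) * ds m x₀ y₀ := by
    rw [A7_other h x₀ y₁ s, A7_other h y₀ y₁ s]
    have h2 := A7_t h y₁ (V y₁ x₀) (V y₁ y₀) (s := 1 - s) (by linarith) (by linarith)
    rwa [h.EV, h.EV] at h2
  have h4 := ds_tri h.rp (E x₀ (s • V x₀ x₁)) (E x₀ (s • V x₀ y₁)) (E y₀ (s • V y₀ y₁))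
  linarith

/-- The distance between two geodesics is convex. -/
theorem A7_convex (h : Had m k E V F) {x y v w : Pl} :
    ConvexOn ℝ univ fun t : ℝ => ds m (E x (t • v)) (E y (t • w)) := by
  have hkey : ∀ (x v : Pl) (s t b : ℝ), E x ((s + b * (t - s)) • v) =
      E (E x (s • v)) (b • V (E x (s • v)) (E x (t • v))) := by
    intro x v s t b
    obtain ⟨w, -, hw⟩ := h.go x v s
    have h1 := hw (t - s)
    rw [add_sub_cancel] at h1
    rw [hw, h1, h.VE, smul_smul]
  refine ⟨convex_univ, ?_⟩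
  intro s _ t _ a b _ hb hab
  simp only [smul_eq_mul]
  have h1 : a * s + b * t = s + b * (t - s) := by
    have : a = 1 - b := by linarith
    rw [this]
    ring
  have h2 : a = 1 - b := by linarith
  rw [h1, hkey x v s t b, hkey y w s t b, h2]
  exact A7_quad h _ _ _ _ hb (by linarith)


end BGM
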