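import Pool.Agent.LibBGM20.D2

/-! ROW D4 : local comparison with the norm of the plane. Uses A2, A4, D1, D2. -/

open MeasureTheory Set Filter Topology
open scoped ContDiff unitInterval

namespace BGM

open BGS
open Pool.BGR (PM upI pj)

variable {Γ : Type} [Group Γ] [MulAction Γ Pl] {D : Set Pl} {m : Pl → Co} {ψ : Pl → ℝ} {L : ℕ}
  {c : ℕ → ℝ}

theorem D4_dom (h : Cx Γ D m ψ L c) {z : Pl} (hz : z ∈ closure D) : ‖z‖ ≤ L := by
  have h1 := h.dom z hz
  rw [Prod.norm_def, max_le_iff, Real.norm_eq_abs, Real.norm_eq_abs]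
  exact ⟨by linarith [h1.1], by linarith [h1.2]⟩

theorem D2_loc (h : Cx Γ D m ψ L c) : ∃ C : ℝ, 1 ≤ C ∧ ∀ (ξ : Dir → I), ∀ z ∈ closure D,
    ∀ w : Pl, ‖w - z‖ ≤ 3 → ds (mx Γ m ψ L c ξ) z w ≤ C * ‖w - z‖ := by
  obtain ⟨C, hC, h1⟩ := ds_le_norm h.rp (isCompact_closedBall (0 : Pl) (L + 4))
    (convex_closedBall 0 _)
  obtain ⟨M, hM, h2⟩ := D2_cmp h
  refine ⟨M * C, one_le_mul_of_one_le_of_one_le hM hC, fun ξ z hz w hw => ?_⟩
  have hz' := D4_dom h hz
  have h3 : z ∈ Metric.closedBall (0 : Pl) (L + 4) := by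
    rw [mem_closedBall_zero_iff]
    linarith
  have h4 : w ∈ Metric.closedBall (0 : Pl) (L + 4) := by
    rw [mem_closedBall_zero_iff]
    have h5 : ‖w‖ ≤ ‖w - z‖ + ‖z‖ := by
      have := norm_add_le (w - z) z
      rwa [sub_add_cancel] at this
    linarith
  calc ds (mx Γ m ψ L c ξ) z w ≤ M * ds m z w := (h2 ξ z w).1
    _ ≤ M * (C * ‖w - z‖) := mul_le_mul_of_nonneg_left (h1 z h3 w h4) (by linarith)
    _ = M * C * ‖w - z‖ := by ring

theorem D2_stay (h : Cx Γ D m ψ L c) : ∃ C : ℝ, 1 ≤ C ∧ ∀ (ξ : Dir → I) (e : ℝ → Pl),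
    ContDiff ℝ 1 e → (∀ t, nm (mx Γ m ψ L c ξ (e t)) (deriv e t) = 1) → ‖e 0‖ ≤ L + 1 →
    ∀ t, 0 ≤ t → t ≤ 1 / C → ‖e t - e 0‖ ≤ C * t := by
  obtain ⟨C₀, hC₀, h1⟩ := nm_equiv h.rp (isCompact_closedBall (0 : Pl) (L + 2))
  obtain ⟨M, hM, h2⟩ := D2_bound h
  have hE : 0 < Real.exp (M / 2) := Real.exp_pos _
  set C : ℝ := C₀ * Real.exp (M / 2) + 1 with hC
  have hC1 : 1 ≤ C := by
    have : 0 ≤ C₀ * Real.exp (M / 2) := by positivity
    linarith
  have hC0 : 0 < C := by linarith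
  refine ⟨C, hC1, fun ξ e he hn h0 t ht ht1 => ?_⟩
  have hd : ∀ x, HasDerivAt e (deriv e x) x := fun x =>
    (he.differentiable one_ne_zero x).hasDerivAt
  have key := image_norm_le_of_norm_deriv_right_lt_deriv_boundary' (a := 0) (b := 1 / C)
    (f := fun s => e s - e 0) (f' := fun s => deriv e s) (B := fun s => C * s) (B' := fun _ => C)
    ((he.continuous.sub continuous_const).continuousOn)
    (fun x _ => ((hd x).sub_const _).hasDerivWithinAt) (by simp)
    (by fun_prop) (fun x _ => by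
      have := (hasDerivAt_id x).const_mul C
      rw [mul_one] at this
      exact this.hasDerivWithinAt) (by
      intro x hx hxe
      have h3 : ‖e x - e 0‖ ≤ 1 := by
        have h4 : ‖e x - e 0‖ = C * x := hxe
        rw [h4]
        have h5 := hx.2.le
        rw [le_div_iff₀ hC0] at h5
        linarith
      have h6 : e x ∈ Metric.closedBall (0 : Pl) (L + 2) := by
        rw [mem_closedBall_zero_iff]
        have h7 : ‖e x‖ ≤ ‖e x - e 0‖ + ‖e 0‖ := by
          have := norm_add_le (e x - e 0) (e 0)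
          rwa [sub_add_cancel] at this
        linarith
      have h8 := (h1 (e x) h6 (deriv e x)).2
      have h9 : Real.exp (ex Γ ψ L c ξ (e x) / 2) * nm (m (e x)) (deriv e x) = 1 := by
        rw [← D1_nm]
        exact hn x
      have h10 : nm (m (e x)) (deriv e x) ≤ Real.exp (M / 2) := by
        have h11 : Real.exp (-(M / 2)) ≤ Real.exp (ex Γ ψ L c ξ (e x) / 2) := by
          apply Real.exp_le_exp.2
          have := (abs_le.1 (h2 ξ (e x))).1
          linarith
        have h12 : Real.exp (-(M / 2)) * nm (m (e x)) (deriv e x) ≤ 1 := by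
          rw [← h9]
          exact mul_le_mul_of_nonneg_right h11 (nm_nonneg _ _)
        calc nm (m (e x)) (deriv e x)
            = Real.exp (M / 2) * (Real.exp (-(M / 2)) * nm (m (e x)) (deriv e x)) := by
              rw [← mul_assoc, ← Real.exp_add, add_neg_cancel, Real.exp_zero, one_mul]
          _ ≤ Real.exp (M / 2) * 1 := mul_le_mul_of_nonneg_left h12 hE.le
          _ = Real.exp (M / 2) := mul_one _
      have h13 : C₀ * nm (m (e x)) (deriv e x) ≤ C₀ * Real.exp (M / 2) :=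
        mul_le_mul_of_nonneg_left h10 (by linarith)
      change ‖deriv e x‖ < C
      linarith)
  exact key ⟨ht, ht1⟩

end BGM
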