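import Pool.Agent.LibBGM20.A5
import Pool.Agent.LibBGR.Per

/-! ROW B1 : the group acts freely, by isometries, properly. Uses A2, A4, A5.
PLAN. `B1_free`: `Surface.orbit`. `B1_ds`: a `C¹` curve `c` from `z` to `w` gives the curve `g • c` from
`g • z` to `g • w` of the same length (`Iv`, chain rule, `Surface.smooth`); the converse with `g⁻¹`.
-/

open MeasureTheory Set Filter Topology
open scoped ContDiff

namespace BGM

open BGS

variable {Γ : Type} [Group Γ] [MulAction Γ Pl] {D : Set Pl}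
variable {m : Pl → Co} {k : ℝ} {E V : Pl → Pl → Pl} {F : Pl → Pl → ℝ → ℝ}

theorem B1_free (hX : Surface Γ D) {g : Γ} {z : Pl} (h : g • z = z) : g = 1 := by
  obtain ⟨γ, hγ, hu⟩ := hX.orbit z
  have h1 : (γ * g) • z ∈ D := by rw [mul_smul, h]; exact hγ
  have h2 : γ * g = γ := hu _ h1
  simpa using h2

/-- The fundamental domain is not empty and has compact closure. -/
theorem B1_dom (hX : Surface Γ D) : IsCompact (closure D) ∧ (closure D).Nonempty := by
  refine ⟨hX.bdd.isCompact_closure, ?_⟩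
  obtain ⟨γ, hγ, -⟩ := hX.orbit 0
  exact ⟨γ • (0 : Pl), subset_closure hγ⟩

theorem B1_len (hX : Surface Γ D) (hi : Iv Γ m) (g : Γ) {c : ℝ → Pl} (hc : ContDiff ℝ 1 c)
    (a b : ℝ) : len m (fun t => g • c t) a b = len m c a b := by
  unfold len
  apply intervalIntegral.integral_congr
  intro t _
  show nm (m (g • c t)) (deriv (fun t => g • c t) t) = nm (m (c t)) (deriv c t)
  have hg : HasFDerivAt (fun w : Pl => g • w) (fderiv ℝ (fun w : Pl => g • w) (c t)) (c t) :=
    ((hX.smooth g).differentiable (by simp) (c t)).hasFDerivAt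
  have hct : HasDerivAt c (deriv c t) t :=
    ((hc.differentiable (by simp)) t).hasDerivAt
  have h1 : deriv (fun t => g • c t) t = fderiv ℝ (fun w : Pl => g • w) (c t) (deriv c t) :=
    (hg.comp_hasDerivAt t hct).deriv
  rw [h1]
  unfold nm
  rw [hi g (c t) (deriv c t)]

theorem B1_ds (hX : Surface Γ D) (hi : Iv Γ m) (g : Γ) (z w : Pl) :
    ds m (g • z) (g • w) = ds m z w := by
  unfold ds
  congr 1
  ext l
  constructor
  · rintro ⟨c, hc, h0, h1, hl⟩
    refine ⟨fun t => g⁻¹ • c t, ?_, ?_, ?_, ?_⟩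
    · exact ((hX.smooth g⁻¹).of_le (by simp)).comp hc
    · show g⁻¹ • c 0 = z
      rw [h0, inv_smul_smul]
    · show g⁻¹ • c 1 = w
      rw [h1, inv_smul_smul]
    · rw [B1_len hX hi g⁻¹ hc]; exact hl
  · rintro ⟨c, hc, h0, h1, hl⟩
    refine ⟨fun t => g • c t, ?_, ?_, ?_, ?_⟩
    · exact ((hX.smooth g).of_le (by simp)).comp hc
    · show g • c 0 = g • z
      rw [h0]
    · show g • c 1 = g • w
      rw [h1]
    · rw [B1_len hX hi g hc]; exact hl

theorem B1_line (hX : Surface Γ D) (hi : Iv Γ m) (g : Γ) {c : ℝ → Pl} (hc : IsLine m c) :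
    IsLine m fun t => g • c t := by
  intro s t
  rw [B1_ds hX hi, hc]

end BGM
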