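import Pool.Agent.LibBGR.AE_CC

/-! ROW S1 : a sequence which decreases rapidly, but as slowly as we like. -/

open MeasureTheory Set Filter Topology

namespace BGM

open BGS

theorem S1_w {ω : ℕ → ℝ} (hω : Tendsto ω atTop atTop) :
    ∃ w : ℕ → ℝ, Monotone w ∧ (∀ n, 0 ≤ w n) ∧ Tendsto w atTop atTop ∧
      ∀ᶠ n in atTop, w n ≤ ω n := by
  have hb : ∀ N, BddBelow (Set.range fun n : ℕ => max (ω (N + n)) 0) := fun N => ⟨0, by
    rintro _ ⟨n, rfl⟩
    exact le_max_right _ _⟩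
  refine ⟨fun N => ⨅ n : ℕ, max (ω (N + n)) 0, ?_, ?_, ?_, ?_⟩
  · intro N N' h
    refine le_ciInf fun n => ?_
    have h1 := ciInf_le (hb N) (N' - N + n)
    have h2 : N + (N' - N + n) = N' + n := by omega
    rw [h2] at h1
    exact h1
  · intro N
    exact le_ciInf fun n => le_max_right _ _
  · rw [tendsto_atTop_atTop]
    intro A
    obtain ⟨N0, hN0⟩ := (tendsto_atTop_atTop.1 hω) A
    exact ⟨N0, fun N hN => le_ciInf fun n => (hN0 _ (by omega)).trans (le_max_left _ _)⟩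
  · filter_upwards [hω.eventually_ge_atTop 0] with N hN
    have h1 := ciInf_le (hb N) 0
    rw [add_zero, max_eq_left hN] at h1
    exact h1

theorem S1_log (R : ℕ) : 0 ≤ Real.log ((R : ℝ) + 1) :=
  Real.log_nonneg (by linarith [(Nat.cast_nonneg R : (0 : ℝ) ≤ R)])

theorem S1_log_tendsto : Tendsto (fun R : ℕ => Real.log ((R : ℝ) + 1)) atTop atTop :=
  Real.tendsto_log_atTop.comp (tendsto_atTop_add_const_right _ _ tendsto_natCast_atTop_atTop)

theorem S1_seq {ω : ℕ → ℝ} (hω : Tendsto ω atTop atTop) : ∃ c : ℕ → ℝ, Cs c ∧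
    ∀ C : ℝ, 0 < C → ∀ᶠ T : ℕ in atTop,
      Real.exp (-(T * ω T) / 2) ≤ c ⌈Real.exp (C * T)⌉₊ := by
  obtain ⟨w, hw1, hw2, hw3, hw4⟩ := S1_w hω
  obtain ⟨v, hv⟩ : ∃ v : ℝ → ℝ, v = fun y => √(w ⌊√y⌋₊) := ⟨_, rfl⟩
  have hv0 : ∀ y, 0 ≤ v y := by
    intro y
    rw [hv]
    exact Real.sqrt_nonneg _
  have hvm : Monotone v := by
    intro y y' h
    rw [hv]
    exact Real.sqrt_le_sqrt (hw1 (Nat.floor_mono (Real.sqrt_le_sqrt h)))
  have hvt : Tendsto v atTop atTop := by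
    rw [hv]
    exact Real.tendsto_sqrt_atTop.comp (hw3.comp (tendsto_nat_floor_atTop.comp
      Real.tendsto_sqrt_atTop))
  have hlm : ∀ R R' : ℕ, R ≤ R' → Real.log ((R : ℝ) + 1) ≤ Real.log ((R' : ℝ) + 1) := by
    intro R R' h
    have h1 : (R : ℝ) ≤ R' := by exact_mod_cast h
    exact Real.log_le_log (by positivity) (by linarith)
  refine ⟨fun R => Real.exp (-(Real.log ((R : ℝ) + 1) * v (Real.log ((R : ℝ) + 1)))),
    ⟨fun R => Real.exp_pos _, fun R => ?_, fun R R' h => ?_, fun B => ?_⟩, fun C hC => ?_⟩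
  · rw [Real.exp_le_one_iff]
    have := mul_nonneg (S1_log R) (hv0 (Real.log ((R : ℝ) + 1)))
    linarith
  · apply Real.exp_le_exp.2
    have h1 := hlm R R' h
    have h2 := mul_le_mul h1 (hvm h1) (hv0 _) (S1_log R')
    linarith
  · have h1 : ∀ᶠ N : ℕ in atTop, (B : ℝ) + 1 ≤ v (Real.log ((N : ℝ) + 1)) :=
      (hvt.comp S1_log_tendsto).eventually_ge_atTop _
    have h2 : Tendsto (fun N : ℕ => 1 / ((N : ℝ) + 1)) atTop (𝓝 0) :=
      tendsto_one_div_add_atTop_nhds_zero_nat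
    refine squeeze_zero' (Eventually.of_forall fun N => by positivity) ?_ h2
    filter_upwards [h1] with N hN
    have hpos : (0 : ℝ) < (N : ℝ) + 1 := by positivity
    have h3 : (N : ℝ) ^ B ≤ Real.exp (B * Real.log ((N : ℝ) + 1)) := by
      rw [mul_comm, Real.exp_mul, Real.exp_log hpos, Real.rpow_natCast]
      exact pow_le_pow_left₀ (Nat.cast_nonneg N) (by linarith) B
    have h4 : (N : ℝ) ^ B * Real.exp (-(Real.log ((N : ℝ) + 1) * v (Real.log ((N : ℝ) + 1)))) ≤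
        Real.exp (B * Real.log ((N : ℝ) + 1)) *
          Real.exp (-(Real.log ((N : ℝ) + 1) * v (Real.log ((N : ℝ) + 1)))) :=
      mul_le_mul_of_nonneg_right h3 (Real.exp_pos _).le
    refine h4.trans ?_
    rw [← Real.exp_add]
    have h5 : (1 : ℝ) / ((N : ℝ) + 1) = Real.exp (-Real.log ((N : ℝ) + 1)) := by
      rw [Real.exp_neg, Real.exp_log hpos, one_div]
    rw [h5]
    apply Real.exp_le_exp.2
    have h6 := mul_le_mul_of_nonneg_left hN (S1_log N)
    nlinarith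
  · have e1 : ∀ᶠ T : ℕ in atTop, 2 * C ≤ (T : ℝ) :=
      tendsto_natCast_atTop_atTop.eventually_ge_atTop _
    have e2 : ∀ᶠ T : ℕ in atTop, 2 / C ≤ (T : ℝ) :=
      tendsto_natCast_atTop_atTop.eventually_ge_atTop _
    have e3 : ∀ᶠ T : ℕ in atTop, 4 * C ≤ √(w T) :=
      (Real.tendsto_sqrt_atTop.comp hw3).eventually_ge_atTop _
    filter_upwards [e1, e2, e3, hw4] with T h1 h2 h3 h4
    have hT0 : (0 : ℝ) ≤ (T : ℝ) := Nat.cast_nonneg T
    have h2' : 2 ≤ C * (T : ℝ) := by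
      rw [div_le_iff₀ hC] at h2
      linarith
    apply Real.exp_le_exp.2
    obtain ⟨R, hR⟩ : ∃ R : ℕ, R = ⌈Real.exp (C * T)⌉₊ := ⟨_, rfl⟩
    obtain ⟨y, hy⟩ : ∃ y : ℝ, y = Real.log ((R : ℝ) + 1) := ⟨_, rfl⟩
    rw [← hR, ← hy]
    have hy0 : 0 ≤ y := by
      rw [hy]
      exact S1_log R
    have h5 : (R : ℝ) ≤ Real.exp (C * T) + 1 := by
      rw [hR]
      exact (Nat.ceil_lt_add_one (Real.exp_pos _).le).le
    have h6 : (1 : ℝ) ≤ Real.exp (C * T) := Real.one_le_exp (by positivity)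
    have h7 : (3 : ℝ) ≤ Real.exp 2 := by
      have := Real.add_one_le_exp (2 : ℝ)
      linarith
    have hy1 : y ≤ C * T + 2 := by
      rw [hy, ← Real.log_exp (C * T + 2)]
      apply Real.log_le_log (by positivity)
      rw [Real.exp_add]
      nlinarith
    have hy2 : y ≤ 2 * (C * T) := by linarith
    have hy3 : √y ≤ T := by
      rw [Real.sqrt_le_left hT0]
      nlinarith
    have h8 : ⌊√y⌋₊ ≤ T := Nat.floor_le_of_le hy3
    have h9 : v y ≤ √(w T) := by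
      rw [hv]
      exact Real.sqrt_le_sqrt (hw1 h8)
    have h10 : y * v y ≤ 2 * (C * T) * √(w T) :=
      mul_le_mul hy2 h9 (hv0 y) (by positivity)
    have h11 : √(w T) * √(w T) = w T := Real.mul_self_sqrt (hw2 T)
    have h12 : 4 * C * √(w T) ≤ w T := by
      exact (mul_le_mul_of_nonneg_right h3 (Real.sqrt_nonneg (w T))).trans h11.le
    have h13 : 4 * C * √(w T) * T ≤ ω T * T :=
      mul_le_mul_of_nonneg_right (h12.trans h4) hT0
    nlinarith

end BGM
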