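import Pool.Agent.LibBGM20.Defs

/-! ROW A1 : the Jacobi field `F'' = -K F`, `F 0 = 0`, `F' 0 = 1`, `-k² ≤ K < 0`.
Only Mathlib (one real variable). PLAN. Let `G` be the derivative of `F`.
(1) `(F G)' = G² + (-K) F² ≥ 0`, so `F G` is monotone, `F 0 G 0 = 0`, so `F G ≥ 0` on `[0, ∞)`, so
`F²` (derivative `2 F G`) is monotone on `[0, ∞)`. `F > 0` just to the right of `0` (`F 0 = 0`,
`F' 0 = 1`), so `F² > 0` on `(0, ∞)`, so `F ≠ 0` there, so `F > 0` on `(0, ∞)` (intermediate value
theorem). (2) So `G' = -K F > 0` on `(0, ∞)`: `G` is strictly increasing on `[0, ∞)`, `G ≥ 1`,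
so `F - r` is monotone on `[0, ∞)`, `F r ≥ r`; `F` is strictly convex on `[0, ∞)`
(`StrictMonoOn.strictConvexOn_of_deriv` or mean value theorem), so `F (t r) < t F r` for `0 < t < 1`.
(3) `H = sinh (k r) / k - F` has `H 0 = H' 0 = 0`, `H'' - k² H = (k² + K) F ≥ 0` on `[0, ∞)`:
`y = H' - k H`, `(exp (k r) y)' ≥ 0`, so `y ≥ 0`; `(exp (-k r) H)' = exp (-k r) y ≥ 0`, so `H ≥ 0`. -/

open MeasureTheory Set Filter Topology

namespace BGM

open BGS

private theorem A1_mvt {f f' : ℝ → ℝ} (h : ∀ r, HasDerivAt f (f' r) r) {a b : ℝ} (hab : a < b) :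
    ∃ c, a < c ∧ c < b ∧ f b - f a = f' c * (b - a) := by
  obtain ⟨c, hc, he⟩ := exists_hasDerivAt_eq_slope f f' hab
    (fun x _ => (h x).continuousAt.continuousWithinAt) (fun x _ => h x)
  refine ⟨c, hc.1, hc.2, ?_⟩
  rw [he, div_mul_cancel₀ _ (sub_pos.2 hab).ne']

private theorem A1_mono {f f' : ℝ → ℝ} (h : ∀ r, HasDerivAt f (f' r) r)
    (h' : ∀ r, 0 < r → 0 ≤ f' r) {a b : ℝ} (ha : 0 ≤ a) (hab : a ≤ b) : f a ≤ f b := by
  rcases hab.eq_or_lt with hab | hab
  · rw [hab]
  · obtain ⟨c, hc, -, he⟩ := A1_mvt h hab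
    have h1 : 0 ≤ f' c * (b - a) := mul_nonneg (h' c (ha.trans_lt hc)) (sub_nonneg.2 hab.le)
    linarith

/-- The Jacobi equation in one real variable. -/
theorem A1_all {k : ℝ} (hk : 0 < k) {F G κ : ℝ → ℝ} (hκ : ∀ r, -k ^ 2 ≤ κ r ∧ κ r < 0)
    (h0 : F 0 = 0) (h1 : G 0 = 1) (hF : ∀ r, HasDerivAt F (G r) r)
    (hG : ∀ r, HasDerivAt G (-κ r * F r) r) :
    (∀ r, 0 < r → 0 < F r) ∧ (∀ r, 0 ≤ r → r ≤ F r) ∧ (∀ r, 0 < r → r < F r) ∧
    (∀ r t, 0 < r → 0 < t → t < 1 → F (t * r) < t * F r) ∧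
    ∀ r, 0 ≤ r → F r ≤ Real.sinh (k * r) / k := by
  -- the product of `F` and its derivative
  have hP : ∀ r, HasDerivAt (fun r => F r * G r) (G r * G r + F r * (-κ r * F r)) r :=
    fun r => (hF r).mul (hG r)
  have hP0 : ∀ r, 0 ≤ r → 0 ≤ F r * G r := by
    intro r hr
    have hd : ∀ r, 0 < r → 0 ≤ G r * G r + F r * (-κ r * F r) := by
      intro r _
      have h2 := mul_nonneg (neg_nonneg.2 (hκ r).2.le) (sq_nonneg (F r))
      have h3 : G r * G r + F r * (-κ r * F r) = G r ^ 2 + -κ r * F r ^ 2 := by ring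
      rw [h3]
      exact add_nonneg (sq_nonneg _) h2
    have h := A1_mono hP hd le_rfl hr
    have h2 : F 0 * G 0 ≤ F r * G r := h
    rwa [h0, zero_mul] at h2
  have hS : ∀ r, HasDerivAt (fun r => F r * F r) (G r * F r + F r * G r) r :=
    fun r => (hF r).mul (hF r)
  have hS0 : ∀ a b, 0 ≤ a → a ≤ b → F a * F a ≤ F b * F b := fun a b ha hab =>
    A1_mono hS (fun r hr => by nlinarith [hP0 r hr.le]) ha hab
  -- positivity near `0`
  have hG1 : ∀ᶠ r in 𝓝 (0 : ℝ), 0 < G r :=
    (hG 0).continuousAt.eventually_const_lt (by rw [h1]; exact one_pos)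
  obtain ⟨δ, hδ, hGδ⟩ := Metric.eventually_nhds_iff.1 hG1
  have hF1 : ∀ s, 0 < s → s < δ → 0 < F s := by
    intro s hs hs'
    obtain ⟨c, hc, hc', he⟩ := A1_mvt hF hs
    have h2 : 0 < G c := hGδ (by
      rw [Real.dist_eq, sub_zero, abs_of_pos hc]
      exact hc'.trans hs')
    rw [h0, sub_zero, sub_zero] at he
    rw [he]
    exact mul_pos h2 hs
  have hFpos : ∀ r, 0 < r → 0 < F r := by
    intro r hr
    by_contra hn
    rw [not_lt] at hn
    have hs : 0 < min (δ / 2) r := lt_min (half_pos hδ) hr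
    have hs' : min (δ / 2) r < δ := (min_le_left _ _).trans_lt (half_lt_self hδ)
    have h2 := hF1 _ hs hs'
    obtain ⟨c, hc, hc0⟩ := intermediate_value_Icc' (min_le_right (δ / 2) r)
      (fun x _ => (hF x).continuousAt.continuousWithinAt) ⟨hn, h2.le⟩
    have h3 := hS0 _ c hs.le hc.1
    rw [hc0] at h3
    nlinarith
  -- the derivative is increasing
  have hGm : ∀ a b, 0 ≤ a → a < b → G a < G b := by
    intro a b ha hab
    obtain ⟨c, hc, -, he⟩ := A1_mvt hG hab
    have h2 : 0 < -κ c * F c := mul_pos (neg_pos.2 (hκ c).2) (hFpos c (ha.trans_lt hc))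
    have h3 := mul_pos h2 (sub_pos.2 hab)
    linarith
  have hgt : ∀ r, 0 < r → r < F r := by
    intro r hr
    obtain ⟨c, hc, -, he⟩ := A1_mvt hF hr
    have h2 := hGm 0 c le_rfl hc
    rw [h1] at h2
    rw [h0, sub_zero, sub_zero] at he
    rw [he]
    nlinarith
  refine ⟨hFpos, ?_, hgt, ?_, ?_⟩
  · intro r hr
    rcases hr.eq_or_lt with hr | hr
    · rw [← hr, h0]
    · exact (hgt r hr).le
  · intro r t hr ht ht'
    have htr : 0 < t * r := mul_pos ht hr
    have htr' : t * r < r := by nlinarith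
    obtain ⟨c₁, hc₁, hc₁', he₁⟩ := A1_mvt hF htr
    obtain ⟨c₂, hc₂, hc₂', he₂⟩ := A1_mvt hF htr'
    have h2 := hGm c₁ c₂ hc₁.le (hc₁'.trans hc₂)
    rw [h0, sub_zero, sub_zero] at he₁
    have h3 : F r = F (t * r) + G c₂ * (r - t * r) := by linarith
    rw [h3, he₁]
    have h4 : 0 < t * (1 - t) * r * (G c₂ - G c₁) :=
      mul_pos (mul_pos (mul_pos ht (sub_pos.2 ht')) hr) (sub_pos.2 h2)
    nlinarith
  · have hkr : ∀ r, HasDerivAt (fun r : ℝ => k * r) k r := fun r => by
      simpa using (hasDerivAt_id r).const_mul k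
    have hZ : ∀ r, HasDerivAt (fun r => Real.exp (k * r) * (k * F r - G r))
        (Real.exp (k * r) * k * (k * F r - G r) + Real.exp (k * r) * (k * G r - -κ r * F r)) r :=
      fun r => ((hkr r).exp).mul (((hF r).const_mul k).sub (hG r))
    have hZ1 : ∀ r, 0 ≤ r → -1 ≤ Real.exp (k * r) * (k * F r - G r) := by
      intro r hr
      have h := A1_mono hZ (fun r hr => by
        have h2 : Real.exp (k * r) * k * (k * F r - G r) +
            Real.exp (k * r) * (k * G r - -κ r * F r) =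
            Real.exp (k * r) * ((k ^ 2 + κ r) * F r) := by ring
        rw [h2]
        exact mul_nonneg (Real.exp_pos _).le
          (mul_nonneg (by linarith [(hκ r).1]) (hFpos r hr).le)) le_rfl hr
      have h3 : Real.exp (k * 0) * (k * F 0 - G 0) ≤ Real.exp (k * r) * (k * F r - G r) := h
      rw [h0, h1, mul_zero, Real.exp_zero] at h3
      linarith
    have hkn : ∀ r, HasDerivAt (fun r : ℝ => -(k * r)) (-k) r := fun r => (hkr r).neg
    have hk2 : ∀ r, HasDerivAt (fun r : ℝ => -(2 * k * r)) (-(2 * k)) r := fun r => by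
      have h2 : HasDerivAt (fun r : ℝ => 2 * k * r) (2 * k) r := by
        simpa using (hasDerivAt_id r).const_mul (2 * k)
      exact h2.neg
    have hW : ∀ r, HasDerivAt (fun r => (1 - Real.exp (-(2 * k * r))) / (2 * k) -
        Real.exp (-(k * r)) * F r)
        (-(Real.exp (-(2 * k * r)) * -(2 * k)) / (2 * k) -
          (Real.exp (-(k * r)) * -k * F r + Real.exp (-(k * r)) * G r)) r :=
      fun r => ((((hk2 r).exp).const_sub 1).div_const (2 * k)).sub (((hkn r).exp).mul (hF r))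
    intro r hr
    have h := A1_mono hW (fun r hr => by
      have h2 : Real.exp (-(2 * k * r)) = Real.exp (-(k * r)) * Real.exp (-(k * r)) := by
        rw [← Real.exp_add]
        congr 1
        ring
      have h3 : Real.exp (-(k * r)) * Real.exp (k * r) = 1 := by
        rw [← Real.exp_add, neg_add_cancel, Real.exp_zero]
      have h4 : -(Real.exp (-(2 * k * r)) * -(2 * k)) / (2 * k) = Real.exp (-(2 * k * r)) := by
        field_simp
      have h5 : Real.exp (-(k * r)) * (k * F r - G r) =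
          Real.exp (-(k * r)) * Real.exp (-(k * r)) * (Real.exp (k * r) * (k * F r - G r)) := by
        calc Real.exp (-(k * r)) * (k * F r - G r)
            = Real.exp (-(k * r)) * 1 * (k * F r - G r) := by ring
          _ = _ := by rw [← h3]; ring
      rw [h4, h2]
      have h6 := hZ1 r hr.le
      have h7 : 0 < Real.exp (-(k * r)) * Real.exp (-(k * r)) :=
        mul_pos (Real.exp_pos _) (Real.exp_pos _)
      have h8 := mul_le_mul_of_nonneg_left h6 h7.le
      rw [← h5] at h8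
      linarith) le_rfl hr
    have h9 : (1 - Real.exp (-(2 * k * 0))) / (2 * k) - Real.exp (-(k * 0)) * F 0 ≤
        (1 - Real.exp (-(2 * k * r))) / (2 * k) - Real.exp (-(k * r)) * F r := h
    rw [h0, mul_zero, mul_zero, neg_zero, Real.exp_zero, sub_self, zero_div, sub_zero] at h9
    have h10 := mul_le_mul_of_nonneg_left h9 (Real.exp_pos (k * r)).le
    have h11 : Real.exp (k * r) * Real.exp (-(k * r)) = 1 := by
      rw [← Real.exp_add, add_neg_cancel, Real.exp_zero]
    have h12 : Real.exp (k * r) * Real.exp (-(2 * k * r)) = Real.exp (-(k * r)) := by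
      rw [← Real.exp_add]
      congr 1
      ring
    have h13 : Real.exp (k * r) * ((1 - Real.exp (-(2 * k * r))) / (2 * k) -
        Real.exp (-(k * r)) * F r) = Real.sinh (k * r) / k - F r := by
      rw [Real.sinh_eq]
      calc Real.exp (k * r) * ((1 - Real.exp (-(2 * k * r))) / (2 * k) -
            Real.exp (-(k * r)) * F r)
          = (Real.exp (k * r) - Real.exp (k * r) * Real.exp (-(2 * k * r))) / (2 * k) -
            (Real.exp (k * r) * Real.exp (-(k * r))) * F r := by ring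
        _ = (Real.exp (k * r) - Real.exp (-(k * r))) / 2 / k - F r := by
          rw [h11, h12, one_mul]
          field_simp
    rw [h13, mul_zero] at h10
    linarith

variable {m : Pl → Co} {k : ℝ} {E V : Pl → Pl → Pl} {F : Pl → Pl → ℝ → ℝ}

theorem A1_ge (h : Had m k E V F) {x u : Pl} (hu : eu u = 1) {r : ℝ} (hr : 0 ≤ r) :
    r ≤ F x u r := by
  obtain ⟨G, h1, h2, h3⟩ := h.ode x u hu
  exact (A1_all h.kpos (κ := fun r => curv m (E x (r • u))) (fun r => h.K _) (h.F0 x u hu) h1 h2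
    h3).2.1 r hr

theorem A1_gt (h : Had m k E V F) {x u : Pl} (hu : eu u = 1) {r : ℝ} (hr : 0 < r) :
    r < F x u r := by
  obtain ⟨G, h1, h2, h3⟩ := h.ode x u hu
  exact (A1_all h.kpos (κ := fun r => curv m (E x (r • u))) (fun r => h.K _) (h.F0 x u hu) h1 h2
    h3).2.2.1 r hr

theorem A1_conv (h : Had m k E V F) {x u : Pl} (hu : eu u = 1) {r t : ℝ} (hr : 0 < r)
    (ht : 0 < t) (ht' : t < 1) : F x u (t * r) < t * F x u r := by
  obtain ⟨G, h1, h2, h3⟩ := h.ode x u hu
  exact (A1_all h.kpos (κ := fun r => curv m (E x (r • u))) (fun r => h.K _) (h.F0 x u hu) h1 h2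
    h3).2.2.2.1 r t hr ht ht'

theorem A1_sinh (h : Had m k E V F) {x u : Pl} (hu : eu u = 1) {r : ℝ} (hr : 0 ≤ r) :
    F x u r ≤ Real.sinh (k * r) / k := by
  obtain ⟨G, h1, h2, h3⟩ := h.ode x u hu
  exact (A1_all h.kpos (κ := fun r => curv m (E x (r • u))) (fun r => h.K _) (h.F0 x u hu) h1 h2
    h3).2.2.2.2 r hr

end BGM
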