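import Pool.Agent.LibBGM20.Defs

/-! ROW A2 : linear algebra of the plane and of the norms. Only Mathlib and `Defs`.
PLAN. `eu` is the Euclidean norm: Cauchy-Schwarz `ip v w ≤ eu v * eu w` from
`(v₁² + v₂²)(w₁² + w₂²) = ip² + wd²`; triangle inequality; in the equality case
(`A2_eq`) square twice: `eu w = eu v + eu (w - v)` gives `ip v (w - v) = eu v * eu (w - v)`, so
`wd v w = 0` and `v = (eu v / eu w) w`. `qf c v > 0` for `v ≠ 0`: `c.1 * qf c v = (c.1 v₁ + F v₂)² +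
dt c * v₂²`. Continuity of `nm`: `fun_prop` after unfolding. -/

open MeasureTheory Set Filter Topology
open scoped ContDiff

namespace BGM

open BGS

theorem eu_nonneg (v : Pl) : 0 ≤ eu v := Real.sqrt_nonneg _

theorem nm_nonneg (c : Co) (v : Pl) : 0 ≤ nm c v := Real.sqrt_nonneg _

theorem eu_sq (v : Pl) : eu v ^ 2 = v.1 ^ 2 + v.2 ^ 2 :=
  Real.sq_sqrt (add_nonneg (sq_nonneg _) (sq_nonneg _))

theorem eu_smul (a : ℝ) (v : Pl) : eu (a • v) = |a| * eu v := by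
  unfold eu
  have h : (a • v).1 ^ 2 + (a • v).2 ^ 2 = a ^ 2 * (v.1 ^ 2 + v.2 ^ 2) := by
    rw [Prod.smul_fst, Prod.smul_snd, smul_eq_mul, smul_eq_mul]
    ring
  rw [h, Real.sqrt_mul (sq_nonneg a), Real.sqrt_sq_eq_abs]

theorem eu_neg (v : Pl) : eu (-v) = eu v := by
  have h := eu_smul (-1) v
  rwa [neg_one_smul, abs_neg, abs_one, one_mul] at h

theorem eu_zero : eu 0 = 0 := by
  simp [eu]

theorem eu_eq_zero {v : Pl} : eu v = 0 ↔ v = 0 := by
  constructor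
  · intro h
    have h1 := eu_sq v
    rw [h] at h1
    have h2 : v.1 = 0 := by nlinarith [sq_nonneg v.1, sq_nonneg v.2]
    have h3 : v.2 = 0 := by nlinarith [sq_nonneg v.1, sq_nonneg v.2]
    exact Prod.ext h2 h3
  · rintro rfl
    exact eu_zero

private theorem A2_sq {a b : ℝ} (hb : 0 ≤ b) (h : a ^ 2 ≤ b ^ 2) : a ≤ b :=
  (abs_le_of_sq_le_sq' h hb).2

/-- Lagrange's identity, helper. -/
private theorem A2_lag (v w : Pl) : ip v w ^ 2 + wd v w ^ 2 = eu v ^ 2 * eu w ^ 2 := by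
  rw [eu_sq, eu_sq]
  unfold ip wd
  ring

private theorem A2_cs (v w : Pl) : ip v w ≤ eu v * eu w := by
  refine A2_sq (mul_nonneg (eu_nonneg v) (eu_nonneg w)) ?_
  rw [mul_pow]
  nlinarith [A2_lag v w, sq_nonneg (wd v w)]

private theorem A2_add (v w : Pl) : eu (v + w) ^ 2 = eu v ^ 2 + 2 * ip v w + eu w ^ 2 := by
  rw [eu_sq, eu_sq, eu_sq]
  unfold ip
  rw [Prod.fst_add, Prod.snd_add]
  ring

theorem eu_add (v w : Pl) : eu (v + w) ≤ eu v + eu w := by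
  refine A2_sq (add_nonneg (eu_nonneg v) (eu_nonneg w)) ?_
  rw [A2_add]
  nlinarith [A2_cs v w]

theorem ip_le (v w : Pl) : ip v w ≤ eu v * eu w :=
  A2_cs v w

/-- Lagrange's identity. -/
theorem ip_wd (v w : Pl) : ip v w ^ 2 + wd v w ^ 2 = eu v ^ 2 * eu w ^ 2 :=
  A2_lag v w

theorem eu_continuous : Continuous eu :=
  Real.continuous_sqrt.comp ((continuous_fst.pow 2).add (continuous_snd.pow 2))

/-- `|v|_∞ ≤ eu v ≤ 2 |v|_∞`. -/
theorem norm_le_eu (v : Pl) : ‖v‖ ≤ eu v := by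
  rw [Prod.norm_def]
  refine max_le (A2_sq (eu_nonneg v) ?_) (A2_sq (eu_nonneg v) ?_)
  · rw [Real.norm_eq_abs, sq_abs, eu_sq]
    linarith [sq_nonneg v.2]
  · rw [Real.norm_eq_abs, sq_abs, eu_sq]
    linarith [sq_nonneg v.1]

theorem eu_le_norm (v : Pl) : eu v ≤ 2 * ‖v‖ := by
  refine A2_sq (by positivity) ?_
  have h1 : |v.1| ≤ ‖v‖ := norm_fst_le v
  have h2 : |v.2| ≤ ‖v‖ := norm_snd_le v
  have h3 : v.1 ^ 2 ≤ ‖v‖ ^ 2 := by
    rw [← sq_abs]
    exact pow_le_pow_left₀ (abs_nonneg _) h1 2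
  have h4 : v.2 ^ 2 ≤ ‖v‖ ^ 2 := by
    rw [← sq_abs]
    exact pow_le_pow_left₀ (abs_nonneg _) h2 2
  rw [eu_sq]
  nlinarith [sq_nonneg ‖v‖]

/-- Equality in the triangle inequality. -/
theorem A2_eq {v w : Pl} (h : eu w = eu v + eu (w - v)) (hw : w ≠ 0) :
    v = (eu v / eu w) • w := by
  have hw0 : eu w ≠ 0 := fun h0 => hw (eu_eq_zero.1 h0)
  have h1 := A2_add v (w - v)
  rw [add_sub_cancel, h] at h1
  have h2 : ip v (w - v) = eu v * eu (w - v) := by nlinarith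
  have h3 := A2_lag v (w - v)
  rw [h2] at h3
  have h4 : wd v (w - v) = 0 := by
    have : wd v (w - v) ^ 2 = 0 := by nlinarith
    exact pow_eq_zero_iff (two_ne_zero) |>.1 this
  have h5 : v.1 * w.2 = v.2 * w.1 := by
    unfold wd at h4
    rw [Prod.fst_sub, Prod.snd_sub] at h4
    linarith
  -- the inner product of `v` and `w` is `eu v * eu w`
  have h6 : v.1 * w.1 + v.2 * w.2 = eu v * eu w := by
    unfold ip at h2
    rw [Prod.fst_sub, Prod.snd_sub] at h2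
    have h7 := eu_sq v
    rw [h]
    nlinarith
  have h8 := eu_sq w
  have h9 : 0 < eu w ^ 2 := by positivity
  have h10 : v.1 * eu w ^ 2 = eu v * eu w * w.1 := by
    rw [← h6, h8]
    linear_combination w.2 * h5
  have h11 : v.2 * eu w ^ 2 = eu v * eu w * w.2 := by
    rw [← h6, h8]
    linear_combination -w.1 * h5
  have h12 : v.1 * eu w = eu v * w.1 := mul_right_cancel₀ hw0 (by linear_combination h10)
  have h13 : v.2 * eu w = eu v * w.2 := mul_right_cancel₀ hw0 (by linear_combination h11)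
  refine Prod.ext ?_ ?_
  · rw [Prod.smul_fst, smul_eq_mul, div_mul_eq_mul_div, ← h12, mul_div_cancel_right₀ _ hw0]
  · rw [Prod.smul_snd, smul_eq_mul, div_mul_eq_mul_div, ← h13, mul_div_cancel_right₀ _ hw0]

/-- A unit vector in the direction of `v`. -/
theorem A2_dir {v : Pl} (hv : v ≠ 0) : ∃ u : Pl, eu u = 1 ∧ v = eu v • u ∧
    ∀ w, ip v w = eu v * ip u w ∧ wd v w = eu v * wd u w := by
  have hv0 : eu v ≠ 0 := fun h0 => hv (eu_eq_zero.1 h0)
  have h1 : v = eu v • ((eu v)⁻¹ • v) := by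
    rw [smul_smul, mul_inv_cancel₀ hv0, one_smul]
  refine ⟨(eu v)⁻¹ • v, ?_, h1, fun w => ⟨?_, ?_⟩⟩
  · rw [eu_smul, abs_of_nonneg (inv_nonneg.2 (eu_nonneg v)), inv_mul_cancel₀ hv0]
  · unfold ip
    rw [Prod.smul_fst, Prod.smul_snd, smul_eq_mul, smul_eq_mul]
    field_simp
  · unfold wd
    rw [Prod.smul_fst, Prod.smul_snd, smul_eq_mul, smul_eq_mul]
    field_simp

theorem qf_pos {c : Co} (h : 0 < c.1 ∧ 0 < dt c) {v : Pl} (hv : v ≠ 0) : 0 < qf c v := by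
  have h1 : c.1 * qf c v = (c.1 * v.1 + c.2.1 * v.2) ^ 2 + dt c * v.2 ^ 2 := by
    unfold qf dt
    ring
  have h2 : 0 < c.1 * qf c v := by
    rw [h1]
    rcases eq_or_ne v.2 0 with h3 | h3
    · have h4 : v.1 ≠ 0 := fun h5 => hv (Prod.ext h5 h3)
      rw [h3]
      have h5 : 0 < (c.1 * v.1) ^ 2 := by
        have := mul_ne_zero h.1.ne' h4
        positivity
      have h6 : (c.1 * v.1 + c.2.1 * 0) ^ 2 + dt c * 0 ^ 2 = (c.1 * v.1) ^ 2 := by ring
      rw [h6]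
      exact h5
    · have h5 : 0 < dt c * v.2 ^ 2 := mul_pos h.2 (by positivity)
      exact add_pos_of_nonneg_of_pos (sq_nonneg _) h5
  exact (mul_pos_iff_of_pos_left h.1).1 h2

theorem qf_nonneg {c : Co} (h : 0 < c.1 ∧ 0 < dt c) (v : Pl) : 0 ≤ qf c v := by
  rcases eq_or_ne v 0 with h1 | h1
  · rw [h1]
    simp [qf]
  · exact (qf_pos h h1).le

theorem nm_sq {c : Co} (h : 0 < c.1 ∧ 0 < dt c) (v : Pl) : nm c v ^ 2 = qf c v :=
  Real.sq_sqrt (qf_nonneg h v)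

theorem nm_smul (c : Co) (a : ℝ) (v : Pl) : nm c (a • v) = |a| * nm c v := by
  unfold nm
  have h : qf c (a • v) = a ^ 2 * qf c v := by
    unfold qf
    rw [Prod.smul_fst, Prod.smul_snd, smul_eq_mul, smul_eq_mul]
    ring
  rw [h, Real.sqrt_mul (sq_nonneg a), Real.sqrt_sq_eq_abs]

theorem nm_smul_co {q : ℝ} (hq : 0 ≤ q) (c : Co) (v : Pl) : nm (q • c) v = √q * nm c v := by
  unfold nm
  have h : qf (q • c) v = q * qf c v := by
    unfold qf
    rw [Prod.smul_fst, Prod.smul_snd, Prod.smul_fst, Prod.smul_snd, smul_eq_mul, smul_eq_mul,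
      smul_eq_mul]
    ring
  rw [h, Real.sqrt_mul hq]

theorem nm_continuous : Continuous fun q : Co × Pl => nm q.1 q.2 := by
  unfold nm qf
  fun_prop

theorem nm_mono {c c' : Co} (h : ∀ v, qf c v ≤ qf c' v) (v : Pl) : nm c v ≤ nm c' v :=
  Real.sqrt_le_sqrt (h v)

/-- On a compact set all norms are equivalent to the norm of the plane. -/
theorem nm_equiv {m : Pl → Co} (hm : Rp m) {K : Set Pl} (hK : IsCompact K) :
    ∃ C : ℝ, 1 ≤ C ∧ ∀ z ∈ K, ∀ v : Pl, nm (m z) v ≤ C * ‖v‖ ∧ ‖v‖ ≤ C * nm (m z) v := by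
  have hS : IsCompact (K ×ˢ Metric.sphere (0 : Pl) 1) := hK.prod (isCompact_sphere 0 1)
  have hc : Continuous fun p : Pl × Pl => nm (m p.1) p.2 :=
    nm_continuous.comp ((hm.smooth.continuous.comp continuous_fst).prodMk continuous_snd)
  have hpos : ∀ p ∈ K ×ˢ Metric.sphere (0 : Pl) 1, 0 < nm (m p.1) p.2 := by
    rintro ⟨z, v⟩ ⟨-, hv⟩
    have hv0 : v ≠ 0 := by
      rintro rfl
      simp at hv
    exact Real.sqrt_pos.2 (qf_pos (hm.pos z) hv0)
  obtain ⟨B, hB⟩ := hS.bddAbove_image hc.continuousOn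
  have hi : ContinuousOn (fun p : Pl × Pl => (nm (m p.1) p.2)⁻¹) (K ×ˢ Metric.sphere (0 : Pl) 1) :=
    hc.continuousOn.inv₀ fun p hp => (hpos p hp).ne'
  obtain ⟨B', hB'⟩ := hS.bddAbove_image hi
  refine ⟨max 1 (max B B'), le_max_left _ _, fun z hz v => ?_⟩
  rcases eq_or_ne v 0 with hv | hv
  · rw [hv]
    have h0 : nm (m z) 0 = 0 := by simp [nm, qf]
    rw [h0, norm_zero, mul_zero]
    exact ⟨le_rfl, le_rfl⟩
  · have hn : 0 < ‖v‖ := norm_pos_iff.2 hv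
    have hu : ‖v‖⁻¹ • v ∈ Metric.sphere (0 : Pl) 1 := by
      rw [mem_sphere_zero_iff_norm, norm_smul, norm_inv, norm_norm, inv_mul_cancel₀ hn.ne']
    have h1 : nm (m z) v = ‖v‖ * nm (m z) (‖v‖⁻¹ • v) := by
      rw [nm_smul, abs_of_pos (inv_pos.2 hn), ← mul_assoc, mul_inv_cancel₀ hn.ne', one_mul]
    have h2 : nm (m z) (‖v‖⁻¹ • v) ≤ B := hB ⟨(z, ‖v‖⁻¹ • v), ⟨hz, hu⟩, rfl⟩
    have h3 : (nm (m z) (‖v‖⁻¹ • v))⁻¹ ≤ B' := hB' ⟨(z, ‖v‖⁻¹ • v), ⟨hz, hu⟩, rfl⟩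
    have h4 : 0 < nm (m z) (‖v‖⁻¹ • v) := hpos (z, ‖v‖⁻¹ • v) ⟨hz, hu⟩
    have h5 : B ≤ max 1 (max B B') := (le_max_left _ _).trans (le_max_right _ _)
    have h6 : B' ≤ max 1 (max B B') := (le_max_right _ _).trans (le_max_right _ _)
    constructor
    · rw [h1, mul_comm]
      exact mul_le_mul_of_nonneg_right (h2.trans h5) hn.le
    · have h7 : 1 ≤ max 1 (max B B') * nm (m z) (‖v‖⁻¹ • v) := by
        have h8 := mul_le_mul_of_nonneg_right (h3.trans h6) h4.le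
        rwa [inv_mul_cancel₀ h4.ne'] at h8
      calc ‖v‖ = ‖v‖ * 1 := (mul_one _).symm
        _ ≤ ‖v‖ * (max 1 (max B B') * nm (m z) (‖v‖⁻¹ • v)) :=
          mul_le_mul_of_nonneg_left h7 hn.le
        _ = max 1 (max B B') * nm (m z) v := by
          rw [h1]
          ring

end BGM
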