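import Pool.Agent.LibBGM20.A1
import Pool.Agent.LibBGM20.A2

/-! ROW A3 : the norm of the derivative of the exponential map. Uses A1, A2.
PLAN. For `v ≠ 0` write `v = r u` with `r = eu v > 0`, `eu u = 1` (`A2_dir`): by `Had.dE` the square of
the norm of `DE(x, v) w` is `ip u w ² + (F r / r)² wd u w ²`, and `F r / r ≥ 1` by `A1_ge`,
`ip u w ² + wd u w ² = eu w ²` by `ip_wd`. For `v = 0`: the derivative of a smooth map is continuous
in `v`; take the limit along `v = t e`, `t → 0+` (for `A3_ge`; for `A3_rad` at `t = 0` take the limit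
of `t → 0+` in the formula for `t > 0`). `A3_rad` for `t < 0`: apply it to `-v`, `-t`.
`A3_t`: for `v = r u`, `t v = (t r) u`: `DE(x, t v)(t w)` has squared norm
`t² ip² + (F (t r) / r)² wd²` and `F (t r) < t F r` by `A1_conv`; strict if `wd v w ≠ 0`.
`A3_up`: `F r' / r' ≤ sinh (k r') / (k r') ≤ sinh (k T) / (k T)` with `r' = T eu v ≤ T`:
`sinh y / y` is increasing (`sinh` is convex on `[0, ∞)` with `sinh 0 = 0`). -/

open MeasureTheory Set Filter Topology
open scoped ContDiff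

namespace BGM

open BGS

variable {m : Pl → Co} {k : ℝ} {E V : Pl → Pl → Pl} {F : Pl → Pl → ℝ → ℝ}

private theorem A3_le_sq {a b : ℝ} (h : a ^ 2 ≤ b ^ 2) (hb : 0 ≤ b) : a ≤ b := by
  exact (le_abs_self a).trans (abs_le_of_sq_le_sq h hb)

theorem A3_smooth (h : Had m k E V F) (x : Pl) : ContDiff ℝ ∞ (E x) ∧ ContDiff ℝ ∞ (V x) :=
  ⟨h.smE.comp (contDiff_const.prodMk contDiff_id), h.smV.comp (contDiff_const.prodMk contDiff_id)⟩

theorem A3_cont (h : Had m k E V F) (x w : Pl) :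
    Continuous fun v => nm (m (E x v)) (fderiv ℝ (E x) v w) := by
  have h1 := (A3_smooth h x).1
  have h2 : Continuous fun v => m (E x v) := h.rp.smooth.continuous.comp h1.continuous
  have h3 : Continuous fun v => fderiv ℝ (E x) v w :=
    (h1.continuous_fderiv (by simp)).clm_apply continuous_const
  exact nm_continuous.comp (h2.prodMk h3)

private theorem A3_nm_zero (c : Co) : nm c 0 = 0 := by
  have h := nm_smul c 0 0
  rwa [zero_smul, abs_zero, zero_mul] at h

private theorem A3_sq (h : Had m k E V F) (x : Pl) {u : Pl} (hu : eu u = 1) {r : ℝ} (hr : 0 < r)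
    (w : Pl) : nm (m (E x (r • u))) (fderiv ℝ (E x) (r • u) w) ^ 2 =
      ip u w ^ 2 + (F x u r / r) ^ 2 * wd u w ^ 2 := by
  rw [nm_sq (h.rp.pos _), h.dE x u w r hu hr]

private theorem A3_unit {u : Pl} (hu : eu u = 1) (w : Pl) :
    eu w ^ 2 = ip u w ^ 2 + wd u w ^ 2 := by
  rw [ip_wd, hu, one_pow, one_mul]

private theorem A3_dense (s : Set Pl) (hs : IsClosed s) (h : ∀ v, v ≠ 0 → v ∈ s) (v : Pl) :
    v ∈ s := by
  have h1 : Dense ({(0 : Pl)}ᶜ : Set Pl) := dense_compl_singleton (0 : Pl)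
  have h2 : ({(0 : Pl)}ᶜ : Set Pl) ⊆ s := fun w hw => h w hw
  exact (hs.closure_subset_iff.2 h2) (h1 v)

/-- The exponential map does not decrease lengths. -/
theorem A3_ge (h : Had m k E V F) (x v w : Pl) :
    eu w ≤ nm (m (E x v)) (fderiv ℝ (E x) v w) := by
  refine A3_dense {v | eu w ≤ nm (m (E x v)) (fderiv ℝ (E x) v w)}
    (isClosed_le continuous_const (A3_cont h x w)) (fun v hv => ?_) v
  obtain ⟨u, hu, hvu, -⟩ := A2_dir hv
  have hr : 0 < eu v := lt_of_le_of_ne (eu_nonneg v) fun h0 => hv (eu_eq_zero.1 h0.symm)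
  show eu w ≤ nm (m (E x v)) (fderiv ℝ (E x) v w)
  have h1 := A3_sq h x hu hr w
  rw [← hvu] at h1
  have h2 : 1 ≤ F x u (eu v) / eu v := by
    rw [le_div_iff₀ hr, one_mul]
    exact A1_ge h hu hr.le
  refine A3_le_sq ?_ (nm_nonneg _ _)
  rw [h1, A3_unit hu]
  have h3 : 1 ≤ (F x u (eu v) / eu v) ^ 2 := one_le_pow₀ h2
  nlinarith [mul_le_mul_of_nonneg_right h3 (sq_nonneg (wd u w))]

private theorem A3_rad_pos (h : Had m k E V F) (x v : Pl) {t : ℝ} (ht : 0 < t) :
    nm (m (E x (t • v))) (fderiv ℝ (E x) (t • v) v) = eu v := by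
  by_cases hv : v = 0
  · rw [hv, map_zero, A3_nm_zero, eu_zero]
  · obtain ⟨u, hu, hvu, hw⟩ := A2_dir hv
    have hr : 0 < eu v := lt_of_le_of_ne (eu_nonneg v) fun h0 => hv (eu_eq_zero.1 h0.symm)
    have h1 := A3_sq h x hu (mul_pos ht hr) v
    have h2 : (t * eu v) • u = t • v := by
      rw [mul_smul, ← hvu]
    rw [h2] at h1
    have h3 : ip u v = eu v := by
      have h4 : ip u v = ip v u := by
        unfold ip
        ring
      have h5 := eu_sq u
      rw [hu] at h5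
      rw [h4, (hw u).1]
      have h6 : ip u u = 1 := by
        unfold ip
        nlinarith
      rw [h6, mul_one]
    have h4 : wd u v = 0 := by
      have h5 : wd u v = -wd v u := by
        unfold wd
        ring
      have h6 : wd u u = 0 := by
        unfold wd
        ring
      rw [h5, (hw u).2, h6, mul_zero, neg_zero]
    rw [h3, h4] at h1
    have h5 : nm (m (E x (t • v))) (fderiv ℝ (E x) (t • v) v) ^ 2 = eu v ^ 2 := by
      rw [h1]
      ring
    exact (pow_left_inj₀ (nm_nonneg _ _) (eu_nonneg _) two_ne_zero).1 h5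

/-- Radial lengths are preserved. -/
theorem A3_rad (h : Had m k E V F) (x v : Pl) (t : ℝ) :
    nm (m (E x (t • v))) (fderiv ℝ (E x) (t • v) v) = eu v := by
  have hne : ∀ t : ℝ, t ≠ 0 → nm (m (E x (t • v))) (fderiv ℝ (E x) (t • v) v) = eu v := by
    intro t ht
    rcases lt_or_gt_of_ne ht with h1 | h1
    · have h2 := A3_rad_pos h x (-v) (t := -t) (by linarith)
      rw [neg_smul_neg, eu_neg, map_neg] at h2
      have h3 := nm_smul (m (E x (t • v))) (-1) (fderiv ℝ (E x) (t • v) v)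
      rw [neg_one_smul, abs_neg, abs_one, one_mul] at h3
      rw [← h3]
      exact h2
    · exact A3_rad_pos h x v h1
  have hc : Continuous fun t : ℝ => nm (m (E x (t • v))) (fderiv ℝ (E x) (t • v) v) :=
    (A3_cont h x v).comp (continuous_id.smul continuous_const)
  have hcl : IsClosed {t : ℝ | nm (m (E x (t • v))) (fderiv ℝ (E x) (t • v) v) = eu v} :=
    isClosed_eq hc continuous_const
  have h1 : Dense ({(0 : ℝ)}ᶜ : Set ℝ) := dense_compl_singleton (0 : ℝ)
  exact (hcl.closure_subset_iff.2 (fun t ht => hne t ht)) (h1 t)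

private theorem A3_both (h : Had m k E V F) {x v w : Pl} (hv : v ≠ 0) {t : ℝ} (ht : 0 < t) :
    ∃ u : Pl, eu u = 1 ∧ 0 < eu v ∧ wd v w = eu v * wd u w ∧
      nm (m (E x v)) (fderiv ℝ (E x) v w) ^ 2 =
        ip u w ^ 2 + (F x u (eu v) / eu v) ^ 2 * wd u w ^ 2 ∧
      nm (m (E x (t • v))) (fderiv ℝ (E x) (t • v) w) ^ 2 =
        ip u w ^ 2 + (F x u (t * eu v) / (t * eu v)) ^ 2 * wd u w ^ 2 := by
  obtain ⟨u, hu, hvu, hw⟩ := A2_dir hv
  have hr : 0 < eu v := lt_of_le_of_ne (eu_nonneg v) fun h0 => hv (eu_eq_zero.1 h0.symm)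
  have h1 := A3_sq h x hu hr w
  have h2 := A3_sq h x hu (mul_pos ht hr) w
  have h3 : (t * eu v) • u = t • v := by
    rw [mul_smul, ← hvu]
  rw [← hvu] at h1
  rw [h3] at h2
  exact ⟨u, hu, hr, (hw w).2, h1, h2⟩

private theorem A3_scale (h : Had m k E V F) (x v w : Pl) {t : ℝ} (ht : 0 ≤ t) :
    nm (m (E x (t • v))) (fderiv ℝ (E x) (t • v) (t • w)) =
      t * nm (m (E x (t • v))) (fderiv ℝ (E x) (t • v) w) := by
  rw [map_smul, nm_smul, abs_of_nonneg ht]

private theorem A3_quot (h : Had m k E V F) {x u : Pl} (hu : eu u = 1) {r t : ℝ} (hr : 0 < r)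
    (ht : 0 < t) (ht' : t < 1) :
    0 ≤ F x u (t * r) / (t * r) ∧ F x u (t * r) / (t * r) < F x u r / r := by
  have htr := mul_pos ht hr
  refine ⟨div_nonneg (htr.le.trans (A1_ge h hu htr.le)) htr.le, ?_⟩
  rw [div_lt_div_iff₀ htr hr]
  have h1 := A1_conv h (x := x) hu hr ht ht'
  nlinarith

theorem A3_t (h : Had m k E V F) (x v w : Pl) {t : ℝ} (ht : 0 ≤ t) (ht' : t ≤ 1) :
    nm (m (E x (t • v))) (fderiv ℝ (E x) (t • v) (t • w))
      ≤ t * nm (m (E x v)) (fderiv ℝ (E x) v w) := by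
  rw [A3_scale h x v w ht]
  refine mul_le_mul_of_nonneg_left ?_ ht
  by_cases hv : v = 0
  · rw [hv, smul_zero]
  · rcases eq_or_lt_of_le ht with h0 | h0
    · rw [← h0, zero_smul]
      have h1 := A3_rad h x w 0
      rw [zero_smul] at h1
      rw [h1]
      exact A3_ge h x v w
    · rcases eq_or_lt_of_le ht' with h1 | h1
      · rw [h1, one_smul]
      · obtain ⟨u, hu, hr, -, h2, h3⟩ := A3_both h (x := x) (w := w) hv h0
        obtain ⟨h4, h5⟩ := A3_quot h (x := x) hu hr h0 h1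
        refine A3_le_sq ?_ (nm_nonneg _ _)
        rw [h2, h3]
        have h6 := pow_le_pow_left₀ h4 h5.le 2
        nlinarith [mul_le_mul_of_nonneg_right h6 (sq_nonneg (wd u w))]

theorem A3_lt (h : Had m k E V F) {x v w : Pl} {t : ℝ} (ht : 0 < t) (ht' : t < 1)
    (hw : wd v w ≠ 0) :
    nm (m (E x (t • v))) (fderiv ℝ (E x) (t • v) (t • w))
      < t * nm (m (E x v)) (fderiv ℝ (E x) v w) := by
  rw [A3_scale h x v w ht.le]
  refine mul_lt_mul_of_pos_left ?_ ht
  have hv : v ≠ 0 := by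
    rintro rfl
    apply hw
    simp [wd]
  obtain ⟨u, hu, hr, h1, h2, h3⟩ := A3_both h (x := x) (w := w) hv ht
  obtain ⟨h4, h5⟩ := A3_quot h (x := x) hu hr ht ht'
  have hwu : wd u w ≠ 0 := fun h0 => hw (by rw [h1, h0, mul_zero])
  refine lt_of_pow_lt_pow_left₀ 2 (nm_nonneg _ _) ?_
  rw [h2, h3]
  have h6 := pow_lt_pow_left₀ h5 h4 two_ne_zero
  have h7 : 0 < wd u w ^ 2 := by positivity
  nlinarith [mul_lt_mul_of_pos_right h6 h7]

private theorem A3_sinh {k : ℝ} (hk : 0 < k) :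
    (∀ r, 0 ≤ r → r ≤ Real.sinh (k * r) / k) ∧
      ∀ r t, 0 < r → 0 < t → t < 1 → Real.sinh (k * (t * r)) / k < t * (Real.sinh (k * r) / k) := by
  have h1 : ∀ r : ℝ, HasDerivAt (fun r => Real.sinh (k * r) / k) (Real.cosh (k * r)) r := by
    intro r
    have h2 := (((hasDerivAt_id r).const_mul k).sinh).div_const k
    refine h2.congr_deriv ?_
    simp only [id, mul_one]
    field_simp
  have h2 : ∀ r : ℝ, HasDerivAt (fun r => Real.cosh (k * r))
      (-(-k ^ 2) * (Real.sinh (k * r) / k)) r := by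
    intro r
    have h3 := ((hasDerivAt_id r).const_mul k).cosh
    refine h3.congr_deriv ?_
    simp only [id, mul_one]
    field_simp
  have h3 := A1_all hk (F := fun r => Real.sinh (k * r) / k) (G := fun r => Real.cosh (k * r))
    (κ := fun _ => -k ^ 2) (fun _ => ⟨le_rfl, by nlinarith [sq_pos_of_pos hk]⟩)
    (by simp) (by simp) h1 h2
  exact ⟨h3.2.1, h3.2.2.2.1⟩

theorem A3_up (h : Had m k E V F) {x v : Pl} (hv : eu v ≤ 1) (w : Pl) {T : ℝ} (hT : 0 < T) :
    nm (m (E x (T • v))) (fderiv ℝ (E x) (T • v) w) ≤ Real.sinh (k * T) / (k * T) * eu w := by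
  obtain ⟨hs1, hs2⟩ := A3_sinh h.kpos
  have hk := h.kpos
  set C : ℝ := Real.sinh (k * T) / (k * T) with hC
  have hC1 : 1 ≤ C := by
    rw [hC, le_div_iff₀ (mul_pos hk hT), one_mul]
    have := hs1 T hT.le
    rw [le_div_iff₀ hk] at this
    linarith
  by_cases hv0 : v = 0
  · rw [hv0, smul_zero]
    have h1 := A3_rad h x w 0
    rw [zero_smul] at h1
    rw [h1]
    nlinarith [eu_nonneg w]
  · obtain ⟨u, hu, hr, -, -, h3⟩ := A3_both h (x := x) (w := w) hv0 hT
    have hTr : 0 < T * eu v := mul_pos hT hr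
    have h4 : F x u (T * eu v) / (T * eu v) ≤ C := by
      have h5 := A1_sinh h (x := x) hu hTr.le
      have h6 : Real.sinh (k * (T * eu v)) / k ≤ eu v * (Real.sinh (k * T) / k) := by
        rcases eq_or_lt_of_le hv with h7 | h7
        · rw [h7, mul_one, one_mul]
        · have h8 := hs2 T (eu v) hT hr h7
          rw [mul_comm T (eu v)]
          exact h8.le
      rw [div_le_iff₀ hTr]
      refine (h5.trans h6).trans (le_of_eq ?_)
      rw [hC]
      field_simp
    have h5 : 0 ≤ F x u (T * eu v) / (T * eu v) :=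
      div_nonneg (hTr.le.trans (A1_ge h hu hTr.le)) hTr.le
    refine A3_le_sq ?_ (mul_nonneg (by linarith) (eu_nonneg w))
    rw [h3, mul_pow, A3_unit hu]
    have h6 := pow_le_pow_left₀ h5 h4 2
    have h7 : 1 ≤ C ^ 2 := one_le_pow₀ hC1
    nlinarith [mul_le_mul_of_nonneg_right h6 (sq_nonneg (wd u w)),
      mul_le_mul_of_nonneg_right h7 (sq_nonneg (ip u w))]

end BGM
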