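import Pool.Agent.LibBGM20.A7

/-! ROW A7s : strict convexity. Uses A2, A3, A4, A5, A6, A7.
PLAN. `A7_lt`: `c t = E y (t V y y')` is the geodesic from `y = E a v` to `y' = E a w`, `t ∈ [0, 1]`,
`len m c 0 1 = ds m y y'` (`A3_rad`), `u t = V a (c t)` (`A5_vel`), so the curve `E a (s u t)` goes from
`E a (s v)` to `E a (s w)`. If `wd (u t) (deriv u t) = 0` for all `t ∈ [0, 1]` then: if `u t₀ = 0` for some
`t₀` then `c t₀ = a` and `v, w` are parallel (`Had.go`), contradiction; else
`deriv u t = μ t • u t`, so `(wd v (u t)) ^ 2 / |u t| ^ 2` is constant, contradiction. So at some `t` the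
inequality of the integrands is strict (`A3_lt`), both integrands are continuous: the integrals differ
(`intervalIntegral.integral_lt_integral_of_continuousOn_of_le_of_exists_lt`).
`A7_quad_lt`: as `A7_quad` with `A7_lt` for the first of the two terms. -/

open MeasureTheory Set Filter Topology
open scoped ContDiff

namespace BGM

open BGS

variable {m : Pl → Co} {k : ℝ} {E V : Pl → Pl → Pl} {F : Pl → Pl → ℝ → ℝ}

/-- A curve which never vanishes and whose velocity is radial stays on a ray. -/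
theorem A7s_radial {u u' : ℝ → Pl} (hu : ∀ t, HasDerivAt u (u' t) t)
    (h0 : ∀ t ∈ Icc (0 : ℝ) 1, u t ≠ 0) (hw : ∀ t ∈ Icc (0 : ℝ) 1, wd (u t) (u' t) = 0) :
    wd (u 0) (u 1) = 0 := by
  have hu1 : ∀ t, HasDerivAt (fun t => (u t).1) (u' t).1 t := fun t => (hu t).fst
  have hu2 : ∀ t, HasDerivAt (fun t => (u t).2) (u' t).2 t := fun t => (hu t).snd
  have hq : ∀ t ∈ Icc (0 : ℝ) 1, 0 < (u t).1 ^ 2 + (u t).2 ^ 2 := by
    intro t ht
    by_contra hcon
    apply h0 t ht
    have e1 : (u t).1 = 0 := by nlinarith [sq_nonneg (u t).1, sq_nonneg (u t).2]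
    have e2 : (u t).2 = 0 := by nlinarith [sq_nonneg (u t).1, sq_nonneg (u t).2]
    exact Prod.ext e1 e2
  set f : ℝ → ℝ := fun t => ((u 0).1 * (u t).2 - (u 0).2 * (u t).1) ^ 2 /
    ((u t).1 ^ 2 + (u t).2 ^ 2) with hf
  have hder : ∀ t ∈ Icc (0 : ℝ) 1, HasDerivAt f 0 t := by
    intro t ht
    have hy : HasDerivAt (fun t => ((u 0).1 * (u t).2 - (u 0).2 * (u t).1) ^ 2)
        (2 * ((u 0).1 * (u t).2 - (u 0).2 * (u t).1) *
          ((u 0).1 * (u' t).2 - (u 0).2 * (u' t).1)) t := by
      have := (((hu2 t).const_mul (u 0).1).sub ((hu1 t).const_mul (u 0).2)).pow 2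
      refine this.congr_deriv ?_
      simp
    have hz : HasDerivAt (fun t => (u t).1 ^ 2 + (u t).2 ^ 2)
        (2 * (u t).1 * (u' t).1 + 2 * (u t).2 * (u' t).2) t := by
      have := ((hu1 t).pow 2).add ((hu2 t).pow 2)
      refine this.congr_deriv ?_
      simp
    have hd := hy.div hz (hq t ht).ne'
    refine hd.congr_deriv ?_
    have hw' : (u t).1 * (u' t).2 = (u t).2 * (u' t).1 := by
      have := hw t ht
      unfold wd at this
      linarith
    rw [div_eq_zero_iff]
    left
    linear_combination (2 * ((u 0).1 * (u t).2 - (u 0).2 * (u t).1) *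
      ((u 0).1 * (u t).1 + (u 0).2 * (u t).2)) * hw'
  have hcont : ContinuousOn f (Icc 0 1) := fun t ht => (hder t ht).continuousAt.continuousWithinAt
  obtain ⟨c, -, hc⟩ := exists_hasDerivAt_eq_slope f (fun _ => 0) one_pos hcont
    (fun t ht => hder t (Ioo_subset_Icc_self ht))
  have h1 : f 1 = f 0 := by
    have h2 : (f 1 - f 0) / (1 - 0) = 0 := hc.symm
    rw [sub_zero, div_one] at h2
    linarith
  have h3 : f 0 = 0 := by
    rw [hf]
    simp only
    rw [div_eq_zero_iff]
    left
    ring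
  rw [h3, hf] at h1
  simp only at h1
  rw [div_eq_zero_iff] at h1
  rcases h1 with h1 | h1
  · unfold wd
    have := pow_eq_zero_iff (two_ne_zero) |>.1 h1
    linarith
  · exact absurd h1 (hq 1 ⟨zero_le_one, le_rfl⟩).ne'

theorem A7s_curve (h : Had m k E V F) (x p : Pl) : ContDiff ℝ ∞ (fun t : ℝ => E x (t • p)) ∧
    ∀ t : ℝ, HasDerivAt (fun t : ℝ => E x (t • p)) (fderiv ℝ (E x) (t • p) p) t := by
  have hE := (A3_smooth h x).1
  refine ⟨hE.comp (contDiff_id.smul contDiff_const), fun t => ?_⟩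
  have h1 : HasDerivAt (fun t : ℝ => t • p) p t := by
    have := (hasDerivAt_id t).smul_const p
    simpa using this
  exact ((hE.differentiable (by simp)).differentiableAt.hasFDerivAt).comp_hasDerivAt t h1

theorem A7_lt (h : Had m k E V F) {a v w : Pl} {s : ℝ} (hs : 0 < s) (hs' : s < 1)
    (hvw : wd v w ≠ 0) : ds m (E a (s • v)) (E a (s • w)) < s * ds m (E a v) (E a w) := by
  set y := E a v with hy
  set y' := E a w with hy'
  set p := V y y' with hp
  set c : ℝ → Pl := fun t => E y (t • p) with hc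
  have hcs := A7s_curve h y p
  have hc1 : ContDiff ℝ 1 c := hcs.1.of_le (by norm_cast)
  have hcder : ∀ t, deriv c t = fderiv ℝ (E y) (t • p) p := fun t => (hcs.2 t).deriv
  have hc0 : c 0 = y := by
    rw [hc]
    simp only
    rw [zero_smul, h.E0]
  have hc1' : c 1 = y' := by
    rw [hc]
    simp only
    rw [one_smul, hp, h.EV]
  have hnm : ∀ t, nm (m (c t)) (deriv c t) = eu p := by
    intro t
    rw [hcder]
    exact A3_rad h y p t
  set u : ℝ → Pl := fun t => V a (c t) with hu
  obtain ⟨hu1, hvel⟩ := A5_vel h a hc1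
  have hud : ∀ t, HasDerivAt u (deriv u t) t := fun t =>
    ((hu1.differentiable (by norm_num)).differentiableAt).hasDerivAt
  have hcu : ∀ t, c t = E a (u t) := fun t => (h.EV a (c t)).symm
  -- the new curve
  have hEa := (A3_smooth h a).1
  set b : ℝ → Pl := fun t => E a (s • u t) with hb
  have hb1 : ContDiff ℝ 1 b :=
    (hEa.of_le (by norm_cast)).comp (hu1.const_smul s)
  have hbd : ∀ t, deriv b t = fderiv ℝ (E a) (s • u t) (s • deriv u t) := by
    intro t
    have h1 : HasDerivAt (fun t => s • u t) (s • deriv u t) t := (hud t).const_smul s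
    exact (((hEa.differentiable (by simp)).differentiableAt.hasFDerivAt).comp_hasDerivAt t h1).deriv
  have hmid : ∀ t, nm (m (E a (u t))) (fderiv ℝ (E a) (u t) (deriv u t)) = eu p := by
    intro t
    have h1 := hnm t
    rw [hvel t] at h1
    rw [← hcu t]
    exact h1
  have hle : ∀ t, nm (m (b t)) (deriv b t) ≤ s * eu p := by
    intro t
    rw [hbd, ← hmid t]
    exact A3_t h a (u t) (deriv u t) hs.le hs'.le
  have hex : ∃ t ∈ Icc (0 : ℝ) 1, wd (u t) (deriv u t) ≠ 0 := by
    by_contra hcon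
    push Not at hcon
    have hu0 : u 0 = v := by
      rw [hu]
      simp only
      rw [hc0, hy, h.VE]
    have hu1' : u 1 = w := by
      rw [hu]
      simp only
      rw [hc1', hy', h.VE]
    by_cases hz : ∃ t ∈ Icc (0 : ℝ) 1, u t = 0
    · obtain ⟨t₀, -, ht₀⟩ := hz
      obtain ⟨q, -, hq⟩ := h.go y p t₀
      have hca : E y (t₀ • p) = a := by
        have := hcu t₀
        rw [ht₀, h.E0] at this
        exact this
      rw [hca] at hq
      have e1 : v = (-t₀) • q := by
        have := hq (-t₀)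
        rw [add_neg_cancel, zero_smul, h.E0] at this
        rw [← h.VE a v, ← hy, this, h.VE]
      have e2 : w = (1 - t₀) • q := by
        have := hq (1 - t₀)
        rw [add_sub_cancel, one_smul, hp, h.EV] at this
        rw [← h.VE a w, ← hy', this, h.VE]
      apply hvw
      rw [e1, e2]
      unfold wd
      simp only [Prod.smul_fst, Prod.smul_snd, smul_eq_mul]
      ring
    · push Not at hz
      apply hvw
      have := A7s_radial hud hz hcon
      rwa [hu0, hu1'] at this
  obtain ⟨t₀, ht₀, hw₀⟩ := hex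
  have hlt : nm (m (b t₀)) (deriv b t₀) < s * eu p := by
    rw [hbd, ← hmid t₀]
    exact A3_lt h (x := a) hs hs' hw₀
  have hb0 : b 0 = E a (s • v) := by
    rw [hb]
    simp only
    rw [hu]
    simp only
    rw [hc0, hy, h.VE]
  have hb1' : b 1 = E a (s • w) := by
    rw [hb]
    simp only
    rw [hu]
    simp only
    rw [hc1', hy', h.VE]
  have hint : len m b 0 1 < ∫ _ in (0 : ℝ)..1, s * eu p :=
    intervalIntegral.integral_lt_integral_of_continuousOn_of_le_of_exists_lt one_pos
      (A4_cont h.rp hb1).continuousOn continuousOn_const (fun t _ => hle t) ⟨t₀, ht₀, hlt⟩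
  rw [intervalIntegral.integral_const, sub_zero, one_smul] at hint
  have hds := ds_le h.rp hb1 zero_le_one
  rw [hb0, hb1'] at hds
  rw [ds_eq h y y', ← hp]
  exact hds.trans_lt hint

/-- Strict convexity when `x₀, x₁, y₁` are not on a geodesic. -/
theorem A7_quad_lt (h : Had m k E V F) {x₀ x₁ y₀ y₁ : Pl} {s : ℝ} (hs : 0 < s) (hs' : s < 1)
    (hn : wd (V x₀ x₁) (V x₀ y₁) ≠ 0) :
    ds m (E x₀ (s • V x₀ x₁)) (E y₀ (s • V y₀ y₁)) < (1 - s) * ds m x₀ y₀ + s * ds m x₁ y₁ := by
  have h1 := A7_lt h (a := x₀) hs hs' hn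
  rw [h.EV, h.EV] at h1
  have h2 := A7_t h y₁ (V y₁ x₀) (V y₁ y₀) (s := 1 - s) (by linarith) (by linarith)
  rw [h.EV, h.EV, ← A7_other h x₀ y₁ s, ← A7_other h y₀ y₁ s] at h2
  have h3 := ds_tri h.rp (E x₀ (s • V x₀ x₁)) (E x₀ (s • V x₀ y₁)) (E y₀ (s • V y₀ y₁))
  linarith

end BGM
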