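import Pool.Agent.LibBGM20.A6

/-! ROW A8 : upper bound of the divergence of geodesics; two geodesics which are close at two times.
Uses A2, A3, A4, A5, A6.
PLAN. `A8_up`: the curve `t ↦ E x (T (v + t (w - v)))`, `t ∈ [0, 1]`, has velocity
`fderiv (E x) (T u) (T (w - v))`, `u = v + t (w - v)`, `eu u ≤ 1`: `A3_up` and `nm_smul`.
`A8_two`: `c t = E x (t v)`, `c' t = E x (t w)` (`A6_line`), `τ eu (v - w) = eu (τ v - τ w) ≤ ds (c τ) (c' τ)`
(`ds_ge`), and `A8_up` at `T = |t|` (for `t < 0` with `-v, -w`).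
-/

open MeasureTheory Set Filter Topology
open scoped ContDiff

namespace BGM

open BGS

variable {m : Pl → Co} {k : ℝ} {E V : Pl → Pl → Pl} {F : Pl → Pl → ℝ → ℝ}

theorem A8_up (h : Had m k E V F) {x v w : Pl} (hv : eu v ≤ 1) (hw : eu w ≤ 1) {T : ℝ}
    (hT : 0 ≤ T) :
    ds m (E x (T • v)) (E x (T • w)) ≤ Real.sinh (k * T) / k * eu (v - w) := by
  have hk := h.kpos
  rcases eq_or_lt_of_le hT with h0 | hT0
  · rw [← h0, zero_smul, zero_smul, ds_self h.rp, mul_zero, Real.sinh_zero, zero_div, zero_mul]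
  -- the curve
  obtain ⟨u, hu⟩ : ∃ u : ℝ → Pl, u = fun t => v + t • (w - v) := ⟨_, rfl⟩
  have hu1 : ∀ t ∈ Icc (0 : ℝ) 1, eu (u t) ≤ 1 := by
    intro t ht
    have e : u t = (1 - t) • v + t • w := by
      rw [hu]
      show v + t • (w - v) = (1 - t) • v + t • w
      rw [smul_sub, sub_smul, one_smul]
      abel
    rw [e]
    refine (eu_add _ _).trans ?_
    rw [eu_smul, eu_smul, abs_of_nonneg (by linarith [ht.2]), abs_of_nonneg ht.1]
    have h1 : (1 - t) * eu v ≤ (1 - t) * 1 := mul_le_mul_of_nonneg_left hv (by linarith [ht.2])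
    have h2 : t * eu w ≤ t * 1 := mul_le_mul_of_nonneg_left hw ht.1
    linarith
  obtain ⟨γ, hγ⟩ : ∃ γ : ℝ → Pl, γ = fun t => E x (T • u t) := ⟨_, rfl⟩
  have hus : ContDiff ℝ 1 fun t => T • u t := by
    rw [hu]
    fun_prop
  have hEs : ContDiff ℝ 1 (E x) := (A3_smooth h x).1.of_le (by exact_mod_cast le_top)
  have hγs : ContDiff ℝ 1 γ := by
    rw [hγ]
    exact hEs.comp hus
  have hud : ∀ t, HasDerivAt (fun t => T • u t) (T • (w - v)) t := by
    intro t
    rw [hu]
    have h1 : HasDerivAt (fun t : ℝ => v + t • (w - v)) (w - v) t := by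
      have h2 : HasDerivAt (fun t : ℝ => t • (w - v)) ((1 : ℝ) • (w - v)) t :=
        (hasDerivAt_id t).smul_const (w - v)
      rw [one_smul] at h2
      exact h2.const_add v
    exact h1.const_smul T
  have hγd : ∀ t, deriv γ t = T • fderiv ℝ (E x) (T • u t) (w - v) := by
    intro t
    have h1 : HasFDerivAt (E x) (fderiv ℝ (E x) (T • u t)) (T • u t) :=
      ((hEs.differentiable (by norm_num)) (T • u t)).hasFDerivAt
    have h2 := h1.comp_hasDerivAt t (hud t)
    rw [ContinuousLinearMap.map_smul] at h2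
    rw [hγ]
    exact h2.deriv
  have hle := ds_le h.rp hγs (zero_le_one (α := ℝ))
  have e0 : γ 0 = E x (T • v) := by
    rw [hγ, hu]
    show E x (T • (v + (0 : ℝ) • (w - v))) = _
    rw [zero_smul, add_zero]
  have e1 : γ 1 = E x (T • w) := by
    rw [hγ, hu]
    show E x (T • (v + (1 : ℝ) • (w - v))) = _
    rw [one_smul, add_sub_cancel]
  rw [e0, e1] at hle
  refine hle.trans ?_
  have hbd : ∀ t ∈ Icc (0 : ℝ) 1, nm (m (γ t)) (deriv γ t) ≤
      Real.sinh (k * T) / k * eu (v - w) := by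
    intro t ht
    rw [hγd, nm_smul, abs_of_pos hT0]
    have h1 := A3_up h (x := x) (hu1 t ht) (w - v) hT0
    have h2 : nm (m (γ t)) (fderiv ℝ (E x) (T • u t) (w - v)) ≤
        Real.sinh (k * T) / (k * T) * eu (w - v) := by
      rw [hγ]
      exact h1
    refine (mul_le_mul_of_nonneg_left h2 hT0.le).trans (le_of_eq ?_)
    rw [show w - v = -(v - w) by abel, eu_neg]
    field_simp
  unfold len
  have hcont := A4_cont h.rp hγs
  calc ∫ t in (0 : ℝ)..1, nm (m (γ t)) (deriv γ t)
      ≤ ∫ _ in (0 : ℝ)..1, Real.sinh (k * T) / k * eu (v - w) :=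
        intervalIntegral.integral_mono_on zero_le_one (hcont.intervalIntegrable _ _)
          intervalIntegrable_const hbd
    _ = Real.sinh (k * T) / k * eu (v - w) := by
        rw [intervalIntegral.integral_const, sub_zero, one_smul]

theorem A8_two (h : Had m k E V F) {c c' : ℝ → Pl} (hc : IsLine m c) (hc' : IsLine m c')
    (h0 : c 0 = c' 0) {τ : ℝ} (hτ : 0 < τ) (t : ℝ) :
    ds m (c t) (c' t) ≤ Real.sinh (k * |t|) / (k * τ) * ds m (c τ) (c' τ) := by
  have hk := h.kpos
  obtain ⟨v, hv, hcv⟩ := A6_line h hc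
  obtain ⟨w, hw, hcw⟩ := A6_line h hc'
  rw [← h0] at hcw
  -- the lower bound
  have h1 : τ * eu (v - w) ≤ ds m (c τ) (c' τ) := by
    rw [hcv τ, hcw τ]
    refine le_trans (le_of_eq ?_) (ds_ge h (c 0) (τ • v) (τ • w))
    rw [← smul_sub, eu_smul, abs_of_pos hτ]
  -- the upper bound
  have h2 : ds m (c t) (c' t) ≤ Real.sinh (k * |t|) / k * eu (v - w) := by
    rw [hcv t, hcw t]
    rcases le_total 0 t with ht | ht
    · rw [abs_of_nonneg ht]
      exact A8_up h hv.le hw.le ht
    · have e1 : t • v = |t| • (-v) := by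
        rw [abs_of_nonpos ht, neg_smul_neg]
      have e2 : t • w = |t| • (-w) := by
        rw [abs_of_nonpos ht, neg_smul_neg]
      rw [e1, e2]
      have h3 := A8_up h (x := c 0) (v := -v) (w := -w) (by rw [eu_neg, hv]) (by rw [eu_neg, hw])
        (abs_nonneg t)
      rw [show -v - -w = -(v - w) by abel, eu_neg] at h3
      exact h3
  refine h2.trans ?_
  have h4 : 0 ≤ Real.sinh (k * |t|) := by
    rw [Real.sinh_nonneg_iff]
    positivity
  have e : Real.sinh (k * |t|) / k * eu (v - w) =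
      Real.sinh (k * |t|) / (k * τ) * (τ * eu (v - w)) := by
    field_simp
  rw [e]
  exact mul_le_mul_of_nonneg_left h1 (by positivity)

end BGM
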