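import Pool.Agent.LibBGM20.A8
import Pool.Agent.LibBGM20.A4t

/-! ROW A8c : two geodesics which are close at two times stay close. Uses A4, A4t, A6, A8.
PLAN. Replacing `c'` by its reversal (`IsLine.rev`, `a', b'` by `-a', -b'`, `σ = -1`) we may assume
`a' ≤ b'` and take `σ = 1`. Put `τ = b - a`, `x = c a`, `y = c' b'`, `τ' = ds x y`: `|τ' - τ| ≤ δ`,
`|b' - a' - τ'| ≤ δ`. `e` = line with `e 0 = x`, `e τ' = y` (`A6_exists`).
`ds (c (a + τ)) (e τ) ≤ ds (c b) y + |τ' - τ| ≤ 2 δ`, so by `A8_two`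
`ds (c (a + t)) (e t) ≤ sinh (k |t|) / (k τ) 2 δ`. The lines `s ↦ e (τ' - s)` and `s ↦ c' (b' - s)` both
start at `y`, and at `s = τ'` they are at distance `≤ ds x (c' a') + δ ≤ 2 δ`; so with `s = τ' - t`:
`ds (e t) (c' (b' - τ' + t)) ≤ sinh (k |τ' - t|) / (k τ') 2 δ`; and `|b' - τ' - a'| ≤ δ`. Everything is
estimated with `A / τ`, `A = sinh (k (|t| + 2)) / k ≥ 2` (`sinh y ≥ y`), `τ ≤ 1`, `τ' ≥ τ / 2`, `τ' ≤ 2`:
`2 + 4 + 1 = 7`. -/

open MeasureTheory Set Filter Topology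
open scoped ContDiff

namespace BGM

open BGS

variable {m : Pl → Co} {k : ℝ} {E V : Pl → Pl → Pl} {F : Pl → Pl → ℝ → ℝ}

private theorem A8c_pos (h : Had m k E V F) {c c' : ℝ → Pl} (hc : IsLine m c)
    (hc' : IsLine m c') {a b a' b' δ : ℝ} (hab : a < b) (hab1 : b - a ≤ 1) (hδ : 2 * δ < b - a)
    (ha : ds m (c a) (c' a') ≤ δ) (hb : ds m (c b) (c' b') ≤ δ) (hab' : a' ≤ b') (t : ℝ) :
    ds m (c (a + t)) (c' (a' + t)) ≤
      7 * δ * (Real.sinh (k * (|t| + 2)) / k) / (b - a) := by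
  have hk := h.kpos
  have hδ0 : 0 ≤ δ := (ds_nonneg _ _ _).trans ha
  obtain ⟨τ, hτ⟩ : ∃ τ : ℝ, τ = b - a := ⟨_, rfl⟩
  have hτ0 : 0 < τ := by rw [hτ]; linarith
  rw [← hτ] at hab1 hδ ⊢
  obtain ⟨τ', hτ'⟩ : ∃ τ' : ℝ, τ' = ds m (c a) (c' b') := ⟨_, rfl⟩
  have hcab : ds m (c a) (c b) = τ := by
    rw [hc, abs_sub_comm, abs_of_pos (by linarith), hτ]
  have hcab' : ds m (c' a') (c' b') = b' - a' := by
    rw [hc', abs_sub_comm, abs_of_nonneg (by linarith)]
  have t1 := ds_tri h.rp (c a) (c b) (c' b')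
  have t2 := ds_tri h.rp (c a) (c' b') (c b)
  have t3 := ds_tri h.rp (c a) (c' a') (c' b')
  have t4 := ds_tri h.rp (c' a') (c a) (c' b')
  rw [ds_symm h.rp (c' b') (c b)] at t2
  rw [ds_symm h.rp (c' a') (c a)] at t4
  rw [hcab, ← hτ'] at t1 t2
  rw [hcab', ← hτ'] at t3 t4
  obtain ⟨e, he, he0, heτ⟩ := A6_exists h (c a) (c' b')
  rw [← hτ'] at heτ
  have hττ1 : |τ - τ'| ≤ δ := abs_le.2 ⟨by linarith, by linarith⟩
  have hττ2 : |b' - τ' - a'| ≤ δ := abs_le.2 ⟨by linarith, by linarith⟩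
  have hτ'0 : τ / 2 ≤ τ' := by linarith
  have hτ'2 : τ' ≤ 2 := by linarith
  have hτ'pos : 0 < τ' := by linarith
  -- the first comparison
  have c1 : ds m (c (a + τ)) (e τ) ≤ 2 * δ := by
    have e1 : a + τ = b := by rw [hτ]; ring
    rw [e1]
    have t5 := ds_tri h.rp (c b) (c' b') (e τ)
    have t6 : ds m (c' b') (e τ) ≤ δ := by
      rw [← heτ, he, abs_sub_comm]
      exact hττ1
    linarith
  have c2 := A8_two h (hc.shift a) he (by rw [add_zero, he0]) hτ0 t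
  -- the second comparison
  have hre : IsLine m fun s => e (τ' - s) := by
    intro s s'
    rw [he]
    rw [show τ' - s - (τ' - s') = -(s - s') by ring, abs_neg]
  have hrc : IsLine m fun s => c' (b' - s) := by
    intro s s'
    rw [hc']
    rw [show b' - s - (b' - s') = -(s - s') by ring, abs_neg]
  have c3 : ds m (e (τ' - τ')) (c' (b' - τ')) ≤ 2 * δ := by
    rw [sub_self, he0]
    have t5 := ds_tri h.rp (c a) (c' a') (c' (b' - τ'))
    have t6 : ds m (c' a') (c' (b' - τ')) ≤ δ := by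
      rw [hc', abs_sub_comm]
      exact hττ2
    linarith
  have c4 := A8_two h hre hrc (by rw [sub_zero, sub_zero, heτ]) hτ'pos (τ' - t)
  simp only [sub_sub_cancel] at c4
  -- the third comparison
  have c5 : ds m (c' (b' - (τ' - t))) (c' (a' + t)) ≤ δ := by
    rw [hc']
    rw [show b' - (τ' - t) - (a' + t) = b' - τ' - a' by ring]
    exact hττ2
  have t7 := ds_tri h.rp (c (a + t)) (e t) (c' (a' + t))
  have t8 := ds_tri h.rp (e t) (c' (b' - (τ' - t))) (c' (a' + t))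
  -- the estimates
  obtain ⟨A, hA⟩ : ∃ A : ℝ, A = Real.sinh (k * (|t| + 2)) / k := ⟨_, rfl⟩
  rw [← hA]
  have hat : 0 ≤ |t| := abs_nonneg t
  have hA2 : 2 ≤ A := by
    rw [hA, le_div_iff₀ hk]
    have h1 : k * (|t| + 2) ≤ Real.sinh (k * (|t| + 2)) :=
      Real.self_le_sinh_iff.mpr (by positivity)
    nlinarith
  have s1 : Real.sinh (k * |t|) / k ≤ A := by
    rw [hA]
    refine div_le_div_of_nonneg_right (Real.sinh_le_sinh.2 ?_) hk.le
    exact mul_le_mul_of_nonneg_left (by linarith) hk.le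
  have s2 : Real.sinh (k * |τ' - t|) / k ≤ A := by
    rw [hA]
    refine div_le_div_of_nonneg_right (Real.sinh_le_sinh.2 ?_) hk.le
    refine mul_le_mul_of_nonneg_left ?_ hk.le
    have := abs_sub τ' t
    rw [abs_of_pos hτ'pos] at this
    linarith
  have r1 : Real.sinh (k * |t|) / (k * τ) * ds m (c (a + τ)) (e τ) ≤ 2 * δ * A / τ := by
    rw [← div_div]
    calc Real.sinh (k * |t|) / k / τ * ds m (c (a + τ)) (e τ) ≤ A / τ * (2 * δ) :=
          mul_le_mul (div_le_div_of_nonneg_right s1 hτ0.le) c1 (ds_nonneg _ _ _) (by positivity)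
      _ = 2 * δ * A / τ := by ring
  have r2 : Real.sinh (k * |τ' - t|) / (k * τ') * ds m (e (τ' - τ')) (c' (b' - τ')) ≤
      4 * δ * A / τ := by
    rw [← div_div]
    have q1 : Real.sinh (k * |τ' - t|) / k / τ' ≤ A / (τ / 2) := by
      have q2 : Real.sinh (k * |τ' - t|) / k / τ' ≤ A / τ' :=
        div_le_div_of_nonneg_right s2 hτ'pos.le
      exact q2.trans (div_le_div_of_nonneg_left (by linarith) (by linarith) hτ'0)
    calc Real.sinh (k * |τ' - t|) / k / τ' * ds m (e (τ' - τ')) (c' (b' - τ'))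
        ≤ A / (τ / 2) * (2 * δ) :=
          mul_le_mul q1 c3 (ds_nonneg _ _ _) (by positivity)
      _ = 4 * δ * A / τ := by field_simp; ring
  have r3 : δ ≤ δ * A / τ := by
    rw [le_div_iff₀ hτ0]
    exact mul_le_mul_of_nonneg_left (by linarith) hδ0
  have fin : 7 * δ * A / τ = 2 * δ * A / τ + (4 * δ * A / τ + δ * A / τ) := by ring
  rw [fin]
  have c2' := c2.trans r1
  have c4' := c4.trans r2
  linarith

/-- Two lines which are close at two times stay close: the constant is explicit. -/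
theorem A8_cmp (h : Had m k E V F) {c c' : ℝ → Pl} (hc : IsLine m c) (hc' : IsLine m c')
    {a b a' b' δ : ℝ} (hab : a < b) (hab1 : b - a ≤ 1) (hδ : 2 * δ < b - a)
    (ha : ds m (c a) (c' a') ≤ δ) (hb : ds m (c b) (c' b') ≤ δ) :
    ∃ σ : ℝ, (σ = 1 ∨ σ = -1) ∧ ∀ t : ℝ, ds m (c (a + t)) (c' (a' + σ * t))
      ≤ 7 * δ * (Real.sinh (k * (|t| + 2)) / k) / (b - a) := by
  rcases le_total a' b' with hab' | hab'
  · refine ⟨1, Or.inl rfl, fun t => ?_⟩
    rw [one_mul]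
    exact A8c_pos h hc hc' hab hab1 hδ ha hb hab' t
  · refine ⟨-1, Or.inr rfl, fun t => ?_⟩
    have h1 := A8c_pos h hc hc'.rev (a := a) (b := b) (a' := -a') (b' := -b') hab hab1 hδ
      (by rw [neg_neg]; exact ha) (by rw [neg_neg]; exact hb) (by linarith) t
    rw [show -(-a' + t) = a' + -1 * t by ring] at h1
    exact h1


end BGM
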