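import Pool.Agent.LibBGM20.B2
import Pool.Agent.LibBGM20.A4t
import Pool.Agent.LibBGM20.A6

/-! ROW B2x : axes. Uses A4, A4t, A5, A6, B1, B2.
PLAN. `B2_axis`: `ℓ = tl m g > 0`. `c` = line with `c 0 = z`, `c ℓ = g z` (`A6_exists`). `M = c (ℓ/2)`,
`g M` is on the line `g c`. `ds M (g M) ≤ ds M (g z) + ds (g z) (g M) = ℓ/2 + ℓ/2 = ℓ`, so by minimality
(`tl_le`) it is `ℓ` and `g z` is between `M` and `g M`. Let `e` be the line with `e 0 = M`, `e ℓ = g M`; by
`A6_mem` `e (ℓ/2) = g z`. So `e` and `t ↦ c (ℓ/2 + t)` agree at `0` and `ℓ/2`: equal (`A6_unique`), so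
`c (3ℓ/2) = g (c (ℓ/2))`, and `c ℓ = g (c 0)`: the lines `t ↦ c (t + ℓ)` and `t ↦ g • c t` agree at `0`
and `ℓ/2`: equal. -/

open MeasureTheory Set Filter Topology
open scoped ContDiff

namespace BGM

open BGS

variable {Γ : Type} [Group Γ] [MulAction Γ Pl] {D : Set Pl}
variable {m : Pl → Co} {k : ℝ} {E V : Pl → Pl → Pl} {F : Pl → Pl → ℝ → ℝ}

/-- There is an axis through every point of minimal displacement. -/
theorem B2_axis (hX : Surface Γ D) (hi : Iv Γ m) (h : Had m k E V F) {g : Γ} (hg : g ≠ 1) {z : Pl}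
    (hz : ds m z (g • z) = tl m g) : ∃ c, IsAx m g c ∧ c 0 = z := by
  have hl : 0 < tl m g := tl_pos hX hi h hg
  set l := tl m g with hldef
  obtain ⟨c, hc, hc0, hc1⟩ := A6_exists h z (g • z)
  rw [hz] at hc1
  have d1 : ds m (c (l / 2)) (g • z) = l / 2 := by
    rw [← hc1, hc]
    rw [abs_sub_comm, abs_of_nonneg (by linarith)]
    ring
  have d2 : ds m (g • z) (g • c (l / 2)) = l / 2 := by
    rw [B1_ds hX hi]
    nth_rewrite 1 [← hc0]
    rw [hc, zero_sub, abs_neg, abs_of_nonneg (by linarith)]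
  have d3 : ds m (c (l / 2)) (g • c (l / 2)) = l := by
    have h1 := ds_tri h.rp (c (l / 2)) (g • z) (g • c (l / 2))
    have h2 := tl_le m g (c (l / 2))
    rw [d1, d2] at h1
    rw [← hldef] at h2
    linarith
  obtain ⟨e, he, he0, he1⟩ := A6_exists h (c (l / 2)) (g • c (l / 2))
  rw [d3] at he1
  have h1 : g • z = e (0 + ds m (e 0) (g • z)) := by
    apply A6_mem h he hl
    rw [he0, he1, d1, d2, d3]
    ring
  rw [he0, d1, zero_add] at h1
  have h2 : (fun t => c (l / 2 + t)) = e := by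
    apply A6_unique h (hc.shift (l / 2)) he (a := 0) (b := l / 2) (by linarith)
    · show c (l / 2 + 0) = e 0
      rw [he0, add_zero]
    · show c (l / 2 + l / 2) = e (l / 2)
      rw [← h1, ← hc1]
      congr 1
      ring
  have h3 : c (l / 2 + l) = g • c (l / 2) := by
    have h4 := congrFun h2 l
    rw [he1] at h4
    exact h4
  have h5 : (fun t => c (l + t)) = fun t => g • c t := by
    apply A6_unique h (hc.shift l) (B1_line hX hi g hc) (a := 0) (b := l / 2) (by linarith)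
    · show c (l + 0) = g • c 0
      rw [add_zero, hc1, hc0]
    · show c (l + l / 2) = g • c (l / 2)
      rw [← h3]
      congr 1
      ring
  refine ⟨c, ⟨hc, fun t => ?_⟩, hc0⟩
  have h6 := congrFun h5 t
  rw [add_comm]
  exact h6

/-- The points of an axis have minimal displacement. -/
theorem B2_pts {g : Γ} {c : ℝ → Pl} (hc : IsAx m g c) (t : ℝ) :
    ds m (c t) (g • c t) = tl m g := by
  rw [← hc.2 t, hc.1]
  have h1 : t - (t + tl m g) = -tl m g := by ring
  rw [h1, abs_neg, abs_of_nonneg (tl_nonneg m g)]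

theorem B2_iter {g : Γ} {c : ℝ → Pl} (hc : IsAx m g c) (n : ℤ) (t : ℝ) :
    c (t + n * tl m g) = (g ^ n) • c t := by
  induction n using Int.induction_on with
  | zero => simp
  | succ i ih =>
    have h1 : t + (((i : ℤ) + 1 : ℤ) : ℝ) * tl m g = (t + ((i : ℤ) : ℝ) * tl m g) + tl m g := by
      push_cast
      ring
    rw [h1, hc.2, ih, ← mul_smul]
    congr 1
    rw [add_comm, zpow_add, zpow_one]
  | pred i ih =>
    have h1 : t + ((-(i : ℤ) : ℤ) : ℝ) * tl m g =
        (t + ((-(i : ℤ) - 1 : ℤ) : ℝ) * tl m g) + tl m g := by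
      push_cast
      ring
    rw [h1, hc.2] at ih
    have h2 : c (t + ((-(i : ℤ) - 1 : ℤ) : ℝ) * tl m g) = g⁻¹ • (g ^ (-(i : ℤ)) • c t) := by
      rw [← ih, inv_smul_smul]
    rw [h2, ← mul_smul]
    congr 1
    rw [sub_eq_add_neg, add_comm, zpow_add, zpow_neg_one]


end BGM
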