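import Pool.Agent.LibBGM20.B2
import Pool.Agent.LibBGM20.A7

/-! ROW B3 : midpoints and collinear points. Uses A5, A6, A7, B1.
PLAN. `B3_mid`: if `z = w` both sides are `g • z` (`V_self`, `E0`). Else `d = ds m z w > 0`,
`V z w = d u`, `eu u = 1`; the lines `t ↦ g • E z (t u)` (`line_E`, `B1_line`) and
`t ↦ E (g z) (t u')`, `V (g z) (g w) = d u'` (`eu` of it is `ds m (g z) (g w) = d`), agree at `t = 0` and
`t = d`: equal (`A6_unique`); take `t = s d`. `B3_col`: if `z = w` done. Else there is a unit vector `e` with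
`V z w = a' e`, `V z w' = b' e` (`wd = 0`), `a' ≠ b'`; the line `t ↦ E z (t e)` and the line `c` pass both through
`w`, `w'`, `|a' - b'| = |a - b|`, so they agree up to a shift and possibly a reversal of the time
(`A6_unique`, `IsLine.shift`, `IsLine.rev`); `z = E z 0`. -/

open MeasureTheory Set Filter Topology
open scoped ContDiff

namespace BGM

open BGS

variable {Γ : Type} [Group Γ] [MulAction Γ Pl] {D : Set Pl}
variable {m : Pl → Co} {k : ℝ} {E V : Pl → Pl → Pl} {F : Pl → Pl → ℝ → ℝ}

/-- Midpoints are mapped to midpoints. -/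
theorem B3_mid (hX : Surface Γ D) (hi : Iv Γ m) (h : Had m k E V F) (g : Γ) (z w : Pl) (s : ℝ) :
    g • E z (s • V z w) = E (g • z) (s • V (g • z) (g • w)) := by
  rcases eq_or_ne z w with rfl | hzw
  · rw [V_self h, V_self h, smul_zero, h.E0, h.E0]
  · have hd0 : ds m z w ≠ 0 := fun h0 => hzw ((ds_eq_zero h).1 h0)
    have hd : 0 < ds m z w := lt_of_le_of_ne (ds_nonneg m z w) (Ne.symm hd0)
    set d := ds m z w with hdd
    have hu : eu (d⁻¹ • V z w) = 1 := by
      rw [eu_smul, ← ds_eq h, abs_of_pos (inv_pos.2 hd), ← hdd]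
      exact inv_mul_cancel₀ hd0
    have hu' : eu (d⁻¹ • V (g • z) (g • w)) = 1 := by
      rw [eu_smul, ← ds_eq h, B1_ds hX hi, abs_of_pos (inv_pos.2 hd), ← hdd]
      exact inv_mul_cancel₀ hd0
    have h1 := A6_unique h (B1_line hX hi g (line_E h (x := z) hu))
      (line_E h (x := g • z) hu') (a := 0) (b := d) hd.ne
      (by
        show g • E z ((0 : ℝ) • (d⁻¹ • V z w)) = E (g • z) ((0 : ℝ) • (d⁻¹ • V (g • z) (g • w)))
        rw [zero_smul, zero_smul, h.E0, h.E0])
      (by
        show g • E z (d • (d⁻¹ • V z w)) = E (g • z) (d • (d⁻¹ • V (g • z) (g • w)))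
        rw [smul_smul, smul_smul, mul_inv_cancel₀ hd0, one_smul, one_smul, h.EV, h.EV])
    have h2 := congrFun h1 (s * d)
    have h3 : g • E z ((s * d) • (d⁻¹ • V z w)) =
        E (g • z) ((s * d) • (d⁻¹ • V (g • z) (g • w))) := h2
    rw [smul_smul, smul_smul, mul_assoc, mul_inv_cancel₀ hd0, mul_one] at h3
    exact h3

/-- Collinear points. -/
theorem B3_col (h : Had m k E V F) {z w w' : Pl} (hw : w ≠ w') (hd : wd (V z w) (V z w') = 0)
    {c : ℝ → Pl} (hc : IsLine m c) {a b : ℝ} (ha : c a = w) (hb : c b = w') : ∃ t, c t = z := by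
  rcases eq_or_ne z w with rfl | hzw
  · exact ⟨a, ha⟩
  · have hv : V z w ≠ 0 := by
      intro h0
      apply hzw
      rw [← h.EV z w, h0, h.E0]
    obtain ⟨e, he, hve, hw2⟩ := A2_dir hv
    set a' := eu (V z w) with ha'
    have ha'0 : a' ≠ 0 := fun h0 => hv (eu_eq_zero.1 h0)
    have h1 := (hw2 (V z w')).2
    rw [hd] at h1
    have h2 : wd e (V z w') = 0 := by
      rcases mul_eq_zero.1 h1.symm with h3 | h3
      · exact absurd h3 ha'0
      · exact h3
    set b' := ip e (V z w') with hb'
    have he2 : e.1 ^ 2 + e.2 ^ 2 = 1 := by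
      rw [← eu_sq, he]
      norm_num
    have hve' : V z w' = b' • e := by
      unfold wd at h2
      ext
      · show (V z w').1 = b' * e.1
        rw [hb']
        unfold ip
        linear_combination (-(V z w').1) * he2 - e.2 * h2
      · show (V z w').2 = b' * e.2
        rw [hb']
        unfold ip
        linear_combination (-(V z w').2) * he2 + e.1 * h2
    have hL : IsLine m fun t : ℝ => E z (t • e) := line_E h he
    set L : ℝ → Pl := fun t : ℝ => E z (t • e) with hLd
    have hL0 : L 0 = z := by
      show E z ((0 : ℝ) • e) = z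
      rw [zero_smul, h.E0]
    have hLa : L a' = w := by
      show E z (a' • e) = w
      rw [← hve, h.EV]
    have hLb : L b' = w' := by
      show E z (b' • e) = w'
      rw [← hve', h.EV]
    have hab : a ≠ b := by
      rintro rfl
      exact hw (ha.symm.trans hb)
    have h3 : |a' - b'| = |a - b| := by
      rw [← hL a' b', ← hc a b, hLa, hLb, ha, hb]
    rcases abs_eq_abs.1 h3 with h4 | h4
    · have h5 : (fun t => L (a' - a + t)) = c := by
        apply A6_unique h (hL.shift (a' - a)) hc hab
        · show L (a' - a + a) = c a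
          rw [sub_add_cancel, hLa, ha]
        · show L (a' - a + b) = c b
          have h6 : a' - a + b = b' := by linarith
          rw [h6, hLb, hb]
      refine ⟨a - a', ?_⟩
      rw [← h5]
      show L (a' - a + (a - a')) = z
      have h6 : a' - a + (a - a') = 0 := by ring
      rw [h6, hL0]
    · have h5 : (fun t => L (-(-(a' + a) + t))) = c := by
        apply A6_unique h (hL.rev.shift (-(a' + a))) hc hab
        · show L (-(-(a' + a) + a)) = c a
          have h6 : -(-(a' + a) + a) = a' := by ring
          rw [h6, hLa, ha]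
        · show L (-(-(a' + a) + b)) = c b
          have h6 : -(-(a' + a) + b) = b' := by linarith
          rw [h6, hLb, hb]
      refine ⟨a' + a, ?_⟩
      rw [← h5]
      show L (-(-(a' + a) + (a' + a))) = z
      have h6 : -(-(a' + a) + (a' + a)) = 0 := by ring
      rw [h6, hL0]

end BGM
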