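import Pool.Agent.LibBGM20.B3
import Pool.Agent.LibBGM20.A7s
import Pool.Agent.LibBGM20.B2x

/-! ROW B3u : uniqueness of the axis. Uses A5, A6, A7, A7s, B1, B2, B2x, B3.
PLAN. `B3_unique`: let `z` be not on `c`, `ℓ = tl m g`, `w = c 0`. Quadrilateral `x₀ = z`, `x₁ = w`,
`y₀ = g z`, `y₁ = g w`, midpoint `M = E z ((1/2) V z w)`, `g M = E (g z) ((1/2) V (g z) (g w))` (`B3_mid`). If
`wd (V z w) (V z (g w)) ≠ 0` then `A7_quad_lt` gives `ds M (g M) < (1/2) ℓ + (1/2) ℓ = ℓ`, contradiction with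
`tl_le`. If it is `= 0` then `z` is on `c` by `B3_col` (`w = c 0 ≠ g w = c ℓ`).
`B3_comm`: `ds m (γ z) (g γ z) = ds m (γ z) (γ g z) = ds m z (g z)`, so `γ` maps the points of `c` to points
of minimal displacement, so to points of `c`: `γ (c t) = c (σ t)` for all `t`, `|σ s - σ t| = |s - t|`.
`σ t = u + t` for all `t` or `σ t = u - t` for all `t` (compare with `σ 0`, `σ 1`; or two lines which agree
at two times: `A6_unique`); in the second case `γ` fixes `c (u / 2)`, so `γ = 1` (`B1_free`) and `σ t = t`,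
contradiction. -/

open MeasureTheory Set Filter Topology
open scoped ContDiff

namespace BGM

open BGS

variable {Γ : Type} [Group Γ] [MulAction Γ Pl] {D : Set Pl}
variable {m : Pl → Co} {k : ℝ} {E V : Pl → Pl → Pl} {F : Pl → Pl → ℝ → ℝ}

theorem B3_unique (hX : Surface Γ D) (hi : Iv Γ m) (h : Had m k E V F) {g : Γ} (hg : g ≠ 1)
    {c : ℝ → Pl} (hc : IsAx m g c) {z : Pl} (hz : ds m z (g • z) = tl m g) : ∃ t, z = c t := by
  have hl := tl_pos hX hi h hg
  have hw' : c (tl m g) = g • c 0 := by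
    have h1 := hc.2 0
    rwa [zero_add] at h1
  have hne : c 0 ≠ c (tl m g) := by
    intro h1
    have h2 := hc.1 0 (tl m g)
    rw [← h1, ds_self h.rp, zero_sub, abs_neg, abs_of_pos hl] at h2
    linarith
  by_cases hd : wd (V z (c 0)) (V z (g • c 0)) = 0
  · rw [← hw'] at hd
    obtain ⟨t, ht⟩ := B3_col h hne hd hc.1 rfl rfl
    exact ⟨t, ht.symm⟩
  · exfalso
    have h1 := A7_quad_lt h (x₀ := z) (x₁ := c 0) (y₀ := g • z) (y₁ := g • c 0)
      (s := 1 / 2) (by norm_num) (by norm_num) hd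
    rw [← B3_mid hX hi h g z (c 0) (1 / 2), hz, B2_pts hc 0] at h1
    have h2 := tl_le m g (E z ((1 / 2 : ℝ) • V z (c 0)))
    linarith

/-- An element which commutes with `g` translates the axis of `g`. -/
theorem B3_comm (hX : Surface Γ D) (hi : Iv Γ m) (h : Had m k E V F) {g γ : Γ} (hg : g ≠ 1)
    (hgγ : g * γ = γ * g) {c : ℝ → Pl} (hc : IsAx m g c) :
    ∃ u : ℝ, ∀ t, γ • c t = c (t + u) := by
  have h1 : ∀ t, ∃ s, γ • c t = c s := by
    intro t
    refine B3_unique hX hi h hg hc ?_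
    rw [← mul_smul, hgγ, mul_smul, B1_ds hX hi, B2_pts hc t]
  choose σ hσ using h1
  have hdist : |σ 0 - σ 1| = 1 := by
    rw [← hc.1, ← hσ, ← hσ, B1_ds hX hi, hc.1]
    norm_num
  have hline := B1_line hX hi γ hc.1
  rcases (abs_eq (by norm_num : (0 : ℝ) ≤ 1)).1 hdist with h2 | h2
  · exfalso
    have h3 : (fun t => γ • c t) = fun t => c (σ 0 + -t) := by
      refine A6_unique h hline ((hc.1.shift (σ 0)).rev) (zero_ne_one) ?_ ?_
      · show γ • c 0 = c (σ 0 + -0)
        rw [neg_zero, add_zero]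
        exact hσ 0
      · show γ • c 1 = c (σ 0 + -1)
        rw [hσ 1]
        congr 1
        linarith
    have h4 : γ • c (σ 0 / 2) = c (σ 0 / 2) := by
      have h5 : γ • c (σ 0 / 2) = c (σ 0 + -(σ 0 / 2)) := congrFun h3 (σ 0 / 2)
      rw [h5]
      congr 1
      ring
    have h6 := B1_free hX h4
    subst h6
    have h7 : c 0 = c (σ 0) := by
      rw [← hσ 0, one_smul]
    have h8 : c 1 = c (σ 1) := by
      rw [← hσ 1, one_smul]
    have h9 := hc.1 0 (σ 0)
    rw [← h7, ds_self h.rp] at h9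
    have h10 := hc.1 1 (σ 1)
    rw [← h8, ds_self h.rp] at h10
    have h11 := abs_eq_zero.1 h9.symm
    have h12 := abs_eq_zero.1 h10.symm
    linarith
  · refine ⟨σ 0, fun t => ?_⟩
    have h3 : (fun t => γ • c t) = fun t => c (σ 0 + t) := by
      refine A6_unique h hline (hc.1.shift (σ 0)) (zero_ne_one) ?_ ?_
      · show γ • c 0 = c (σ 0 + 0)
        rw [add_zero]
        exact hσ 0
      · show γ • c 1 = c (σ 0 + 1)
        rw [hσ 1]
        congr 1
        linarith
    have h5 : γ • c t = c (σ 0 + t) := congrFun h3 t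
    rw [h5, add_comm]


end BGM
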