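import Pool.Agent.LibBGM20.B3u

/-! ROW B4 : the centraliser of an element is infinite cyclic. Uses A6, B1, B2, B3.
PLAN. Fix the axis `c` of `g`. `H = {γ | ∃ u, ∀ t, γ • c t = c (t + u)}` is a subgroup, `γ ↦ u` is an
injective homomorphism to `ℝ` (if `u = u'` then `γ⁻¹ γ'` fixes `c 0`: `B1_free`; `u` is unique because
`c` is injective) with discrete image (`B1_proper` with `K = {c 0}`: finitely many `γ` with `|u| ≤ 1`).
So the image is cyclic, generated by some `u₀ > 0`, and `H` is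
generated by one `p` with `p • c t = c (t + u₀)`. By `B3_comm` the centraliser of `g` is contained in
`H`, and `H` is commutative (`u` is injective) and contains `g`, so `H` is the centraliser.
`p` is primitive: if `h ^ n = p` then `h` commutes with `p`, so with `g` (a power of `p`), so `h = p ^ j`,
`j n = 1`. `tl m p = u₀`: `c` is an axis of `p` : `ds (c t) (p c t) = u₀`, and `tl m p = u₀`: `tl m p ≤ u₀`,
and `n tl m p ≥ tl m (p ^ n) = n u₀` (triangle inequality), where `g = p ^ n`. -/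

open MeasureTheory Set Filter Topology
open scoped ContDiff

namespace BGM

open BGS

variable {Γ : Type} [Group Γ] [MulAction Γ Pl] {D : Set Pl}
variable {m : Pl → Co} {k : ℝ} {E V : Pl → Pl → Pl} {F : Pl → Pl → ℝ → ℝ}

/-- `γ` translates the curve by `u`. -/
def B4_T (c : ℝ → Pl) (γ : Γ) (u : ℝ) : Prop := ∀ t, γ • c t = c (t + u)

theorem B4_T_mul {c : ℝ → Pl} {γ γ' : Γ} {u u' : ℝ} (h : B4_T c γ u) (h' : B4_T c γ' u') :
    B4_T c (γ * γ') (u + u') := by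
  intro t
  rw [mul_smul, h' t, h (t + u')]
  congr 1
  ring

theorem B4_T_one (c : ℝ → Pl) : B4_T c (1 : Γ) 0 := by
  intro t
  rw [one_smul, add_zero]

theorem B4_T_inv {c : ℝ → Pl} {γ : Γ} {u : ℝ} (h : B4_T c γ u) : B4_T c γ⁻¹ (-u) := by
  intro t
  rw [inv_smul_eq_iff, h (t + -u)]
  congr 1
  ring

theorem B4_T_pow {c : ℝ → Pl} {γ : Γ} {u : ℝ} (h : B4_T c γ u) (n : ℕ) :
    B4_T c (γ ^ n) (n * u) := by
  induction n with
  | zero => simpa using B4_T_one c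
  | succ n ih =>
    rw [pow_succ]
    have h1 := B4_T_mul ih h
    push_cast
    rw [add_mul, one_mul]
    exact h1

theorem B4_T_zpow {c : ℝ → Pl} {γ : Γ} {u : ℝ} (h : B4_T c γ u) (j : ℤ) :
    B4_T c (γ ^ j) (j * u) := by
  obtain ⟨n, rfl | rfl⟩ := j.eq_nat_or_neg
  · rw [zpow_natCast]
    simpa using B4_T_pow h n
  · rw [zpow_neg, zpow_natCast]
    have := B4_T_inv (B4_T_pow h n)
    push_cast
    rw [neg_mul]
    exact this

theorem B4_inj (h : Had m k E V F) {c : ℝ → Pl} (hc : IsLine m c) : Function.Injective c := by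
  intro s t hst
  have h1 := hc s t
  rw [(ds_eq_zero h).2 hst] at h1
  have := abs_eq_zero.1 h1.symm
  linarith

theorem B4_T_unique (h : Had m k E V F) {c : ℝ → Pl} (hc : IsLine m c) {γ : Γ} {u u' : ℝ}
    (h1 : B4_T c γ u) (h2 : B4_T c γ u') : u = u' := by
  have h3 := (h1 0).symm.trans (h2 0)
  rw [zero_add, zero_add] at h3
  exact B4_inj h hc h3

theorem B4_T_eq (hX : Surface Γ D) {c : ℝ → Pl} {γ γ' : Γ} {u : ℝ}
    (h1 : B4_T c γ u) (h2 : B4_T c γ' u) : γ = γ' := by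
  have h3 : (γ'⁻¹ * γ) • c 0 = c 0 := by
    rw [mul_smul, inv_smul_eq_iff, h1 0, h2 0]
  have h4 := B1_free hX h3
  rw [inv_mul_eq_one] at h4
  exact h4.symm

/-- The group of the translations of the axis is infinite cyclic. -/
theorem B4_gen (hX : Surface Γ D) (hi : Iv Γ m) (h : Had m k E V F) {c : ℝ → Pl}
    (hc : IsLine m c) {g : Γ} {l : ℝ} (hl : 0 < l) (hg : B4_T c g l) :
    ∃ (p : Γ) (u : ℝ), 0 < u ∧ B4_T c p u ∧ ∀ (γ : Γ) (v : ℝ), B4_T c γ v → ∃ j : ℤ, v = j * u := by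
  let A : AddSubgroup ℝ :=
    { carrier := {u | ∃ γ : Γ, B4_T c γ u}
      add_mem' := by
        rintro u v ⟨γ, h1⟩ ⟨γ', h2⟩
        exact ⟨γ * γ', B4_T_mul h1 h2⟩
      zero_mem' := ⟨1, B4_T_one c⟩
      neg_mem' := by
        rintro u ⟨γ, h1⟩
        exact ⟨γ⁻¹, B4_T_inv h1⟩ }
  have hfin := B1_proper hX hi h (isCompact_singleton (x := c 0)) 1
  have hS : ({u : ℝ | u ∈ A ∧ 0 < u ∧ u ≤ 1}).Finite := by
    have h1 : ∀ u : ℝ, u ∈ {u : ℝ | u ∈ A ∧ 0 < u ∧ u ≤ 1} →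
        c u ∈ (fun γ : Γ => γ • c 0) '' {γ : Γ | ∃ z ∈ ({c 0} : Set Pl), ds m z (γ • z) ≤ 1} := by
      rintro u ⟨⟨γ, hγ⟩, hu0, hu1⟩
      refine ⟨γ, ⟨c 0, rfl, ?_⟩, ?_⟩
      · rw [hγ 0, zero_add, hc 0 u, zero_sub, abs_neg, abs_of_pos hu0]
        exact hu1
      · simp only
        rw [hγ 0, zero_add]
    have h2 := (hfin.image (fun γ : Γ => γ • c 0)).preimage ((B4_inj h hc).injOn (s := c ⁻¹' _))
    exact h2.subset h1
  obtain ⟨ε, hε, hball⟩ := Metric.isOpen_iff.1 hS.isClosed.isOpen_compl 0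
    (by rintro ⟨-, h1, -⟩; exact lt_irrefl _ h1)
  have hdis : Disjoint (A : Set ℝ) (Ioo 0 (min ε 1)) := by
    rw [Set.disjoint_left]
    rintro u hu ⟨hu0, hu1⟩
    have h1 : u ∈ Metric.ball (0 : ℝ) ε := by
      rw [Metric.mem_ball, dist_zero_right, Real.norm_eq_abs, abs_of_pos hu0]
      exact hu1.trans_le (min_le_left _ _)
    exact hball h1 ⟨hu, hu0, (hu1.trans_le (min_le_right _ _)).le⟩
  obtain ⟨b, hb⟩ := AddSubgroup.cyclic_of_isolated_zero (H := A) (lt_min hε one_pos) hdis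
  have hmem : ∀ u : ℝ, u ∈ A → ∃ j : ℤ, u = j * b := by
    intro u hu
    rw [hb, AddSubgroup.mem_closure_singleton] at hu
    obtain ⟨n, hn⟩ := hu
    exact ⟨n, by rw [← hn, zsmul_eq_mul]⟩
  have hbA : b ∈ A := by
    rw [hb]
    exact AddSubgroup.subset_closure rfl
  have hb0 : b ≠ 0 := by
    rintro rfl
    obtain ⟨j, hj⟩ := hmem l ⟨g, hg⟩
    rw [mul_zero] at hj
    exact hl.ne' hj
  rcases lt_or_gt_of_ne hb0 with hneg | hpos
  · obtain ⟨p, hp⟩ := A.neg_mem hbA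
    refine ⟨p, -b, by linarith, hp, fun γ v hγ => ?_⟩
    obtain ⟨j, hj⟩ := hmem v ⟨γ, hγ⟩
    exact ⟨-j, by rw [hj]; push_cast; ring⟩
  · obtain ⟨p, hp⟩ := hbA
    exact ⟨p, b, hpos, hp, fun γ v hγ => hmem v ⟨γ, hγ⟩⟩

theorem B4_pow_le (hX : Surface Γ D) (hi : Iv Γ m) (h : Had m k E V F) (p : Γ) (n : ℕ) :
    tl m (p ^ n) ≤ n * tl m p := by
  obtain ⟨z, hz⟩ := B2_min' hX hi h p
  have h1 : ∀ n : ℕ, ds m z ((p ^ n) • z) ≤ n * tl m p := by
    intro n
    induction n with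
    | zero => simp [ds_self h.rp]
    | succ n ih =>
      have h2 := ds_tri h.rp z ((p ^ n) • z) ((p ^ (n + 1)) • z)
      rw [pow_succ, mul_smul, B1_ds hX hi, hz] at h2
      rw [pow_succ, mul_smul]
      push_cast
      linarith
  exact (tl_le m (p ^ n) z).trans (h1 n)

/-- The primitive root. -/
theorem B4_root (hX : Surface Γ D) (hi : Iv Γ m) (h : Had m k E V F) {g : Γ} (hg : g ≠ 1)
    {c : ℝ → Pl} (hc : IsAx m g c) :
    ∃ (p : Γ) (n : ℕ), Prim p ∧ 0 < n ∧ p ^ n = g ∧ IsAx m p c ∧ tl m g = n * tl m p ∧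
      ∀ γ : Γ, g * γ = γ * g ↔ ∃ j : ℤ, γ = p ^ j := by
  have hl := tl_pos hX hi h hg
  have hgT : B4_T c g (tl m g) := fun t => (hc.2 t).symm
  obtain ⟨p, u, hu, hp, hall⟩ := B4_gen hX hi h hc.1 hl hgT
  have hpow : ∀ γ : Γ, ∀ v : ℝ, B4_T c γ v → ∃ j : ℤ, v = j * u ∧ γ = p ^ j := by
    intro γ v hγ
    obtain ⟨j, hj⟩ := hall γ v hγ
    refine ⟨j, hj, ?_⟩
    rw [hj] at hγ
    exact B4_T_eq hX hγ (B4_T_zpow hp j)
  obtain ⟨j, hj, hgj⟩ := hpow g _ hgT
  have hj0 : 0 < j := by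
    have h1 : (0 : ℝ) < j * u := hj ▸ hl
    have h2 : (0 : ℝ) < j := by
      by_contra hcon
      have : (j : ℝ) * u ≤ 0 := mul_nonpos_of_nonpos_of_nonneg (not_lt.1 hcon) hu.le
      linarith
    exact_mod_cast h2
  obtain ⟨n, rfl⟩ := Int.eq_ofNat_of_zero_le hj0.le
  have hn : 0 < n := by exact_mod_cast hj0
  have hn' : (0 : ℝ) < n := by exact_mod_cast hn
  rw [zpow_natCast] at hgj
  rw [Int.cast_natCast] at hj
  have hcomm : ∀ γ : Γ, g * γ = γ * g ↔ ∃ j : ℤ, γ = p ^ j := by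
    intro γ
    constructor
    · intro hγ
      obtain ⟨v, hv⟩ := B3_comm hX hi h hg hγ hc
      obtain ⟨j, -, hj⟩ := hpow γ v hv
      exact ⟨j, hj⟩
    · rintro ⟨j, rfl⟩
      rw [hgj, ← zpow_natCast, ← zpow_add, ← zpow_add, add_comm]
  have htl : tl m p = u := by
    apply le_antisymm
    · refine (tl_le m p (c 0)).trans (le_of_eq ?_)
      rw [hp 0, zero_add, hc.1 0 u, zero_sub, abs_neg, abs_of_pos hu]
    · have h1 := B4_pow_le hX hi h p n
      rw [← hgj, hj] at h1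
      exact le_of_mul_le_mul_left h1 hn'
  refine ⟨p, n, ?_, hn, hgj.symm, ⟨hc.1, fun t => ?_⟩, ?_, hcomm⟩
  · intro x i hx
    have h1 : g * x = x * g := by
      rw [hgj, ← hx, ← zpow_natCast, ← zpow_mul]
      rw [← zpow_one_add, ← zpow_add_one, add_comm]
    obtain ⟨j, rfl⟩ := (hcomm x).1 h1
    rw [← zpow_mul] at hx
    have h2 := B4_T_zpow hp (j * i)
    rw [hx] at h2
    have h3 := B4_T_unique h hc.1 h2 hp
    have h4 : ((j * i : ℤ) : ℝ) = 1 := by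
      have : ((j * i : ℤ) : ℝ) * u = 1 * u := by rw [one_mul]; exact h3
      exact mul_right_cancel₀ hu.ne' this
    have h5 : j * i = 1 := by exact_mod_cast h4
    exact Int.isUnit_iff.1 (IsUnit.of_mul_eq_one_right j h5)
  · rw [htl]
    exact (hp t).symm
  · rw [htl]
    exact hj

end BGM
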