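import Pool.Agent.LibBGM20.B4
import Pool.Agent.LibBGM20.B3u
import Pool.Agent.LibBGM20.B2x

/-! ROW B4p : primitive elements, powers. Uses A6, B1, B2, B2x, B3u, B4.
PLAN. `B4_prim`: root `p` of `g` (`B4_root`, axis from `B2_min'`, `B2_axis`): `g = p ^ n` with `n = 1` by
primitivity, `γ = p ^ j` with `j = 1` or `j = -1`. `B4_pow`: for `g = 1` or `n = 0` both sides are `0`
(`ds_self`). Else let `c` be an axis of `g`: `g ^ n • c t = c (t + n ℓ)` (`B2_iter`), so `tl m (g ^ n) ≤ n ℓ` and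
`g ^ n ≠ 1`; let `c'` be an axis of `g ^ n`; `g` commutes with it, so `g • c' t = c' (t + u)` (`B3_comm`),
`g ^ n • c' t = c' (t + n u)`, so `tl m (g ^ n) = n |u|` and `|u| = ds (c' 0) (g c' 0) ≥ ℓ`. -/

open MeasureTheory Set Filter Topology
open scoped ContDiff

namespace BGM

open BGS

variable {Γ : Type} [Group Γ] [MulAction Γ Pl] {D : Set Pl}
variable {m : Pl → Co} {k : ℝ} {E V : Pl → Pl → Pl} {F : Pl → Pl → ℝ → ℝ}

private theorem B4p_axis (hX : Surface Γ D) (hi : Iv Γ m) (h : Had m k E V F) {g : Γ}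
    (hg : g ≠ 1) : ∃ c, IsAx m g c := by
  obtain ⟨z, hz⟩ := B2_min' hX hi h g
  obtain ⟨c, hc, -⟩ := B2_axis hX hi h hg hz
  exact ⟨c, hc⟩

private theorem B4p_one (hm : Rp m) : tl m (1 : Γ) = 0 := by
  unfold tl
  have h1 : (fun z : Pl => ds m z ((1 : Γ) • z)) = fun _ => (0 : ℝ) := by
    funext z
    rw [one_smul]
    exact ds_self hm z
  rw [h1, Set.range_const, csInf_singleton]

/-- Commuting primitive elements are equal or inverse. -/
theorem B4_prim (hX : Surface Γ D) (hi : Iv Γ m) (h : Had m k E V F) {g γ : Γ} (hg : Prim g)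
    (hγ : Prim γ) (hgγ : g * γ = γ * g) : γ = g ∨ γ = g⁻¹ := by
  have hg1 : g ≠ 1 := by
    rintro rfl
    have := hg 1 0 (zpow_zero 1)
    omega
  obtain ⟨c, hc⟩ := B4p_axis hX hi h hg1
  obtain ⟨p, n, -, hn, hpn, -, -, hcomm⟩ := B4_root hX hi h hg1 hc
  have hn1 : n = 1 := by
    have h1 := hg p (n : ℤ) (by rw [zpow_natCast, hpn])
    omega
  have hpg : p = g := by
    rw [← hpn, hn1, pow_one]
  obtain ⟨j, hj⟩ := (hcomm γ).1 hgγ
  rcases hγ p j hj.symm with h1 | h1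
  · left
    rw [hj, h1, zpow_one, hpg]
  · right
    rw [hj, h1, zpow_neg, zpow_one, hpg]

/-- The length of a power. -/
theorem B4_pow (hX : Surface Γ D) (hi : Iv Γ m) (h : Had m k E V F) (g : Γ) (n : ℕ) :
    tl m (g ^ n) = n * tl m g := by
  rcases eq_or_ne g 1 with rfl | hg
  · rw [one_pow, B4p_one h.rp, mul_zero]
  rcases Nat.eq_zero_or_pos n with rfl | hn
  · rw [pow_zero, B4p_one h.rp, Nat.cast_zero, zero_mul]
  have hn' : (0 : ℝ) < n := Nat.cast_pos.2 hn
  obtain ⟨c, hc⟩ := B4p_axis hX hi h hg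
  have hl := tl_pos hX hi h hg
  have h1 : ds m (c 0) (g ^ n • c 0) = n * tl m g := by
    have h2 := B2_iter hc (n : ℤ) 0
    rw [zpow_natCast, Int.cast_natCast] at h2
    rw [← h2, hc.1, zero_add, zero_sub, abs_neg, abs_of_pos (mul_pos hn' hl)]
  have hgn : g ^ n ≠ 1 := by
    intro h0
    rw [h0, one_smul, hc.1, sub_self, abs_zero] at h1
    have := mul_pos hn' hl
    linarith
  have hle : tl m (g ^ n) ≤ n * tl m g := h1 ▸ tl_le m (g ^ n) (c 0)
  obtain ⟨c', hc'⟩ := B4p_axis hX hi h hgn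
  obtain ⟨u, hu⟩ := B3_comm hX hi h hgn (γ := g) (by rw [← pow_succ, ← pow_succ']) hc'
  have hun : ∀ k : ℕ, g ^ k • c' 0 = c' (k * u) := by
    intro k
    induction k with
    | zero => simp
    | succ k ih =>
      rw [pow_succ', mul_smul, ih, hu]
      congr 1
      push_cast
      ring
  have h3 : c' (0 + tl m (g ^ n)) = c' (n * u) := by
    rw [hc'.2, hun]
  have h4 := hc'.1 (0 + tl m (g ^ n)) (n * u)
  have h5 := hc'.1 (n * u) (n * u)
  rw [h3, h5, sub_self, abs_zero, zero_add] at h4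
  have h6 : tl m (g ^ n) = n * u := by
    have := abs_eq_zero.1 h4.symm
    linarith
  have h7 : tl m g ≤ |u| := by
    have h8 := tl_le m g (c' 0)
    rw [hu 0, hc'.1, zero_add, zero_sub, abs_neg] at h8
    exact h8
  have h9 : 0 ≤ u := by
    have h10 := tl_nonneg m (g ^ n)
    rw [h6] at h10
    exact nonneg_of_mul_nonneg_right h10 hn'
  rw [abs_of_nonneg h9] at h7
  apply le_antisymm hle
  rw [h6]
  exact mul_le_mul_of_nonneg_left h7 hn'.le

theorem B4_ne {g : Γ} (hg : Prim g) : g ≠ 1 := by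
  rintro rfl
  have := hg 1 0 (zpow_zero 1)
  omega

theorem B4_conj {g : Γ} (hg : Prim g) (γ : Γ) : Prim (γ * g * γ⁻¹) := by
  intro h n hn
  apply hg (γ⁻¹ * h * γ⁻¹⁻¹) n
  rw [conj_zpow, hn]
  group

theorem B4_inv {g : Γ} (hg : Prim g) : Prim g⁻¹ := by
  intro h n hn
  have := hg h (-n) (by rw [zpow_neg, hn, inv_inv])
  omega


end BGM
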