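import Pool.Agent.LibBGM20.B4p
import Pool.Agent.LibBGM20.A8c

/-! ROW C1 : two axes which are close at two times: the elements commute. Uses A4, A8, B1, B2.
PLAN. `A8_cmp` gives `σ`. If `σ = -1` replace `γ` by `γ⁻¹` and `c'` by `t ↦ c' (-t)` (`C1_rev`; `γ` and `γ⁻¹`
commute with the same elements), so `σ = 1`. Let `e t = ds (c (a + t)) (c' (a' + t))`, so
`e t ≤ 7 δ (sinh (k (2 L + 2)) / k) / (b - a)` for `|t| ≤ 2 L`. With `x = c a`, `ℓ = tl m g`, `ℓ' = tl m γ`: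
`ds (γ x) (c (a + ℓ')) ≤ e 0 + e ℓ'` (through `c' (a' + ℓ')`), so
`ds (g γ x) (c (a + ℓ' + ℓ)) ≤ e 0 + e ℓ'`; `ds (γ g x) (c' (a' + ℓ + ℓ')) = e ℓ`, so
`ds (γ g x) (c (a + ℓ + ℓ')) ≤ e ℓ + e (ℓ + ℓ')`. Sum: `ds (g γ x) (γ g x) < r`, so the element
`(γ g)⁻¹ g γ` moves `x` by less than `r`: it is `1`. -/

open MeasureTheory Set Filter Topology
open scoped ContDiff

namespace BGM

open BGS

variable {Γ : Type} [Group Γ] [MulAction Γ Pl] {D : Set Pl}
variable {m : Pl → Co} {k : ℝ} {E V : Pl → Pl → Pl} {F : Pl → Pl → ℝ → ℝ}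

theorem C1_rev (hX : Surface Γ D) (hi : Iv Γ m) (hm : Rp m) {g : Γ} {c : ℝ → Pl} (hc : IsAx m g c) :
    IsAx m g⁻¹ fun t => c (-t) := by
  refine ⟨hc.1.rev, fun t => ?_⟩
  show c (-(t + tl m g⁻¹)) = g⁻¹ • c (-t)
  rw [B2_inv hX hi hm]
  have h1 : c (-t) = g • c (-(t + tl m g)) := by
    rw [← hc.2]
    congr 1
    ring
  rw [h1, inv_smul_smul]

theorem C1_conj (hX : Surface Γ D) (hi : Iv Γ m) {g : Γ} {c : ℝ → Pl} (hc : IsAx m g c) (γ : Γ) :
    IsAx m (γ * g * γ⁻¹) fun t => γ • c t := by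
  refine ⟨B1_line hX hi γ hc.1, fun t => ?_⟩
  show γ • c (t + tl m (γ * g * γ⁻¹)) = (γ * g * γ⁻¹) • γ • c t
  rw [B2_conj hX hi, hc.2, mul_smul, mul_smul, inv_smul_smul]

/-- Axes which stay close along twice the lengths: the elements commute. -/
theorem C1_aux (hX : Surface Γ D) (hi : Iv Γ m) (hm : Rp m) {r : ℝ}
    (hr : ∀ g : Γ, g ≠ 1 → ∀ z : Pl, r ≤ ds m z (g • z)) {g γ : Γ} {c c' : ℝ → Pl}
    (hc : IsAx m g c) (hc' : IsAx m γ c') {L : ℝ} (hg : tl m g ≤ L) (hγ : tl m γ ≤ L)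
    {a a' ε : ℝ} (he : ∀ t, 0 ≤ t → t ≤ 2 * L → ds m (c (a + t)) (c' (a' + t)) ≤ ε)
    (hs : 4 * ε < r) : g * γ = γ * g := by
  have hl : 0 ≤ tl m g := tl_nonneg m g
  have hl' : 0 ≤ tl m γ := tl_nonneg m γ
  set l := tl m g with hldef
  set l' := tl m γ with hldef'
  have e0 : ds m (c a) (c' a') ≤ ε := by
    have := he 0 le_rfl (by linarith)
    simpa using this
  have e1 : ds m (c (a + l')) (c' (a' + l')) ≤ ε := he l' hl' (by linarith)
  have e2 : ds m (c (a + l)) (c' (a' + l)) ≤ ε := he l hl (by linarith)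
  have e3 : ds m (c (a + (l + l'))) (c' (a' + (l + l'))) ≤ ε :=
    he (l + l') (by linarith) (by linarith)
  -- the point `γ x`
  have h1 : ds m (γ • c a) (c (a + l')) ≤ 2 * ε := by
    have t1 := ds_tri hm (γ • c a) (c' (a' + l')) (c (a + l'))
    have t2 : ds m (γ • c a) (c' (a' + l')) = ds m (c a) (c' a') := by
      rw [hldef', hc'.2, B1_ds hX hi]
    rw [ds_symm hm (c' (a' + l'))] at t1
    linarith
  have h2 : ds m (g • γ • c a) (c (a + (l + l'))) ≤ 2 * ε := by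
    have t2 : c (a + (l + l')) = g • c (a + l') := by
      rw [← hc.2, ← hldef]
      congr 1
      ring
    rw [t2, B1_ds hX hi]
    exact h1
  have h3 : ds m (γ • g • c a) (c (a + (l + l'))) ≤ 2 * ε := by
    have t0 : g • c a = c (a + l) := by rw [hldef, hc.2]
    have t1 := ds_tri hm (γ • g • c a) (c' (a' + (l + l'))) (c (a + (l + l')))
    have t2 : ds m (γ • g • c a) (c' (a' + (l + l'))) = ds m (c (a + l)) (c' (a' + l)) := by
      have t3 : c' (a' + (l + l')) = γ • c' (a' + l) := by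
        rw [← hc'.2, ← hldef']
        congr 1
        ring
      rw [t3, B1_ds hX hi, t0]
    rw [ds_symm hm (c' (a' + (l + l')))] at t1
    linarith
  have h4 : ds m (γ • g • c a) (g • γ • c a) < r := by
    have t1 := ds_tri hm (γ • g • c a) (c (a + (l + l'))) (g • γ • c a)
    rw [ds_symm hm (c (a + (l + l')))] at t1
    linarith
  by_contra hne
  have h5 : (γ * g)⁻¹ * (g * γ) ≠ 1 := by
    intro h6
    apply hne
    have := inv_mul_eq_one.mp h6
    exact this.symm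
  have h7 := hr _ h5 (c a)
  have h8 : ds m (c a) (((γ * g)⁻¹ * (g * γ)) • c a) = ds m (γ • g • c a) (g • γ • c a) := by
    rw [← B1_ds hX hi (γ * g) (c a), ← mul_smul, mul_inv_cancel_left, mul_smul, mul_smul]
  rw [h8] at h7
  linarith

theorem C1_comm (hX : Surface Γ D) (hi : Iv Γ m) (h : Had m k E V F) {r : ℝ}
    (hr : ∀ g : Γ, g ≠ 1 → ∀ z : Pl, r ≤ ds m z (g • z)) {g γ : Γ} {c c' : ℝ → Pl}
    (hc : IsAx m g c) (hc' : IsAx m γ c') {L : ℝ} (hg : tl m g ≤ L) (hγ : tl m γ ≤ L)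
    {a b a' b' δ : ℝ} (hab : a < b) (hab1 : b - a ≤ 1) (hδ : 2 * δ < b - a)
    (ha : ds m (c a) (c' a') ≤ δ) (hb : ds m (c b) (c' b') ≤ δ)
    (hs : 28 * δ * (Real.sinh (k * (2 * L + 2)) / k) / (b - a) < r) : g * γ = γ * g := by
  have hk := h.kpos
  have hδ0 : 0 ≤ δ := le_trans (ds_nonneg m _ _) ha
  have hba : 0 < b - a := by linarith
  obtain ⟨σ, hσ, hcl⟩ := A8_cmp h hc.1 hc'.1 hab hab1 hδ ha hb
  have key : ∀ t : ℝ, |t| ≤ 2 * L → ds m (c (a + t)) (c' (a' + σ * t))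
      ≤ 7 * δ * (Real.sinh (k * (2 * L + 2)) / k) / (b - a) := by
    intro t ht
    refine (hcl t).trans ?_
    have h1 : Real.sinh (k * (|t| + 2)) ≤ Real.sinh (k * (2 * L + 2)) := by
      apply Real.sinh_le_sinh.mpr
      apply mul_le_mul_of_nonneg_left _ hk.le
      linarith
    gcongr
  have hs4 : 4 * (7 * δ * (Real.sinh (k * (2 * L + 2)) / k) / (b - a)) < r := by
    have : 4 * (7 * δ * (Real.sinh (k * (2 * L + 2)) / k) / (b - a))
        = 28 * δ * (Real.sinh (k * (2 * L + 2)) / k) / (b - a) := by ring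
    rw [this]; exact hs
  rcases hσ with hσ | hσ
  · subst hσ
    refine C1_aux hX hi h.rp hr hc hc' hg hγ (a := a) (a' := a')
      (ε := 7 * δ * (Real.sinh (k * (2 * L + 2)) / k) / (b - a)) (fun t ht ht' => ?_) hs4
    have := key t (by rw [abs_of_nonneg ht]; exact ht')
    simpa using this
  · subst hσ
    have hc2 := C1_rev hX hi h.rp hc'
    have hγ' : tl m γ⁻¹ ≤ L := by rw [B2_inv hX hi h.rp]; exact hγ
    have hcomm : g * γ⁻¹ = γ⁻¹ * g := by
      refine C1_aux hX hi h.rp hr hc hc2 hg hγ' (a := a) (a' := -a')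
        (ε := 7 * δ * (Real.sinh (k * (2 * L + 2)) / k) / (b - a)) (fun t ht ht' => ?_) hs4
      have := key t (by rw [abs_of_nonneg ht]; exact ht')
      have e1 : -(-a' + t) = a' + -1 * t := by ring
      show ds m (c (a + t)) (c' (-(-a' + t))) ≤ _
      rw [e1]
      exact this
    have h1 : γ * (g * γ⁻¹) * γ = γ * (γ⁻¹ * g) * γ := by rw [hcomm]
    have h2 : γ * (g * γ⁻¹) * γ = γ * g := by group
    have h3 : γ * (γ⁻¹ * g) * γ = g * γ := by group
    rw [h2, h3] at h1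
    exact h1.symm

end BGM
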