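import Pool.Agent.LibBGM20.C1

/-! ROW C2 : separation of the axes (pigeonhole). Uses A4, A6, B1, B2, B3, B4, C1.
PLAN. Suppose not: for every `t ∈ [0, 1]` there are `i`, `z`, `γ` with `z` of minimal displacement for
`f i` and `ds (c t) (γ z) < δ`. Fix axes `c_i` of `f i` (`B2_min'`, `B2_axis`), `ℓ_i = tl m (f i) > 0`.
`z = c_i s` (`B3_unique`), `s = n ℓ_i + s'`, `s' ∈ [0, ℓ_i)`, `γ' = γ (f i)^n` (`B2_iter`):
`γ z = γ' (c_i s')`. With `q = ⌊s'⌋₊ < L`: `ds (γ' (c_i q)) (c 0) ≤ 1 + δ + t ≤ 3`. For `t = j / M`,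
`j = 0, ..., M`, `M = n N (L + 1) + 1`: the triples `(i, q, γ')` take at most `n L N < M + 1` values, so
two `j < j'` have the same triple. Apply `C1_comm` to `g`, `c` and `γ' f_i γ'⁻¹`, `γ' c_i` (`C1_conj`)
at `a = j / M`, `b = j' / M`, `a' = s'_j`, `b' = s'_(j')`, `b - a ≥ 1 / M`: they commute, so by `B4_prim`,
`B4_conj` they are equal or inverse: contradiction. -/

open MeasureTheory Set Filter Topology
open scoped ContDiff

namespace BGM

open BGS

variable {Γ : Type} [Group Γ] [MulAction Γ Pl] {D : Set Pl}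
variable {m : Pl → Co} {k : ℝ} {E V : Pl → Pl → Pl} {F : Pl → Pl → ℝ → ℝ}

theorem C2_sep (hX : Surface Γ D) (hi : Iv Γ m) (h : Had m k E V F) {r : ℝ}
    (hr : ∀ g : Γ, g ≠ 1 → ∀ z : Pl, r ≤ ds m z (g • z)) {N : ℕ}
    (hN : ∀ x y : Pl, {g : Γ | ds m (g • x) y ≤ 3}.Finite ∧
      {g : Γ | ds m (g • x) y ≤ 3}.ncard ≤ N) {n : ℕ} {g : Γ} (hg : Prim g) (f : Fin n → Γ)
    (hf : ∀ i, Prim (f i)) (hne : ∀ i (γ : Γ), γ * f i * γ⁻¹ ≠ g ∧ γ * f i * γ⁻¹ ≠ g⁻¹)
    {L : ℕ} (hgL : tl m g ≤ L) (hfL : ∀ i, tl m (f i) ≤ L) {c : ℝ → Pl}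
    (hc : IsAx m g c) {δ : ℝ} (hδ1 : δ ≤ 1)
    (hδM : 2 * δ * (n * N * (L + 1) + 1 : ℝ) < 1)
    (hδr : 28 * δ * (Real.sinh (k * (2 * L + 2)) / k) * (n * N * (L + 1) + 1 : ℝ) < r) :
    ∃ t ∈ Icc (0 : ℝ) 1, ∀ i z, ds m z (f i • z) = tl m (f i) → ∀ γ : Γ,
      δ ≤ ds m (c t) (γ • z) := by
  classical
  by_contra hcon
  push Not at hcon
  have hm := h.rp
  have hδ0 : 0 < δ := by
    obtain ⟨i, z, -, γ, hγ⟩ := hcon 0 ⟨le_refl _, zero_le_one⟩
    exact lt_of_le_of_lt (ds_nonneg m _ _) hγ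
  -- axes of the `f i`
  have hax : ∀ i, ∃ c', IsAx m (f i) c' := by
    intro i
    obtain ⟨z, hz⟩ := B2_min' hX hi h (f i)
    obtain ⟨c', hc', -⟩ := B2_axis hX hi h (B4_ne (hf i)) hz
    exact ⟨c', hc'⟩
  choose cf hcf using hax
  set M : ℕ := n * N * (L + 1) + 1 with hM
  have hM0 : (0 : ℝ) < M := by
    rw [hM]
    positivity
  have hMc : ((n : ℝ) * N * (L + 1) + 1 : ℝ) = M := by
    rw [hM]
    push_cast
    ring
  rw [hMc] at hδM hδr
  -- the triple attached to a time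
  have key : ∀ t : ℝ, t ∈ Icc (0 : ℝ) 1 → ∃ (i : Fin n) (q : ℕ) (γ : Γ) (s : ℝ), q < L + 1 ∧
      ds m (γ • cf i q) (c 0) ≤ 3 ∧ ds m (c t) (γ • cf i s) ≤ δ := by
    intro t ht
    obtain ⟨i, z, hz, γ, hγ⟩ := hcon t ht
    have hℓ : 0 < tl m (f i) := tl_pos hX hi h (B4_ne (hf i))
    obtain ⟨s, hs⟩ := B3_unique hX hi h (B4_ne (hf i)) (hcf i) hz
    set ℓ : ℝ := tl m (f i) with hℓd
    set a : ℤ := ⌊s / ℓ⌋ with ha
    set s' : ℝ := s - a * ℓ with hs'
    have h1 : 0 ≤ s' := by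
      have := Int.floor_le (s / ℓ)
      rw [le_div_iff₀ hℓ] at this
      rw [hs']
      linarith
    have h2 : s' < ℓ := by
      have := Int.lt_floor_add_one (s / ℓ)
      rw [div_lt_iff₀ hℓ] at this
      rw [hs']
      linarith
    have h3 : z = (f i ^ a) • cf i s' := by
      rw [← B2_iter (hcf i) a s', ← hℓd, hs', sub_add_cancel]
      exact hs
    have h4 : γ • z = (γ * f i ^ a) • cf i s' := by rw [h3, mul_smul]
    have h5 : ds m (c t) ((γ * f i ^ a) • cf i s') ≤ δ := by rw [← h4]; exact hγ.le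
    refine ⟨i, ⌊s'⌋₊, γ * f i ^ a, s', ?_, ?_, h5⟩
    · have h6 : (⌊s'⌋₊ : ℝ) < L := lt_of_le_of_lt (Nat.floor_le h1) (lt_of_lt_of_le h2 (hfL i))
      have h7 : ⌊s'⌋₊ < L := by exact_mod_cast h6
      omega
    · have h6 : ds m ((γ * f i ^ a) • cf i (⌊s'⌋₊ : ℝ)) ((γ * f i ^ a) • cf i s') ≤ 1 := by
        rw [B1_ds hX hi, (hcf i).1, abs_le]
        have h7 := Nat.floor_le h1
        have h8 := (Nat.lt_floor_add_one s').le
        constructor <;> linarith
      have h7 : ds m (c t) (c 0) ≤ 1 := by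
        rw [hc.1, sub_zero, abs_of_nonneg ht.1]
        exact ht.2
      have h8 := ds_tri hm ((γ * f i ^ a) • cf i (⌊s'⌋₊ : ℝ)) ((γ * f i ^ a) • cf i s') (c 0)
      have h9 := ds_tri hm ((γ * f i ^ a) • cf i s') (c t) (c 0)
      have h10 := ds_symm hm ((γ * f i ^ a) • cf i s') (c t)
      linarith
  have hmem : ∀ j : Fin (M + 1), ((j : ℕ) : ℝ) / M ∈ Icc (0 : ℝ) 1 := by
    intro j
    refine ⟨by positivity, ?_⟩
    rw [div_le_one hM0]
    exact_mod_cast Nat.lt_succ_iff.1 j.2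
  choose I Q G S hQ hG hS using fun j : Fin (M + 1) => key _ (hmem j)
  -- the pigeonhole principle
  set T : Finset (Fin n × ℕ × Γ) := (Finset.univ ×ˢ Finset.range (L + 1)).biUnion
    (fun p : Fin n × ℕ => ((hN (cf p.1 p.2) (c 0)).1.toFinset).image
      (fun g => (p.1, p.2, g))) with hT
  have hTc : T.card ≤ (n * (L + 1)) * N := by
    have h1 := Finset.card_biUnion_le_card_mul (Finset.univ ×ˢ Finset.range (L + 1))
      (fun p : Fin n × ℕ => ((hN (cf p.1 p.2) (c 0)).1.toFinset).image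
        (fun g => (p.1, p.2, g))) N (by
          intro p _
          refine Finset.card_image_le.trans ?_
          rw [← Set.ncard_eq_toFinset_card _ (hN (cf p.1 p.2) (c 0)).1]
          exact (hN (cf p.1 p.2) (c 0)).2)
    rw [Finset.card_product, Finset.card_univ, Fintype.card_fin, Finset.card_range] at h1
    exact h1
  have hmaps : ∀ j ∈ (Finset.univ : Finset (Fin (M + 1))), (I j, Q j, G j) ∈ T := by
    intro j _
    rw [hT, Finset.mem_biUnion]
    refine ⟨(I j, Q j), ?_, ?_⟩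
    · rw [Finset.mem_product]
      exact ⟨Finset.mem_univ _, Finset.mem_range.2 (hQ j)⟩
    · rw [Finset.mem_image]
      exact ⟨G j, (Set.Finite.mem_toFinset _).2 (hG j), rfl⟩
  have hcard : T.card < (Finset.univ : Finset (Fin (M + 1))).card := by
    rw [Finset.card_univ, Fintype.card_fin]
    refine lt_of_le_of_lt hTc ?_
    have : n * (L + 1) * N = n * N * (L + 1) := by ring
    rw [this, hM]
    omega
  obtain ⟨j, -, j', -, hjj, he⟩ := Finset.exists_ne_map_eq_of_card_lt_of_maps_to hcard hmaps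
  simp only [Prod.mk.injEq] at he
  -- the two times in increasing order
  have fin : ∀ j j' : Fin (M + 1), j < j' → I j = I j' → G j = G j' → False := by
    intro j j' hlt hI hGG
    have hlt' : ((j : ℕ) : ℝ) + 1 ≤ ((j' : ℕ) : ℝ) := by
      exact_mod_cast hlt
    have hgap : 1 / (M : ℝ) ≤ ((j' : ℕ) : ℝ) / M - ((j : ℕ) : ℝ) / M := by
      rw [← sub_div]
      exact div_le_div_of_nonneg_right (by linarith) hM0.le
    have hgap0 : 0 < 1 / (M : ℝ) := by positivity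
    have h1 : 2 * δ < 1 / (M : ℝ) := by
      rw [lt_div_iff₀ hM0]
      exact hδM
    have hb := hS j'
    rw [← hI, ← hGG] at hb
    have hsinh : 0 ≤ 28 * δ * (Real.sinh (k * (2 * L + 2)) / k) := by
      have : 0 ≤ Real.sinh (k * (2 * (L : ℝ) + 2)) := by
        rw [Real.sinh_nonneg_iff]
        have := h.kpos
        positivity
      have := h.kpos
      positivity
    have hs : 28 * δ * (Real.sinh (k * (2 * L + 2)) / k) /
        (((j' : ℕ) : ℝ) / M - ((j : ℕ) : ℝ) / M) < r := by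
      refine lt_of_le_of_lt ?_ hδr
      rw [div_le_iff₀ (lt_of_lt_of_le hgap0 hgap)]
      have h2 : 28 * δ * (Real.sinh (k * (2 * L + 2)) / k) * M * (1 / M) ≤
          28 * δ * (Real.sinh (k * (2 * L + 2)) / k) * M *
            (((j' : ℕ) : ℝ) / M - ((j : ℕ) : ℝ) / M) :=
        mul_le_mul_of_nonneg_left hgap (mul_nonneg hsinh hM0.le)
      have h3 : 28 * δ * (Real.sinh (k * (2 * L + 2)) / k) * M * (1 / M) =
          28 * δ * (Real.sinh (k * (2 * L + 2)) / k) := by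
        field_simp
      rw [h3] at h2
      exact h2
    have hcomm := C1_comm hX hi h hr hc (C1_conj hX hi (hcf (I j)) (G j)) (L := (L : ℝ)) hgL
      (by rw [B2_conj hX hi]; exact hfL _) (a := ((j : ℕ) : ℝ) / M) (b := ((j' : ℕ) : ℝ) / M)
      (a' := S j) (b' := S j') (δ := δ) (by linarith) (by
        have h4 := (hmem j').2
        have h5 := (hmem j).1
        linarith) (by linarith) (hS j) hb hs
    rcases B4_prim hX hi h hg (B4_conj (hf (I j)) (G j)) hcomm with h6 | h6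
    · exact (hne (I j) (G j)).1 h6
    · exact (hne (I j) (G j)).2 h6
  rcases lt_or_gt_of_ne hjj with hlt | hlt
  · exact fin j j' hlt he.1 he.2.2
  · exact fin j' j hlt he.1.symm he.2.2.symm

end BGM
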