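import Pool.Agent.LibBGM20.D1
import Pool.Agent.LibBGR.AE_WGT

/-! ROW D2 : the random metrics, bounds uniform in the parameters. Uses A2, A4, D1, Q2, Q3, LibBGR.
PLAN. `D2_smooth`: `ps_mem`. `D2_bound`: `BGS.test_bdd` (LibBGR.AE_WGT) for `ψ`, `ps_bound`.
`D2_rp`, `D2_iv`: D1. `D2_cmp`: `D1_ds` with `f = ex`, `f' = 0` and the other way round (`D1_zero`),
constant `exp (M / 2)`. -/

open MeasureTheory Set Filter Topology
open scoped ContDiff unitInterval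

namespace BGM

open BGS
open Pool.BGR (PM upI pj)

variable {Γ : Type} [Group Γ] [MulAction Γ Pl] {D : Set Pl} {m : Pl → Co} {ψ : Pl → ℝ} {L : ℕ}
  {c : ℕ → ℝ}

theorem D2_smooth (h : Cx Γ D m ψ L c) (ξ : Dir → I) : ex Γ ψ L c ξ ∈ Test Γ := by
  have h1 := h.psi
  have h2 := ps_mem h.hX L h.cs ξ
  refine ⟨h1.1.add h2.1, fun γ z => ?_⟩
  unfold ex
  rw [h1.2 γ z, h2.2 γ z]

theorem D2_rp (h : Cx Γ D m ψ L c) (ξ : Dir → I) : Rp (mx Γ m ψ L c ξ) :=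
  D1_rp h.rp (D2_smooth h ξ).1

theorem D2_iv (h : Cx Γ D m ψ L c) (ξ : Dir → I) : Iv Γ (mx Γ m ψ L c ξ) :=
  D1_iv h.iv (D2_smooth h ξ).2

theorem D2_bound (h : Cx Γ D m ψ L c) : ∃ M : ℝ, 0 < M ∧ ∀ ξ z, |ex Γ ψ L c ξ z| ≤ M := by
  obtain ⟨M₁, hM₁, h1⟩ := test_bdd h.hX ⟨ψ, h.psi⟩
  obtain ⟨M₂, hM₂, h2⟩ := ps_bound h.hX L h.cs
  refine ⟨M₁ + M₂, by linarith, fun ξ z => ?_⟩
  unfold ex
  exact (abs_add_le _ _).trans (add_le_add (h1 z) (h2 ξ z))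

theorem D2_cmp (h : Cx Γ D m ψ L c) : ∃ M : ℝ, 1 ≤ M ∧ ∀ ξ z w,
    ds (mx Γ m ψ L c ξ) z w ≤ M * ds m z w ∧ ds m z w ≤ M * ds (mx Γ m ψ L c ξ) z w := by
  obtain ⟨M, hM, h1⟩ := D2_bound h
  refine ⟨Real.exp (M / 2), Real.one_le_exp (by linarith), fun ξ z w => ⟨?_, ?_⟩⟩
  · have h2 := D1_ds (f := ex Γ ψ L c ξ) (f' := fun _ => 0) h.rp (D2_smooth h ξ).1 contDiff_const
      (ε := M) (fun z => by
        have := (abs_le.1 (h1 ξ z)).2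
        linarith) z w
    rw [D1_zero] at h2
    exact h2
  · have h2 := D1_ds (f := fun _ => 0) (f' := ex Γ ψ L c ξ) h.rp contDiff_const (D2_smooth h ξ).1
      (ε := M) (fun z => by
        have := (abs_le.1 (h1 ξ z)).1
        linarith) z w
    rw [D1_zero] at h2
    exact h2

end BGM
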