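import Pool.Agent.LibBGM20.D2
import Pool.Agent.LibBGM20.B5

/-! ROW D3 : constants uniform in the parameters. Uses B1, B1p, B5, D1, D2.
PLAN. The constants of the base metric `m` (`Cx.base`): `B1_rad`, `B1_loc` with the radius `3 M`, `B5_count`
with `M T`, transferred by `D2_cmp` (constant `M`): `r = r_m / M`; the set for `mx ξ` and `3` is contained in
the set for `m` and `3 M` (`Set.ncard_le_ncard`); the finite set `S` is `{g | ∃ z ∈ closure D,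
ds m z (g z) ≤ M T}`, `card ≤ exp (C_m M T)`. -/

open MeasureTheory Set Filter Topology
open scoped ContDiff unitInterval

namespace BGM

open BGS
open Pool.BGR (PM upI pj)

variable {Γ : Type} [Group Γ] [MulAction Γ Pl] {D : Set Pl} {m : Pl → Co} {ψ : Pl → ℝ} {L : ℕ}
  {c : ℕ → ℝ}

theorem D2_unif (h : Cx Γ D m ψ L c) : ∃ (r C : ℝ) (N : ℕ), 0 < r ∧ 0 < C ∧
    (∀ (ξ : Dir → I) (g : Γ), g ≠ 1 → ∀ z : Pl, r ≤ ds (mx Γ m ψ L c ξ) z (g • z)) ∧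
    (∀ (ξ : Dir → I) (x y : Pl), {g : Γ | ds (mx Γ m ψ L c ξ) (g • x) y ≤ 3}.Finite ∧
      {g : Γ | ds (mx Γ m ψ L c ξ) (g • x) y ≤ 3}.ncard ≤ N) ∧
    ∀ T : ℝ, 1 ≤ T → ∃ S : Finset Γ, (S.card : ℝ) ≤ Real.exp (C * T) ∧
      ∀ (ξ : Dir → I) (g : Γ), (∃ z ∈ closure D, ds (mx Γ m ψ L c ξ) z (g • z) ≤ T) → g ∈ S := by
  obtain ⟨k, E, V, F, hB⟩ := h.base
  obtain ⟨M, hM1, hM⟩ := D2_cmp h
  obtain ⟨r, hr, hr'⟩ := B1_rad h.hX h.iv hB
  obtain ⟨N, hN⟩ := B1_loc h.hX h.iv hB (M * 3)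
  obtain ⟨C, hC, hC'⟩ := B5_count h.hX h.iv hB
  have hM0 : 0 < M := by linarith
  refine ⟨r / M, C * M, N, div_pos hr hM0, mul_pos hC hM0, ?_, ?_, ?_⟩
  · intro ξ g hg z
    rw [div_le_iff₀' hM0]
    exact (hr' g hg z).trans (hM ξ z (g • z)).2
  · intro ξ x y
    have hsub : {g : Γ | ds (mx Γ m ψ L c ξ) (g • x) y ≤ 3} ⊆ {g : Γ | ds m (g • x) y ≤ M * 3} := by
      intro g hg
      have hg' : ds (mx Γ m ψ L c ξ) (g • x) y ≤ 3 := hg
      exact ((hM ξ (g • x) y).2).trans (mul_le_mul_of_nonneg_left hg' hM0.le)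
    obtain ⟨h1, h2⟩ := hN x y
    exact ⟨h1.subset hsub, (Set.ncard_le_ncard hsub h1).trans h2⟩
  · intro T hT
    have hMT : 1 ≤ M * T := by nlinarith
    obtain ⟨h1, h2⟩ := hC' (M * T) hMT
    refine ⟨h1.toFinset, ?_, ?_⟩
    · rw [← Set.ncard_eq_toFinset_card _ h1, mul_assoc]
      exact h2
    · rintro ξ g ⟨z, hz, hle⟩
      rw [Set.Finite.mem_toFinset]
      exact ⟨z, hz, ((hM ξ z (g • z)).2).trans (mul_le_mul_of_nonneg_left hle hM0.le)⟩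

end BGM
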