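import Pool.Agent.LibBGS.Defs

/-! Geometry of the universal cover of a closed surface of negative curvature: definitions. -/

open MeasureTheory Set Filter Topology
open scoped ContDiff ENNReal NNReal

namespace BGM

open BGS

/-- The inner product with coefficients `c`. -/
def bf (c : Co) (v w : Pl) : ℝ :=
  c.1 * v.1 * w.1 + c.2.1 * (v.1 * w.2 + v.2 * w.1) + c.2.2 * v.2 * w.2

/-- The norm of a tangent vector. -/
noncomputable def nm (c : Co) (v : Pl) : ℝ := √(qf c v)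

/-- The Euclidean norm of a vector of the plane. -/
noncomputable def eu (v : Pl) : ℝ := √(v.1 ^ 2 + v.2 ^ 2)

/-- The Euclidean inner product. -/
def ip (v w : Pl) : ℝ := v.1 * w.1 + v.2 * w.2

/-- The determinant of two vectors. -/
def wd (v w : Pl) : ℝ := v.1 * w.2 - v.2 * w.1

/-- The length of the curve `c` from the time `a` to the time `b`. -/
noncomputable def len (m : Pl → Co) (c : ℝ → Pl) (a b : ℝ) : ℝ :=
  ∫ t in a..b, nm (m (c t)) (deriv c t)

/-- The distance: the infimum of the lengths of the `C¹` curves from `z` to `w`. -/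
noncomputable def ds (m : Pl → Co) (z w : Pl) : ℝ :=
  sInf {l : ℝ | ∃ c : ℝ → Pl, ContDiff ℝ 1 c ∧ c 0 = z ∧ c 1 = w ∧ len m c 0 1 = l}

/-- The length of the closed geodesics in the class of `g`. -/
noncomputable def tl {Γ : Type} [Group Γ] [MulAction Γ Pl] (m : Pl → Co) (g : Γ) : ℝ :=
  sInf (Set.range fun z : Pl => ds m z (g • z))

/-- Primitive elements of a group. -/
def Prim {Γ : Type} [Group Γ] (g : Γ) : Prop := ∀ (h : Γ) (n : ℤ), h ^ n = g → n = 1 ∨ n = -1

/-- A smooth Riemannian metric on the plane. -/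
structure Rp (m : Pl → Co) : Prop where
  smooth : ContDiff ℝ ∞ m
  pos : ∀ z, 0 < (m z).1 ∧ 0 < dt (m z)

/-- Invariance under the group. -/
def Iv (Γ : Type) [Group Γ] [MulAction Γ Pl] (m : Pl → Co) : Prop :=
  ∀ (γ : Γ) (z v : Pl), qf (m (γ • z)) (fderiv ℝ (fun w : Pl => γ • w) z v) = qf (m z) v

/-- The exponential map `E x` of a complete metric `m` with `-k² ≤ K < 0`, in orthonormal
coordinates of the tangent planes, its inverse `V x`, and the Jacobi field `F x u` along the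
geodesic `r ↦ E x (r u)`. -/
structure Had (m : Pl → Co) (k : ℝ) (E V : Pl → Pl → Pl) (F : Pl → Pl → ℝ → ℝ) : Prop where
  rp : Rp m
  kpos : 0 < k
  K : ∀ z, -k ^ 2 ≤ curv m z ∧ curv m z < 0
  smE : ContDiff ℝ ∞ fun q : Pl × Pl => E q.1 q.2
  smV : ContDiff ℝ ∞ fun q : Pl × Pl => V q.1 q.2
  EV : ∀ x y, E x (V x y) = y
  VE : ∀ x v, V x (E x v) = v
  E0 : ∀ x, E x 0 = x
  go : ∀ (x v : Pl) (s : ℝ), ∃ w, eu w = eu v ∧
    ∀ t : ℝ, E x ((s + t) • v) = E (E x (s • v)) (t • w)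
  dE : ∀ (x u w : Pl) (r : ℝ), eu u = 1 → 0 < r →
    qf (m (E x (r • u))) (fderiv ℝ (E x) (r • u) w)
      = ip u w ^ 2 + (F x u r / r) ^ 2 * wd u w ^ 2
  F0 : ∀ x u, eu u = 1 → F x u 0 = 0
  ode : ∀ x u, eu u = 1 → ∃ F' : ℝ → ℝ, F' 0 = 1 ∧ (∀ r, HasDerivAt (F x u) (F' r) r) ∧
    ∀ r, HasDerivAt F' (-curv m (E x (r • u)) * F x u r) r

/-- A line: an isometric copy of the real axis. -/
def IsLine (m : Pl → Co) (c : ℝ → Pl) : Prop := ∀ s t, ds m (c s) (c t) = |s - t|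

/-- An axis of `g`. -/
def IsAx {Γ : Type} [Group Γ] [MulAction Γ Pl] (m : Pl → Co) (g : Γ) (c : ℝ → Pl) : Prop :=
  IsLine m c ∧ ∀ t, c (t + tl m g) = g • c t

end BGM
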