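import Pool.Agent.LibBGM20.D2
import Pool.Agent.LibBGM20.E2

/-! ROW E1 : measurability of the curvature in the parameters. Uses D1, D2, Q4, LibBGS.
PLAN. `E1_dx`: `dx (f ξ) z` is the limit of `n (f ξ (z + (1/n) e₁) - f ξ z)`, `n → ∞`
(`HasFDerivAt` along a line), a limit of measurable functions: `measurable_of_tendsto_metrizable`.
`E1_curv`: all the entries of Brioschi's formula are values at `z` of functions obtained from the
components of `mx ξ` (smooth in `z`, measurable in `ξ`: `QML_meas`, `exp`) by `dx` and `dy`: apply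
`E1_dx` repeatedly (`dx (dx F)` etc. are smooth again), then unfold `curv`, `Matrix.det_fin_three`, and
`Measurable` arithmetic. `E1_neg`: `curv (mx ξ)` is continuous in `z` and invariant under the group
(`E2_inv`), so negative everywhere iff it is `≤ -1/(j+1)` on `closure D`
for some `j` iff for some `j` it is so at all points of a countable dense subset of `closure D`
(`TopologicalSpace.exists_countable_dense` of the subtype). So the set is a countable union of
countable intersections of measurable sets. -/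

open MeasureTheory Set Filter Topology
open scoped ContDiff unitInterval

namespace BGM

open BGS
open Pool.BGR (PM upI pj)

variable {Γ : Type} [Group Γ] [MulAction Γ Pl] {D : Set Pl} {m : Pl → Co} {ψ : Pl → ℝ} {L : ℕ}
  {c : ℕ → ℝ}

private theorem E1_dir {X : Type} [MeasurableSpace X] {f : X → Pl → ℝ}
    (hf : ∀ ξ, ContDiff ℝ ∞ (f ξ)) (hm : ∀ z, Measurable fun ξ => f ξ z) (z v : Pl) :
    Measurable fun ξ => fderiv ℝ (f ξ) z v := by
  refine measurable_of_tendsto_metrizable
    (f := fun (n : ℕ) (ξ : X) => (n : ℝ) • (f ξ (z + (n : ℝ)⁻¹ • v) - f ξ z)) ?_ ?_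
  · intro n
    exact ((hm _).sub (hm _)).const_smul (n : ℝ)
  · rw [tendsto_pi_nhds]
    intro ξ
    have h1 : HasFDerivAt (f ξ) (fderiv ℝ (f ξ) z) z :=
      ((hf ξ).differentiable (by simp) z).hasFDerivAt
    exact (h1.lim_real v).comp tendsto_natCast_atTop_atTop

theorem E1_dx {X : Type} [MeasurableSpace X] {f : X → Pl → ℝ} (hf : ∀ ξ, ContDiff ℝ ∞ (f ξ))
    (hm : ∀ z, Measurable fun ξ => f ξ z) (z : Pl) :
    Measurable (fun ξ => dx (f ξ) z) ∧ Measurable fun ξ => dy (f ξ) z :=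
  ⟨E1_dir hf hm z (1, 0), E1_dir hf hm z (0, 1)⟩

/-- Brioschi's formula, expanded. -/
private theorem E1_form (m : Pl → Co) (z : Pl) :
    curv m z = ((-(dy (dy fun w => (m w).1) z) / 2 + dy (dx fun w => (m w).2.1) z -
        dx (dx fun w => (m w).2.2) z / 2) * ((m z).1 * (m z).2.2 - (m z).2.1 * (m z).2.1) +
      (-(dx (fun w => (m w).1) z / 2)) * ((dy (fun w => (m w).2.1) z -
        dx (fun w => (m w).2.2) z / 2) * (m z).2.2 - (m z).2.1 * (dy (fun w => (m w).2.2) z / 2)) +
      (dx (fun w => (m w).2.1) z - dy (fun w => (m w).1) z / 2) * ((dy (fun w => (m w).2.1) z -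
        dx (fun w => (m w).2.2) z / 2) * (m z).2.1 - (m z).1 * (dy (fun w => (m w).2.2) z / 2)) +
      dy (fun w => (m w).1) z / 2 * (dy (fun w => (m w).1) z / 2 * (m z).2.2 -
        (m z).2.1 * (dx (fun w => (m w).2.2) z / 2)) +
      (-(dx (fun w => (m w).2.2) z / 2)) * (dy (fun w => (m w).1) z / 2 * (m z).2.1 -
        (m z).1 * (dx (fun w => (m w).2.2) z / 2))) /
      ((m z).1 * (m z).2.2 - (m z).2.1 ^ 2) ^ 2 := by
  unfold curv dt
  simp only [Matrix.det_fin_three, Matrix.of_apply, Matrix.cons_val]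
  congr 1
  ring

theorem E1_curv (h : Cx Γ D m ψ L c) (z : Pl) :
    Measurable fun ξ : Dir → I => curv (mx Γ m ψ L c ξ) z := by
  have hs : ∀ ξ, ContDiff ℝ ∞ (mx Γ m ψ L c ξ) := fun ξ => (D2_rp h ξ).smooth
  have hE : ∀ ξ, ContDiff ℝ ∞ fun w => (mx Γ m ψ L c ξ w).1 := fun ξ => (hs ξ).fst
  have hF : ∀ ξ, ContDiff ℝ ∞ fun w => (mx Γ m ψ L c ξ w).2.1 := fun ξ => (hs ξ).snd.fst
  have hG : ∀ ξ, ContDiff ℝ ∞ fun w => (mx Γ m ψ L c ξ w).2.2 := fun ξ => (hs ξ).snd.snd
  have hex : ∀ w, Measurable fun ξ : Dir → I => Real.exp (ex Γ ψ L c ξ w) := fun w =>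
    Real.measurable_exp.comp (measurable_const.add (QML_meas h.hX L h.cs w))
  have mE : ∀ w, Measurable fun ξ : Dir → I => (mx Γ m ψ L c ξ w).1 := fun w =>
    (hex w).mul_const (m w).1
  have mF : ∀ w, Measurable fun ξ : Dir → I => (mx Γ m ψ L c ξ w).2.1 := fun w =>
    (hex w).mul_const (m w).2.1
  have mG : ∀ w, Measurable fun ξ : Dir → I => (mx Γ m ψ L c ξ w).2.2 := fun w =>
    (hex w).mul_const (m w).2.2
  have e0 := mE z
  have f0 := mF z
  have g0 := mG z
  have e1 := (E1_dx hE mE z).1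
  have e2 := (E1_dx hE mE z).2
  have f1 := (E1_dx hF mF z).1
  have f2 := (E1_dx hF mF z).2
  have g1 := (E1_dx hG mG z).1
  have g2 := (E1_dx hG mG z).2
  have e3 := (E1_dx (f := fun ξ => dy fun w => (mx Γ m ψ L c ξ w).1)
    (fun ξ => Egr_smooth_dy (hE ξ)) (fun w => (E1_dx hE mE w).2) z).2
  have f3 := (E1_dx (f := fun ξ => dx fun w => (mx Γ m ψ L c ξ w).2.1)
    (fun ξ => Egr_smooth_dx (hF ξ)) (fun w => (E1_dx hF mF w).1) z).2
  have g3 := (E1_dx (f := fun ξ => dx fun w => (mx Γ m ψ L c ξ w).2.2)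
    (fun ξ => Egr_smooth_dx (hG ξ)) (fun w => (E1_dx hG mG w).1) z).1
  simp only [E1_form]
  refine Measurable.div ?_ (((e0.mul g0).sub (f0.pow_const 2)).pow_const 2)
  have a1 := ((e3.neg.div_const 2).add f3).sub (g3.div_const 2)
  have a4 := f2.sub (g1.div_const 2)
  have a5 := g2.div_const 2
  have a6 := e2.div_const 2
  have a7 := g1.div_const 2
  exact ((((a1.mul ((e0.mul g0).sub (f0.mul f0))).add
    ((e1.div_const 2).neg.mul ((a4.mul g0).sub (f0.mul a5)))).add
    ((f1.sub a6).mul ((a4.mul f0).sub (e0.mul a5)))).add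
    (a6.mul ((a6.mul g0).sub (f0.mul a7)))).add
    (a7.neg.mul ((a6.mul f0).sub (e0.mul a7)))

private theorem E1_cont {m : Pl → Co} (hm : Rp m) : Continuous (curv m) := by
  have hE : ContDiff ℝ ∞ fun w => (m w).1 := hm.smooth.fst
  have hF : ContDiff ℝ ∞ fun w => (m w).2.1 := hm.smooth.snd.fst
  have hG : ContDiff ℝ ∞ fun w => (m w).2.2 := hm.smooth.snd.snd
  have e0 := hE.continuous
  have e1 := (Egr_smooth_dx hE).continuous
  have e2 := (Egr_smooth_dy hE).continuous
  have e3 := (Egr_smooth_dy (Egr_smooth_dy hE)).continuous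
  have f0 := hF.continuous
  have f1 := (Egr_smooth_dx hF).continuous
  have f2 := (Egr_smooth_dy hF).continuous
  have f3 := (Egr_smooth_dy (Egr_smooth_dx hF)).continuous
  have g0 := hG.continuous
  have g1 := (Egr_smooth_dx hG).continuous
  have g2 := (Egr_smooth_dy hG).continuous
  have g3 := (Egr_smooth_dx (Egr_smooth_dx hG)).continuous
  have h1 := funext fun z => E1_form m z
  rw [show curv m = fun z => curv m z from rfl, h1]
  have a1 := ((e3.neg.div_const 2).add f3).sub (g3.div_const 2)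
  have a4 := f2.sub (g1.div_const 2)
  have a5 := g2.div_const 2
  have a6 := e2.div_const 2
  have a7 := g1.div_const 2
  refine Continuous.div ?_ (((e0.mul g0).sub (f0.pow 2)).pow 2)
    fun z => pow_ne_zero 2 (hm.pos z).2.ne'
  exact ((((a1.mul ((e0.mul g0).sub (f0.mul f0))).add
    ((e1.div_const 2).neg.mul ((a4.mul g0).sub (f0.mul a5)))).add
    ((f1.sub a6).mul ((a4.mul f0).sub (e0.mul a5)))).add
    (a6.mul ((a6.mul g0).sub (f0.mul a7)))).add
    (a7.neg.mul ((a6.mul f0).sub (e0.mul a7)))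

theorem E1_neg (h : Cx Γ D m ψ L c) :
    MeasurableSet {ξ : Dir → I | ∀ z, curv (mx Γ m ψ L c ξ) z < 0} := by
  obtain ⟨s, hsc, hsd⟩ := TopologicalSpace.exists_countable_dense (closure D)
  have hcomp : IsCompact (closure D) := Cmp_compact h.hX
  have hne : (closure D).Nonempty := by
    obtain ⟨γ, hγ, -⟩ := h.hX.orbit 0
    exact ⟨_, subset_closure hγ⟩
  have key : {ξ : Dir → I | ∀ z, curv (mx Γ m ψ L c ξ) z < 0} =
      ⋃ j : ℕ, ⋂ z ∈ s, {ξ : Dir → I | curv (mx Γ m ψ L c ξ) (z : Pl) ≤ -(1 / ((j : ℝ) + 1))} := by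
    ext ξ
    have hc : Continuous (curv (mx Γ m ψ L c ξ)) := E1_cont (D2_rp h ξ)
    simp only [mem_setOf_eq, mem_iUnion, mem_iInter]
    constructor
    · intro hneg
      obtain ⟨z0, -, hz0⟩ := hcomp.exists_isMaxOn hne hc.continuousOn
      have h1 : 0 < -curv (mx Γ m ψ L c ξ) z0 := by
        have := hneg z0
        linarith
      obtain ⟨j, hj⟩ := exists_nat_one_div_lt h1
      refine ⟨j, fun z _ => ?_⟩
      have h2 : curv (mx Γ m ψ L c ξ) (z : Pl) ≤ curv (mx Γ m ψ L c ξ) z0 := hz0 z.2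
      linarith
    · rintro ⟨j, hj⟩ z
      obtain ⟨γ, hγ, -⟩ := h.hX.orbit z
      have h1 : ∀ y : closure D, curv (mx Γ m ψ L c ξ) (y : Pl) ≤ -(1 / ((j : ℝ) + 1)) := by
        have hclosed : IsClosed {y : closure D |
            curv (mx Γ m ψ L c ξ) (y : Pl) ≤ -(1 / ((j : ℝ) + 1))} :=
          isClosed_le (hc.comp continuous_subtype_val) continuous_const
        intro y
        have h2 : y ∈ closure s := hsd y
        exact closure_minimal (fun y hy => hj y hy) hclosed h2
      have h3 := h1 ⟨γ • z, subset_closure hγ⟩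
      have h4 : curv (mx Γ m ψ L c ξ) (γ • z) = curv (mx Γ m ψ L c ξ) z :=
        E2_inv h.hX (D2_rp h ξ) (D2_iv h ξ) γ z
      have h5 : (0 : ℝ) < 1 / ((j : ℝ) + 1) := by positivity
      have h6 : curv (mx Γ m ψ L c ξ) (γ • z) ≤ -(1 / ((j : ℝ) + 1)) := h3
      rw [h4] at h6
      linarith
  rw [key]
  refine MeasurableSet.iUnion fun j => MeasurableSet.biInter hsc fun z _ => ?_
  exact measurableSet_le (E1_curv h (z : Pl)) measurable_const

end BGM
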