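import Pool.Agent.LibBGM20.E9
import Pool.Agent.LibBGM20.S1

/-! ROW E10 : Borel-Cantelli. Uses E9.
PLAN. `C` from `E9_union`, `R T = ⌈exp (C T)⌉₊`, `ε T = B exp (-(T w T))` (we may take `B ≥ 0`). For large `T` the
measure of the bad event is at most `exp (C T) (exp (C T) + 2)^3 B exp (-(T w T)) / (s exp (-(T w T) / 2)) ≤
(27 B / s) exp (4 C T - T w T / 2) ≤ (27 B / s) exp (-T)` as soon as `w T ≥ 8 C + 2`: summable.
`measure_limsup_atTop_eq_zero` / `ae_eventually_notMem`. -/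

open MeasureTheory Set Filter Topology
open scoped ContDiff unitInterval

namespace BGM

open BGS
open Pool.BGR (PM upI pj)

variable {Γ : Type} [Group Γ] [MulAction Γ Pl] {D : Set Pl} {m : Pl → Co} {ψ : Pl → ℝ} {L : ℕ}
  {c : ℕ → ℝ}

private theorem E10_num {C x w B s c' r : ℝ} (hC : 0 < C) (hx : 0 ≤ x) (hB : 0 ≤ B) (hs : 0 < s)
    (hr0 : 0 ≤ r) (hr : r ≤ Real.exp (C * x) + 1) (hc : Real.exp (-(x * w) / 2) ≤ c')
    (hw : 8 * C + 2 ≤ w) :
    Real.exp (C * x) * (r + 1) ^ 3 * (B * Real.exp (-(x * w))) / (s * c') ≤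
      27 * B / s * Real.exp (-x) := by
  have h1 : 1 ≤ Real.exp (C * x) := Real.one_le_exp (by positivity)
  have h2 : (r + 1) ^ 3 ≤ (3 * Real.exp (C * x)) ^ 3 :=
    pow_le_pow_left₀ (by linarith) (by linarith) 3
  have hc0 : 0 < c' := lt_of_lt_of_le (Real.exp_pos _) hc
  have h3 : Real.exp (C * x) * (r + 1) ^ 3 * (B * Real.exp (-(x * w))) / (s * c') ≤
      Real.exp (C * x) * (3 * Real.exp (C * x)) ^ 3 * (B * Real.exp (-(x * w))) /
        (s * Real.exp (-(x * w) / 2)) := by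
    have h4 : 0 < s * Real.exp (-(x * w) / 2) := mul_pos hs (Real.exp_pos _)
    have h5 : s * Real.exp (-(x * w) / 2) ≤ s * c' := mul_le_mul_of_nonneg_left hc hs.le
    have h6 : Real.exp (C * x) * (r + 1) ^ 3 * (B * Real.exp (-(x * w))) ≤
        Real.exp (C * x) * (3 * Real.exp (C * x)) ^ 3 * (B * Real.exp (-(x * w))) :=
      mul_le_mul_of_nonneg_right (mul_le_mul_of_nonneg_left h2 (Real.exp_pos _).le)
        (mul_nonneg hB (Real.exp_pos _).le)
    exact div_le_div₀ (by positivity) h6 h4 h5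
  refine h3.trans ?_
  have h7 : Real.exp (C * x) * (3 * Real.exp (C * x)) ^ 3 * (B * Real.exp (-(x * w))) /
      (s * Real.exp (-(x * w) / 2)) = 27 * B / s * Real.exp (4 * (C * x) - x * w / 2) := by
    have e1 : Real.exp (4 * (C * x) - x * w / 2) =
        Real.exp (C * x) ^ 4 * Real.exp (-(x * w)) / Real.exp (-(x * w) / 2) := by
      rw [← Real.exp_nat_mul, ← Real.exp_add, ← Real.exp_sub]
      congr 1
      push_cast
      ring
    rw [e1]
    field_simp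
    ring
  rw [h7]
  refine mul_le_mul_of_nonneg_left (Real.exp_le_exp.2 ?_) (by positivity)
  nlinarith

theorem E10_ae {w : ℕ → ℝ} (hw : Tendsto w atTop atTop)
    (hc : ∀ C : ℝ, 0 < C → ∀ᶠ T : ℕ in atTop,
      Real.exp (-(T * w T) / 2) ≤ c ⌈Real.exp (C * T)⌉₊) {s : ℝ} (hs : 0 < s)
    (h : Cx Γ D m ψ L fun R => s * c R) (n K : ℕ) (B : ℝ) :
    ∀ᵐ ξ ∂(PM Dir), ∀ᶠ T : ℕ in atTop,
      ¬ Bad Γ m ψ L (fun R => s * c R) n K T (B * Real.exp (-(T * w T))) ξ := by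
  obtain ⟨C, hC, hU⟩ := E9_union h n K
  have hB : 0 ≤ |B| := abs_nonneg B
  have hev : ∀ᶠ T : ℕ in atTop, PM Dir {ξ : Dir → I | Bad Γ m ψ L (fun R => s * c R) n K T
      (|B| * Real.exp (-(T * w T))) ξ} ≤
        ENNReal.ofReal (27 * |B| / s * Real.exp (-(T : ℝ))) := by
    filter_upwards [hc C hC, hw.eventually_ge_atTop (8 * C + 2), eventually_ge_atTop 1]
      with T hT1 hT2 hT3
    refine (hU T ⌈Real.exp (C * T)⌉₊ hT3 (Nat.le_ceil _) _
      (mul_nonneg hB (Real.exp_pos _).le)).trans ?_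
    refine ENNReal.ofReal_le_ofReal ?_
    exact E10_num hC (Nat.cast_nonneg T) hB hs (Nat.cast_nonneg _)
      (Nat.ceil_lt_add_one (Real.exp_pos _).le).le hT1 hT2
  obtain ⟨T₀, hT₀⟩ := eventually_atTop.1 hev
  have hsum : Summable fun T : ℕ => 27 * |B| / s * Real.exp (-((T + T₀ : ℕ) : ℝ)) := by
    have h1 : Summable fun T : ℕ => Real.exp (-(T : ℝ)) := by
      have h2 := Real.summable_exp_neg_nat
      exact h2
    exact ((summable_nat_add_iff T₀).2 h1).mul_left _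
  have hfin : ∑' T : ℕ, PM Dir {ξ : Dir → I | Bad Γ m ψ L (fun R => s * c R) n K (T + T₀)
      (|B| * Real.exp (-(((T + T₀ : ℕ) : ℝ) * w (T + T₀)))) ξ} ≠ ⊤ := by
    refine ne_top_of_le_ne_top hsum.tsum_ofReal_ne_top ?_
    exact ENNReal.tsum_le_tsum fun T => hT₀ (T + T₀) (Nat.le_add_left _ _)
  filter_upwards [ae_eventually_notMem hfin] with ξ hξ
  obtain ⟨N, hN⟩ := eventually_atTop.1 hξ
  filter_upwards [eventually_ge_atTop (N + T₀)] with T hT hbad
  have h1 : T - T₀ + T₀ = T := by omega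
  have h2 := hN (T - T₀) (by omega)
  rw [h1] at h2
  apply h2
  obtain ⟨h3, g, h4, h5, h6, a, h7, h8, h9⟩ := hbad
  refine ⟨h3, g, h4, h5, h6, a, h7, h8, h9.trans ?_⟩
  exact mul_le_mul_of_nonneg_right (le_abs_self B) (Real.exp_pos _).le

end BGM
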