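import Pool.Agent.LibBGM20.D2
import Pool.Agent.LibBGM20.E2

/-! ROW E2l : uniform lower bound of the curvature. Uses D1, D2, E2, Q4, LibBGS.
PLAN. By `E2_inv` only `z ∈ closure D` (every point is moved to `D`). There `QML_deriv` (`r = 2`) bounds the
iterated derivatives of order `≤ 2` of `ps` uniformly in `ξ`; continuity on the compact `closure D` bounds
those of `ψ` and of the three components `h` of `m`. With `f = ex ξ`: `dx (exp f h) = exp f (dx f h + dx h)`,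
and the same once more for the second derivatives; `|dx f z| ≤ ‖iteratedFDeriv ℝ 1 f z‖`,
`|dx (dx f) z| ≤ ‖iteratedFDeriv ℝ 2 f z‖` (or bound the iterated derivatives of `exp f h` by
`norm_iteratedFDeriv_mul_le`, `norm_iteratedFDeriv_comp_le` and only at the end pass to `dx`, `dy`), and
`dt (mx z) = exp (2 f z) dt (m z) ≥ exp (-2 M) min dt > 0`. Apply `E2_gen`. -/

open MeasureTheory Set Filter Topology
open scoped ContDiff unitInterval

namespace BGM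

open BGS
open Pool.BGR (PM upI pj)

variable {Γ : Type} [Group Γ] [MulAction Γ Pl] {D : Set Pl} {m : Pl → Co} {ψ : Pl → ℝ} {L : ℕ}
  {c : ℕ → ℝ}

/-- The derivative in the direction `v`. -/
private noncomputable def E2l_d (v : Pl) (g : Pl → ℝ) (z : Pl) : ℝ := fderiv ℝ g z v

private theorem E2l_smooth (v : Pl) {g : Pl → ℝ} (hg : ContDiff ℝ ∞ g) :
    ContDiff ℝ ∞ (E2l_d v g) := Egr_smooth_v hg v

private theorem E2l_df {g : Pl → ℝ} (hg : ContDiff ℝ ∞ g) (z : Pl) : DifferentiableAt ℝ g z :=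
  (hg.differentiable (by simp)) z

private theorem E2l_mul (v : Pl) {f g : Pl → ℝ} (hf : ContDiff ℝ ∞ f) (hg : ContDiff ℝ ∞ g)
    (z : Pl) : E2l_d v (fun z => f z * g z) z = f z * E2l_d v g z + E2l_d v f z * g z := by
  unfold E2l_d
  rw [fderiv_fun_mul (E2l_df hf z) (E2l_df hg z)]
  simp only [add_apply, smul_apply, smul_eq_mul]
  ring

private theorem E2l_add (v : Pl) {f g : Pl → ℝ} (hf : ContDiff ℝ ∞ f) (hg : ContDiff ℝ ∞ g)
    (z : Pl) : E2l_d v (fun z => f z + g z) z = E2l_d v f z + E2l_d v g z := by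
  unfold E2l_d
  rw [fderiv_fun_add (E2l_df hf z) (E2l_df hg z)]
  rfl

private theorem E2l_exp (v : Pl) {f : Pl → ℝ} (hf : ContDiff ℝ ∞ f) (z : Pl) :
    E2l_d v (fun z => Real.exp (f z)) z = Real.exp (f z) * E2l_d v f z := by
  unfold E2l_d
  rw [((E2l_df hf z).hasFDerivAt.exp).fderiv]
  simp only [smul_apply, smul_eq_mul]

private theorem E2l_one (v : Pl) {f g : Pl → ℝ} (hf : ContDiff ℝ ∞ f) (hg : ContDiff ℝ ∞ g) :
    E2l_d v (fun z => Real.exp (f z) * g z) =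
      fun z => Real.exp (f z) * (E2l_d v f z * g z + E2l_d v g z) := by
  funext z
  have he : ContDiff ℝ ∞ fun z => Real.exp (f z) := Real.contDiff_exp.comp hf
  rw [E2l_mul v he hg, E2l_exp v hf]
  ring

private theorem E2l_two (v w : Pl) {f g : Pl → ℝ} (hf : ContDiff ℝ ∞ f) (hg : ContDiff ℝ ∞ g)
    (z : Pl) : E2l_d w (E2l_d v (fun z => Real.exp (f z) * g z)) z =
      Real.exp (f z) * (E2l_d w f z * (E2l_d v f z * g z + E2l_d v g z) +
        (E2l_d v f z * E2l_d w g z + E2l_d w (E2l_d v f) z * g z + E2l_d w (E2l_d v g) z)) := by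
  rw [E2l_one v hf hg]
  have h1 : ContDiff ℝ ∞ (fun z => E2l_d v f z * g z) := (E2l_smooth v hf).mul hg
  rw [E2l_one w hf (h1.add (E2l_smooth v hg))]
  show Real.exp (f z) * (E2l_d w f z * (E2l_d v f z * g z + E2l_d v g z) +
    E2l_d w (fun z => E2l_d v f z * g z + E2l_d v g z) z) = _
  rw [E2l_add w h1 (E2l_smooth v hg), E2l_mul w (E2l_smooth v hf) hg]

private theorem E2l_b1 {v : Pl} (hv : ‖v‖ ≤ 1) (g : Pl → ℝ) (z : Pl) :
    |E2l_d v g z| ≤ ‖iteratedFDeriv ℝ 1 g z‖ := by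
  have h1 : E2l_d v g z = iteratedFDeriv ℝ 1 g z (fun _ => v) := by
    rw [iteratedFDeriv_one_apply]
    rfl
  rw [h1, ← Real.norm_eq_abs]
  refine ((iteratedFDeriv ℝ 1 g z).le_opNorm _).trans ?_
  rw [Fin.prod_univ_one]
  exact mul_le_of_le_one_right (norm_nonneg _) hv

private theorem E2l_b2 {v w : Pl} (hv : ‖v‖ ≤ 1) (hw : ‖w‖ ≤ 1) {g : Pl → ℝ}
    (hg : ContDiff ℝ ∞ g) (z : Pl) :
    |E2l_d w (E2l_d v g) z| ≤ ‖iteratedFDeriv ℝ 2 g z‖ := by
  have h1 : E2l_d w (E2l_d v g) z = iteratedFDeriv ℝ 2 g z ![w, v] := by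
    rw [iteratedFDeriv_two_apply]
    have h2 : DifferentiableAt ℝ (fderiv ℝ g) z :=
      (((contDiff_infty_iff_fderiv.1 hg).2).differentiable (by simp)) z
    show fderiv ℝ (fun z => fderiv ℝ g z v) z w = _
    rw [fderiv_clm_apply h2 (differentiableAt_const v)]
    simp
  rw [h1, ← Real.norm_eq_abs]
  refine ((iteratedFDeriv ℝ 2 g z).le_opNorm _).trans ?_
  rw [Fin.prod_univ_two]
  simp only [Matrix.cons_val_zero, Matrix.cons_val_one]
  exact mul_le_of_le_one_right (norm_nonneg _) (mul_le_one₀ hw (norm_nonneg _) hv)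

/-- All the quantities of order at most two are bounded by `M`. -/
private def E2l_B (M : ℝ) (g : Pl → ℝ) (z : Pl) : Prop :=
  |g z| ≤ M ∧ (∀ v : Pl, ‖v‖ ≤ 1 → |E2l_d v g z| ≤ M) ∧
    ∀ v w : Pl, ‖v‖ ≤ 1 → ‖w‖ ≤ 1 → |E2l_d w (E2l_d v g) z| ≤ M

private theorem E2l_B_mono {M M' : ℝ} (h : M ≤ M') {g : Pl → ℝ} {z : Pl} (hB : E2l_B M g z) :
    E2l_B M' g z :=
  ⟨hB.1.trans h, fun v hv => (hB.2.1 v hv).trans h, fun v w hv hw => (hB.2.2 v w hv hw).trans h⟩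

private theorem E2l_B_of {M : ℝ} {g : Pl → ℝ} (hg : ContDiff ℝ ∞ g) {z : Pl}
    (h : ∀ j ≤ 2, ‖iteratedFDeriv ℝ j g z‖ ≤ M) : E2l_B M g z := by
  refine ⟨?_, fun v hv => (E2l_b1 hv g z).trans (h 1 (by norm_num)),
    fun v w hv hw => (E2l_b2 hv hw hg z).trans (h 2 le_rfl)⟩
  have := h 0 (by norm_num)
  rwa [norm_iteratedFDeriv_zero, Real.norm_eq_abs] at this

private theorem E2l_B_cpt {g : Pl → ℝ} (hg : ContDiff ℝ ∞ g) {K : Set Pl} (hK : IsCompact K) :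
    ∃ M : ℝ, ∀ z ∈ K, E2l_B M g z := by
  have h1 : ∀ j : ℕ, ∃ C : ℝ, ∀ z ∈ K, ‖iteratedFDeriv ℝ j g z‖ ≤ C := fun j =>
    hK.exists_bound_of_continuousOn
      ((hg.continuous_iteratedFDeriv (m := j) (by exact_mod_cast le_top)).continuousOn)
  obtain ⟨C0, h0⟩ := h1 0
  obtain ⟨C1, h1'⟩ := h1 1
  obtain ⟨C2, h2⟩ := h1 2
  refine ⟨max C0 (max C1 C2), fun z hz => E2l_B_of hg fun j hj => ?_⟩
  interval_cases j
  · exact (h0 z hz).trans (le_max_left _ _)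
  · exact (h1' z hz).trans ((le_max_left _ _).trans (le_max_right _ _))
  · exact (h2 z hz).trans ((le_max_right _ _).trans (le_max_right _ _))

private theorem E2l_B_add {M M' : ℝ} {f g : Pl → ℝ} (hf : ContDiff ℝ ∞ f) (hg : ContDiff ℝ ∞ g)
    {z : Pl} (h1 : E2l_B M f z) (h2 : E2l_B M' g z) : E2l_B (M + M') (fun z => f z + g z) z := by
  refine ⟨(abs_add_le _ _).trans (add_le_add h1.1 h2.1), fun v hv => ?_, fun v w hv hw => ?_⟩
  · rw [E2l_add v hf hg]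
    exact (abs_add_le _ _).trans (add_le_add (h1.2.1 v hv) (h2.2.1 v hv))
  · have e : E2l_d v (fun z => f z + g z) = fun z => E2l_d v f z + E2l_d v g z :=
      funext fun z => E2l_add v hf hg z
    rw [e, E2l_add w (E2l_smooth v hf) (E2l_smooth v hg)]
    exact (abs_add_le _ _).trans (add_le_add (h1.2.2 v w hv hw) (h2.2.2 v w hv hw))

private theorem E2l_B_exp {M : ℝ} (hM : 1 ≤ M) {f g : Pl → ℝ} (hf : ContDiff ℝ ∞ f)
    (hg : ContDiff ℝ ∞ g) {z : Pl} (h1 : E2l_B M f z) (h2 : E2l_B M g z) :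
    E2l_B (Real.exp M * (5 * M ^ 3)) (fun z => Real.exp (f z) * g z) z := by
  have he : Real.exp (f z) ≤ Real.exp M := Real.exp_le_exp.2 ((le_abs_self _).trans h1.1)
  have hM0 : 0 ≤ M := by linarith
  have hMM : M ≤ M ^ 3 := by nlinarith [mul_nonneg hM0 hM0, mul_nonneg (mul_nonneg hM0 hM0) hM0]
  have hM2 : M ^ 2 ≤ M ^ 3 := by nlinarith [mul_nonneg hM0 hM0]
  have key : ∀ x : ℝ, |x| ≤ 5 * M ^ 3 → |Real.exp (f z) * x| ≤ Real.exp M * (5 * M ^ 3) := by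
    intro x hx
    rw [abs_mul, Real.abs_exp]
    exact mul_le_mul he hx (abs_nonneg _) (Real.exp_pos M).le
  have mm : ∀ x y : ℝ, |x| ≤ M → |y| ≤ M → |x * y| ≤ M ^ 2 := by
    intro x y hx hy
    rw [abs_mul, sq]
    exact mul_le_mul hx hy (abs_nonneg _) hM0
  refine ⟨key _ (h2.1.trans (by nlinarith)), fun v hv => ?_, fun v w hv hw => ?_⟩
  · rw [E2l_one v hf hg]
    apply key
    refine (abs_add_le _ _).trans ?_
    have := mm _ _ (h1.2.1 v hv) h2.1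
    have := h2.2.1 v hv
    nlinarith
  · rw [E2l_two v w hf hg]
    apply key
    have a1 : |E2l_d v f z * g z + E2l_d v g z| ≤ M ^ 2 + M :=
      (abs_add_le _ _).trans (add_le_add (mm _ _ (h1.2.1 v hv) h2.1) (h2.2.1 v hv))
    have a2 : |E2l_d w f z * (E2l_d v f z * g z + E2l_d v g z)| ≤ M * (M ^ 2 + M) := by
      rw [abs_mul]
      exact mul_le_mul (h1.2.1 w hw) a1 (abs_nonneg _) hM0
    have a3 := mm _ _ (h1.2.1 v hv) (h2.2.1 w hw)
    have a4 := mm _ _ (h1.2.2 v w hv hw) h2.1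
    have a5 := h2.2.2 v w hv hw
    refine (abs_add_le _ _).trans ?_
    refine (add_le_add a2 ((abs_add_le _ _).trans (add_le_add ((abs_add_le _ _).trans
      (add_le_add a3 a4)) a5))).trans ?_
    nlinarith

private theorem E2l_cube {M : ℝ} (hM : 1 ≤ M) : M ≤ 5 * M ^ 3 := by
  have h1 : M ^ 1 ≤ M ^ 3 := pow_le_pow_right₀ hM (by norm_num)
  have h2 : 0 ≤ M ^ 3 := by positivity
  rw [pow_one] at h1
  linarith

private theorem E2l_fin {B x : ℝ} (h : |x| ≤ B) : -(|B| + 1) ^ 2 ≤ x := by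
  have e1 := (abs_le.1 h).1
  have e2 := le_abs_self B
  have e3 := abs_nonneg B
  nlinarith

/-- The curvatures of all the metrics of the family are bounded below. -/
theorem E2_low (h : Cx Γ D m ψ L c) : ∃ k : ℝ, 0 < k ∧ ∀ (ξ : Dir → I) (z : Pl),
    -k ^ 2 ≤ curv (mx Γ m ψ L c ξ) z := by
  have hK : IsCompact (closure D) := Cmp_compact h.hX
  have hm := h.rp.smooth
  have s1 : ContDiff ℝ ∞ fun w => (m w).1 := hm.fst
  have s2 : ContDiff ℝ ∞ fun w => (m w).2.1 := hm.snd.fst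
  have s3 : ContDiff ℝ ∞ fun w => (m w).2.2 := hm.snd.snd
  obtain ⟨M1, hM1⟩ := E2l_B_cpt s1 hK
  obtain ⟨M2, hM2⟩ := E2l_B_cpt s2 hK
  obtain ⟨M3, hM3⟩ := E2l_B_cpt s3 hK
  obtain ⟨M4, hM4⟩ := E2l_B_cpt h.psi.1 hK
  obtain ⟨M5, -, hM5⟩ := QML_deriv h.hX L h.cs 2 hK
  have sdt : ContDiff ℝ ∞ fun w => dt (m w) := by
    unfold dt
    exact (s1.mul s3).sub (s2.pow 2)
  obtain ⟨M6, hM6⟩ := hK.exists_bound_of_continuousOn (f := fun w => (dt (m w))⁻¹)
    (sdt.continuous.inv₀ fun w => (h.rp.pos w).2.ne').continuousOn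
  set M : ℝ := 1 + (|M1| + |M2| + |M3| + |M4| + |M5| + |M6|) with hMdef
  have n1 := abs_nonneg M1
  have n2 := abs_nonneg M2
  have n3 := abs_nonneg M3
  have n4 := abs_nonneg M4
  have n5 := abs_nonneg M5
  have n6 := abs_nonneg M6
  have l1 := le_abs_self M1
  have l2 := le_abs_self M2
  have l3 := le_abs_self M3
  have l4 := le_abs_self M4
  have l5 := le_abs_self M5
  have l6 := le_abs_self M6
  have hM : 1 ≤ M := by linarith
  have hM0 : 0 ≤ M := by linarith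
  set C : ℝ := Real.exp (2 * M) * (5 * M ^ 3) with hC
  obtain ⟨B, hB⟩ := E2_gen C
  refine ⟨|B| + 1, by positivity, fun ξ z => ?_⟩
  obtain ⟨γ, hγ, -⟩ := h.hX.orbit z
  rw [← E2_inv h.hX (D2_rp h ξ) (D2_iv h ξ) γ z]
  set z' : Pl := γ • z with hz'
  have hz : z' ∈ closure D := subset_closure hγ
  have hfs : ContDiff ℝ ∞ (ps Γ L c ξ) := (ps_mem h.hX L h.cs ξ).1
  have hf : ContDiff ℝ ∞ (ex Γ ψ L c ξ) := h.psi.1.add hfs
  have bf : E2l_B M (ex Γ ψ L c ξ) z' := by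
    have b1 := hM4 z' hz
    have b2 : E2l_B M5 (ps Γ L c ξ) z' := E2l_B_of hfs fun j hj => hM5 ξ j hj z' hz
    exact E2l_B_mono (by linarith) (E2l_B_add h.psi.1 hfs b1 b2)
  have hexp : Real.exp M ≤ Real.exp (2 * M) := Real.exp_le_exp.2 (by linarith)
  have hCM : Real.exp M * (5 * M ^ 3) ≤ C :=
    mul_le_mul_of_nonneg_right hexp (by positivity)
  have c1 : E2l_B C (fun w => (mx Γ m ψ L c ξ w).1) z' :=
    E2l_B_mono hCM (E2l_B_exp hM hf s1 bf (E2l_B_mono (by linarith) (hM1 z' hz)))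
  have c2 : E2l_B C (fun w => (mx Γ m ψ L c ξ w).2.1) z' :=
    E2l_B_mono hCM (E2l_B_exp hM hf s2 bf (E2l_B_mono (by linarith) (hM2 z' hz)))
  have c3 : E2l_B C (fun w => (mx Γ m ψ L c ξ w).2.2) z' :=
    E2l_B_mono hCM (E2l_B_exp hM hf s3 bf (E2l_B_mono (by linarith) (hM3 z' hz)))
  have hnx : ‖((1, 0) : Pl)‖ ≤ 1 := by simp [Prod.norm_def]
  have hny : ‖((0, 1) : Pl)‖ ≤ 1 := by simp [Prod.norm_def]
  have hall : ∀ g : Pl → ℝ, E2l_B C g z' → |g z'| ≤ C ∧ |dx g z'| ≤ C ∧ |dy g z'| ≤ C ∧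
      |dx (dx g) z'| ≤ C ∧ |dy (dx g) z'| ≤ C ∧ |dy (dy g) z'| ≤ C := fun g hg =>
    ⟨hg.1, hg.2.1 _ hnx, hg.2.1 _ hny, hg.2.2 _ _ hnx hnx, hg.2.2 _ _ hnx hny,
      hg.2.2 _ _ hny hny⟩
  have hdt : 1 ≤ C * dt (mx Γ m ψ L c ξ z') := by
    have d1 : dt (mx Γ m ψ L c ξ z') = Real.exp (2 * ex Γ ψ L c ξ z') * dt (m z') := by
      have : Real.exp (2 * ex Γ ψ L c ξ z') = Real.exp (ex Γ ψ L c ξ z') ^ 2 := by
        rw [← Real.exp_nat_mul]
        norm_num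
      rw [this]
      unfold mx cf dt
      simp only [Prod.smul_fst, Prod.smul_snd, smul_eq_mul]
      ring
    have d2 : (dt (m z'))⁻¹ ≤ M := by
      have := hM6 z' hz
      rw [Real.norm_eq_abs] at this
      linarith [le_abs_self (dt (m z'))⁻¹]
    have d0 : 0 < dt (m z') := (h.rp.pos z').2
    have d3 : 1 ≤ M * dt (m z') := by
      rw [inv_le_iff_one_le_mul₀ d0] at d2
      exact d2
    have d4 : Real.exp (-(2 * M)) ≤ Real.exp (2 * ex Γ ψ L c ξ z') := by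
      apply Real.exp_le_exp.2
      have := (abs_le.1 bf.1).1
      linarith
    have d5 : Real.exp (2 * M) * Real.exp (-(2 * M)) = 1 := by
      rw [← Real.exp_add, add_neg_cancel, Real.exp_zero]
    have d6 : 1 ≤ Real.exp (2 * M) * Real.exp (2 * ex Γ ψ L c ξ z') := by
      rw [← d5]
      exact mul_le_mul_of_nonneg_left d4 (Real.exp_pos _).le
    have d7 : M ≤ 5 * M ^ 3 := E2l_cube hM
    rw [d1, hC]
    have d8 : 1 ≤ 5 * M ^ 3 * dt (m z') :=
      d3.trans (mul_le_mul_of_nonneg_right d7 d0.le)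
    calc (1 : ℝ) = 1 * 1 := by ring
      _ ≤ (Real.exp (2 * M) * Real.exp (2 * ex Γ ψ L c ξ z')) * (5 * M ^ 3 * dt (m z')) :=
          mul_le_mul d6 d8 zero_le_one (by positivity)
      _ = _ := by ring
  have hcurv : |curv (mx Γ m ψ L c ξ) z'| ≤ B := by
    apply hB _ _ _ hdt
    intro g hg
    simp only [mem_insert_iff, mem_singleton_iff] at hg
    rcases hg with rfl | rfl | rfl
    · exact hall _ c1
    · exact hall _ c2
    · exact hall _ c3
  exact E2l_fin hcurv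

theorem E2_had (h : Cx Γ D m ψ L c) : ∃ k : ℝ, 0 < k ∧ ∀ ξ : Dir → I,
    (∀ z, curv (mx Γ m ψ L c ξ) z < 0) → ∃ E V F, Had (mx Γ m ψ L c ξ) k E V F := by
  obtain ⟨k, hk, h1⟩ := E2_low h
  exact ⟨k, hk, fun ξ hξ => h.h1 k _ hk (D2_rp h ξ) (D2_iv h ξ) fun z => ⟨h1 ξ z, hξ z⟩⟩


end BGM
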