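import Pool.Agent.LibBGM20.D2

/-! ROW E3 : continuity of the distance and of the lengths in the parameters. Uses A4, A4t, A5, D1,
D2, Q3 (`ps_cont`).
PLAN. `E3_ds` at `(ξ₀, z₀, w₀)`: `|ds_ξ z w - ds_ξ z₀ w₀| ≤ ds_ξ z z₀ + ds_ξ w w₀ ≤ M (ds m z z₀ + ds m w w₀)`
(`ds_tri`, `D2_cmp`), and `ds m` is continuous (`ds_continuous`, `Cx.base`); if
`|ps ξ - ps ξ₀| ≤ ε` everywhere (`ps_cont`) then `D1_ds` gives
`exp (-ε/2) ds_ξ₀ ≤ ds_ξ ≤ exp (ε/2) ds_ξ₀` at `(z₀, w₀)`. `E3_tl`: the same with `D1_tl`. -/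

open MeasureTheory Set Filter Topology
open scoped ContDiff unitInterval

namespace BGM

open BGS
open Pool.BGR (PM upI pj)

variable {Γ : Type} [Group Γ] [MulAction Γ Pl] {D : Set Pl} {m : Pl → Co} {ψ : Pl → ℝ} {L : ℕ}
  {c : ℕ → ℝ}

private theorem E3_lim {X : Type} {l : Filter X} {f : X → ℝ} {a : ℝ}
    (h : ∀ ε : ℝ, 0 < ε → ∀ᶠ x in l, f x ≤ Real.exp (ε / 2) * a ∧ a ≤ Real.exp (ε / 2) * f x) :
    Tendsto f l (𝓝 a) := by
  have hc1 : Tendsto (fun ε : ℝ => Real.exp (ε / 2) * a) (𝓝[>] 0) (𝓝 a) := by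
    have h1 : Continuous fun ε : ℝ => Real.exp (ε / 2) * a := by fun_prop
    have h2 := h1.tendsto 0
    simp only [zero_div, Real.exp_zero, one_mul] at h2
    exact h2.mono_left nhdsWithin_le_nhds
  have hc2 : Tendsto (fun ε : ℝ => Real.exp (-(ε / 2)) * a) (𝓝[>] 0) (𝓝 a) := by
    have h1 : Continuous fun ε : ℝ => Real.exp (-(ε / 2)) * a := by fun_prop
    have h2 := h1.tendsto 0
    simp only [zero_div, neg_zero, Real.exp_zero, one_mul] at h2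
    exact h2.mono_left nhdsWithin_le_nhds
  refine tendsto_order.2 ⟨fun b hb => ?_, fun b hb => ?_⟩
  · obtain ⟨ε, hε, hε0⟩ := ((hc2.eventually (lt_mem_nhds hb)).and self_mem_nhdsWithin).exists
    filter_upwards [h ε hε0] with x hx
    refine hε.trans_le ?_
    have h3 := mul_le_mul_of_nonneg_left hx.2 (Real.exp_pos (-(ε / 2))).le
    rwa [← mul_assoc, ← Real.exp_add, neg_add_cancel, Real.exp_zero, one_mul] at h3
  · obtain ⟨ε, hε, hε0⟩ := ((hc1.eventually (gt_mem_nhds hb)).and self_mem_nhdsWithin).exists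
    filter_upwards [h ε hε0] with x hx
    exact hx.1.trans_lt hε

private theorem E3_ex (h : Cx Γ D m ψ L c) (ξ₀ : Dir → I) {ε : ℝ} (hε : 0 < ε) :
    ∀ᶠ ξ in 𝓝 ξ₀, (∀ z, ex Γ ψ L c ξ z ≤ ex Γ ψ L c ξ₀ z + ε) ∧
      ∀ z, ex Γ ψ L c ξ₀ z ≤ ex Γ ψ L c ξ z + ε := by
  filter_upwards [ps_cont h.hX L h.cs ξ₀ hε] with ξ hξ
  constructor
  · intro z
    have := (abs_le.1 (hξ z)).2
    unfold ex
    linarith
  · intro z
    have := (abs_le.1 (hξ z)).1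
    unfold ex
    linarith

private theorem E3_ds0 (h : Cx Γ D m ψ L c) (ξ₀ : Dir → I) (z w : Pl) :
    Tendsto (fun ξ : Dir → I => ds (mx Γ m ψ L c ξ) z w) (𝓝 ξ₀)
      (𝓝 (ds (mx Γ m ψ L c ξ₀) z w)) := by
  refine E3_lim fun ε hε => ?_
  filter_upwards [E3_ex h ξ₀ hε] with ξ hξ
  exact ⟨D1_ds h.rp (D2_smooth h ξ).1 (D2_smooth h ξ₀).1 hξ.1 z w,
    D1_ds h.rp (D2_smooth h ξ₀).1 (D2_smooth h ξ).1 hξ.2 z w⟩

theorem E3_ds (h : Cx Γ D m ψ L c) :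
    Continuous fun q : (Dir → I) × Pl × Pl => ds (mx Γ m ψ L c q.1) q.2.1 q.2.2 := by
  obtain ⟨M, hM1, hM⟩ := D2_cmp h
  obtain ⟨k, E, V, F, hB⟩ := h.base
  rw [continuous_iff_continuousAt]
  rintro ⟨ξ₀, z₀, w₀⟩
  have h1 : Tendsto (fun q : (Dir → I) × Pl × Pl => ds (mx Γ m ψ L c q.1) z₀ w₀)
      (𝓝 (ξ₀, z₀, w₀)) (𝓝 (ds (mx Γ m ψ L c ξ₀) z₀ w₀)) :=
    (E3_ds0 h ξ₀ z₀ w₀).comp (continuous_fst.tendsto (ξ₀, z₀, w₀))
  have h2 : Tendsto (fun q : (Dir → I) × Pl × Pl => M * (ds m q.2.1 z₀ + ds m q.2.2 w₀))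
      (𝓝 (ξ₀, z₀, w₀)) (𝓝 0) := by
    have hc : Continuous fun q : (Dir → I) × Pl × Pl => M * (ds m q.2.1 z₀ + ds m q.2.2 w₀) := by
      have e1 : Continuous fun q : (Dir → I) × Pl × Pl => ds m q.2.1 z₀ :=
        (ds_continuous hB).comp
          ((continuous_fst.comp continuous_snd).prodMk continuous_const)
      have e2 : Continuous fun q : (Dir → I) × Pl × Pl => ds m q.2.2 w₀ :=
        (ds_continuous hB).comp
          ((continuous_snd.comp continuous_snd).prodMk continuous_const)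
      exact continuous_const.mul (e1.add e2)
    have h3 := hc.tendsto (ξ₀, z₀, w₀)
    simp only [ds_self h.rp, add_zero, mul_zero] at h3
    exact h3
  have h3 := h1.sub h2
  have h4 := h1.add h2
  rw [sub_zero] at h3
  rw [add_zero] at h4
  refine tendsto_of_tendsto_of_tendsto_of_le_of_le h3 h4 ?_ ?_
  · rintro ⟨ξ, z, w⟩
    show ds (mx Γ m ψ L c ξ) z₀ w₀ - M * (ds m z z₀ + ds m w w₀) ≤ ds (mx Γ m ψ L c ξ) z w
    have hm := D2_rp h ξ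
    have t1 := ds_tri hm z₀ z w₀
    have t2 := ds_tri hm z w w₀
    have t3 := (hM ξ z z₀).1
    have t4 := (hM ξ w w₀).1
    rw [ds_symm hm z₀ z] at t1
    linarith
  · rintro ⟨ξ, z, w⟩
    show ds (mx Γ m ψ L c ξ) z w ≤ ds (mx Γ m ψ L c ξ) z₀ w₀ + M * (ds m z z₀ + ds m w w₀)
    have hm := D2_rp h ξ
    have t1 := ds_tri hm z z₀ w
    have t2 := ds_tri hm z₀ w₀ w
    have t3 := (hM ξ z z₀).1
    have t4 := (hM ξ w w₀).1
    rw [ds_symm hm w₀ w] at t2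
    linarith

theorem E3_tl (h : Cx Γ D m ψ L c) (g : Γ) :
    Continuous fun ξ : Dir → I => tl (mx Γ m ψ L c ξ) g := by
  rw [continuous_iff_continuousAt]
  intro ξ₀
  refine E3_lim fun ε hε => ?_
  filter_upwards [E3_ex h ξ₀ hε] with ξ hξ
  exact ⟨D1_tl h.rp (D2_smooth h ξ).1 (D2_smooth h ξ₀).1 hξ.1 g,
    D1_tl h.rp (D2_smooth h ξ₀).1 (D2_smooth h ξ).1 hξ.2 g⟩

end BGM
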