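import Pool.Agent.LibBGM20.E1
import Pool.Agent.LibBGM20.E3

/-! ROW E4 : the good event is measurable. Uses E1, E3.
PLAN. `E4_countable`: for each natural `N` the set of the `γ` with `γ • 0` in the ball of radius `N`
is finite (`Surface.proper` with the closed ball), and every `γ` is in one of these sets.
`E4_closed`: the set `{(ξ, z) | z ∈ K, ds (mx ξ) z (g z) = tl (mx ξ) g}` is closed in the compact space
`(Dir → I) × K` (E3, `Surface.smooth`), so its projection is compact, hence closed. `E4_meas`: the set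
is the intersection of the set of `E1_neg`, of a closed set (`E4_closed` with
`K = {z | |R z.1 - p.1| ≤ 1/2, ...}`, compact if `R ≥ 1`) and of the complements of countably many
closed sets (for `i` and `γ`: `E4_closed` with `K = γ⁻¹ • {z | |R z.1 - p.1| ≤ 2, ...}`). -/

open MeasureTheory Set Filter Topology
open scoped ContDiff unitInterval

namespace BGM

open BGS
open Pool.BGR (PM upI pj)

variable {Γ : Type} [Group Γ] [MulAction Γ Pl] {D : Set Pl} {m : Pl → Co} {ψ : Pl → ℝ} {L : ℕ}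
  {c : ℕ → ℝ}

theorem E4_countable (hX : Surface Γ D) : Countable Γ := by
  rw [← Set.countable_univ_iff]
  have h1 : (Set.univ : Set Γ) = ⋃ N : ℕ,
      {γ : Γ | ∃ z ∈ Metric.closedBall (0 : Pl) (N : ℝ), γ • z ∈ Metric.closedBall (0 : Pl) (N : ℝ)} := by
    symm
    rw [Set.eq_univ_iff_forall]
    intro γ
    obtain ⟨N, hN⟩ := exists_nat_ge ‖γ • (0 : Pl)‖
    refine Set.mem_iUnion.2 ⟨N, 0, ?_, ?_⟩
    · exact Metric.mem_closedBall_self (Nat.cast_nonneg N)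
    · rw [mem_closedBall_zero_iff]
      exact hN
  rw [h1]
  exact Set.countable_iUnion fun N => (hX.proper _ (isCompact_closedBall _ _)).countable

theorem E4_closed (h : Cx Γ D m ψ L c) (g : Γ) {K : Set Pl} (hK : IsCompact K) :
    IsClosed {ξ : Dir → I | ∃ z ∈ K,
      ds (mx Γ m ψ L c ξ) z (g • z) = tl (mx Γ m ψ L c ξ) g} := by
  have hg : Continuous fun z : Pl => g • z := (h.hX.smooth g).continuous
  have h1 : Continuous fun q : (Dir → I) × Pl => ds (mx Γ m ψ L c q.1) q.2 (g • q.2) :=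
    (E3_ds h).comp (continuous_fst.prodMk (continuous_snd.prodMk (hg.comp continuous_snd)))
  have h2 : Continuous fun q : (Dir → I) × Pl => tl (mx Γ m ψ L c q.1) g :=
    (E3_tl h g).comp continuous_fst
  have h3 : IsClosed {q : (Dir → I) × Pl |
      ds (mx Γ m ψ L c q.1) q.2 (g • q.2) = tl (mx Γ m ψ L c q.1) g} := isClosed_eq h1 h2
  have h4 : IsCompact (((Set.univ : Set (Dir → I)) ×ˢ K) ∩ {q : (Dir → I) × Pl |
      ds (mx Γ m ψ L c q.1) q.2 (g • q.2) = tl (mx Γ m ψ L c q.1) g}) :=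
    (isCompact_univ.prod hK).inter_right h3
  have h5 := (h4.image continuous_fst).isClosed
  have h6 : {ξ : Dir → I | ∃ z ∈ K, ds (mx Γ m ψ L c ξ) z (g • z) = tl (mx Γ m ψ L c ξ) g} =
      Prod.fst '' (((Set.univ : Set (Dir → I)) ×ˢ K) ∩ {q : (Dir → I) × Pl |
        ds (mx Γ m ψ L c q.1) q.2 (g • q.2) = tl (mx Γ m ψ L c q.1) g}) := by
    ext ξ
    constructor
    · rintro ⟨z, hz, hz'⟩
      exact ⟨(ξ, z), ⟨⟨Set.mem_univ _, hz⟩, hz'⟩, rfl⟩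
    · rintro ⟨q, ⟨hq1, hq2⟩, rfl⟩
      exact ⟨q.2, hq1.2, hq2⟩
  rw [h6]
  exact h5

private theorem E4_square {R : ℕ} (hR : 1 ≤ R) (p : ℤ × ℤ) (r : ℝ) :
    IsCompact {z : Pl | |R * z.1 - p.1| ≤ r ∧ |R * z.2 - p.2| ≤ r} := by
  have hR0 : (0 : ℝ) < R := by exact_mod_cast hR
  have h1 : {z : Pl | |R * z.1 - p.1| ≤ r ∧ |R * z.2 - p.2| ≤ r} =
      Icc (((p.1 : ℝ) - r) / R) (((p.1 : ℝ) + r) / R) ×ˢ
        Icc (((p.2 : ℝ) - r) / R) (((p.2 : ℝ) + r) / R) := by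
    ext z
    simp only [Set.mem_setOf_eq, Set.mem_prod, Set.mem_Icc, abs_le, div_le_iff₀ hR0,
      le_div_iff₀ hR0]
    constructor
    · rintro ⟨⟨h1, h2⟩, h3, h4⟩
      refine ⟨⟨?_, ?_⟩, ?_, ?_⟩ <;> linarith
    · rintro ⟨⟨h1, h2⟩, h3, h4⟩
      refine ⟨⟨?_, ?_⟩, ?_, ?_⟩ <;> linarith
  rw [h1]
  exact isCompact_Icc.prod isCompact_Icc

private theorem E4_translate (hX : Surface Γ D) {R : ℕ} (hR : 1 ≤ R) (p : ℤ × ℤ) (r : ℝ) (γ : Γ) :
    IsCompact {z : Pl | |R * (γ • z).1 - p.1| ≤ r ∧ |R * (γ • z).2 - p.2| ≤ r} := by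
  have h1 : {z : Pl | |R * (γ • z).1 - p.1| ≤ r ∧ |R * (γ • z).2 - p.2| ≤ r} =
      (fun z : Pl => γ⁻¹ • z) '' {z : Pl | |R * z.1 - p.1| ≤ r ∧ |R * z.2 - p.2| ≤ r} := by
    ext z
    constructor
    · intro hz
      exact ⟨γ • z, hz, inv_smul_smul γ z⟩
    · rintro ⟨w, hw, rfl⟩
      simp only [Set.mem_setOf_eq, smul_inv_smul]
      exact hw
  rw [h1]
  exact (E4_square hR p r).image (hX.smooth γ⁻¹).continuous

theorem E4_meas (h : Cx Γ D m ψ L c) {n : ℕ} (g : Γ) (f : Fin n → Γ) {R : ℕ} (hR : 1 ≤ R)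
    (p : ℤ × ℤ) : MeasurableSet {ξ : Dir → I | Gd Γ m ψ L c g f R p ξ} := by
  have : Countable Γ := E4_countable h.hX
  have h1 : {ξ : Dir → I | Gd Γ m ψ L c g f R p ξ} =
      {ξ : Dir → I | ∀ z, curv (mx Γ m ψ L c ξ) z < 0} ∩
      ({ξ : Dir → I | ∃ z ∈ {z : Pl | |R * z.1 - p.1| ≤ 1 / 2 ∧ |R * z.2 - p.2| ≤ 1 / 2},
        ds (mx Γ m ψ L c ξ) z (g • z) = tl (mx Γ m ψ L c ξ) g} ∩
      ⋂ (i : Fin n) (γ : Γ), {ξ : Dir → I | ∃ z ∈ {z : Pl | |R * (γ • z).1 - p.1| ≤ 2 ∧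
        |R * (γ • z).2 - p.2| ≤ 2},
        ds (mx Γ m ψ L c ξ) z (f i • z) = tl (mx Γ m ψ L c ξ) (f i)}ᶜ) := by
    ext ξ
    constructor
    · rintro ⟨h1, ⟨z, hz1, hz2, hz3⟩, h3⟩
      refine ⟨h1, ⟨z, ⟨hz1, hz2⟩, hz3⟩, ?_⟩
      refine Set.mem_iInter.2 fun i => Set.mem_iInter.2 fun γ => ?_
      rintro ⟨w, hw1, hw2⟩
      exact h3 i w hw2 γ hw1
    · rintro ⟨h1, ⟨z, ⟨hz1, hz2⟩, hz3⟩, h3⟩
      refine ⟨h1, ⟨z, hz1, hz2, hz3⟩, ?_⟩
      intro i w hw γ hγ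
      exact Set.mem_iInter.1 (Set.mem_iInter.1 h3 i) γ ⟨w, hγ, hw⟩
  rw [h1]
  refine (E1_neg h).inter ((E4_closed h g (E4_square hR p _)).measurableSet.inter ?_)
  exact MeasurableSet.iInter fun i => MeasurableSet.iInter fun γ =>
    (E4_closed h (f i) (E4_translate h.hX hR p _ γ)).measurableSet.compl

end BGM
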