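import Pool.Agent.LibBGM20.E2l
import Pool.Agent.LibBGM20.D3
import Pool.Agent.LibBGM20.D4
import Pool.Agent.LibBGM20.B3u

/-! ROW E5 : the lengths of the other geodesics do not depend on the coordinate. Uses A4, A6, B2, B2x, D1, D2, E2l, Q1, Q3.
Notation: `ξ s = upI ξ (R, p) s`, `m_s = mx (ξ s)`. By `ps_up`, `ex (ξ s') - ex (ξ s) =
c R (s' - s) per (bmq (R + 1) p)`, which is `≥ 0` for `s ≤ s'` (`per_bmq_nonneg`).
PLAN of `E5_same`. `≥`: `D1_tl` with `ε = 0` (`m_s ≤ m_s'`). `≤`: by the first clause of `Gd` and `E2_had`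
there is an axis `e` of `f i` for `m_s` (`B2_min'`, `B2_axis`), smooth of unit speed (`A6_smooth`); all its
points have minimal displacement (`B2_pts`), so by the third clause of `Gd` no translate of `e t` is in
the square of half side `2 / (R + 1)`, so `per (bmq (R + 1) p) (e t) = 0` (`per_bmq_zero`), so
`m_s' (e t) = m_s (e t)` and `tl m_s' (f i) ≤ ds m_s' (e 0) (e ℓ) ≤ len m_s' e 0 ℓ = len m_s e 0 ℓ = ℓ`,
`ℓ = tl m_s (f i)`. -/

open MeasureTheory Set Filter Topology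
open scoped ContDiff unitInterval

namespace BGM

open BGS
open Pool.BGR (PM upI pj)

variable {Γ : Type} [Group Γ] [MulAction Γ Pl] {D : Set Pl} {m : Pl → Co} {ψ : Pl → ℝ} {L : ℕ}
  {c : ℕ → ℝ}

/-- The exponent increases with the coordinate. -/
theorem E5_ex (h : Cx Γ D m ψ L c) (ξ : Dir → I) {R : ℕ} {p : ℤ × ℤ} (hp : p ∈ grid L (R + 1))
    (s s' : I) (z : Pl) : ex Γ ψ L c (upI ξ (R, p) s') z = ex Γ ψ L c (upI ξ (R, p) s) z +
      c R * ((s' : ℝ) - s) * per Γ (bmq (R + 1) p) z := by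
  unfold ex
  rw [ps_up h.hX L h.cs ξ R hp s' z, ps_up h.hX L h.cs ξ R hp s z]
  ring

/-- The lengths of the other geodesics do not change. -/
theorem E5_same (h : Cx Γ D m ψ L c) (ξ : Dir → I) {R : ℕ} {p : ℤ × ℤ}
    (hp : p ∈ grid L (R + 1)) {s s' : I} (hs : s ≤ s') {n : ℕ} {g : Γ} {f : Fin n → Γ}
    (hG : Gd Γ m ψ L c g f (R + 1) p (upI ξ (R, p) s)) (i : Fin n) (hf : f i ≠ 1) :
    tl (mx Γ m ψ L c (upI ξ (R, p) s')) (f i) = tl (mx Γ m ψ L c (upI ξ (R, p) s)) (f i) := by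
  have hss : (s : ℝ) ≤ s' := hs
  refine le_antisymm ?_ ?_
  · obtain ⟨k, -, hh⟩ := E2_had h
    obtain ⟨E, V, F, hHad⟩ := hh (upI ξ (R, p) s) hG.1
    have hi := D2_iv h (upI ξ (R, p) s)
    obtain ⟨z, hz⟩ := B2_min' h.hX hi hHad (f i)
    obtain ⟨e, he, -⟩ := B2_axis h.hX hi hHad hf hz
    obtain ⟨hsm, hun⟩ := A6_smooth hHad he.1
    set l := tl (mx Γ m ψ L c (upI ξ (R, p) s)) (f i) with hl
    have hl0 : 0 ≤ l := tl_nonneg _ _
    have hmx : ∀ t, mx Γ m ψ L c (upI ξ (R, p) s') (e t) =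
        mx Γ m ψ L c (upI ξ (R, p) s) (e t) := by
      intro t
      have h0 : per Γ (bmq (R + 1) p) (e t) = 0 := by
        refine per_bmq_zero fun γ hγ => ?_
        exact hG.2.2 i (e t) (B2_pts he t) γ ⟨hγ.1.le, hγ.2.le⟩
      unfold mx cf
      rw [E5_ex h ξ hp s s' (e t), h0, mul_zero, add_zero]
    have h1 : e l = f i • e 0 := by
      have h2 := he.2 0
      rwa [zero_add] at h2
    calc tl (mx Γ m ψ L c (upI ξ (R, p) s')) (f i)
        ≤ ds (mx Γ m ψ L c (upI ξ (R, p) s')) (e 0) (f i • e 0) := tl_le _ _ _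
      _ = ds (mx Γ m ψ L c (upI ξ (R, p) s')) (e 0) (e l) := by rw [h1]
      _ ≤ len (mx Γ m ψ L c (upI ξ (R, p) s')) e 0 l :=
          ds_le (D2_rp h _) (hsm.of_le (by exact_mod_cast le_top)) hl0
      _ = ∫ _t in (0 : ℝ)..l, (1 : ℝ) := by
          unfold len
          refine intervalIntegral.integral_congr fun t _ => ?_
          simp only [hmx t, hun t]
      _ = l := by simp
  · have h1 := D1_tl (m := m) h.rp (D2_smooth h (upI ξ (R, p) s)).1
      (D2_smooth h (upI ξ (R, p) s')).1 (ε := 0) (fun z => by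
        rw [E5_ex h ξ hp s s' z, add_zero]
        have h2 := per_bmq_nonneg (Γ := Γ) (R + 1) p z
        have h3 := h.cs.pos R
        have h4 : 0 ≤ c R * ((s' : ℝ) - s) * per Γ (bmq (R + 1) p) z :=
          mul_nonneg (mul_nonneg h3.le (by linarith)) h2
        linarith) (f i)
    rw [zero_div, Real.exp_zero, one_mul] at h1
    exact h1

end BGM
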