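import Pool.Agent.LibBGM20.E5

/-! ROW E6 : the length of the geodesic through the square increases. Uses A4, A6, B2, B2x, D1, D2, D3, D4, E2l,
E5 (`E5_ex`), Q1, Q3.
Notation: `ξ s = upI ξ (R, p) s`, `m_s = mx (ξ s)`.
PLAN of `E6_gain`. Let `z` be the point of the second clause of `Gd` at `s'`, `e` the axis of `g` for `m_s'`
through `z` (`E2_had`, `B2_axis`), of unit speed for `m_s'`, `ℓ = tl m_s' g ≥ r` (`D2_unif`).
`‖z‖ ≤ L + 1`. By `D2_stay`: for `0 ≤ t ≤ t₁ = 1 / (2 C (R + 1))`, `‖e t - z‖ ≤ 1 / (2 (R + 1))`, so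
`bmq (R + 1) p (e t) = 1` (`bmq_one`) and `per ≥ 1` (`per_bmq_ge`). `tl m_s g ≤ len m_s e 0 ℓ`,
`nm (m_s (e t)) (e' t) = exp (-(c R (s' - s) per)/2)`, so
`tl m_s' g - tl m_s g ≥ ∫_0^ℓ (1 - exp (-(c R (s'-s) per (e t))/2)) dt ≥ t₁' (1 - exp (-y/2)) ≥ t₁' y / 4`,
`y = c R (s' - s) ≤ 1`, `t₁' = min t₁ r ≥ min (1/(2C)) r / (R + 1)`. -/

open MeasureTheory Set Filter Topology
open scoped ContDiff unitInterval

namespace BGM

open BGS
open Pool.BGR (PM upI pj)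

variable {Γ : Type} [Group Γ] [MulAction Γ Pl] {D : Set Pl} {m : Pl → Co} {ψ : Pl → ℝ} {L : ℕ}
  {c : ℕ → ℝ}

/-- The speed of a curve for the other metric. -/
private theorem E6_speed (h : Cx Γ D m ψ L c) (ξ : Dir → I) {R : ℕ} {p : ℤ × ℤ}
    (hp : p ∈ grid L (R + 1)) (s s' : I) {e : ℝ → Pl} {t : ℝ}
    (he : nm (mx Γ m ψ L c (upI ξ (R, p) s') (e t)) (deriv e t) = 1) :
    nm (mx Γ m ψ L c (upI ξ (R, p) s) (e t)) (deriv e t) =
      Real.exp (-(c R * ((s' : ℝ) - s) * per Γ (bmq (R + 1) p) (e t)) / 2) := by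
  have h1 := E5_ex h ξ hp s s' (e t)
  unfold mx at he ⊢
  rw [D1_nm] at he ⊢
  rw [h1] at he
  have h2 : Real.exp (ex Γ ψ L c (upI ξ (R, p) s) (e t) / 2) =
      Real.exp (-(c R * ((s' : ℝ) - s) * per Γ (bmq (R + 1) p) (e t)) / 2) *
      Real.exp ((ex Γ ψ L c (upI ξ (R, p) s) (e t) +
        c R * ((s' : ℝ) - s) * per Γ (bmq (R + 1) p) (e t)) / 2) := by
    rw [← Real.exp_add]
    congr 1
    ring
  rw [h2, mul_assoc, he, mul_one]

/-- The centre of the square is not far. -/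
private theorem E6_norm {R : ℕ} {p : ℤ × ℤ} (hp : p ∈ grid L (R + 1)) {z : Pl}
    (h1 : |((R + 1 : ℕ) : ℝ) * z.1 - p.1| ≤ 1 / 2) (h2 : |((R + 1 : ℕ) : ℝ) * z.2 - p.2| ≤ 1 / 2) :
    ‖z‖ ≤ L + 1 := by
  have hR : (1 : ℝ) ≤ ((R + 1 : ℕ) : ℝ) := by
    push_cast
    have : (0 : ℝ) ≤ R := Nat.cast_nonneg R
    linarith
  have key : ∀ (x : ℝ) (q : ℤ), -((L * (R + 1 : ℕ) : ℤ)) ≤ q → q < (L * (R + 1 : ℕ) : ℤ) →
      |((R + 1 : ℕ) : ℝ) * x - q| ≤ 1 / 2 → |x| ≤ L + 1 := by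
    intro x q hq1 hq2 hx
    have hq1' : -((L : ℝ) * ((R + 1 : ℕ) : ℝ)) ≤ (q : ℝ) := by exact_mod_cast hq1
    have hq2' : (q : ℝ) < (L : ℝ) * ((R + 1 : ℕ) : ℝ) := by exact_mod_cast hq2
    have hx1 := (abs_le.1 hx).1
    have hx2 := (abs_le.1 hx).2
    have hpos : (0 : ℝ) < ((R + 1 : ℕ) : ℝ) := by linarith
    rw [abs_le]
    constructor
    · by_contra hcon
      push Not at hcon
      have h3 := mul_lt_mul_of_pos_left hcon hpos
      nlinarith
    · by_contra hcon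
      push Not at hcon
      have h3 := mul_lt_mul_of_pos_left hcon hpos
      nlinarith
  have hp' := hp
  unfold grid at hp'
  rw [Finset.mem_product, Finset.mem_Ico, Finset.mem_Ico] at hp'
  obtain ⟨⟨ha, hb⟩, hc, hd⟩ := hp'
  rw [Prod.norm_def, max_le_iff, Real.norm_eq_abs, Real.norm_eq_abs]
  exact ⟨key _ _ ha hb h1, key _ _ hc hd h2⟩

/-- The elementary inequality. -/
private theorem E6_exp {y : ℝ} (h0 : 0 ≤ y) (h1 : y ≤ 1) : y / 4 ≤ 1 - Real.exp (-y / 2) := by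
  have h2 : |(-y / 2)| ≤ 1 := by
    rw [abs_le]
    constructor <;> linarith
  have h3 := Real.abs_exp_sub_one_sub_id_le h2
  have h4 := (abs_le.1 h3).2
  nlinarith

/-- The length of the geodesic through the square increases at a definite rate. -/
theorem E6_gain (h : Cx Γ D m ψ L c) : ∃ κ : ℝ, 0 < κ ∧ ∀ (ξ : Dir → I) (R : ℕ) (p : ℤ × ℤ),
    p ∈ grid L (R + 1) → ∀ s s' : I, s ≤ s' → ∀ (n : ℕ) (g : Γ) (f : Fin n → Γ), g ≠ 1 →
    Gd Γ m ψ L c g f (R + 1) p (upI ξ (R, p) s') →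
    κ * c R / (R + 1) * ((s' : ℝ) - s) ≤
      tl (mx Γ m ψ L c (upI ξ (R, p) s')) g - tl (mx Γ m ψ L c (upI ξ (R, p) s)) g := by
  obtain ⟨r, -, -, hr, -, hrad, -, -⟩ := D2_unif h
  obtain ⟨C, hC, hstay⟩ := D2_stay h
  obtain ⟨k, hk, hhad⟩ := E2_had h
  have hCpos : 0 < C := by linarith
  refine ⟨min (1 / (2 * C)) r / 4, by positivity, ?_⟩
  intro ξ R p hp s s' hs n g f hg hG
  obtain ⟨hcurv, ⟨z, hz1, hz2, hz⟩, -⟩ := hG
  obtain ⟨E, V, F, hH⟩ := hhad _ hcurv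
  obtain ⟨e, he, he0⟩ := B2_axis h.hX (D2_iv h _) hH hg hz
  obtain ⟨hsm, hsp⟩ := A6_smooth hH he.1
  have hsm1 : ContDiff ℝ 1 e := hsm.of_le (by exact_mod_cast le_top)
  set ℓ : ℝ := tl (mx Γ m ψ L c (upI ξ (R, p) s')) g with hℓ
  have hℓr : r ≤ ℓ := by
    rw [← hz]
    exact hrad _ g hg z
  have hℓ0 : 0 ≤ ℓ := hr.le.trans hℓr
  have hRn : (0 : ℝ) ≤ R := Nat.cast_nonneg R
  have hR1 : (0 : ℝ) < (R : ℝ) + 1 := by linarith
  have hss : (0 : ℝ) ≤ (s' : ℝ) - s := sub_nonneg.2 hs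
  have hss1 : (s' : ℝ) - s ≤ 1 := by
    have := s'.2.2
    have := s.2.1
    linarith
  set y : ℝ := c R * ((s' : ℝ) - s) with hy
  have hcR := h.cs.pos R
  have hcR1 := h.cs.le_one R
  have hy0 : 0 ≤ y := mul_nonneg hcR.le hss
  have hy1 : y ≤ 1 := by
    rw [hy]
    exact mul_le_one₀ hcR1 hss hss1
  -- the time spent in the square
  set τ : ℝ := min (1 / (2 * C * (R + 1))) r with hτ
  have hτ0 : 0 < τ := by positivity
  have hτℓ : τ ≤ ℓ := (min_le_right _ _).trans hℓr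
  have hτ1 : min (1 / (2 * C)) r / (R + 1) ≤ τ := by
    rw [hτ, le_min_iff]
    constructor
    · rw [div_le_iff₀ hR1]
      refine (min_le_left _ _).trans (le_of_eq ?_)
      field_simp
    · rw [div_le_iff₀ hR1]
      refine (min_le_right _ _).trans ?_
      nlinarith
  have hin : ∀ t ∈ Icc (0 : ℝ) τ, 1 ≤ per Γ (bmq (R + 1) p) (e t) := by
    intro t ht
    have ht1 : t ≤ 1 / (2 * C * (R + 1)) := ht.2.trans (min_le_left _ _)
    have ht2 : t ≤ 1 / C := by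
      refine ht1.trans ?_
      apply one_div_le_one_div_of_le hCpos
      nlinarith
    have h1 := hstay _ e hsm1 hsp (by rw [he0]; exact E6_norm hp hz1 hz2) t ht.1 ht2
    have h2 : C * t ≤ 1 / (2 * (R + 1)) := by
      have h3 := mul_le_mul_of_nonneg_left ht1 hCpos.le
      refine h3.trans (le_of_eq ?_)
      field_simp
    have h3 : ‖e t - z‖ ≤ 1 / (2 * (R + 1)) := by
      rw [← he0]
      exact h1.trans h2
    have h4 : ∀ x w : ℝ, |x - w| ≤ 1 / (2 * ((R : ℝ) + 1)) → ∀ q : ℤ,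
        |((R + 1 : ℕ) : ℝ) * w - q| ≤ 1 / 2 → |((R + 1 : ℕ) : ℝ) * x - q| ≤ 1 := by
      intro x w hxw q hq
      have h5 : |((R + 1 : ℕ) : ℝ) * (x - w)| ≤ 1 / 2 := by
        rw [abs_mul, abs_of_nonneg (Nat.cast_nonneg _)]
        push_cast
        calc ((R : ℝ) + 1) * |x - w| ≤ ((R : ℝ) + 1) * (1 / (2 * ((R : ℝ) + 1))) :=
              mul_le_mul_of_nonneg_left hxw hR1.le
          _ = 1 / 2 := by field_simp
      have h6 : ((R + 1 : ℕ) : ℝ) * x - q =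
          ((R + 1 : ℕ) : ℝ) * (x - w) + (((R + 1 : ℕ) : ℝ) * w - q) := by ring
      rw [h6]
      refine (abs_add_le _ _).trans ?_
      linarith
    have h7 : |(e t).1 - z.1| ≤ 1 / (2 * ((R : ℝ) + 1)) := by
      rw [← Real.norm_eq_abs]
      exact (norm_fst_le (e t - z)).trans h3
    have h8 : |(e t).2 - z.2| ≤ 1 / (2 * ((R : ℝ) + 1)) := by
      rw [← Real.norm_eq_abs]
      exact (norm_snd_le (e t - z)).trans h3
    have h9 := bmq_one (R := R + 1) (p := p) (h4 _ _ h7 _ hz1) (h4 _ _ h8 _ hz2)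
    rw [← h9]
    exact per_bmq_ge h.hX (Nat.le_add_left 1 R) p (e t)
  -- the length for the other metric
  set ms : Pl → Co := mx Γ m ψ L c (upI ξ (R, p) s) with hms
  have hrp : Rp ms := D2_rp h _
  have hcont := A4_cont hrp hsm1
  have h1 : tl ms g ≤ len ms e 0 ℓ := by
    have h2 := ds_le hrp hsm1 hℓ0
    have h3 : e ℓ = g • e 0 := by
      have h4 := he.2 0
      rw [zero_add] at h4
      exact h4
    rw [h3] at h2
    exact (tl_le ms g (e 0)).trans h2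
  have h2 : len ms e 0 τ ≤ τ * Real.exp (-y / 2) := by
    unfold len
    have h3 : ∫ _t in (0 : ℝ)..τ, Real.exp (-y / 2) = τ * Real.exp (-y / 2) := by
      rw [intervalIntegral.integral_const, smul_eq_mul, sub_zero]
    rw [← h3]
    refine intervalIntegral.integral_mono_on hτ0.le (hcont.intervalIntegrable _ _)
      intervalIntegrable_const fun t ht => ?_
    rw [hms, E6_speed h ξ hp s s' (hsp t)]
    apply Real.exp_le_exp.2
    have h4 := hin t ht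
    have h5 : y * 1 ≤ y * per Γ (bmq (R + 1) p) (e t) := mul_le_mul_of_nonneg_left h4 hy0
    rw [← hy]
    linarith
  have h3 : len ms e τ ℓ ≤ ℓ - τ := by
    unfold len
    have h4 : ∫ _t in τ..ℓ, (1 : ℝ) = ℓ - τ := by
      rw [intervalIntegral.integral_const, smul_eq_mul, mul_one]
    rw [← h4]
    refine intervalIntegral.integral_mono_on hτℓ (hcont.intervalIntegrable _ _)
      intervalIntegrable_const fun t _ => ?_
    rw [hms, E6_speed h ξ hp s s' (hsp t), ← Real.exp_zero]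
    apply Real.exp_le_exp.2
    have h5 : 0 ≤ y * per Γ (bmq (R + 1) p) (e t) :=
      mul_nonneg hy0 (per_bmq_nonneg _ _ _)
    rw [← hy]
    linarith
  have h4 := len_add hrp hsm1 0 τ ℓ
  have h5 := E6_exp hy0 hy1
  have h6 : τ * (y / 4) ≤ τ * (1 - Real.exp (-y / 2)) := mul_le_mul_of_nonneg_left h5 hτ0.le
  have h7 : min (1 / (2 * C)) r / 4 * c R / (R + 1) * ((s' : ℝ) - s) =
      min (1 / (2 * C)) r / (R + 1) * (y / 4) := by
    rw [hy]
    ring
  rw [h7]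
  have h8 : min (1 / (2 * C)) r / (R + 1) * (y / 4) ≤ τ * (y / 4) :=
    mul_le_mul_of_nonneg_right hτ1 (by linarith)
  linarith

end BGM
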