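import Pool.Agent.LibBGM20.E4
import Pool.Agent.LibBGM20.E6

/-! ROW E7 : the measure of the event that a combination of lengths is small. Uses E3, E4, E5, E6,
LibBGR.Prod.
PLAN. Let `A` be the set, measurable by `E4_meas` and `E3_tl`. By the lemma of LibBGR.Prod
(`PM κ A ≤ c` if every slice `{s | upI ξ i s ∈ A}` has measure `≤ c`) consider a slice, `i = (R, p)`. For
`s ≤ s'` in the slice, `F (s') - F (s) = a₀ (tl_s' g - tl_s g)` by `E5_same`, so
`κ₀ c R / (R + 1) (s' - s) ≤ |F s' - F s| ≤ 2 ε` by `E6_gain` (`|a₀| ≥ 1`). So the slice has diameter at most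
`d = 2 ε (R + 1) / (κ₀ c R)`: it is contained in an interval of length `d` (its infimum and supremum), so
its measure in `I` is at most `d`. Take `κ = κ₀ / 2`. -/

open MeasureTheory Set Filter Topology
open scoped ContDiff unitInterval

namespace BGM

open BGS
open Pool.BGR (PM upI pj)

variable {Γ : Type} [Group Γ] [MulAction Γ Pl] {D : Set Pl} {m : Pl → Co} {ψ : Pl → ℝ} {L : ℕ}
  {c : ℕ → ℝ}

/-- A subset of the unit interval whose points are at mutual distance at most `d`. -/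
theorem E7_diam {A : Set I} {d : ℝ} (hd : 0 ≤ d)
    (h : ∀ s ∈ A, ∀ s' ∈ A, s ≤ s' → (s' : ℝ) - s ≤ d) :
    (volume : Measure I) A ≤ ENNReal.ofReal d := by
  rcases A.eq_empty_or_nonempty with rfl | hne
  · rw [measure_empty]
    exact zero_le
  · set B : Set ℝ := (fun s : I => (s : ℝ)) '' A with hB
    have hBne : B.Nonempty := hne.image _
    have hBb : BddBelow B := ⟨0, by
      rintro _ ⟨s, -, rfl⟩
      exact s.2.1⟩
    have hsub : B ⊆ Icc (sInf B) (sInf B + d) := by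
      rintro _ ⟨s, hs, rfl⟩
      refine ⟨csInf_le hBb ⟨s, hs, rfl⟩, ?_⟩
      have h1 : (s : ℝ) - d ≤ sInf B := by
        refine le_csInf hBne ?_
        rintro _ ⟨s', hs', rfl⟩
        show (s : ℝ) - d ≤ (s' : ℝ)
        rcases le_total s' s with hle | hle
        · have := h s' hs' s hs hle
          linarith
        · have h2 : (s : ℝ) ≤ s' := hle
          linarith
      show (s : ℝ) ≤ sInf B + d
      linarith
    rw [unitInterval.volume_apply]
    refine (measure_mono hsub).trans (le_of_eq ?_)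
    rw [Real.volume_Icc]
    congr 1
    ring

theorem E7_slice (h : Cx Γ D m ψ L c) : ∃ κ : ℝ, 0 < κ ∧ ∀ (R : ℕ) (p : ℤ × ℤ),
    p ∈ grid L (R + 1) → ∀ (n : ℕ) (g : Γ) (f : Fin n → Γ), g ≠ 1 → (∀ i, f i ≠ 1) →
    ∀ (a₀ : ℤ) (a : Fin n → ℤ), a₀ ≠ 0 → ∀ ε : ℝ, 0 ≤ ε →
    PM Dir {ξ : Dir → I | Gd Γ m ψ L c g f (R + 1) p ξ ∧
      |a₀ * tl (mx Γ m ψ L c ξ) g + ∑ i, a i * tl (mx Γ m ψ L c ξ) (f i)| ≤ ε} ≤
      ENNReal.ofReal (ε * (R + 1) / (κ * c R)) := by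
  obtain ⟨κ, hκ, hgain⟩ := E6_gain h
  refine ⟨κ / 2, by positivity, ?_⟩
  intro R p hp n g f hg hf a₀ a ha₀ ε hε
  have hRn : (0 : ℝ) ≤ R := Nat.cast_nonneg R
  have hR1 : (0 : ℝ) < (R : ℝ) + 1 := by linarith
  have hcR := h.cs.pos R
  set F : (Dir → I) → ℝ := fun ξ =>
    a₀ * tl (mx Γ m ψ L c ξ) g + ∑ i, a i * tl (mx Γ m ψ L c ξ) (f i) with hF
  have hFc : Continuous F := by
    rw [hF]
    exact (continuous_const.mul (E3_tl h g)).add
      (continuous_finsetSum _ fun i _ => continuous_const.mul (E3_tl h (f i)))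
  have hmeas : MeasurableSet {ξ : Dir → I | Gd Γ m ψ L c g f (R + 1) p ξ ∧ |F ξ| ≤ ε} := by
    have h1 : {ξ : Dir → I | Gd Γ m ψ L c g f (R + 1) p ξ ∧ |F ξ| ≤ ε} =
        {ξ : Dir → I | Gd Γ m ψ L c g f (R + 1) p ξ} ∩ {ξ : Dir → I | |F ξ| ≤ ε} := by
      ext ξ
      simp only [mem_ofPred_eq, mem_inter_iff]
    rw [h1]
    exact (E4_meas h g f (Nat.le_add_left 1 R) p).inter
      (measurableSet_le hFc.abs.measurable measurable_const)
  have hd : 0 ≤ ε * (R + 1) / (κ / 2 * c R) := by positivity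
  refine Pool.BGR.slice_le hmeas (R, p) (Real.toNNReal (ε * (R + 1) / (κ / 2 * c R))) ?_
  intro ξ
  refine E7_diam hd ?_
  rintro s ⟨hs1, hs2⟩ s' ⟨hs1', hs2'⟩ hle
  have h1 := hgain ξ R p hp s s' hle n g f hg hs1'
  have h2 : F (upI ξ (R, p) s') - F (upI ξ (R, p) s) =
      a₀ * (tl (mx Γ m ψ L c (upI ξ (R, p) s')) g - tl (mx Γ m ψ L c (upI ξ (R, p) s)) g) := by
    have h3 : ∑ i, a i * tl (mx Γ m ψ L c (upI ξ (R, p) s')) (f i) =
        ∑ i, a i * tl (mx Γ m ψ L c (upI ξ (R, p) s)) (f i) :=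
      Finset.sum_congr rfl fun i _ => by rw [E5_same h ξ hp hle hs1 i (hf i)]
    show (a₀ * tl (mx Γ m ψ L c (upI ξ (R, p) s')) g +
        ∑ i, a i * tl (mx Γ m ψ L c (upI ξ (R, p) s')) (f i)) -
      (a₀ * tl (mx Γ m ψ L c (upI ξ (R, p) s)) g +
        ∑ i, a i * tl (mx Γ m ψ L c (upI ξ (R, p) s)) (f i)) = _
    rw [h3]
    ring
  have h3 : |F (upI ξ (R, p) s') - F (upI ξ (R, p) s)| ≤ 2 * ε := by
    refine (abs_sub _ _).trans ?_
    linarith
  have h4 : (1 : ℝ) ≤ |(a₀ : ℝ)| := by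
    rw [← Int.cast_abs]
    exact_mod_cast Int.one_le_abs ha₀
  rw [h2, abs_mul] at h3
  set G : ℝ := tl (mx Γ m ψ L c (upI ξ (R, p) s')) g - tl (mx Γ m ψ L c (upI ξ (R, p) s)) g with hG
  have h5 : G ≤ 2 * ε := by
    have h6 : 1 * |G| ≤ |(a₀ : ℝ)| * |G| := mul_le_mul_of_nonneg_right h4 (abs_nonneg _)
    have h7 := le_abs_self G
    linarith
  have h6 : κ * c R / (R + 1) * ((s' : ℝ) - s) ≤ 2 * ε := h1.trans h5
  rw [le_div_iff₀ (by positivity)]
  have h7 : κ * c R / (R + 1) * ((s' : ℝ) - s) * (R + 1) ≤ 2 * ε * (R + 1) :=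
    mul_le_mul_of_nonneg_right h6 hR1.le
  have h8 : κ * c R / (R + 1) * ((s' : ℝ) - s) * (R + 1) = κ * c R * ((s' : ℝ) - s) := by
    field_simp
  rw [h8] at h7
  nlinarith

end BGM
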