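import Pool.Agent.LibBGM20.E2l
import Pool.Agent.LibBGM20.D3
import Pool.Agent.LibBGM20.D4
import Pool.Agent.LibBGM20.C2

/-! ROW E8 : for every family of classes there is a good square. Uses A2, A4, B1, B2, B2x, C2, D2, D3, D4, E2l.
PLAN. `k` from `E2_had`, `r, N` from `D2_unif`, `C₁` from `D2_loc`. `M = n N (T + 1) + 1`,
`S = sinh (k (2 T + 2)) / k`, `δ = min (1/(4 M)) (r / (29 S M)) ` (so `δ ≤ 1`, `2 δ M < 1`, `28 δ S M < r`, `δ > 0`).
`c` = an axis of `g` for `mx ξ` (`E2_had`, `B2_min'`, `B2_axis`; `B4_ne`). `C2_sep` gives `t ∈ [0, 1]`. Choose `γ` with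
`γ • c t ∈ D`, `z₀ = γ • c t`; `z₀` has minimal displacement for `γ g γ⁻¹` (`B2_pts`, `B2_conj`). `p` = nearest
integers of `(R + 1) z₀` (`round`), in the grid by `Cx.dom`. Third clause of `Gd`: if `z` has minimal displacement
for `f i` and `|(R + 1) (γ' z) - p| ≤ 2` then `‖γ' z - z₀‖ ≤ 5 / (2 (R + 1)) ≤ 3`, so
`ds z₀ (γ' z) ≤ 5 C₁ / (2 (R + 1)) < δ`, but `ds z₀ (γ' z) = ds (c t) ((γ⁻¹ γ') z) ≥ δ`: contradiction.
The condition is `R + 1 > 5 C₁ / (2 δ)`, and `1 / δ ≤ (n + 1) exp (C T)` for a suitable `C`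
(`T + 2 ≤ exp (T + 1)`, `sinh y ≤ exp y`, `T ≥ 1`). -/

open MeasureTheory Set Filter Topology
open scoped ContDiff unitInterval

namespace BGM

open BGS
open Pool.BGR (PM upI pj)

variable {Γ : Type} [Group Γ] [MulAction Γ Pl] {D : Set Pl} {m : Pl → Co} {ψ : Pl → ℝ} {L : ℕ}
  {c : ℕ → ℝ}

private theorem E8_move (hX : Surface Γ D) {μ : Pl → Co} (hi : Iv Γ μ) (g γ : Γ) (z : Pl) :
    ds μ (γ • z) ((γ * g * γ⁻¹) • (γ • z)) = ds μ z (g • z) := by
  have e : (γ * g * γ⁻¹) • (γ • z) = γ • (g • z) := by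
    rw [mul_smul, mul_smul, inv_smul_smul]
  rw [e, B1_ds hX hi]

private theorem E8_grid {L R : ℕ} {x : ℝ} (hx : |x| ≤ (L : ℝ) - 1) :
    -((L : ℤ) * ((R + 1 : ℕ) : ℤ)) ≤ round (((R + 1 : ℕ) : ℝ) * x) ∧
      round (((R + 1 : ℕ) : ℝ) * x) < (L : ℤ) * ((R + 1 : ℕ) : ℤ) := by
  have h1 := abs_le.1 (abs_sub_round (((R + 1 : ℕ) : ℝ) * x))
  have h2 := abs_le.1 hx
  have hR : (1 : ℝ) ≤ ((R + 1 : ℕ) : ℝ) := by
    exact_mod_cast Nat.succ_le_succ (Nat.zero_le R)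
  have h3 : ((R + 1 : ℕ) : ℝ) * x ≤ ((R + 1 : ℕ) : ℝ) * ((L : ℝ) - 1) :=
    mul_le_mul_of_nonneg_left h2.2 (by linarith)
  have h4 : ((R + 1 : ℕ) : ℝ) * (-((L : ℝ) - 1)) ≤ ((R + 1 : ℕ) : ℝ) * x :=
    mul_le_mul_of_nonneg_left h2.1 (by linarith)
  constructor
  · have : (-((L : ℝ) * ((R + 1 : ℕ) : ℝ)) : ℝ) ≤ (round (((R + 1 : ℕ) : ℝ) * x) : ℝ) := by
      nlinarith
    exact_mod_cast this
  · have : (round (((R + 1 : ℕ) : ℝ) * x) : ℝ) < (L : ℝ) * ((R + 1 : ℕ) : ℝ) := by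
      nlinarith
    exact_mod_cast this

/-- The choice of the radius. -/
private theorem E8_const {k r C₁ : ℝ} {N : ℕ} (hk : 0 < k) (hr : 0 < r) (hC₁ : 1 ≤ C₁) :
    ∃ C : ℝ, 0 < C ∧ ∀ T n : ℕ, 1 ≤ T → ∃ δ : ℝ, 0 < δ ∧ δ ≤ 1 ∧
      2 * δ * (n * N * (T + 1) + 1 : ℝ) < 1 ∧
      28 * δ * (Real.sinh (k * (2 * T + 2)) / k) * (n * N * (T + 1) + 1 : ℝ) < r ∧
      5 * C₁ / 2 ≤ δ * ((n + 1) * Real.exp (C * T)) := by
  set A : ℝ := (N + 1) * (4 + 29 / (k * r)) with hA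
  have hA0 : 0 < A := by positivity
  set A' : ℝ := 5 * C₁ / 2 * A with hA'
  have hA'0 : 0 < A' := by positivity
  refine ⟨A' + (1 + 4 * k), by positivity, fun T n hT => ?_⟩
  have hT1 : (1 : ℝ) ≤ T := by exact_mod_cast hT
  have hT0 : (0 : ℝ) ≤ T := by linarith
  set M : ℝ := (n * N * (T + 1) + 1 : ℝ) with hM
  have hM1 : 1 ≤ M := by
    have : (0 : ℝ) ≤ n * N * (T + 1) := by positivity
    linarith
  set S : ℝ := Real.sinh (k * (2 * T + 2)) / k with hS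
  have hS0 : 0 < S := div_pos (Real.sinh_pos_iff.2 (by positivity)) hk
  have hM0 : 0 < M := by linarith
  refine ⟨min (1 / (4 * M)) (r / (29 * S * M)), lt_min (by positivity) (by positivity), ?_, ?_, ?_,
    ?_⟩
  · refine (min_le_left _ _).trans ?_
    rw [div_le_one (by positivity)]
    linarith
  · have h1 := mul_le_mul_of_nonneg_right (min_le_left (1 / (4 * M)) (r / (29 * S * M))) hM0.le
    have h2 : 1 / (4 * M) * M = 1 / 4 := by field_simp
    rw [h2] at h1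
    calc 2 * min (1 / (4 * M)) (r / (29 * S * M)) * M
        = 2 * (min (1 / (4 * M)) (r / (29 * S * M)) * M) := by ring
      _ ≤ 2 * (1 / 4) := mul_le_mul_of_nonneg_left h1 (by norm_num)
      _ < 1 := by norm_num
  · have h1 := mul_le_mul_of_nonneg_right (min_le_right (1 / (4 * M)) (r / (29 * S * M)))
      (by positivity : 0 ≤ 28 * S * M)
    have h2 : r / (29 * S * M) * (28 * S * M) = 28 / 29 * r := by field_simp
    rw [h2] at h1
    calc 28 * min (1 / (4 * M)) (r / (29 * S * M)) * S * M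
        = min (1 / (4 * M)) (r / (29 * S * M)) * (28 * S * M) := by ring
      _ ≤ 28 / 29 * r := h1
      _ < r := by linarith
  · -- the lower bound of `δ`
    have hMle : M ≤ (n + 1) * ((N + 1) * Real.exp T) := by
      have h1 : (T : ℝ) + 1 ≤ Real.exp T := Real.add_one_le_exp _
      have h2 : (n * N * (T + 1) + 1 : ℝ) ≤ (n + 1) * (N + 1) * (T + 1) := by
        have a1 : (0 : ℝ) ≤ n * (T + 1) := by positivity
        have a2 : (0 : ℝ) ≤ N * (T + 1) := by positivity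
        nlinarith
      calc M ≤ (n + 1) * (N + 1) * (T + 1) := h2
        _ ≤ (n + 1) * (N + 1) * Real.exp T := mul_le_mul_of_nonneg_left h1 (by positivity)
        _ = _ := by ring
    have hSle : S ≤ Real.exp (4 * k * T) / k := by
      apply div_le_div_of_nonneg_right _ hk.le
      have h1 : Real.sinh (k * (2 * T + 2)) ≤ Real.exp (k * (2 * T + 2)) := by
        rw [Real.sinh_eq]
        have := Real.exp_pos (k * (2 * T + 2))
        have := Real.exp_pos (-(k * (2 * T + 2)))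
        linarith
      refine h1.trans (Real.exp_le_exp.2 ?_)
      nlinarith
    have hexp1 : (1 : ℝ) ≤ Real.exp (4 * k * T) := Real.one_le_exp (by positivity)
    have hfac : 4 + 29 * S / r ≤ (4 + 29 / (k * r)) * Real.exp (4 * k * T) := by
      have h1 : 29 * S / r ≤ 29 * (Real.exp (4 * k * T) / k) / r := by gcongr
      have h2 : 29 * (Real.exp (4 * k * T) / k) / r = 29 / (k * r) * Real.exp (4 * k * T) := by
        field_simp
      rw [h2] at h1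
      nlinarith
    have hinv : 1 ≤ min (1 / (4 * M)) (r / (29 * S * M)) * (M * (4 + 29 * S / r)) := by
      rcases min_cases (1 / (4 * M)) (r / (29 * S * M)) with ⟨he, -⟩ | ⟨he, -⟩
      · rw [he]
        have : 1 / (4 * M) * (M * (4 + 29 * S / r)) = 1 + (29 * S / r) / 4 := by
          field_simp
        rw [this]
        have : 0 ≤ (29 * S / r) / 4 := by positivity
        linarith
      · rw [he]
        have : r / (29 * S * M) * (M * (4 + 29 * S / r)) = 1 + 4 * (r / (29 * S)) := by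
          field_simp
          ring
        rw [this]
        have : 0 ≤ 4 * (r / (29 * S)) := by positivity
        linarith
    have hδ0 : 0 < min (1 / (4 * M)) (r / (29 * S * M)) := lt_min (by positivity) (by positivity)
    set δ : ℝ := min (1 / (4 * M)) (r / (29 * S * M)) with hδ
    have hA'T : A' ≤ Real.exp (A' * T) := by
      have h1 : A' + 1 ≤ Real.exp A' := Real.add_one_le_exp _
      have h2 : Real.exp A' ≤ Real.exp (A' * T) := Real.exp_le_exp.2 (by nlinarith)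
      linarith
    have hprod : M * (4 + 29 * S / r) ≤ (n + 1) * A * Real.exp ((1 + 4 * k) * T) := by
      have h1 : M * (4 + 29 * S / r) ≤ ((n + 1) * ((N + 1) * Real.exp T)) *
          ((4 + 29 / (k * r)) * Real.exp (4 * k * T)) :=
        mul_le_mul hMle hfac (by positivity) (by positivity)
      have h2 : Real.exp ((1 + 4 * k) * T) = Real.exp T * Real.exp (4 * k * T) := by
        rw [← Real.exp_add]
        congr 1
        ring
      rw [h2]
      refine h1.trans (le_of_eq ?_)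
      rw [hA]
      ring
    have hfin : 5 * C₁ / 2 * (M * (4 + 29 * S / r)) ≤
        (n + 1) * Real.exp ((A' + (1 + 4 * k)) * T) := by
      have h1 : 5 * C₁ / 2 * (M * (4 + 29 * S / r)) ≤
          5 * C₁ / 2 * ((n + 1) * A * Real.exp ((1 + 4 * k) * T)) :=
        mul_le_mul_of_nonneg_left hprod (by positivity)
      have h2 : 5 * C₁ / 2 * ((n + 1) * A * Real.exp ((1 + 4 * k) * T)) =
          (n + 1) * (A' * Real.exp ((1 + 4 * k) * T)) := by
        rw [hA']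
        ring
      have h3 : Real.exp ((A' + (1 + 4 * k)) * T) =
          Real.exp (A' * T) * Real.exp ((1 + 4 * k) * T) := by
        rw [← Real.exp_add]
        congr 1
        ring
      rw [h3]
      rw [h2] at h1
      refine h1.trans ?_
      apply mul_le_mul_of_nonneg_left _ (by positivity)
      exact mul_le_mul_of_nonneg_right hA'T (Real.exp_pos _).le
    calc 5 * C₁ / 2 = 5 * C₁ / 2 * 1 := by ring
      _ ≤ 5 * C₁ / 2 * (δ * (M * (4 + 29 * S / r))) :=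
          mul_le_mul_of_nonneg_left hinv (by positivity)
      _ = δ * (5 * C₁ / 2 * (M * (4 + 29 * S / r))) := by ring
      _ ≤ δ * ((n + 1) * Real.exp ((A' + (1 + 4 * k)) * T)) :=
          mul_le_mul_of_nonneg_left hfin hδ0.le

theorem E8_cover (h : Cx Γ D m ψ L c) : ∃ C : ℝ, 0 < C ∧ ∀ ξ : Dir → I,
    (∀ z, curv (mx Γ m ψ L c ξ) z < 0) → ∀ (T n : ℕ) (g : Γ) (f : Fin n → Γ), 1 ≤ T → Prim g →
    (∀ i, Prim (f i)) → (∀ i (γ : Γ), γ * f i * γ⁻¹ ≠ g ∧ γ * f i * γ⁻¹ ≠ g⁻¹) →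
    tl (mx Γ m ψ L c ξ) g ≤ T → (∀ i, tl (mx Γ m ψ L c ξ) (f i) ≤ T) →
    ∀ R : ℕ, (n + 1) * Real.exp (C * T) ≤ R →
    ∃ γ : Γ, ∃ p ∈ grid L (R + 1),
      (∃ z ∈ closure D, ds (mx Γ m ψ L c ξ) z ((γ * g * γ⁻¹) • z) = tl (mx Γ m ψ L c ξ) g) ∧
      Gd Γ m ψ L c (γ * g * γ⁻¹) f (R + 1) p ξ := by
  obtain ⟨k, hk, hH⟩ := E2_had h
  obtain ⟨r, C₀, N, hr, -, hrad, hN, -⟩ := D2_unif h
  obtain ⟨C₁, hC₁, hloc⟩ := D2_loc h
  obtain ⟨C, hC, hδ⟩ := E8_const (N := N) hk hr hC₁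
  refine ⟨C, hC, fun ξ hcurv T n g f hT hg hf hne hgT hfT R hR => ?_⟩
  obtain ⟨δ, hδ0, hδ1, hδM, hδr, hδR⟩ := hδ T n hT
  obtain ⟨E, V, F, hHad⟩ := hH ξ hcurv
  have hi := D2_iv h ξ
  obtain ⟨z₁, hz₁⟩ := B2_min' h.hX hi hHad g
  obtain ⟨a, ha, -⟩ := B2_axis h.hX hi hHad (B4_ne hg) hz₁
  obtain ⟨t, -, ht⟩ := C2_sep h.hX hi hHad (hrad ξ) (hN ξ) hg f hf hne hgT hfT ha hδ1 hδM hδr
  obtain ⟨γ, hγ, -⟩ := h.hX.orbit (a t)
  have hγ : γ • a t ∈ D := hγ
  set z₀ : Pl := γ • a t with hz₀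
  have hz₀D : z₀ ∈ closure D := subset_closure hγ
  have hmin : ds (mx Γ m ψ L c ξ) z₀ ((γ * g * γ⁻¹) • z₀) = tl (mx Γ m ψ L c ξ) g := by
    rw [hz₀, E8_move h.hX hi, B2_pts ha]
  obtain ⟨hd1, hd2⟩ := h.dom z₀ hz₀D
  have hg1 := E8_grid (R := R) hd1
  have hg2 := E8_grid (R := R) hd2
  refine ⟨γ, (round (((R + 1 : ℕ) : ℝ) * z₀.1), round (((R + 1 : ℕ) : ℝ) * z₀.2)), ?_,
    ⟨z₀, hz₀D, hmin⟩, hcurv, ⟨z₀, abs_sub_round _, abs_sub_round _, ?_⟩, ?_⟩
  · unfold grid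
    rw [Finset.mem_product, Finset.mem_Ico, Finset.mem_Ico]
    exact ⟨hg1, hg2⟩
  · rw [hmin, B2_conj h.hX hi]
  · rintro i z hz γ' ⟨hb1, hb2⟩
    have hRp : (0 : ℝ) < ((R + 1 : ℕ) : ℝ) := by exact_mod_cast Nat.succ_pos R
    have hR1 : (1 : ℝ) ≤ ((R + 1 : ℕ) : ℝ) := by exact_mod_cast Nat.succ_le_succ (Nat.zero_le R)
    have key : ∀ x y : ℝ, |((R + 1 : ℕ) : ℝ) * x - (round (((R + 1 : ℕ) : ℝ) * y) : ℝ)| ≤ 2 →
        |x - y| ≤ 5 / (2 * ((R + 1 : ℕ) : ℝ)) := by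
      intro x y hxy
      have h1 := abs_le.1 (abs_sub_round (((R + 1 : ℕ) : ℝ) * y))
      have h2 := abs_le.1 hxy
      have h3 : |((R + 1 : ℕ) : ℝ) * (x - y)| ≤ 5 / 2 := by
        rw [abs_le]
        constructor <;> nlinarith
      rw [abs_mul, abs_of_pos hRp] at h3
      rw [le_div_iff₀ (by positivity)]
      linarith
    have hn : ‖γ' • z - z₀‖ ≤ 5 / (2 * ((R + 1 : ℕ) : ℝ)) := by
      rw [Prod.norm_def]
      exact max_le (key _ _ hb1) (key _ _ hb2)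
    have hn3 : ‖γ' • z - z₀‖ ≤ 3 := by
      refine hn.trans ?_
      rw [div_le_iff₀ (by positivity)]
      linarith
    have h4 := hloc ξ z₀ hz₀D (γ' • z) hn3
    have h5 := ht i z hz (γ⁻¹ * γ')
    have h6 : ds (mx Γ m ψ L c ξ) (a t) ((γ⁻¹ * γ') • z) = ds (mx Γ m ψ L c ξ) z₀ (γ' • z) := by
      rw [← B1_ds h.hX hi γ (a t), ← mul_smul, mul_inv_cancel_left]
    rw [h6] at h5
    have h7 : δ ≤ C₁ * (5 / (2 * ((R + 1 : ℕ) : ℝ))) :=
      h5.trans (h4.trans (mul_le_mul_of_nonneg_left hn (by linarith)))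
    have h8 : C₁ * (5 / (2 * ((R + 1 : ℕ) : ℝ))) = (5 * C₁ / 2) / ((R + 1 : ℕ) : ℝ) := by
      field_simp
    rw [h8, le_div_iff₀ hRp] at h7
    have h9 : δ * ((n + 1) * Real.exp (C * T)) ≤ δ * R := mul_le_mul_of_nonneg_left hR hδ0.le
    push_cast at h7
    nlinarith

/-- The third clause of the good event depends only on the conjugacy classes of the `f i`. -/
theorem E8_conj (h : Cx Γ D m ψ L c) {n : ℕ} {g : Γ} {f : Fin n → Γ} (γ : Fin n → Γ) {R : ℕ}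
    {p : ℤ × ℤ} {ξ : Dir → I} (hG : Gd Γ m ψ L c g f R p ξ) :
    Gd Γ m ψ L c g (fun i => γ i * f i * (γ i)⁻¹) R p ξ := by
  obtain ⟨h1, h2, h3⟩ := hG
  refine ⟨h1, h2, fun i z hz γ' => ?_⟩
  have hi := D2_iv h ξ
  have hz' : ds (mx Γ m ψ L c ξ) ((γ i)⁻¹ • z) (f i • ((γ i)⁻¹ • z)) =
      tl (mx Γ m ψ L c ξ) (f i) := by
    rw [← E8_move h.hX hi (f i) (γ i) ((γ i)⁻¹ • z), smul_inv_smul, hz, B2_conj h.hX hi]
  have h4 := h3 i ((γ i)⁻¹ • z) hz' (γ' * γ i)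
  rw [mul_smul, smul_inv_smul] at h4
  exact h4

end BGM
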