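import Pool.Agent.LibBGM20.E7
import Pool.Agent.LibBGM20.E8

/-! ROW E9 : union bound. Uses B2, B4p, D2, D3, E2l, E7, E8, LibBGR (`PH1_card`).
PLAN. For `n = 0` the set is empty. `n = n' + 1`. `C₁` from `E8_cover`, `C₂` and the finite set `S` of
`D2_unif` for `K T` (if `K = 0` use `K + 1` instead), `κ` from `E7_slice`. Let `ξ` be in the set, `i₀` with
`a i₀ ≠ 0`, `f j = g (i₀.succAbove j)`. `E8_cover` (with `(K + 1) T` for `T`) gives `γ` and `p`; put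
`g' = γ (g i₀) γ⁻¹ ∈ S`; by `B2_min` (and `E2_had`) each `f j` is conjugate to some `f' j ∈ S`; `E8_conj`; lengths of
conjugates are equal (`B2_conj`). `∑ a i tl (g i) = a i₀ tl g' + ∑_j a (i₀.succAbove j) tl (f' j)`
(`Fin.sum_univ_succAbove`). So the set is contained in the union over `i₀ ∈ Fin n`, `g' ∈ S`, `f' ∈ S^(n-1)`
(`Fintype.piFinset`), `a₀, a ∈ [-T, T]`, `a₀ ≠ 0`, `p ∈ grid L (R + 1)` of the sets of `E7_slice`
(`measure_biUnion_finset_le`). Number: `n card(S)^n (2 T + 1)^n (2 L (R + 1))^2`,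
`card S ≤ exp (C₂ (K + 1) T)`, `2 T + 1 ≤ exp (2 T)`; product with `ε (R + 1) / (κ c R)`. -/

open MeasureTheory Set Filter Topology
open scoped ContDiff unitInterval

namespace BGM

open BGS
open Pool.BGR (PM upI pj)

variable {Γ : Type} [Group Γ] [MulAction Γ Pl] {D : Set Pl} {m : Pl → Co} {ψ : Pl → ℝ} {L : ℕ}
  {c : ℕ → ℝ}

/-- The bad event: a nonzero integer combination of lengths is small. -/
def Bad (Γ : Type) [Group Γ] [MulAction Γ Pl] (m : Pl → Co) (ψ : Pl → ℝ) (L : ℕ) (c : ℕ → ℝ)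
    (n K T : ℕ) (ε : ℝ) (ξ : Dir → I) : Prop :=
  (∀ z, curv (mx Γ m ψ L c ξ) z < 0) ∧ ∃ g : Fin n → Γ, (∀ i, Prim (g i)) ∧
    (∀ i j, i ≠ j → ∀ γ : Γ, γ * g i * γ⁻¹ ≠ g j ∧ γ * g i * γ⁻¹ ≠ (g j)⁻¹) ∧
    (∀ i, tl (mx Γ m ψ L c ξ) (g i) ≤ K * T) ∧
    ∃ a : Fin n → ℤ, a ≠ 0 ∧ (∀ i, |a i| ≤ T) ∧ |∑ i, a i * tl (mx Γ m ψ L c ξ) (g i)| ≤ ε

/-- The index set of the union bound. -/
private noncomputable def E9_I {Γ : Type} [Group Γ] (n' L T R : ℕ) (S : Finset Γ) :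
    Finset (Γ × (Fin n' → Γ) × ℤ × (Fin n' → ℤ) × (ℤ × ℤ)) :=
  haveI := Classical.decEq Γ
  (S.erase 1) ×ˢ (Fintype.piFinset fun _ : Fin n' => S.erase 1) ×ˢ
    ((Finset.Icc (-(T : ℤ)) T).erase 0) ×ˢ
    (Fintype.piFinset fun _ : Fin n' => Finset.Icc (-(T : ℤ)) T) ×ˢ grid L (R + 1)

private theorem E9_card {n' L T R : ℕ} (S : Finset Γ) :
    ((E9_I n' L T R S).card : ℝ) ≤
      (S.card : ℝ) ^ (n' + 1) * (2 * T + 1) ^ (n' + 1) * (2 * L * (R + 1)) ^ 2 := by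
  classical
  unfold E9_I
  rw [Finset.card_product, Finset.card_product, Finset.card_product, Finset.card_product,
    Fintype.card_piFinset_const, Fintype.card_piFinset_const]
  push_cast
  rw [PH1_card]
  have h1 : (((S.erase 1).card : ℕ) : ℝ) ≤ S.card := by
    exact_mod_cast Finset.card_le_card (Finset.erase_subset _ _)
  have h2 : ((Finset.Icc (-(T : ℤ)) T).card : ℝ) = 2 * T + 1 := by
    rw [Int.card_Icc]
    have : ((T : ℤ) + 1 - -(T : ℤ)).toNat = 2 * T + 1 := by omega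
    rw [this]
    push_cast
    ring
  have h3 : ((((Finset.Icc (-(T : ℤ)) T).erase 0).card : ℕ) : ℝ) ≤ 2 * T + 1 := by
    rw [← h2]
    exact_mod_cast Finset.card_le_card (Finset.erase_subset _ _)
  have h0 : (0 : ℝ) ≤ S.card := Nat.cast_nonneg _
  have hT : (0 : ℝ) ≤ 2 * T + 1 := by positivity
  rw [h2]
  have e : (S.card : ℝ) ^ (n' + 1) * (2 * (T : ℝ) + 1) ^ (n' + 1) * (2 * L * (R + 1)) ^ 2 =
      (S.card : ℝ) * ((S.card : ℝ) ^ n' * ((2 * (T : ℝ) + 1) * ((2 * (T : ℝ) + 1) ^ n' *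
        (2 * L * (R + 1)) ^ 2))) := by ring
  rw [e]
  push_cast
  gcongr

/-- Every bad parameter lies in one of the slices. -/
private theorem E9_incl (h : Cx Γ D m ψ L c) {k C₁ : ℝ}
    (hHad : ∀ ξ : Dir → I, (∀ z, curv (mx Γ m ψ L c ξ) z < 0) →
      ∃ E V F, Had (mx Γ m ψ L c ξ) k E V F)
    (hcov : ∀ ξ : Dir → I,
      (∀ z, curv (mx Γ m ψ L c ξ) z < 0) → ∀ (T n : ℕ) (g : Γ) (f : Fin n → Γ), 1 ≤ T → Prim g →
      (∀ i, Prim (f i)) → (∀ i (γ : Γ), γ * f i * γ⁻¹ ≠ g ∧ γ * f i * γ⁻¹ ≠ g⁻¹) →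
      tl (mx Γ m ψ L c ξ) g ≤ T → (∀ i, tl (mx Γ m ψ L c ξ) (f i) ≤ T) →
      ∀ R : ℕ, (n + 1) * Real.exp (C₁ * T) ≤ R →
      ∃ γ : Γ, ∃ p ∈ grid L (R + 1),
        (∃ z ∈ closure D, ds (mx Γ m ψ L c ξ) z ((γ * g * γ⁻¹) • z) = tl (mx Γ m ψ L c ξ) g) ∧
        Gd Γ m ψ L c (γ * g * γ⁻¹) f (R + 1) p ξ)
    {n' K T R : ℕ} (hT : 1 ≤ T) (hR : (n' + 1) * Real.exp (C₁ * (((K + 1) * T : ℕ) : ℝ)) ≤ R)
    {S : Finset Γ} (hS : ∀ (ξ : Dir → I) (g : Γ),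
      (∃ z ∈ closure D, ds (mx Γ m ψ L c ξ) z (g • z) ≤ (((K + 1) * T : ℕ) : ℝ)) → g ∈ S)
    {ε : ℝ} {ξ : Dir → I} (hξ : Bad Γ m ψ L c (n' + 1) K T ε ξ) :
    ∃ q ∈ E9_I n' L T R S, Gd Γ m ψ L c q.1 q.2.1 (R + 1) q.2.2.2.2 ξ ∧
      |q.2.2.1 * tl (mx Γ m ψ L c ξ) q.1 +
        ∑ i, q.2.2.2.1 i * tl (mx Γ m ψ L c ξ) (q.2.1 i)| ≤ ε := by
  classical
  obtain ⟨hneg, g, hprim, hdist, htl, a, ha0, haT, hsum⟩ := hξ
  obtain ⟨i₀, hi₀⟩ := Function.ne_iff.1 ha0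
  have hi₀' : a i₀ ≠ 0 := hi₀
  obtain ⟨E, V, F, hh⟩ := hHad ξ hneg
  have hiv := D2_iv h ξ
  have hKT : (K : ℝ) * T ≤ (((K + 1) * T : ℕ) : ℝ) := by
    push_cast
    have : (0 : ℝ) ≤ T := Nat.cast_nonneg _
    nlinarith
  obtain ⟨γ, p, hp, ⟨z, hz, hzt⟩, hGd⟩ := hcov ξ hneg ((K + 1) * T) n' (g i₀)
    (fun j => g (i₀.succAbove j)) (Nat.mul_pos (Nat.succ_pos K) hT) (hprim i₀)
    (fun j => hprim _) (fun j γ => hdist _ _ (Fin.succAbove_ne i₀ j) γ)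
    ((htl i₀).trans hKT) (fun j => (htl _).trans hKT) R hR
  have hmin : ∀ j : Fin n', ∃ z ∈ closure D, ∃ γ : Γ,
      ds (mx Γ m ψ L c ξ) z ((γ * g (i₀.succAbove j) * γ⁻¹) • z) =
        tl (mx Γ m ψ L c ξ) (g (i₀.succAbove j)) := fun j =>
    B2_min h.hX hiv hh (g (i₀.succAbove j))
  choose zj hzj γj hγj using hmin
  refine ⟨(γ * g i₀ * γ⁻¹, fun j => γj j * g (i₀.succAbove j) * (γj j)⁻¹, a i₀,
    fun j => a (i₀.succAbove j), p), ?_, ?_, ?_⟩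
  · have hmemS : γ * g i₀ * γ⁻¹ ∈ S := hS ξ _ ⟨z, hz, by rw [hzt]; exact (htl i₀).trans hKT⟩
    have hmemj : ∀ j, γj j * g (i₀.succAbove j) * (γj j)⁻¹ ∈ S := fun j =>
      hS ξ _ ⟨zj j, hzj j, by rw [hγj j]; exact (htl _).trans hKT⟩
    have hne : ∀ i (γ : Γ), γ * g i * γ⁻¹ ≠ 1 := by
      intro i γ h1
      exact B4_ne (hprim i) (conj_eq_one_iff.1 h1)
    have hIcc : ∀ i, a i ∈ Finset.Icc (-(T : ℤ)) T := fun i => by
      rw [Finset.mem_Icc]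
      exact abs_le.1 (haT i)
    unfold E9_I
    simp only [Finset.mem_product, Fintype.mem_piFinset, Finset.mem_erase]
    exact ⟨⟨hne i₀ γ, hmemS⟩, fun j => ⟨hne _ _, hmemj j⟩, ⟨hi₀', hIcc i₀⟩, fun j => hIcc _, hp⟩
  · exact E8_conj h γj hGd
  · have e : (a i₀ : ℝ) * tl (mx Γ m ψ L c ξ) (γ * g i₀ * γ⁻¹) +
        ∑ j, (a (i₀.succAbove j) : ℝ) *
          tl (mx Γ m ψ L c ξ) (γj j * g (i₀.succAbove j) * (γj j)⁻¹) =
        ∑ i, (a i : ℝ) * tl (mx Γ m ψ L c ξ) (g i) := by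
      rw [Fin.sum_univ_succAbove _ i₀, B2_conj h.hX hiv]
      congr 1
      refine Finset.sum_congr rfl fun j _ => ?_
      rw [B2_conj h.hX hiv]
    simp only
    rw [e]
    exact hsum

private theorem E9_real {C₂ κ cR ε S T R : ℝ} {n' L : ℕ} (hC₂ : 0 < C₂) (hκ : 0 < κ) (hc : 0 < cR)
    (hε : 0 ≤ ε) (hT : 1 ≤ T) (hR : 0 ≤ R) {K' : ℝ} (hK : 0 ≤ K') (hS0 : 0 ≤ S)
    (hS : S ≤ Real.exp (C₂ * (K' * T))) :
    S ^ (n' + 1) * (2 * T + 1) ^ (n' + 1) * (2 * L * (R + 1)) ^ 2 * (ε * (R + 1) / (κ * cR)) ≤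
      Real.exp ((C₂ * K' * (n' + 1) + 2 * (n' + 1) + (2 * L) ^ 2 / κ) * T) * (R + 1) ^ 3 * ε /
        cR := by
  have h1 : S ^ (n' + 1) ≤ Real.exp (C₂ * K' * (n' + 1) * T) := by
    calc S ^ (n' + 1) ≤ Real.exp (C₂ * (K' * T)) ^ (n' + 1) := by gcongr
      _ = Real.exp (C₂ * K' * (n' + 1) * T) := by
        rw [← Real.exp_nat_mul]
        congr 1
        push_cast
        ring
  have h2 : (2 * T + 1) ^ (n' + 1) ≤ Real.exp (2 * (n' + 1) * T) := by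
    calc (2 * T + 1) ^ (n' + 1) ≤ Real.exp (2 * T) ^ (n' + 1) := by
          gcongr
          exact Real.add_one_le_exp _
      _ = Real.exp (2 * (n' + 1) * T) := by
        rw [← Real.exp_nat_mul]
        congr 1
        push_cast
        ring
  have h3 : (2 * (L : ℝ)) ^ 2 / κ ≤ Real.exp ((2 * L) ^ 2 / κ * T) := by
    have h4 : (2 * (L : ℝ)) ^ 2 / κ ≤ (2 * L) ^ 2 / κ * T :=
      le_mul_of_one_le_right (by positivity) hT
    have h5 := Real.add_one_le_exp ((2 * (L : ℝ)) ^ 2 / κ * T)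
    linarith
  have e1 : S ^ (n' + 1) * (2 * T + 1) ^ (n' + 1) * (2 * L * (R + 1)) ^ 2 *
      (ε * (R + 1) / (κ * cR)) =
      (S ^ (n' + 1) * (2 * T + 1) ^ (n' + 1) * ((2 * L) ^ 2 / κ)) * ((R + 1) ^ 3 * ε / cR) := by
    field_simp
  have e2 : Real.exp ((C₂ * K' * (n' + 1) + 2 * (n' + 1) + (2 * L) ^ 2 / κ) * T) =
      Real.exp (C₂ * K' * (n' + 1) * T) * Real.exp (2 * (n' + 1) * T) *
        Real.exp ((2 * L) ^ 2 / κ * T) := by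
    rw [← Real.exp_add, ← Real.exp_add]
    congr 1
    ring
  rw [e1, e2]
  have hT0 : 0 ≤ 2 * T + 1 := by linarith
  calc (S ^ (n' + 1) * (2 * T + 1) ^ (n' + 1) * ((2 * L) ^ 2 / κ)) * ((R + 1) ^ 3 * ε / cR)
      ≤ (Real.exp (C₂ * K' * (n' + 1) * T) * Real.exp (2 * (n' + 1) * T) *
        Real.exp ((2 * L) ^ 2 / κ * T)) * ((R + 1) ^ 3 * ε / cR) := by gcongr
    _ = Real.exp (C₂ * K' * (n' + 1) * T) * Real.exp (2 * (n' + 1) * T) *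
        Real.exp ((2 * L) ^ 2 / κ * T) * (R + 1) ^ 3 * ε / cR := by ring

theorem E9_union (h : Cx Γ D m ψ L c) (n K : ℕ) : ∃ C : ℝ, 0 < C ∧ ∀ T R : ℕ, 1 ≤ T →
    Real.exp (C * T) ≤ R → ∀ ε : ℝ, 0 ≤ ε → PM Dir {ξ : Dir → I | Bad Γ m ψ L c n K T ε ξ} ≤
      ENNReal.ofReal (Real.exp (C * T) * ((R : ℝ) + 1) ^ 3 * ε / c R) := by
  classical
  rcases n with _ | n'
  · refine ⟨1, one_pos, fun T R _ _ ε _ => ?_⟩
    have h1 : {ξ : Dir → I | Bad Γ m ψ L c 0 K T ε ξ} = ∅ := by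
      ext ξ
      simp only [mem_ofPred_eq, mem_empty_iff_false, iff_false]
      rintro ⟨-, g, -, -, -, a, ha0, -⟩
      exact ha0 (Subsingleton.elim _ _)
    rw [h1, measure_empty]
    exact bot_le
  obtain ⟨k, hk, hHad⟩ := E2_had h
  obtain ⟨C₁, hC₁, hcov⟩ := E8_cover h
  obtain ⟨r, C₂, N, hr, hC₂, -, -, hSex⟩ := D2_unif h
  obtain ⟨κ, hκ, hsl⟩ := E7_slice h
  set A : ℝ := C₂ * (K + 1) * (n' + 1) + 2 * (n' + 1) + (2 * L) ^ 2 / κ with hA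
  have hA0 : 0 ≤ A := by positivity
  refine ⟨A + (C₁ * (K + 1) + (n' + 1)), by positivity, ?_⟩
  intro T R hT hR ε hε
  have hT1 : (1 : ℝ) ≤ T := by exact_mod_cast hT
  have hKT1 : (1 : ℝ) ≤ (((K + 1) * T : ℕ) : ℝ) := by
    exact_mod_cast Nat.mul_pos (Nat.succ_pos K) hT
  obtain ⟨S, hScard, hSmem⟩ := hSex (((K + 1) * T : ℕ) : ℝ) hKT1
  have hR' : (n' + 1) * Real.exp (C₁ * (((K + 1) * T : ℕ) : ℝ)) ≤ R := by
    refine le_trans ?_ hR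
    have h1 : ((n' : ℝ) + 1) ≤ Real.exp ((n' + 1) * T) := by
      have h2 : ((n' : ℝ) + 1) ≤ (n' + 1) * T := le_mul_of_one_le_right (by positivity) hT1
      have h3 := Real.add_one_le_exp (((n' : ℝ) + 1) * T)
      linarith
    calc (n' + 1) * Real.exp (C₁ * (((K + 1) * T : ℕ) : ℝ))
        ≤ Real.exp ((n' + 1) * T) * Real.exp (C₁ * (((K + 1) * T : ℕ) : ℝ)) := by gcongr
      _ = Real.exp ((C₁ * (K + 1) + (n' + 1)) * T) := by
        rw [← Real.exp_add]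
        congr 1
        push_cast
        ring
      _ ≤ Real.exp ((A + (C₁ * (K + 1) + (n' + 1))) * T) := by
        apply Real.exp_le_exp.2
        apply mul_le_mul_of_nonneg_right _ (by positivity)
        linarith
  have hsub : {ξ : Dir → I | Bad Γ m ψ L c (n' + 1) K T ε ξ} ⊆
      ⋃ q ∈ E9_I n' L T R S, {ξ : Dir → I | Gd Γ m ψ L c q.1 q.2.1 (R + 1) q.2.2.2.2 ξ ∧
        |q.2.2.1 * tl (mx Γ m ψ L c ξ) q.1 +
          ∑ i, q.2.2.2.1 i * tl (mx Γ m ψ L c ξ) (q.2.1 i)| ≤ ε} := by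
    intro ξ hξ
    obtain ⟨q, hq, hq'⟩ := E9_incl h hHad hcov hT hR' hSmem hξ
    simp only [mem_iUnion]
    exact ⟨q, hq, hq'⟩
  have hone : ∀ q ∈ E9_I n' L T R S,
      PM Dir {ξ : Dir → I | Gd Γ m ψ L c q.1 q.2.1 (R + 1) q.2.2.2.2 ξ ∧
        |q.2.2.1 * tl (mx Γ m ψ L c ξ) q.1 +
          ∑ i, q.2.2.2.1 i * tl (mx Γ m ψ L c ξ) (q.2.1 i)| ≤ ε} ≤
        ENNReal.ofReal (ε * (R + 1) / (κ * c R)) := by
    intro q hq
    unfold E9_I at hq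
    simp only [Finset.mem_product, Fintype.mem_piFinset, Finset.mem_erase] at hq
    obtain ⟨⟨h1, -⟩, h2, ⟨h3, -⟩, -, h5⟩ := hq
    exact hsl R q.2.2.2.2 h5 n' q.1 q.2.1 h1 (fun i => (h2 i).1) q.2.2.1 q.2.2.2.1 h3 ε hε
  have hcR := h.cs.pos R
  calc PM Dir {ξ : Dir → I | Bad Γ m ψ L c (n' + 1) K T ε ξ}
      ≤ _ := measure_mono hsub
    _ ≤ ∑ q ∈ E9_I n' L T R S,
        PM Dir {ξ : Dir → I | Gd Γ m ψ L c q.1 q.2.1 (R + 1) q.2.2.2.2 ξ ∧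
        |q.2.2.1 * tl (mx Γ m ψ L c ξ) q.1 +
          ∑ i, q.2.2.2.1 i * tl (mx Γ m ψ L c ξ) (q.2.1 i)| ≤ ε} :=
        measure_biUnion_finset_le _ _
    _ ≤ (E9_I n' L T R S).card • ENNReal.ofReal (ε * (R + 1) / (κ * c R)) :=
        Finset.sum_le_card_nsmul _ _ _ hone
    _ = ENNReal.ofReal ((E9_I n' L T R S).card * (ε * (R + 1) / (κ * c R))) := by
        rw [ENNReal.ofReal_mul (Nat.cast_nonneg _), ENNReal.ofReal_natCast, nsmul_eq_mul]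
    _ ≤ ENNReal.ofReal
        (Real.exp ((A + (C₁ * (K + 1) + (n' + 1))) * T) * ((R : ℝ) + 1) ^ 3 * ε / c R) := by
        apply ENNReal.ofReal_le_ofReal
        have hE := E9_real (n' := n') (L := L) hC₂ hκ hcR hε hT1 (Nat.cast_nonneg R)
          (K' := (K : ℝ) + 1) (by positivity) (Nat.cast_nonneg S.card) (by
            refine hScard.trans (le_of_eq ?_)
            congr 2
            push_cast
            ring)
        have h6 : Real.exp (A * T) ≤ Real.exp ((A + (C₁ * (K + 1) + (n' + 1))) * T) := by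
          apply Real.exp_le_exp.2
          apply mul_le_mul_of_nonneg_right _ (by positivity)
          have : 0 ≤ C₁ * ((K : ℝ) + 1) + (n' + 1) := by positivity
          linarith
        calc ((E9_I n' L T R S).card : ℝ) * (ε * (R + 1) / (κ * c R))
            ≤ ((S.card : ℝ) ^ (n' + 1) * (2 * T + 1) ^ (n' + 1) * (2 * L * (R + 1)) ^ 2) *
              (ε * (R + 1) / (κ * c R)) :=
              mul_le_mul_of_nonneg_right (E9_card S) (by positivity)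
          _ ≤ Real.exp (A * T) * ((R : ℝ) + 1) ^ 3 * ε / c R := hE
          _ ≤ Real.exp ((A + (C₁ * (K + 1) + (n' + 1))) * T) * ((R : ℝ) + 1) ^ 3 * ε / c R := by
              gcongr

end BGM
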