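import Pool.Agent.LibBGM20.Defs
import Pool.Agent.LibBGR.AE_SML

/-! The random exponent: bump functions which cover the plane. -/

open MeasureTheory Set Filter Topology
open scoped ContDiff ENNReal NNReal unitInterval

namespace BGM

open BGS
open Pool.BGR (PM upI pj)

variable {Γ : Type} [Group Γ] [MulAction Γ Pl] {D : Set Pl}

/-- The basic bump function: one on `[-1, 1]²`, zero outside `[-2, 2]²`. -/
noncomputable def bump1 : ContDiffBump (0 : Pl) := ⟨1, 2, by norm_num, by norm_num⟩

/-- The bump function centred at `p / R`: one on the square of half side `1 / R`, zero outside the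
square of half side `2 / R`. -/
noncomputable def bmq (R : ℕ) (p : ℤ × ℤ) (z : Pl) : ℝ :=
  bump1 ((R * z.1 - p.1, R * z.2 - p.2) : Pl)

/-- The part of the scale `R`. -/
noncomputable def psR (Γ : Type) [Group Γ] [MulAction Γ Pl] (L : ℕ) (ξ : Dir → I) (R : ℕ)
    (z : Pl) : ℝ :=
  ∑ p ∈ grid L (R + 1), (ξ (R, p) : ℝ) * per Γ (bmq (R + 1) p) z

/-- The random exponent. -/
noncomputable def ps (Γ : Type) [Group Γ] [MulAction Γ Pl] (L : ℕ) (c : ℕ → ℝ) (ξ : Dir → I)
    (z : Pl) : ℝ :=
  ∑' R : ℕ, c R * psR Γ L ξ R z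

end BGM
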