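import Pool.Agent.LibBGM20.Q2

/-! The random exponent (adapted from LibBGR). -/

open MeasureTheory Set Filter Topology
open scoped ContDiff ENNReal NNReal unitInterval

namespace BGM

open BGS
open Pool.BGR (PM upI pj)



variable {Γ : Type} [Group Γ] [MulAction Γ Pl] {D : Set Pl}


theorem QH2_card (L R : ℕ) : ((grid L R).card : ℝ) = (2 * L * R) ^ 2 := by
  have h : (grid L R).card = (2 * L * R) ^ 2 := by
    unfold grid
    rw [Finset.card_product, Int.card_Ico]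
    have : ((L * R : ℤ) - -(L * R : ℤ)).toNat = 2 * L * R := by
      have h1 : ((L * R : ℤ) - -(L * R : ℤ)) = ((2 * L * R : ℕ) : ℤ) := by
        push_cast
        ring
      rw [h1, Int.toNat_natCast]
    rw [this]
    ring
  rw [h]
  push_cast
  ring

/-- The majorant of the series. -/
noncomputable def QH2_u (L : ℕ) (c : ℕ → ℝ) (C : ℝ) (R : ℕ) : ℝ :=
  |c R| * ((2 * L * ((R : ℝ) + 1)) ^ 2 * C)

theorem QH2_u_summable (L : ℕ) {c : ℕ → ℝ} (hc : Cs c) (C : ℝ) : Summable (QH2_u L c C) := by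
  have h := (Rapid.summable hc.rapid 2).mul_left (4 * (L : ℝ) ^ 2 * C)
  refine h.congr fun R => ?_
  unfold QH2_u
  ring

theorem QH2_sum_le (L : ℕ) {c : ℕ → ℝ} {C : ℝ} (R : ℕ) (f : ℤ × ℤ → ℝ)
    (hf : ∀ p ∈ grid L (R + 1), |f p| ≤ C) :
    |c R * ∑ p ∈ grid L (R + 1), f p| ≤ QH2_u L c C R := by
  unfold QH2_u
  rw [abs_mul]
  refine mul_le_mul_of_nonneg_left ?_ (abs_nonneg _)
  refine (Finset.abs_sum_le_sum_abs _ _).trans ?_
  refine (Finset.sum_le_sum hf).trans ?_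
  rw [Finset.sum_const, nsmul_eq_mul, QH2_card]
  push_cast
  exact le_rfl

theorem QH2_term_le (L : ℕ) {c : ℕ → ℝ} {C : ℝ}
    (hC : ∀ R : ℕ, 1 ≤ R → ∀ p ∈ grid L R, ∀ z, per Γ (bmq R p) z ≤ C) (ξ : Dir → I) (R : ℕ)
    (z : Pl) : |c R * psR Γ L ξ R z| ≤ QH2_u L c C R := by
  unfold psR
  refine QH2_sum_le L R _ fun p hp => ?_
  have h0 := per_bmq_nonneg (Γ := Γ) (R + 1) p z
  have h1 := hC (R + 1) (by omega) p hp z
  have h2 := (ξ (R, p)).2.1
  have h3 := (ξ (R, p)).2.2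
  rw [abs_of_nonneg (mul_nonneg h2 h0)]
  nlinarith

theorem QH2_summable (hX : Surface Γ D) (L : ℕ) {c : ℕ → ℝ} (hc : Cs c) (ξ : Dir → I) (z : Pl) :
    Summable fun R : ℕ => c R * psR Γ L ξ R z := by
  obtain ⟨C, _, hC⟩ := per_bmq_le hX L
  exact Summable.of_norm_bounded (QH2_u_summable L hc C) fun R => by
    rw [Real.norm_eq_abs]
    exact QH2_term_le L hC ξ R z

theorem ps_bound (hX : Surface Γ D) (L : ℕ) {c : ℕ → ℝ} (hc : Cs c) :
    ∃ M : ℝ, 0 < M ∧ ∀ (ξ : Dir → I) (z : Pl), |ps Γ L c ξ z| ≤ M := by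
  obtain ⟨C, hC0, hC⟩ := per_bmq_le hX L
  have hS := QH2_u_summable L hc C
  have hu0 : ∀ R, 0 ≤ QH2_u L c C R := fun R => by
    unfold QH2_u
    positivity
  have hu1 : 0 ≤ ∑' R, QH2_u L c C R := tsum_nonneg hu0
  refine ⟨(∑' R, QH2_u L c C R) + 1, by linarith, fun ξ z => ?_⟩
  have h1 : |ps Γ L c ξ z| ≤ ∑' R, QH2_u L c C R := by
    unfold ps
    rw [← Real.norm_eq_abs]
    exact tsum_of_norm_bounded hS.hasSum fun R => by
      rw [Real.norm_eq_abs]
      exact QH2_term_le L hC ξ R z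
  linarith

theorem QH2_psR_up (L : ℕ) (ξ : Dir → I) (R : ℕ)
    {p : ℤ × ℤ} (hp : p ∈ grid L (R + 1)) (s : I) (z : Pl) (R' : ℕ) :
    psR Γ L (upI ξ (R, p) s) R' z = psR Γ L ξ R' z +
      (if R' = R then ((s : ℝ) - ξ (R, p)) * per Γ (bmq (R + 1) p) z else 0) := by
  unfold psR
  split_ifs with hR
  · subst hR
    have h1 : ∀ p' ∈ grid L (R' + 1), ((upI ξ (R', p) s (R', p') : I) : ℝ) *
        per Γ (bmq (R' + 1) p') z = (ξ (R', p') : ℝ) * per Γ (bmq (R' + 1) p') z +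
        (if p' = p then ((s : ℝ) - ξ (R', p)) * per Γ (bmq (R' + 1) p) z else 0) := by
      intro p' _
      split_ifs with hpp
      · subst hpp
        have : upI ξ (R', p') s (R', p') = s := by
          unfold upI
          exact Function.update_self _ _ _
        rw [this]
        ring
      · have : upI ξ (R', p) s (R', p') = ξ (R', p') := by
          unfold upI
          refine Function.update_of_ne ?_ _ _
          intro h
          exact hpp (Prod.mk.inj h).2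
        rw [this, add_zero]
    rw [Finset.sum_congr rfl h1, Finset.sum_add_distrib, Finset.sum_ite_eq', if_pos hp]
  · rw [add_zero]
    refine Finset.sum_congr rfl fun p' _ => ?_
    have : upI ξ (R, p) s (R', p') = ξ (R', p') := by
      unfold upI
      refine Function.update_of_ne ?_ _ _
      intro h
      exact hR (Prod.mk.inj h).1
    rw [this]

theorem ps_up (hX : Surface Γ D) (L : ℕ) {c : ℕ → ℝ} (hc : Cs c) (ξ : Dir → I) (R : ℕ)
    {p : ℤ × ℤ} (hp : p ∈ grid L (R + 1)) (s : I) (z : Pl) :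
    ps Γ L c (upI ξ (R, p) s) z =
      ps Γ L c ξ z + c R * ((s : ℝ) - ξ (R, p)) * per Γ (bmq (R + 1) p) z := by
  unfold ps
  have h1 : ∀ R' : ℕ, c R' * psR Γ L (upI ξ (R, p) s) R' z = c R' * psR Γ L ξ R' z +
      (if R' = R then c R * ((s : ℝ) - ξ (R, p)) * per Γ (bmq (R + 1) p) z else 0) := by
    intro R'
    rw [QH2_psR_up L ξ R hp s z R', mul_add]
    congr 1
    split_ifs with hR
    · subst hR
      ring
    · ring
  rw [tsum_congr h1]
  have h2 : Summable fun R' : ℕ =>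
      (if R' = R then c R * ((s : ℝ) - ξ (R, p)) * per Γ (bmq (R + 1) p) z else 0) :=
    summable_of_ne_finset_zero (s := {R}) fun R' hR' => by
      rw [Finset.mem_singleton] at hR'
      exact if_neg hR'
  rw [(QH2_summable hX L hc ξ z).tsum_add h2, tsum_ite_eq]

theorem ps_cont (hX : Surface Γ D) (L : ℕ) {c : ℕ → ℝ} (hc : Cs c) (ξ₀ : Dir → I) {ε : ℝ}
    (hε : 0 < ε) : ∀ᶠ ξ in 𝓝 ξ₀, ∀ z, |ps Γ L c ξ z - ps Γ L c ξ₀ z| ≤ ε := by
  obtain ⟨C, hC0, hC⟩ := per_bmq_le hX L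
  set g : ℕ → (Dir → I) → ℝ := fun R ξ =>
    c R * ∑ p ∈ grid L (R + 1), |((ξ (R, p) : I) : ℝ) - ξ₀ (R, p)| * C with hg
  have hgb : ∀ R ξ, ‖g R ξ‖ ≤ QH2_u L c C R := by
    intro R ξ
    rw [Real.norm_eq_abs]
    refine QH2_sum_le L R _ fun p hp => ?_
    rw [abs_mul, abs_abs, abs_of_pos hC0]
    have h2 := (ξ (R, p)).2.1
    have h3 := (ξ (R, p)).2.2
    have h4 := (ξ₀ (R, p)).2.1
    have h5 := (ξ₀ (R, p)).2.2
    have h6 : |((ξ (R, p) : I) : ℝ) - ξ₀ (R, p)| ≤ 1 := by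
      rw [abs_le]
      constructor <;> linarith
    nlinarith
  have hgc : ∀ R, Continuous (g R) := by
    intro R
    rw [hg]
    refine continuous_const.mul (continuous_finsetSum _ fun p _ => ?_)
    refine Continuous.mul ?_ continuous_const
    exact ((continuous_subtype_val.comp (continuous_apply (R, p))).sub continuous_const).abs
  have hcont : Continuous fun ξ => ∑' R, g R ξ := continuous_tsum hgc (QH2_u_summable L hc C) hgb
  have h0 : ∑' R, g R ξ₀ = 0 := by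
    have : ∀ R, g R ξ₀ = 0 := by
      intro R
      rw [hg]
      simp
    rw [tsum_congr this, tsum_zero]
  have hev : ∀ᶠ ξ in 𝓝 ξ₀, ∑' R, g R ξ < ε := by
    have := hcont.tendsto ξ₀
    rw [h0] at this
    exact this.eventually_lt_const hε
  refine hev.mono fun ξ hξ z => ?_
  have hdiff : ps Γ L c ξ z - ps Γ L c ξ₀ z =
      ∑' R, (c R * psR Γ L ξ R z - c R * psR Γ L ξ₀ R z) := by
    unfold ps
    rw [(QH2_summable hX L hc ξ z).tsum_sub (QH2_summable hX L hc ξ₀ z)]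
  rw [hdiff, ← Real.norm_eq_abs]
  have hsg : Summable fun R => g R ξ := Summable.of_norm_bounded (QH2_u_summable L hc C)
    fun R => hgb R ξ
  refine (tsum_of_norm_bounded hsg.hasSum fun R => ?_).trans hξ.le
  rw [Real.norm_eq_abs, ← mul_sub, abs_mul, abs_of_pos (hc.pos R), hg]
  refine mul_le_mul_of_nonneg_left ?_ (hc.pos R).le
  unfold psR
  rw [← Finset.sum_sub_distrib]
  refine (Finset.abs_sum_le_sum_abs _ _).trans (Finset.sum_le_sum fun p hp => ?_)
  rw [← sub_mul, abs_mul, abs_of_nonneg (per_bmq_nonneg (Γ := Γ) (R + 1) p z)]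
  exact mul_le_mul_of_nonneg_left (hC (R + 1) (by omega) p hp z) (abs_nonneg _)


end BGM
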